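import Pool.Agent.J4.H42.PrC

/-!
# Weil numbers which are independent of a cyclotomic field
-/

set_option autoImplicit false

namespace Pool.Agent.J4.H42.Pr

open Finset Polynomial

section

/-- `γ` is algebraic, and all the complex numbers conjugate to `γ` have absolute value `q ^ m`. -/
def IsWeil {E : Type} [Field E] [CharZero E] (q m : ℕ) (γ : E) : Prop :=
  IsAlgebraic ℚ γ ∧ ∀ w : ℂ, aeval w (minpoly ℚ γ) = 0 → ‖w‖ = (q : ℝ) ^ m

/-- The minimal polynomial of `γ` remains irreducible over the field of the `N`-th roots of unity. -/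
def IsIndep {E : Type} [Field E] [CharZero E] (N : ℕ) (γ : E) : Prop :=
  Irreducible ((minpoly ℚ γ).map (algebraMap ℚ (CyclotomicField N ℚ)))

theorem exists_root_le {c : ℕ} [Fact c.Prime] {E : Type} [Field E] [CharZero E] {q m : ℕ} {γ : E}
    (h : IsWeil q m γ) : ∃ ρ : PadicAlgCl c, aeval ρ (minpoly ℚ γ) = 0 ∧
      ‖ρ‖ ≤ ‖(q : PadicAlgCl c)‖ ^ m := by
  classical
  obtain ⟨halg, hw⟩ := h
  have hint : IsIntegral ℚ γ := halg.isIntegral
  set P := minpoly ℚ γ with hP
  have hmon : P.Monic := minpoly.monic hint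
  have hdeg : 0 < P.natDegree := minpoly.natDegree_pos hint
  -- the complex numbers
  have h1 : ‖algebraMap ℚ ℂ (P.coeff 0)‖ = ((q : ℝ) ^ m) ^ P.natDegree := by
    have hs : (P.map (algebraMap ℚ ℂ)).Splits := IsAlgClosed.splits _
    have h2 := hs.coeff_zero_eq_prod_roots_of_monic (hmon.map _)
    rw [coeff_map] at h2
    rw [h2, norm_mul, norm_pow, norm_neg, norm_one, one_pow, one_mul]
    have h3 : ∀ S : Multiset ℂ, (∀ w ∈ S, ‖w‖ = (q : ℝ) ^ m) →
        ‖S.prod‖ = ((q : ℝ) ^ m) ^ Multiset.card S := by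
      intro S
      induction S using Multiset.induction_on with
      | empty => intro _; simp
      | cons a S ih =>
        intro hS
        rw [Multiset.prod_cons, norm_mul, hS a (Multiset.mem_cons_self a S),
          ih fun w hw => hS w (Multiset.mem_cons_of_mem hw), Multiset.card_cons, pow_succ, mul_comm]
    rw [h3 _ (fun w hw' => hw w (by
      have := (mem_roots'.1 hw').2
      rwa [IsRoot.def, eval_map_algebraMap] at this)), ← hs.natDegree_eq_card_roots, natDegree_map]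
  have h2 : |P.coeff 0| = ((q : ℚ) ^ m) ^ P.natDegree := by
    have h3 : ‖algebraMap ℚ ℂ (P.coeff 0)‖ = ((|P.coeff 0| : ℚ) : ℝ) := by
      rw [eq_ratCast, Complex.norm_ratCast]
      push_cast
      rfl
    rw [h3] at h1
    exact_mod_cast h1
  -- the `c`-adic numbers
  have h3 : ‖algebraMap ℚ (PadicAlgCl c) (P.coeff 0)‖
      = (‖(q : PadicAlgCl c)‖ ^ m) ^ P.natDegree := by
    rcases abs_eq (a := P.coeff 0) (b := ((q : ℚ) ^ m) ^ P.natDegree) (by positivity) |>.mp h2
      with h | h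
    · rw [h, map_pow, map_pow, map_natCast, norm_pow, norm_pow]
    · rw [h, map_neg, norm_neg, map_pow, map_pow, map_natCast, norm_pow, norm_pow]
  by_contra hcon
  push Not at hcon
  have hs : (P.map (algebraMap ℚ (PadicAlgCl c))).Splits := IsAlgClosed.splits _
  have h4 := hs.coeff_zero_eq_prod_roots_of_monic (hmon.map _)
  rw [coeff_map] at h4
  rw [h4, norm_mul, norm_pow, norm_neg, norm_one, one_pow, one_mul] at h3
  have hB : 0 ≤ ‖(q : PadicAlgCl c)‖ ^ m := by positivity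
  have h5 : ∀ S : Multiset (PadicAlgCl c), (∀ w ∈ S, ‖(q : PadicAlgCl c)‖ ^ m < ‖w‖) → S ≠ 0 →
      (‖(q : PadicAlgCl c)‖ ^ m) ^ Multiset.card S < ‖S.prod‖ := by
    intro S
    induction S using Multiset.induction_on with
    | empty => intro _ h0; exact absurd rfl h0
    | cons a S ih =>
      intro hS _
      have ha := hS a (Multiset.mem_cons_self a S)
      rw [Multiset.prod_cons, norm_mul, Multiset.card_cons, pow_succ, mul_comm]
      by_cases h0 : S = 0
      · rw [h0, Multiset.card_zero, pow_zero, mul_one, Multiset.prod_zero, norm_one, mul_one]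
        exact ha
      · have h6 := ih (fun w hw => hS w (Multiset.mem_cons_of_mem hw)) h0
        exact mul_lt_mul'' ha h6 hB (pow_nonneg hB _)
  have hcard : Multiset.card (P.map (algebraMap ℚ (PadicAlgCl c))).roots = P.natDegree := by
    rw [← hs.natDegree_eq_card_roots, natDegree_map]
  have h6 := h5 (P.map (algebraMap ℚ (PadicAlgCl c))).roots (fun w hw' => hcon w (by
      have := (mem_roots'.1 hw').2
      rwa [IsRoot.def, eval_map_algebraMap] at this)) (by
      intro h0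
      rw [h0, Multiset.card_zero] at hcard
      omega)
  rw [hcard, h3] at h6
  exact lt_irrefl _ h6

/-- Changing the image of `γ` without changing the images of the roots of unity. -/
theorem swap {E : Type} [Field E] [CharZero E] [IsAlgClosed E] {C : Type} [Field C] [CharZero C]
    [IsAlgClosed C]
    (fe : algebraicClosure ℚ E →+* C) {N : ℕ} (hN : 0 < N) {ν : algebraicClosure ℚ E}
    (hν : IsPrimitiveRoot ν N) (γ : algebraicClosure ℚ E) (hγ : IsIndep N γ) {ρ : C}
    (hρ : aeval ρ (minpoly ℚ γ) = 0) :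
    ∃ fe' : algebraicClosure ℚ E →+* C, fe' ν = fe ν ∧ fe' γ = ρ := by
  classical
  have hNZ : NeZero N := ⟨by omega⟩
  have hNZ2 : NeZero ((N : ℕ) : ℚ) := ⟨by exact_mod_cast (by omega : N ≠ 0)⟩
  have halgM : Algebra.IsAlgebraic ℚ (algebraicClosure ℚ E) := algebraicClosure.isAlgebraic ℚ E
  have hclM : IsAlgClosure ℚ (algebraicClosure ℚ E) := algebraicClosure.isAlgClosure ℚ E
  have hcyc : IsCyclotomicExtension {N} ℚ (CyclotomicField N ℚ) :=
    CyclotomicField.isCyclotomicExtension N ℚ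
  have hint : IsIntegral ℚ γ := Algebra.IsIntegral.isIntegral γ
  have hmon : (minpoly ℚ γ).Monic := minpoly.monic hint
  -- an element of the algebraic numbers with image `ρ`
  obtain ⟨γ', hγ', hγr⟩ : ∃ γ' : algebraicClosure ℚ E, fe γ' = ρ ∧ aeval γ' (minpoly ℚ γ) = 0 := by
    have hsp : ((minpoly ℚ γ).map (algebraMap ℚ (algebraicClosure ℚ E))).Splits := by
      have : IsAlgClosed (algebraicClosure ℚ E) :=
        IsAlgClosure.isAlgClosed ℚ
      exact IsAlgClosed.splits _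
    have h1 : ((minpoly ℚ γ).map (algebraMap ℚ C)).roots
        = (((minpoly ℚ γ).map (algebraMap ℚ (algebraicClosure ℚ E))).roots).map fe := by
      rw [← hsp.roots_map fe, Polynomial.map_map]
      congr 2
      exact Subsingleton.elim _ _
    have h2 : ρ ∈ ((minpoly ℚ γ).map (algebraMap ℚ C)).roots := by
      rw [mem_roots', IsRoot.def, eval_map_algebraMap]
      exact ⟨(hmon.map _).ne_zero, hρ⟩
    rw [h1, Multiset.mem_map] at h2
    obtain ⟨γ', h3, h4⟩ := h2
    refine ⟨γ', h4, ?_⟩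
    have h5 := (mem_roots'.1 h3).2
    rwa [IsRoot.def, eval_map_algebraMap] at h5
  -- conjugate over the field of the roots of unity
  set F := IntermediateField.adjoin ℚ {ν} with hF
  have : IsCyclotomicExtension {N} ℚ F :=
    IsPrimitiveRoot.intermediateField_adjoin_isCyclotomicExtension ℚ hν
  let e : CyclotomicField N ℚ ≃ₐ[ℚ] F := IsCyclotomicExtension.algEquiv {N} ℚ _ _
  have hirr : Irreducible ((minpoly ℚ γ).map (algebraMap ℚ F)) := by
    have h1 : (minpoly ℚ γ).map (algebraMap ℚ F)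
        = ((minpoly ℚ γ).map (algebraMap ℚ (CyclotomicField N ℚ))).map
          (e : CyclotomicField N ℚ →+* F) := by
      rw [Polynomial.map_map]
      congr 1
      exact Subsingleton.elim _ _
    rw [h1]
    have h2 := (MulEquiv.irreducible_iff (Polynomial.mapEquiv e.toRingEquiv).toMulEquiv).mpr hγ
    exact h2
  have hmin : ∀ δ : algebraicClosure ℚ E, aeval δ (minpoly ℚ γ) = 0 →
      minpoly F δ = (minpoly ℚ γ).map (algebraMap ℚ F) := by
    intro δ hδ
    symm
    refine minpoly.eq_of_irreducible_of_monic hirr ?_ (hmon.map _)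
    rw [aeval_map_algebraMap]
    exact hδ
  have hconj : IsConjRoot F γ γ' := by
    rw [IsConjRoot, hmin γ (minpoly.aeval _ _), hmin γ' hγr]
  have : Normal F (algebraicClosure ℚ E) := by
    have h2 : Normal ℚ (algebraicClosure ℚ E) := inferInstance
    exact Normal.tower_top_of_normal ℚ F (algebraicClosure ℚ E)
  obtain ⟨σ, hσ⟩ := hconj.exists_algEquiv
  have hνF : ν ∈ F := IntermediateField.mem_adjoin_simple_self ℚ ν
  have hσν : ∀ τ : algebraicClosure ℚ E ≃ₐ[F] algebraicClosure ℚ E, τ ν = ν := by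
    intro τ
    exact τ.commutes ⟨ν, hνF⟩
  refine ⟨fe.comp (σ.symm : algebraicClosure ℚ E →+* algebraicClosure ℚ E), ?_, ?_⟩
  · show fe (σ.symm ν) = fe ν
    rw [hσν]
  · show fe (σ.symm γ) = ρ
    have h1 : σ.symm γ = γ' := by
      rw [← hσ]
      exact σ.symm_apply_apply _
    rw [h1, hγ']

/-- Several roots of unity of pairwise coprime orders. -/
theorem swap' {E : Type} [Field E] [CharZero E] [IsAlgClosed E] {C : Type} [Field C] [CharZero C]
    [IsAlgClosed C] {ι : Type} [Fintype ι] {N : ι → ℕ} (hN : ∀ i, 0 < N i)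
    (hcop : Pairwise fun i k => (N i).Coprime (N k)) {μ : ι → E}
    (hμ : ∀ i, IsPrimitiveRoot (μ i) (N i)) (fe : algebraicClosure ℚ E →+* C)
    (γ : E) (hγ0 : IsAlgebraic ℚ γ) (hγ : IsIndep (∏ i, N i) γ) {ρ : C}
    (hρ : aeval ρ (minpoly ℚ γ) = 0) :
    ∃ fe' : algebraicClosure ℚ E →+* C,
      (∀ i, ∀ h : μ i ∈ algebraicClosure ℚ E, fe' ⟨μ i, h⟩ = fe ⟨μ i, h⟩) ∧
      ∀ h : γ ∈ algebraicClosure ℚ E, fe' ⟨γ, h⟩ = ρ := by
  classical
  obtain ⟨ν, hν, hνμ⟩ := exists_root hN hcop μ hμ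
  set T := ∏ i, N i with hT
  have hT0 : 0 < T := prod_pos fun i _ => hN i
  have hνalg : IsAlgebraic ℚ ν := by
    have h1 : IsIntegral ℤ ν := hν.isIntegral hT0
    exact (h1.tower_top (A := ℚ)).isAlgebraic
  have hνK : ν ∈ algebraicClosure ℚ E := (mem_algebraicClosure_iff).mpr hνalg
  have hγK : γ ∈ algebraicClosure ℚ E := (mem_algebraicClosure_iff).mpr hγ0
  have hν' : IsPrimitiveRoot (⟨ν, hνK⟩ : algebraicClosure ℚ E) T := by
    refine IsPrimitiveRoot.of_map_of_injective (f := algebraMap (algebraicClosure ℚ E) E) ?_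
      (algebraMap (algebraicClosure ℚ E) E).injective
    exact hν
  have hmin : minpoly ℚ (⟨γ, hγK⟩ : algebraicClosure ℚ E) = minpoly ℚ γ :=
    (minpoly.algebraMap_eq (A := ℚ) (B := algebraicClosure ℚ E) (B' := E)
      (algebraMap (algebraicClosure ℚ E) E).injective ⟨γ, hγK⟩).symm
  obtain ⟨fe', h1, h2⟩ := swap fe hT0 hν' ⟨γ, hγK⟩ (by unfold IsIndep; rw [hmin]; exact hγ)
    (ρ := ρ) (by rw [hmin]; exact hρ)
  refine ⟨fe', fun i h => ?_, fun h => h2⟩
  have h3 : (⟨μ i, h⟩ : algebraicClosure ℚ E)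
      = (⟨ν, hνK⟩ : algebraicClosure ℚ E) ^ (T / N i) := by
    apply Subtype.ext
    push_cast
    exact (hνμ i).symm
  rw [h3, map_pow, map_pow, h1]

variable {c : ℕ} [Fact c.Prime] {κ : Type} [Fintype κ] {E : Type} [Field E] [CharZero E]
  [IsAlgClosed E] {ι : Type} [Fintype ι]

/-- The product of small numbers and of a Weil number which is independent of the roots of unity. -/
theorem small_prod_Z [Nonempty κ] {N : ι → ℕ} (hN : ∀ i, 0 < N i)
    (hcop : Pairwise fun i k => (N i).Coprime (N k)) {μ : ι → E}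
    (hμ : ∀ i, IsPrimitiveRoot (μ i) (N i)) {Ω : ι → PadicAlgCl c}
    (hfe : ∀ J : ι → ℕ, (∀ i, (J i).Coprime (N i)) →
        ∃ fe : algebraicClosure ℚ E →+* PadicAlgCl c, ∀ i, ∀ h : IsAlgebraic ℚ (μ i),
          fe ⟨μ i, (mem_algebraicClosure_iff).mpr h⟩ = Ω i ^ J i) (w : ι → ℕ) (m : ℕ)
    (x : ι → E) (T : Finset ι) (hT : T.Nonempty)
    (hx : ∀ i ∈ T, IsSmall κ (N i) (μ i) (Ω i) (w i) (x i))
    (hx' : ∀ i, i ∉ T → x i = (Fintype.card κ : E) ^ w i) (γ : E)
    (hγ : IsWeil (Fintype.card κ) m γ) (hγ' : IsIndep (∏ i, N i) γ) (t : ℕ) (ht : 0 < t) :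
    (∏ i, x i ^ t) * γ ^ t ≠
      (∏ i, ((Fintype.card κ : E) ^ w i) ^ t) * ((Fintype.card κ : E) ^ m) ^ t := by
  classical
  intro heq
  have hq : (Fintype.card κ : E) ≠ 0 := by exact_mod_cast Fintype.card_ne_zero
  have hR : (∏ i, ((Fintype.card κ : E) ^ w i) ^ t) * ((Fintype.card κ : E) ^ m) ^ t ≠ 0 :=
    mul_ne_zero (prod_ne_zero_iff.2 fun i _ => pow_ne_zero t (pow_ne_zero _ hq))
      (pow_ne_zero t (pow_ne_zero _ hq))
  have hx0 : ∀ i, x i ≠ 0 := by
    intro i h0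
    have h1 : ∏ i, x i ^ t = 0 := prod_eq_zero (mem_univ i) (by rw [h0, zero_pow (by omega)])
    rw [h1, zero_mul] at heq
    exact hR heq.symm
  have hγ0 : γ ≠ 0 := by
    intro h0
    rw [h0, zero_pow (by omega), mul_zero] at heq
    exact hR heq.symm
  have hJ : ∀ i, ∃ J : ℕ, J.Coprime (N i) ∧ (i ∈ T → ∀ fe : algebraicClosure ℚ E →+* PadicAlgCl c,
      (∀ h : IsAlgebraic ℚ (μ i), fe ⟨μ i, (mem_algebraicClosure_iff).mpr h⟩ = Ω i ^ J) →
      ∃ h : x i ∈ algebraicClosure ℚ E,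
        ‖fe ⟨x i, h⟩‖ < ‖((Fintype.card κ : ℕ) : PadicAlgCl c)‖ ^ w i) := by
    intro i
    by_cases hi : i ∈ T
    · rcases hx i hi with h | ⟨J, hJ1, hJ2⟩
      · exact absurd h (hx0 i)
      · exact ⟨J, hJ1, fun _ => hJ2⟩
    · exact ⟨1, Nat.coprime_one_left _, fun h => absurd h hi⟩
  choose J hJ1 hJ2 using hJ
  obtain ⟨fe0, hfe0⟩ := hfe J hJ1
  obtain ⟨ρ, hρ1, hρ2⟩ := exists_root_le (c := c) hγ
  obtain ⟨fe, hfe1, hfe2⟩ := swap' hN hcop hμ fe0 γ hγ.1 hγ' hρ1
  have hfe : ∀ i, ∀ h : IsAlgebraic ℚ (μ i),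
      fe ⟨μ i, (mem_algebraicClosure_iff).mpr h⟩ = Ω i ^ J i := fun i h => by
    rw [hfe1 i, hfe0 i h]
  have hγK : γ ∈ algebraicClosure ℚ E := (mem_algebraicClosure_iff).mpr hγ.1
  set Q := ‖((Fintype.card κ : ℕ) : PadicAlgCl c)‖ with hQ
  have hQ0 : 0 < Q := by
    rw [hQ, norm_pos_iff]
    exact_mod_cast Fintype.card_ne_zero
  have hmem : ∀ i, ∃ h : x i ∈ algebraicClosure ℚ E, ‖fe ⟨x i, h⟩‖ ≤ Q ^ w i ∧
      (i ∈ T → ‖fe ⟨x i, h⟩‖ < Q ^ w i) := by
    intro i
    by_cases hi : i ∈ T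
    · obtain ⟨h, h'⟩ := hJ2 i hi fe (hfe i)
      exact ⟨h, h'.le, fun _ => h'⟩
    · have h1 : x i = ((((Fintype.card κ : ℕ) : algebraicClosure ℚ E) ^ w i :
          algebraicClosure ℚ E) : E) := by
        rw [hx' i hi]
        push_cast
        rfl
      refine ⟨by rw [h1]; exact Subtype.prop _, le_of_eq ?_, fun h => absurd h hi⟩
      have h2 : (⟨x i, by rw [h1]; exact Subtype.prop _⟩ : algebraicClosure ℚ E)
          = ((Fintype.card κ : ℕ) : algebraicClosure ℚ E) ^ w i := Subtype.ext h1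
      rw [h2, map_pow, map_natCast, norm_pow]
  choose hm hm1 hm2 using hmem
  have h3 : (∏ i, (⟨x i, hm i⟩ : algebraicClosure ℚ E) ^ t) *
      (⟨γ, hγK⟩ : algebraicClosure ℚ E) ^ t
      = (∏ i, (((Fintype.card κ : ℕ) : algebraicClosure ℚ E) ^ w i) ^ t) *
        (((Fintype.card κ : ℕ) : algebraicClosure ℚ E) ^ m) ^ t := by
    apply (algebraMap (algebraicClosure ℚ E) E).injective
    rw [map_mul, map_mul, map_prod, map_prod]
    simp only [map_pow, map_natCast]
    exact heq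
  have h4 := congrArg (fun y => ‖fe y‖) h3
  simp only [map_mul, map_prod, map_pow, map_natCast, norm_mul, norm_prod, norm_pow] at h4
  rw [← hQ, hfe2 hγK] at h4
  obtain ⟨i0, hi0⟩ := hT
  have h5 : ∏ i, ‖fe ⟨x i, hm i⟩‖ ^ t < ∏ i, (Q ^ w i) ^ t := by
    refine prod_lt_prod (fun i _ => ?_) (fun i _ => ?_) ⟨i0, mem_univ _, ?_⟩
    · refine pow_pos (norm_pos_iff.mpr ?_) t
      rw [_root_.map_ne_zero]
      intro h
      exact hx0 i (congrArg Subtype.val h)
    · exact pow_le_pow_left₀ (norm_nonneg _) (hm1 i) t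
    · exact pow_lt_pow_left₀ (hm2 i0 hi0) (norm_nonneg _) (by omega)
  have h6 : ‖ρ‖ ^ t ≤ (Q ^ m) ^ t := pow_le_pow_left₀ (norm_nonneg _) hρ2 t
  have h7 : (∏ i, ‖fe ⟨x i, hm i⟩‖ ^ t) * ‖ρ‖ ^ t < (∏ i, (Q ^ w i) ^ t) * (Q ^ m) ^ t := by
    refine mul_lt_mul h5 h6 ?_ (prod_nonneg fun i _ => by positivity)
    refine pow_pos (norm_pos_iff.mpr ?_) t
    intro h0
    have h8 := hfe2 hγK
    rw [h0] at h8
    have h9 := (map_eq_zero fe).1 h8
    exact hγ0 (congrArg Subtype.val h9)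
  rw [h4] at h7
  exact lt_irrefl _ h7

end

end Pool.Agent.J4.H42.Pr
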