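import Pool.Agent.W160.HD.AP

/-!
# Fibre products of Kummer coverings: arithmetic of the exponents
-/

set_option autoImplicit false

namespace Pool.Agent.J4.H42.Fib

open Finset

lemma unit_gcd {n : ℕ} (hn : 0 < n) (j : ℕ) :
    ∃ u : ℕ, u.Coprime n ∧ u * j ≡ Nat.gcd j n [MOD n] := by
  obtain ⟨d, hd⟩ : ∃ d, d = Nat.gcd j n := ⟨_, rfl⟩
  have hd0 : 0 < d := by rw [hd]; exact Nat.gcd_pos_of_pos_right j hn
  obtain ⟨j1, hj1⟩ : d ∣ j := by rw [hd]; exact Nat.gcd_dvd_left j n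
  obtain ⟨n1, hn1⟩ : d ∣ n := by rw [hd]; exact Nat.gcd_dvd_right j n
  have hn10 : 0 < n1 := by
    rcases Nat.eq_zero_or_pos n1 with h | h
    · rw [h, mul_zero] at hn1; omega
    · exact h
  have hcop : j1.Coprime n1 := by
    have h1 : Nat.gcd (d * j1) (d * n1) = d := by rw [← hj1, ← hn1, ← hd]
    rw [Nat.gcd_mul_left] at h1
    exact Nat.eq_of_mul_eq_mul_left hd0 (by rw [mul_one]; exact h1)
  have _ : NeZero n := ⟨by omega⟩
  have hdv : n1 ∣ n := ⟨d, by rw [hn1]; ring⟩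
  obtain ⟨u, hu⟩ := ZMod.unitsMap_surjective hdv (ZMod.unitOfCoprime j1 hcop)⁻¹
  refine ⟨(u : ZMod n).val, ZMod.val_coe_unit_coprime u, ?_⟩
  have h1 : (u : ZMod n).val * j1 ≡ 1 [MOD n1] := by
    rw [← ZMod.natCast_eq_natCast_iff]
    push_cast
    have h2 := congrArg (fun v : (ZMod n1)ˣ => (v : ZMod n1)) hu
    simp only [ZMod.unitsMap_def, Units.coe_map, MonoidHom.coe_coe] at h2
    have h3 : (((u : ZMod n).val : ℕ) : ZMod n1) = ZMod.castHom hdv (ZMod n1) (u : ZMod n) := by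
      rw [ZMod.castHom_apply, ZMod.natCast_val]
    rw [h3, h2, ← ZMod.coe_unitOfCoprime j1 hcop, Units.inv_mul]
  have h2 : d * ((u : ZMod n).val * j1) ≡ d * 1 [MOD d * n1] := h1.mul_left' d
  rw [mul_one, ← hn1] at h2
  rw [← hd]
  have h3 : (u : ZMod n).val * j = d * ((u : ZMod n).val * j1) := by
    conv_lhs => rw [hj1]
    ring
  rw [h3]
  exact h2

section

variable {s m : ℕ} {n : Fin s → ℕ}

lemma exists_mult (hn : ∀ k, 0 < n k) (hcop : Pairwise fun i k => (n i).Coprime (n k))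
    (j : Fin s → ℕ) : ∃ j' : ℕ, j'.Coprime (∏ k, n k) ∧
      ∀ k, j' * j k ≡ Nat.gcd (j k) (n k) [MOD n k] := by
  classical
  choose u hu1 hu2 using fun k => unit_gcd (hn k) (j k)
  obtain ⟨j', hj'⟩ := Nat.chineseRemainderOfFinset u n univ (fun k _ => (hn k).ne')
    (fun i _ k _ hik => hcop hik)
  refine ⟨j', ?_, fun k => ?_⟩
  · refine Nat.Coprime.prod_right fun k _ => ?_
    have h1 := hj' k (mem_univ k)
    unfold Nat.Coprime
    rw [h1.gcd_eq]
    exact hu1 k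
  · exact ((hj' k (mem_univ k)).mul_right _).trans (hu2 k)

/-- The exponent of the `i`-th form. -/
def tot (n : Fin s → ℕ) (a : Fin s → Fin m → ℕ) (j : Fin s → ℕ) (i : Fin m) : ℕ :=
  ∑ k, a k i * (((∏ i, n i) / n k) * j k)

/-- The condition on the exponents. -/
def Small (D : ℕ) (n : Fin s → ℕ) (a : Fin s → Fin m → ℕ) : Prop :=
  (D : ℚ) * ∑ k, (∑ i, (a k i : ℚ)) / ((n k).minFac : ℚ) < 1

lemma small_nat {D : ℕ} (hn : ∀ k, 2 ≤ n k) {a : Fin s → Fin m → ℕ} (h : Small D n a) :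
    D * ∑ k, ∑ i, a k i * ((∏ i, n i) / (n k).minFac) < ∏ i, n i := by
  unfold Small at h
  have hN : (0 : ℚ) < ((∏ i, n i : ℕ) : ℚ) := by
    exact_mod_cast prod_pos fun i _ => by have := hn i; omega
  have h1 := mul_lt_mul_of_pos_right h hN
  rw [one_mul, mul_assoc, sum_mul] at h1
  have h2 : ∀ k, (∑ i, (a k i : ℚ)) / ((n k).minFac : ℚ) * ((∏ i, n i : ℕ) : ℚ)
      = ((∑ i, a k i * ((∏ i, n i) / (n k).minFac) : ℕ) : ℚ) := by
    intro k
    have hd : (n k).minFac ∣ ∏ i, n i := (Nat.minFac_dvd _).trans (dvd_prod_of_mem n (mem_univ k))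
    have hp : ((n k).minFac : ℚ) ≠ 0 := by
      exact_mod_cast (Nat.minFac_pos (n k)).ne'
    push_cast
    rw [← sum_mul, Nat.cast_div hd hp]
    push_cast
    field_simp
  simp_rw [h2] at h1
  exact_mod_cast h1

lemma a_lt {D : ℕ} (hD : 1 ≤ D) (hn : ∀ k, 2 ≤ n k) {a : Fin s → Fin m → ℕ} (h : Small D n a)
    (k : Fin s) (i : Fin m) : a k i < (n k).minFac := by
  have h1 := small_nat hn h
  have hd : (n k).minFac ∣ ∏ i, n i := (Nat.minFac_dvd _).trans (dvd_prod_of_mem n (mem_univ k))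
  have hr : 0 < (∏ i, n i) / (n k).minFac := Nat.div_pos (Nat.le_of_dvd
    (prod_pos fun i _ => by have := hn i; omega) hd) (Nat.minFac_pos _)
  by_contra hlt
  push Not at hlt
  have h2 : ∏ i, n i ≤ a k i * ((∏ i, n i) / (n k).minFac) := by
    conv_lhs => rw [← Nat.mul_div_cancel' hd]
    exact Nat.mul_le_mul_right _ hlt
  have h3 : a k i * ((∏ i, n i) / (n k).minFac)
      ≤ ∑ i, a k i * ((∏ i, n i) / (n k).minFac) :=
    single_le_sum (f := fun i => a k i * ((∏ i, n i) / (n k).minFac))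
      (fun _ _ => Nat.zero_le _) (mem_univ i)
  have h4 : ∑ i, a k i * ((∏ i, n i) / (n k).minFac)
      ≤ ∑ k, ∑ i, a k i * ((∏ i, n i) / (n k).minFac) :=
    single_le_sum (f := fun k => ∑ i, a k i * ((∏ i, n i) / (n k).minFac))
      (fun _ _ => Nat.zero_le _) (mem_univ k)
  have h5 : ∑ k, ∑ i, a k i * ((∏ i, n i) / (n k).minFac)
      ≤ D * ∑ k, ∑ i, a k i * ((∏ i, n i) / (n k).minFac) := Nat.le_mul_of_pos_left _ hD
  omega

lemma coprime_div (hn : ∀ k, 0 < n k) (hcop : Pairwise fun i k => (n i).Coprime (n k))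
    (k : Fin s) : ((∏ i, n i) / n k).Coprime (n k) := by
  classical
  have h1 : ∏ i, n i = n k * ∏ i ∈ univ.erase k, n i := (mul_prod_erase univ n (mem_univ k)).symm
  rw [h1, Nat.mul_div_cancel_left _ (hn k)]
  exact Nat.Coprime.prod_left fun i hi => hcop (mem_erase.1 hi).1

lemma tot_zero {D : ℕ} (hD : 1 ≤ D) (hn : ∀ k, 2 ≤ n k)
    (hcop : Pairwise fun i k => (n i).Coprime (n k))
    {a : Fin s → Fin m → ℕ} (h : Small D n a) {j : Fin s → ℕ} (hj : ∀ k, j k < n k) {i : Fin m}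
    (hdv : ∏ k, n k ∣ tot n a j i) : tot n a j i = 0 := by
  classical
  have hn0 : ∀ k, 0 < n k := fun k => by have := hn k; omega
  unfold tot at hdv ⊢
  refine sum_eq_zero fun k _ => ?_
  have h1 : n k ∣ ∑ k, a k i * (((∏ i, n i) / n k) * j k) :=
    (dvd_prod_of_mem n (mem_univ k)).trans hdv
  rw [← add_sum_erase _ _ (mem_univ k)] at h1
  have h2 : n k ∣ ∑ k' ∈ univ.erase k, a k' i * (((∏ i, n i) / n k') * j k') := by
    refine dvd_sum fun k' hk' => ?_
    refine Dvd.dvd.mul_left (Dvd.dvd.mul_right ?_ _) _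
    have h3 : ∏ i, n i = n k' * ∏ i ∈ univ.erase k', n i :=
      (mul_prod_erase univ n (mem_univ k')).symm
    rw [h3, Nat.mul_div_cancel_left _ (hn0 k')]
    exact dvd_prod_of_mem n (mem_erase.2 ⟨fun h => (mem_erase.1 hk').1 h.symm, mem_univ k⟩)
  have h3 := (Nat.dvd_add_left h2).1 h1
  rcases Nat.eq_zero_or_pos (a k i) with ha | ha
  · rw [ha, zero_mul]
  · have hc1 : (a k i).Coprime (n k) :=
      (Nat.coprime_of_lt_minFac ha.ne' (a_lt hD hn h k i)).symm
    have h4 := hc1.symm.dvd_of_dvd_mul_left h3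
    have h5 := (coprime_div hn0 hcop k).symm.dvd_of_dvd_mul_left h4
    rcases Nat.eq_zero_or_pos (j k) with hj0 | hj0
    · rw [hj0, mul_zero, mul_zero]
    · exact absurd (Nat.le_of_dvd hj0 h5) (by have := hj k; omega)

lemma gcd_le {n j : ℕ} (hj0 : 0 < j) (hj : j < n) : Nat.gcd j n * n.minFac ≤ n := by
  obtain ⟨e, he⟩ : Nat.gcd j n ∣ n := Nat.gcd_dvd_right j n
  have h1 : Nat.gcd j n ≤ j := Nat.le_of_dvd hj0 (Nat.gcd_dvd_left j n)
  have he2 : 2 ≤ e := by
    rcases Nat.lt_or_ge e 2 with h | h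
    · exfalso
      have h2 : Nat.gcd j n * e ≤ Nat.gcd j n * 1 := Nat.mul_le_mul_left _ (by omega)
      omega
    · exact h
  have h3 : n.minFac ≤ e := Nat.minFac_le_of_dvd he2 (Dvd.intro_left _ he.symm)
  calc Nat.gcd j n * n.minFac ≤ Nat.gcd j n * e := Nat.mul_le_mul_left _ h3
    _ = n := he.symm

/-- **The arithmetic of the exponents.** -/
theorem arith {D r : ℕ} (hr : 0 < r) (hn : ∀ k, 2 ≤ n k)
    (hcop : Pairwise fun i k => (n i).Coprime (n k)) (hrn : ∀ k, r.Coprime (n k))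
    {a : Fin s → Fin m → ℕ} (h : Small (if r = 1 then D else 2 * D) n a)
    {c F : ℕ} (hc1 : 1 ≤ c) (hc : ∏ k, n k ∣ c - 1) (hF : 0 < F) {j : Fin s → ℕ}
    (hj : ∀ k, j k < n k) (e : ℕ) : ∃ j' : ℕ, j'.Coprime ((∏ k, n k) * r) ∧
      D * ∑ i, ∑ v ∈ range F, (j' * (r * (tot n a j i % ∏ k, n k)) * c ^ v) % ((∏ k, n k) * r)
        + ∑ v ∈ range F, (j' * ((∏ k, n k) * e) * c ^ v) % ((∏ k, n k) * r)
        < F * ((∏ k, n k) * r) := by
  classical
  have hn0 : ∀ k, 0 < n k := fun k => by have := hn k; omega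
  obtain ⟨j1, hj1, hj2⟩ := exists_mult hn0 hcop j
  obtain ⟨N, hN⟩ : ∃ N, N = ∏ k, n k := ⟨_, rfl⟩
  have hN0 : 0 < N := by rw [hN]; exact prod_pos fun k _ => hn0 k
  have hdk : ∀ k, n k ∣ N := fun k => by rw [hN]; exact dvd_prod_of_mem n (mem_univ k)
  have hrN : r.Coprime N := by rw [hN]; exact Nat.Coprime.prod_right fun k _ => hrn k
  have hcN : ∀ v, c ^ v ≡ 1 [MOD N] := by
    intro v
    have h1 : c ≡ 1 [MOD N] := ((Nat.modEq_iff_dvd' hc1).2 (by rw [hN]; exact hc)).symm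
    have h2 := h1.pow v
    rwa [one_pow] at h2
  rw [← hN] at hj1
  have hs := small_nat hn h
  rw [← hN] at hs
  obtain ⟨S, hS⟩ : ∃ S, S = ∑ k, ∑ i, a k i * (N / (n k).minFac) := ⟨_, rfl⟩
  rw [← hS] at hs
  -- the residues
  have hres : ∀ j' : ℕ, j' ≡ j1 [MOD N] → ∀ i, j' * tot n a j i
      ≡ ∑ k, a k i * ((N / n k) * if j k = 0 then 0 else Nat.gcd (j k) (n k)) [MOD N] := by
    intro j' hj' i
    unfold tot
    rw [← hN, mul_sum]
    refine Nat.ModEq.sum fun k _ => ?_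
    have e1 : j' * (a k i * (N / n k * j k)) = a k i * ((N / n k) * (j' * j k)) := by ring
    rw [e1]
    refine Nat.ModEq.mul_left _ ?_
    split_ifs with h0
    · rw [h0, mul_zero]
    · have h2 : j' * j k ≡ Nat.gcd (j k) (n k) [MOD n k] :=
        ((hj'.of_dvd (hdk k)).mul_right _).trans (hj2 k)
      have h1 := h2.mul_left' (N / n k)
      rwa [Nat.div_mul_cancel (hdk k)] at h1
  have hle : ∀ j' : ℕ, j' ≡ j1 [MOD N] → ∀ i v,
      (j' * (r * (tot n a j i % N)) * c ^ v) % (N * r) ≤ r * ∑ k, a k i * (N / (n k).minFac) := by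
    intro j' hj' i v
    have h1 : (j' * (tot n a j i % N) * c ^ v) ≡ ∑ k, a k i * ((N / n k) * if j k = 0 then 0
        else Nat.gcd (j k) (n k)) [MOD N] := by
      have h2 := ((Nat.mod_modEq (tot n a j i) N).mul_left j').mul (hcN v)
      rw [mul_one] at h2
      exact h2.trans (hres j' hj' i)
    have h2 : (j' * (tot n a j i % N) * c ^ v) % N = (∑ k, a k i * ((N / n k) * if j k = 0 then 0
        else Nat.gcd (j k) (n k))) % N := h1
    have h0 : j' * (r * (tot n a j i % N)) * c ^ v = r * (j' * (tot n a j i % N) * c ^ v) := by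
      ring
    rw [h0, mul_comm N r, Nat.mul_mod_mul_left, h2]
    refine Nat.mul_le_mul_left _ ((Nat.mod_le _ _).trans
      (sum_le_sum fun k _ => Nat.mul_le_mul_left _ ?_))
    split_ifs with h0
    · rw [mul_zero]
      exact Nat.zero_le _
    · have h3 := gcd_le (Nat.pos_of_ne_zero h0) (hj k)
      rw [Nat.le_div_iff_mul_le (Nat.minFac_pos _)]
      calc N / n k * Nat.gcd (j k) (n k) * (n k).minFac
          = N / n k * (Nat.gcd (j k) (n k) * (n k).minFac) := by ring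
        _ ≤ N / n k * n k := Nat.mul_le_mul_left _ h3
        _ = N := Nat.div_mul_cancel (hdk k)
  have hfirst : ∀ j' : ℕ, j' ≡ j1 [MOD N] →
      D * ∑ i, ∑ v ∈ range F, (j' * (r * (tot n a j i % N)) * c ^ v) % (N * r)
        ≤ F * r * (D * S) := by
    intro j' hj'
    calc D * ∑ i, ∑ v ∈ range F, (j' * (r * (tot n a j i % N)) * c ^ v) % (N * r)
        ≤ D * ∑ i : Fin m, ∑ v ∈ range F, r * ∑ k, a k i * (N / (n k).minFac) :=
          Nat.mul_le_mul_left _ (sum_le_sum fun i _ => sum_le_sum fun v _ => hle j' hj' i v)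
      _ = F * r * (D * S) := by
          rw [hS, sum_comm (s := (univ : Finset (Fin s)))]
          simp only [sum_const, card_range, smul_eq_mul]
          rw [← mul_sum, ← mul_sum]
          ring
  have hsec : ∀ (j' τ : ℕ), j' ≡ τ [MOD r] → ∑ v ∈ range F, (j' * (N * e) * c ^ v) % (N * r)
      = N * ∑ v ∈ range F, (τ * (e * c ^ v)) % r := by
    intro j' τ hj'
    rw [Finset.mul_sum]
    refine Finset.sum_congr rfl fun v _ => ?_
    have h2 : j' * (N * e) * c ^ v = N * (j' * (e * c ^ v)) := by ring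
    rw [h2, Nat.mul_mod_mul_left]
    congr 1
    exact hj'.mul_right _
  -- the chosen multiplier
  have main' : ∀ τ : ℕ, Nat.Coprime τ r → ∃ j' : ℕ, j'.Coprime (N * r) ∧ j' ≡ j1 [MOD N] ∧
      j' ≡ τ [MOD r] := by
    intro τ hτ
    obtain ⟨k, hk1, hk2⟩ := Nat.chineseRemainder hrN τ j1
    refine ⟨k, ?_, hk2, hk1⟩
    refine Nat.Coprime.mul_right ?_ ?_
    · unfold Nat.Coprime
      rw [hk2.gcd_eq]
      exact hj1
    · unfold Nat.Coprime
      rw [hk1.gcd_eq]
      exact hτ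
  rw [← hN]
  by_cases hr1 : r = 1
  · obtain ⟨j', h1, h2, h3⟩ := main' 1 (Nat.coprime_one_left r)
    refine ⟨j', h1, ?_⟩
    rw [hsec j' 1 h3]
    have h4 := hfirst j' h2
    rw [if_pos hr1] at hs
    have h5 : ∑ v ∈ range F, (1 * (e * c ^ v)) % r = 0 := by
      rw [hr1]
      exact sum_eq_zero fun v _ => Nat.mod_one _
    rw [h5, mul_zero, add_zero]
    refine h4.trans_lt ?_
    have h6 : F * r * (D * S) < F * r * N := Nat.mul_lt_mul_of_pos_left hs (Nat.mul_pos hF hr)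
    have h7 : F * r * N = F * (N * r) := by ring
    omega
  · rw [if_neg hr1] at hs
    have hsumle : ∑ v ∈ range F, (1 * (e * c ^ v)) % r +
        ∑ v ∈ range F, ((r - 1) * (e * c ^ v)) % r ≤ F * r := by
      rw [← Finset.sum_add_distrib]
      calc ∑ v ∈ range F, ((1 * (e * c ^ v)) % r + ((r - 1) * (e * c ^ v)) % r)
          ≤ ∑ v ∈ range F, r := Finset.sum_le_sum fun v _ => by
            rw [one_mul]; exact Pool.Agent.W160.HD.AP.key hr
        _ = F * r := by simp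
    have hfin : ∀ Q T : ℕ, Q ≤ F * r * (D * S) → 2 * T ≤ F * r → Q + N * T < F * (N * r) := by
      intro Q T hQ hT
      have h2 : F * r * (2 * D * S) < F * r * N :=
        Nat.mul_lt_mul_of_pos_left hs (Nat.mul_pos hF hr)
      have h1 : F * r * (2 * D * S) = 2 * (F * r * (D * S)) := by ring
      have h3 : N * (2 * T) ≤ N * (F * r) := Nat.mul_le_mul_left N hT
      have h4 : F * r * N = F * (N * r) := by ring
      have h5 : N * (F * r) = F * (N * r) := by ring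
      have h6 : N * (2 * T) = 2 * (N * T) := by ring
      omega
    by_cases h : 2 * ∑ v ∈ range F, (1 * (e * c ^ v)) % r ≤ F * r
    · obtain ⟨j', h1, h2, h3⟩ := main' 1 (Nat.coprime_one_left r)
      refine ⟨j', h1, ?_⟩
      rw [hsec j' 1 h3]
      exact hfin _ _ (hfirst j' h2) h
    · have hcop : Nat.Coprime (r - 1) r := by
        have : Nat.Coprime (r - 1) (r - 1 + 1) := by simp
        rwa [Nat.sub_add_cancel hr] at this
      obtain ⟨j', h1, h2, h3⟩ := main' (r - 1) hcop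
      refine ⟨j', h1, ?_⟩
      rw [hsec j' (r - 1) h3]
      exact hfin _ _ (hfirst j' h2) (by omega)

end

end Pool.Agent.J4.H42.Fib
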