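import Pool.Agent.J4.H42.WtC
import Pool.Agent.J4.H42.FibB

/-!
# Additive polynomials and weights: the L-functions
-/

set_option autoImplicit false

namespace Pool.Agent.J4.H42.Wt

open Finset Polynomial Pool.Agent.W528.HA Pool.Agent.W528.HB Pool.Agent.W528.HC
  Pool.Agent.W528.HD Pool.Agent.W528.HG

/-- `∏_{x ∈ A} (1 - x T)` is the L-function of the character `(j, s, lam)`: for every finite
extension `L` of `κ`, of degree `n`, the sum of the `x ^ n` is `wtSum`. -/
def IsWtL (κ : Type) [Field κ] [Fintype κ] {E : Type} [Field E] (p r c : ℕ) {m h : ℕ}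
    (P f : Fin m → κ[X]) (a : Fin m → ℕ) (B g : Fin h → κ[X]) (z : κ) (μ ν : E) (j s : ℕ)
    (lam : Fin h → Fin c) (A : Multiset E) : Prop :=
  ∀ (L : Type) [Field L] [Fintype L] [Algebra κ L],
    (A.map fun x => x ^ Module.finrank κ L).sum
      = wtSum L E p r c (fun i => (P i).map (algebraMap κ L)) (fun i => (f i).map (algebraMap κ L))
        a (fun l => (B l).map (algebraMap κ L)) (fun l => (g l).map (algebraMap κ L))
        (algebraMap κ L z) μ ν j s lam

/-- `∏ (1 - x T)` over all `x ∈ A j s lam`, `0 < j < p`, `0 ≤ s < r`, `lam ∈ {0, ..., c - 1} ^ h`. -/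
noncomputable def wtPoly {E : Type} [Field E] (p r c h : ℕ)
    (A : ℕ → ℕ → (Fin h → Fin c) → Multiset E) : E[X] :=
  ∏ j ∈ Ico 1 p, ∏ s ∈ range r, ∏ lam : Fin h → Fin c,
    ((A j s lam).map fun x => 1 - C x * X).prod

lemma wtSum_eq {L : Type} [Field L] [Fintype L] {R : Type} [CommRing R] (p r c : ℕ) {m h : ℕ}
    (P f : Fin m → L[X]) (a : Fin m → ℕ) (B g : Fin h → L[X]) (z : L) (μ ν : R) (j s : ℕ)
    (lam : Fin h → Fin c) :
    wtSum L R p r c P f a B g z μ ν j s lam
      = gSumW L R (p * r) c P f (fun i => r * (j * a i % p)) (p * s)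
        (∑ l, C ((lam l : ℕ) : L) * B l) (∑ l, C ((lam l : ℕ) : L) * g l) z μ ν := by
  unfold wtSum gSumW
  refine sum_congr rfl fun x _ => sum_congr rfl fun t _ => ?_
  simp only [eval_finsetSum, eval_mul, eval_C, mul_add, sum_add_distrib]

lemma IsAdditive.add {L : Type} [Field L] {c : ℕ} {f g : L[X]} (hf : IsAdditive c f)
    (hg : IsAdditive c g) : IsAdditive c (f + g) := by
  classical
  intro n hn
  rcases Finset.mem_union.1 (support_add hn) with h | h
  · exact hf n h
  · exact hg n h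

lemma IsAdditive.sum {L : Type} [Field L] {c : ℕ} {ι : Type} (S : Finset ι) (f : ι → L[X])
    (h : ∀ i ∈ S, IsAdditive c (f i)) : IsAdditive c (∑ i ∈ S, f i) := by
  classical
  induction S using Finset.induction_on with
  | empty =>
    rw [sum_empty]
    intro n hn
    simp at hn
  | insert i S hi ih =>
    rw [sum_insert hi]
    exact (h i (mem_insert_self _ _)).add (ih fun i' hi' => h i' (mem_insert_of_mem hi'))

lemma IsAdditive.C_mul {L : Type} [Field L] {c : ℕ} {f : L[X]} (u : L) (hf : IsAdditive c f) :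
    IsAdditive c (C u * f) := fun n hn =>
  hf n (by
    rw [mem_support_iff, coeff_C_mul] at hn
    rw [mem_support_iff]
    exact right_ne_zero_of_mul hn)

/-- The arithmetic of the exponents. -/
lemma arith1 {p r c F D : ℕ} (hp : p.Prime) (hr : 0 < r) (hrp : r.Coprime p) (hc1 : 1 ≤ c)
    (hpc : p ∣ c - 1) (hF : 0 < F) {m : ℕ} {a : Fin m → ℕ}
    (ha2 : (if r = 1 then D else 2 * D) * ∑ i, a i < p) {j s : ℕ} (hj : j < p) :
    ∃ j' : ℕ, j'.Coprime (p * r) ∧
      D * ∑ i, ∑ e ∈ range F, (j' * (r * (j * a i % p)) * c ^ e) % (p * r)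
        + ∑ e ∈ range F, (j' * (p * s) * c ^ e) % (p * r) < F * (p * r) := by
  classical
  have hpr : ∏ _k : Fin 1, p = p := by simp
  have hsm : Fib.Small (if r = 1 then D else 2 * D) (fun _ : Fin 1 => p) (fun _ => a) := by
    unfold Fib.Small
    have h1 : (0 : ℚ) < p := by exact_mod_cast hp.pos
    simp only [Finset.univ_unique, Finset.sum_singleton, Nat.Prime.minFac_eq hp]
    rw [← mul_div_assoc, div_lt_one h1]
    exact_mod_cast ha2
  obtain ⟨j', h1, h2⟩ := Fib.arith (n := fun _ : Fin 1 => p) (a := fun _ => a) hr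
    (fun _ => hp.two_le) (fun i k hik => absurd (Subsingleton.elim i k) hik) (fun _ => hrp) hsm
    hc1 (by rw [hpr]; exact hpc) hF (j := fun _ => j) (fun _ => hj) s
  refine ⟨j', by rw [hpr] at h1; exact h1, ?_⟩
  rw [hpr] at h2
  have h3 : ∀ i, Fib.tot (fun _ : Fin 1 => p) (fun _ => a) (fun _ => j) i = j * a i := by
    intro i
    unfold Fib.tot
    rw [hpr]
    simp only [Finset.univ_unique, Finset.sum_singleton, Nat.div_self hp.pos, one_mul]
    ring
  simp_rw [h3] at h2
  exact h2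

theorem wt_main {p r c D : ℕ} (hp : p.Prime) (hr : 0 < r) (hrp : r.Coprime p)
    [Fact c.Prime] (hpc : p ∣ c - 1) (κ : Type) [Field κ] [Fintype κ] [CharP κ c]
    {z : κ} (hz : IsPrimitiveRoot z (p * r)) {E : Type} [Field E] [CharZero E] [IsAlgClosed E]
    {μ ν : E} (hμ : IsPrimitiveRoot μ (p * r)) (hν : IsPrimitiveRoot ν c) {m h : ℕ} (hD : 1 ≤ D)
    (P : Fin m → κ[X]) (hP : ∀ i, IsAdditive c (P i))
    (f : Fin m → κ[X]) (hf : ∀ i, HasWeight c D (f i))
    (a : Fin m → ℕ) (ha : ∀ i, 0 < a i) (ha2 : (if r = 1 then D else 2 * D) * ∑ i, a i < p)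
    (B : Fin h → κ[X]) (hB : ∀ l, IsAdditive c (B l))
    (g : Fin h → κ[X]) (hg : ∀ l, HasWeight c D (g l))
    (A : ℕ → ℕ → (Fin h → Fin c) → Multiset E)
    (hA : ∀ j s lam, 0 < j → j < p → s < r →
      IsWtL κ p r c P f a B g z μ ν j s lam (A j s lam)) :
    (∀ (L : Type) [Field L] [Fintype L] [Algebra κ L],
      ∑ j ∈ Ico 1 p, ∑ s ∈ range r, ∑ lam : Fin h → Fin c,
          ((A j s lam).map fun x => x ^ Module.finrank κ L).sum
        = (wtPoints L p r c (fun i => (P i).map (algebraMap κ L))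
              (fun i => (f i).map (algebraMap κ L)) a (fun l => (B l).map (algebraMap κ L))
              (fun l => (g l).map (algebraMap κ L)) : E)
          - (wtQuot L r c (fun l => (B l).map (algebraMap κ L))
              (fun l => (g l).map (algebraMap κ L)) : E)) ∧
    ∀ (ζ : E) (M : ℕ), 0 < M → ζ ^ M = 1 →
      (wtPoly p r c h A).eval (ζ * (Fintype.card κ : E)⁻¹) ≠ 0 := by
  classical
  have hc : c.Prime := Fact.out
  obtain ⟨F, hF0, hF⟩ := FiniteField.card κ c
  have hF0' : 0 < (F : ℕ) := F.2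
  have hN : 2 ≤ p * r := le_trans hp.two_le (Nat.le_mul_of_pos_right p hr)
  refine ⟨?_, ?_⟩
  · intro L _ _ _
    have : CharP L c := charP_of_injective_algebraMap (algebraMap κ L).injective c
    have hzL : IsPrimitiveRoot (algebraMap κ L z) (p * r) :=
      hz.map_of_injective (algebraMap κ L).injective
    have hap : ∀ i, 0 < a i ∧ a i < p := by
      intro i
      refine ⟨ha i, ?_⟩
      have h1 := single_le_sum (f := a) (fun _ _ => Nat.zero_le _) (mem_univ i)
      have h2 : ∑ i, a i ≤ (if r = 1 then D else 2 * D) * ∑ i, a i :=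
        Nat.le_mul_of_pos_left _ (by split_ifs <;> omega)
      omega
    rw [← wt_total hp hr hzL hμ hν _ _ a hap _ _]
    refine sum_congr rfl fun j hj => sum_congr rfl fun s hs => sum_congr rfl fun lam _ => ?_
    rw [mem_Ico] at hj
    exact hA j s lam hj.1 hj.2 (mem_range.mp hs) L
  · intro ζ M hM hζ h0
    have hq : (Fintype.card κ : E) ≠ 0 := by exact_mod_cast Fintype.card_ne_zero
    unfold wtPoly at h0
    rw [eval_prod, prod_eq_zero_iff] at h0
    obtain ⟨j, hj, h0⟩ := h0
    rw [eval_prod, prod_eq_zero_iff] at h0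
    obtain ⟨s, hs, h0⟩ := h0
    rw [eval_prod, prod_eq_zero_iff] at h0
    obtain ⟨lam, -, h0⟩ := h0
    rw [eval_multiset_prod, Multiset.prod_eq_zero_iff, Multiset.map_map, Multiset.mem_map] at h0
    obtain ⟨x, hx, h0⟩ := h0
    rw [mem_Ico] at hj
    simp only [Function.comp, eval_sub, eval_one, eval_mul, eval_C, eval_X] at h0
    have h1 : x * ζ = (Fintype.card κ : E) := by
      have h2 : x * (ζ * (Fintype.card κ : E)⁻¹) = 1 := (sub_eq_zero.mp h0).symm
      field_simp at h2
      linear_combination h2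
    have hs' := mem_range.mp hs
    obtain ⟨j', hj', hsum⟩ := arith1 (s := s) (D := D) hp hr hrp hc.one_lt.le hpc hF0' ha2 hj.2
    refine g_nonvanishW hN κ hF hz hμ hν hD P hP f hf
      (fun i => r * (j * a i % p)) ?_ (p * s) ?_ hj' (∑ l, C ((lam l : ℕ) : κ) * B l) ?_
      (∑ l, C ((lam l : ℕ) : κ) * g l) ?_ hsum (A j s lam) ?_ x hx M hM ?_
    · intro i
      rw [mul_comm p r]
      exact Nat.mul_lt_mul_of_pos_left (Nat.mod_lt _ hp.pos) hr
    · exact Nat.mul_lt_mul_of_pos_left hs' hp.pos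
    · exact IsAdditive.sum _ _ fun l _ => (hB l).C_mul _
    · exact HasWeight.sum _ _ fun l _ => (hg l).C_mul _
    · intro L _ _ _
      rw [hA j s lam hj.1 hj.2 hs' L, wtSum_eq]
      simp only [Polynomial.map_sum, Polynomial.map_mul, Polynomial.map_natCast, C_eq_natCast]
    · rw [← h1, mul_pow, hζ, mul_one]

end Pool.Agent.J4.H42.Wt
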