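import Pool.Agent.J4.H42.PrC
import Pool.Agent.J4.H42.WtD

/-!
# Surfaces `y ^ p = ∏ (P_i(x) + f_i(u ^ r)) ^ a_i` with additive polynomials `P_i`
-/

set_option autoImplicit false

namespace Pool.Agent.J4.H42.Pr

open Finset Polynomial Pool.Agent.W528.HA Pool.Agent.W528.HB Pool.Agent.W528.HD
  Pool.Agent.W528.HG Pool.Agent.J4.H42.Wt Pool.Agent.W410.HG.PS

/-- The sum over `(x, t) ∈ L²` of the value at `∏ (P_i(x) + f_i(t)) ^ (r (j a_i mod p)) * t ^ (p s)`
of the character of order `p r` of `L` belonging to `z ↦ μ`. -/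
noncomputable def addSum (L : Type) [Field L] [Fintype L] (R : Type) [CommRing R] (p r : ℕ)
    {m : ℕ} (P f : Fin m → L[X]) (a : Fin m → ℕ) (z : L) (μ : R) (j s : ℕ) : R :=
  ∑ x : L, ∑ t : L, kv (p * r) z μ
    (((∏ i, ((P i).eval x + (f i).eval t) ^ (r * (j * a i % p))) * t ^ (p * s))
      ^ ((Fintype.card L - 1) / (p * r)))

/-- The number of points `(x, u, y)` over `L` of the surface `y ^ p = ∏ (P_i(x) + f_i(u ^ r)) ^ a_i`. -/
noncomputable def addPoints (L : Type) [Field L] (p r : ℕ) {m : ℕ} (P f : Fin m → L[X])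
    (a : Fin m → ℕ) : ℕ :=
  Set.ncard {v : L × L × L | v.2.2 ^ p = ∏ i, ((P i).eval v.1 + (f i).eval (v.2.1 ^ r)) ^ a i}

/-- The traces of the powers of `Φ` are the sums `addSum`. -/
def AddTrace (κ : Type) [Field κ] [Fintype κ] {E : Type} [Field E] (p r : ℕ) {m : ℕ}
    (P f : Fin m → κ[X]) (a : Fin m → ℕ) (z : κ) (μ : E) (j s : ℕ) {V : Type} [AddCommGroup V]
    [Module E V] (Φ : Module.End E V) : Prop :=
  ∀ (L : Type) [Field L] [Fintype L] [Algebra κ L],
    LinearMap.trace E V (Φ ^ Module.finrank κ L)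
      = addSum L E p r (fun i => (P i).map (algebraMap κ L)) (fun i => (f i).map (algebraMap κ L))
        a (algebraMap κ L z) μ j s

lemma map_addSum {L : Type} [Field L] [Fintype L] {R R' : Type} [CommRing R] [CommRing R']
    (g : R →+* R') (p r : ℕ) {m : ℕ} (P f : Fin m → L[X]) (a : Fin m → ℕ) (z : L) (μ : R)
    (j s : ℕ) : g (addSum L R p r P f a z μ j s) = addSum L R' p r P f a z (g μ) j s := by
  unfold addSum
  rw [map_sum]
  refine sum_congr rfl fun x _ => ?_
  rw [map_sum]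
  refine sum_congr rfl fun t _ => ?_
  rw [map_kv g _ z μ _]

lemma av_zero (L : Type) [Field L] [Fintype L] (R : Type) [CommRing R] (c : ℕ) [Fact c.Prime]
    [CharP L c] (ν : R) : av L R c ν 0 = 1 := by
  classical
  have h0 : absTr L c (0 : L) = 0 := by
    unfold absTr
    refine sum_eq_zero fun i _ => ?_
    rw [zero_pow]
    exact (pow_pos (Fact.out : c.Prime).pos _).ne'
  unfold av
  rw [sum_eq_single 0]
  · rw [h0, Nat.cast_zero, if_pos rfl, pow_zero]
  · intro i hi hi0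
    rw [h0, if_neg]
    intro h
    have h1 : ((i : ℕ) : L) = 0 := h.symm
    rw [CharP.cast_eq_zero_iff L c] at h1
    exact absurd (Nat.le_of_dvd (Nat.pos_of_ne_zero hi0) h1) (by rw [mem_range] at hi; omega)
  · intro h
    exact absurd (mem_range.mpr (Fact.out : c.Prime).pos) h

lemma addSum_eq {L : Type} [Field L] [Fintype L] {R : Type} [CommRing R] (p r c : ℕ)
    [Fact c.Prime] [CharP L c] {m : ℕ} (P f : Fin m → L[X]) (a : Fin m → ℕ) (z : L) (μ ν : R)
    (j s : ℕ) :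
    addSum L R p r P f a z μ j s
      = gSumW L R (p * r) c P f (fun i => r * (j * a i % p)) (p * s) 0 0 z μ ν := by
  unfold addSum gSumW
  refine sum_congr rfl fun x _ => sum_congr rfl fun t _ => ?_
  rw [eval_zero, eval_zero, add_zero, av_zero, mul_one]

lemma addSum_wt {L : Type} [Field L] [Fintype L] {R : Type} [CommRing R] (p r c : ℕ)
    [Fact c.Prime] [CharP L c] {m : ℕ} (P f : Fin m → L[X]) (a : Fin m → ℕ) (B g : Fin 0 → L[X])
    (z : L) (μ ν : R) (j s : ℕ) (lam : Fin 0 → Fin c) :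
    wtSum L R p r c P f a B g z μ ν j s lam = addSum L R p r P f a z μ j s := by
  unfold addSum wtSum
  refine sum_congr rfl fun x _ => sum_congr rfl fun t _ => ?_
  have h : (∑ l : Fin 0, ((lam l : ℕ) : L) * ((B l).eval x + (g l).eval t)) = 0 :=
    Fintype.sum_empty _
  rw [h, av_zero, mul_one]

/-- The total number of points. -/
theorem add_total {L : Type} [Field L] [Fintype L] {c : ℕ} [Fact c.Prime] [CharP L c] {p r : ℕ}
    {z : L} (hp : p.Prime) (hr : 0 < r)
    (hz : IsPrimitiveRoot z (p * r)) {E : Type} [Field E] [CharZero E] [IsAlgClosed E] {μ : E}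
    (hμ : IsPrimitiveRoot μ (p * r)) {m : ℕ} (P f : Fin m → L[X])
    (a : Fin m → ℕ) (ha : ∀ i, 0 < a i ∧ a i < p) :
    ∑ j ∈ Ico 1 p, ∑ s ∈ range r, addSum L E p r P f a z μ j s
      = (addPoints L p r P f a : E) - (Fintype.card L : E) ^ 2 := by
  classical
  obtain ⟨ν, hν⟩ : ∃ ζ : E, IsPrimitiveRoot ζ c := by
    have : NeZero ((c : ℕ) : E) := ⟨by exact_mod_cast (Fact.out : c.Prime).ne_zero⟩
    exact HasEnoughRootsOfUnity.exists_primitiveRoot E c
  have h1 := wt_total hp hr hz hμ hν P f a ha (Fin.elim0 : Fin 0 → L[X]) (Fin.elim0 : Fin 0 → L[X])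
  have h2 : ∀ j s, ∑ lam : Fin 0 → Fin c, wtSum L E p r c P f a Fin.elim0 Fin.elim0 z μ ν j s lam
      = addSum L E p r P f a z μ j s := by
    intro j s
    rw [Fintype.sum_unique]
    exact addSum_wt p r c P f a _ _ z μ ν j s _
  simp only [h2] at h1
  rw [h1]
  congr 1
  · congr 1
    unfold wtPoints addPoints
    refine Set.ncard_congr (fun v _ => v.1) ?_ ?_ ?_
    · rintro v ⟨hv, -⟩
      exact hv
    · intro v w _ _ h
      exact Prod.ext h (Subsingleton.elim _ _)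
    · intro v hv
      exact ⟨(v, Fin.elim0), ⟨hv, fun l => l.elim0⟩, rfl⟩
  · have h3 : wtQuot L r c (Fin.elim0 : Fin 0 → L[X]) (Fin.elim0 : Fin 0 → L[X])
        = Fintype.card L ^ 2 := by
      unfold wtQuot
      have h4 : {v : (L × L) × (Fin 0 → L) | ∀ l : Fin 0, v.2 l ^ c - v.2 l
          = ((Fin.elim0 : Fin 0 → L[X]) l).eval v.1.1
            + ((Fin.elim0 : Fin 0 → L[X]) l).eval (v.1.2 ^ r)} = Set.univ := by
        ext v
        simp only [Set.mem_ofPred_eq, Set.mem_univ, iff_true]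
        exact fun l => l.elim0
      rw [h4, Set.ncard_univ, Nat.card_eq_fintype_card, Fintype.card_prod, Fintype.card_prod,
        Fintype.card_pi, Finset.univ_eq_empty, prod_empty, mul_one, sq]
    rw [h3]
    push_cast
    rfl

/-- The eigenvalues of the parts of the cohomology of `y ^ p = ∏ (P_i(x) + f_i(u ^ r)) ^ a_i`. -/
theorem add_small {p r c D : ℕ} (hp : p.Prime) (hr : 0 < r) (hrp : r.Coprime p)
    [Fact c.Prime] (hpc : p ∣ c - 1) (κ : Type) [Field κ] [Fintype κ] [CharP κ c]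
    {z : κ} (hz : IsPrimitiveRoot z (p * r)) {E : Type} [Field E] [CharZero E] [IsAlgClosed E]
    {μ : E} (hμ : IsPrimitiveRoot μ (p * r)) {m : ℕ} (hD : 1 ≤ D)
    (P : Fin m → κ[X]) (hP : ∀ i, IsAdditive c (P i))
    (f : Fin m → κ[X]) (hf : ∀ i, HasWeight c D (f i))
    (a : Fin m → ℕ) (ha2 : (if r = 1 then D else 2 * D) * ∑ i, a i < p)
    {k : Type} [Field k] [IsAlgClosed k] [CharP k c] {R' : Subring (PadicAlgCl c)}
    {res : R' →+* k} (hR' : IsRes c R' res)
    (eκ : κ →+* k) {Ω : PadicAlgCl c} (hΩ : IsPrimitiveRoot Ω (p * r)) (hΩR : Ω ∈ R')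
    (hΩz : res ⟨Ω, hΩR⟩ = eκ z)
    {V : Type} [AddCommGroup V] [Module E V] [FiniteDimensional E V]
    (j s : ℕ) (hj : j < p) (hs : s < r)
    (Φ : Module.End E V) (hΦ : AddTrace κ p r P f a z μ j s Φ)
    (x : E) (hx : Module.End.HasEigenvalue Φ x) : IsSmall κ (p * r) μ Ω 1 x := by
  classical
  have hc : c.Prime := Fact.out
  obtain ⟨F, hF0, hF⟩ := FiniteField.card κ c
  have hF0' : 0 < (F : ℕ) := F.2
  have hN : 2 ≤ p * r := le_trans hp.two_le (Nat.le_mul_of_pos_right p hr)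
  by_cases hx0 : x = 0
  · exact Or.inl hx0
  obtain ⟨j', hj', hsum⟩ := arith1 (s := s) (D := D) hp hr hrp hc.one_lt.le hpc hF0' ha2 hj
  have hNf : p * r ∣ c ^ (F : ℕ) - 1 := by
    rw [← hF]
    exact dvd_card_of_root hz (by omega)
  have hμalg : IsAlgebraic ℚ μ := by
    have h1 : IsIntegral ℤ μ := hμ.isIntegral (by omega)
    exact (h1.tower_top (A := ℚ)).isAlgebraic
  obtain ⟨ν, hν⟩ : ∃ ζ : PadicAlgCl c, IsPrimitiveRoot ζ c := by
    have : NeZero ((c : ℕ) : PadicAlgCl c) := ⟨by exact_mod_cast hc.ne_zero⟩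
    exact HasEnoughRootsOfUnity.exists_primitiveRoot (PadicAlgCl c) c
  refine Or.inr ⟨j', hj', fun fe hfe => ?_⟩
  refine op_bound (N := p * r) (j := j') κ hF 1 (D * (p * r))
    (Nat.mul_pos (by omega) (by omega))
    (fun L _ _ _ R _ ω => addSum L R p r (fun i => (P i).map (algebraMap κ L))
      (fun i => (f i).map (algebraMap κ L)) a (algebraMap κ L z) ω j s)
    (fun L _ _ _ R R' _ _ g y => map_addSum g p r _ _ a _ y j s) eκ hΩ hΩR hΩz ?_ fe hμalg
    (hfe hμalg) Φ hΦ x hx hx0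
  intro n hn L _ _ _ _ hcard eL Ω hΩ hΩz
  rw [addSum_eq p r c _ _ a _ _ ν j s]
  refine g_estW hR' hN hF0' hn hNf L hcard eL
      (hz.map_of_injective (algebraMap κ L).injective) hΩ hΩz hD _ (fun i => (hP i).map _) _
      (fun i => (hf i).map _) _ ?_ _ ?_ hj' _ ?_ _ HasWeight.zero hν hsum
  · intro i
    rw [mul_comm p r]
    exact Nat.mul_lt_mul_of_pos_left (Nat.mod_lt _ hp.pos) hr
  · exact Nat.mul_lt_mul_of_pos_left hs hp.pos
  · intro n hn
    simp at hn

end Pool.Agent.J4.H42.Pr
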