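import Pool.Agent.J4.H42.PrB

/-!
# Separating families of functionals and tensor products
-/

set_option autoImplicit false

namespace Pool.Agent.J4.H42.Pr

open Finset TensorProduct

section

variable {E : Type} [Field E]

/-- A separating family of functionals on a finite-dimensional space contains a basis of the dual
space. -/
lemma exists_dual {M : Type} [AddCommGroup M] [Module E M] [FiniteDimensional E M] {T : Type}
    (f : T → M →ₗ[E] E) (h : ∀ u : M, (∀ t, f t u = 0) → u = 0) :
    ∃ (n : ℕ) (a : Fin n → T) (b : Fin n → M), ∀ u : M, u = ∑ k, f (a k) u • b k := by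
  classical
  have h1 : ⊤ ≤ Submodule.span E (Set.range f : Set (Module.Dual E M)) := by
    have h2 : (Submodule.span E (Set.range f : Set (Module.Dual E M))).dualCoannihilator = ⊥ := by
      rw [eq_bot_iff]
      intro u hu
      rw [Submodule.mem_dualCoannihilator] at hu
      rw [Submodule.mem_bot]
      exact h u fun t => hu _ (Submodule.subset_span ⟨t, rfl⟩)
    have h3 := Subspace.dualCoannihilator_dualAnnihilator_eq
      (W := Submodule.span E (Set.range f : Set (Module.Dual E M)))
    rw [h2, Submodule.dualAnnihilator_bot] at h3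
    exact h3.le
  set b0 := Module.Basis.ofSpan h1 with hb0
  have hsub : Set.range b0 ⊆ Set.range f := Module.Basis.ofSpan_subset h1
  have : Finite _ := Module.Finite.finite_basis b0
  obtain ⟨n, ⟨e⟩⟩ := Finite.exists_equiv_fin (↑((linearIndepOn_empty E (id : Module.Dual E M →
    Module.Dual E M)).extend (Set.empty_subset (Set.range f))))
  set b1 := b0.reindex e with hb1
  have hr : ∀ k, ∃ t, f t = b1 k := by
    intro k
    rw [hb1, Module.Basis.reindex_apply]
    exact hsub ⟨_, rfl⟩
  choose a ha using hr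
  set c := b1.dualBasis with hc
  refine ⟨n, a, fun k => (Module.evalEquiv E M).symm (c k), fun u => ?_⟩
  apply (Module.evalEquiv E M).injective
  rw [map_sum]
  simp only [map_smul, LinearEquiv.apply_symm_apply]
  have h2 := c.sum_repr (Module.evalEquiv E M u)
  rw [← h2]
  refine sum_congr rfl fun k _ => ?_
  congr 1
  rw [ha, hc]
  simp

/-- A pairing with rational values which is nondegenerate on a group is nondegenerate on its
span. -/
lemma span_separating [CharZero E] {H H' : Type} [AddCommGroup H] [Module E H] [AddCommGroup H']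
    [Module E H'] (B : H →ₗ[E] H' →ₗ[E] E) (C : AddSubgroup H) (C' : Set H')
    (hrat : ∀ v ∈ C, ∀ w ∈ C', ∃ q : ℚ, B v w = q)
    (hD : ∀ v ∈ C, (∀ w ∈ C', B v w = 0) → v = 0) (v : H)
    (hv : v ∈ Submodule.span E (C : Set H)) (h0 : ∀ w ∈ C', B v w = 0) : v = 0 := by
  classical
  letI : Module ℚ H := Module.compHom H (algebraMap ℚ E)
  have hsm : ∀ (q : ℚ) (x : H), q • x = (q : E) • x := fun q x => by
    show (algebraMap ℚ E q) • x = _
    rw [eq_ratCast]
  -- the representation of `v`
  obtain ⟨c, hc, hcv⟩ : ∃ c : H →₀ E, (∀ x ∈ c.support, x ∈ C) ∧ c.sum (fun x e => e • x) = v := by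
    obtain ⟨l, hl⟩ := (Finsupp.mem_span_iff_linearCombination E (C : Set H) v).1 hv
    refine ⟨l.mapDomain Subtype.val, ?_, ?_⟩
    · intro x hx
      have h1 := Finsupp.mapDomain_support hx
      rw [mem_image] at h1
      obtain ⟨y, _, rfl⟩ := h1
      exact y.2
    · rw [Finsupp.sum_mapDomain_index (h := fun (x : H) (e : E) => e • x)
        (fun x => zero_smul E x) (fun x a b => add_smul a b x)]
      rw [← hl]
      rfl
  set W : Submodule ℚ H := Submodule.span ℚ (c.support : Set H) with hW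
  have hWfin : FiniteDimensional ℚ W := FiniteDimensional.span_finset ℚ c.support
  -- elements of `W` up to integers
  have hWC : ∀ x ∈ W, ∃ n : ℕ, 0 < n ∧ n • x ∈ C := by
    intro x hx
    refine Submodule.span_induction (p := fun x _ => ∃ n : ℕ, 0 < n ∧ n • x ∈ C) ?_ ?_ ?_ ?_ hx
    · intro x hx
      exact ⟨1, one_pos, by rw [one_smul]; exact hc x hx⟩
    · exact ⟨1, one_pos, by rw [smul_zero]; exact C.zero_mem⟩
    · rintro x y _ _ ⟨n, hn, hx⟩ ⟨m, hm, hy⟩
      refine ⟨n * m, Nat.mul_pos hn hm, ?_⟩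
      rw [smul_add]
      refine C.add_mem ?_ ?_
      · rw [mul_comm, mul_smul]
        exact C.nsmul_mem hx m
      · rw [mul_smul]
        exact C.nsmul_mem hy n
    · rintro q x _ ⟨n, hn, hx⟩
      refine ⟨n * q.den, Nat.mul_pos hn q.den_pos, ?_⟩
      have h1 : (n * q.den) • (q • x) = q.num • (n • x) := by
        rw [hsm, ← Nat.cast_smul_eq_nsmul E, ← Int.cast_smul_eq_zsmul E,
          ← Nat.cast_smul_eq_nsmul E n, smul_smul, smul_smul]
        congr 1
        push_cast
        have h2 : ((q.den : ℚ) : E) * (q : E) = ((q.num : ℚ) : E) := by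
          rw [← Rat.cast_mul, mul_comm, Rat.mul_den_eq_num]
        push_cast at h2
        rw [mul_assoc, h2, mul_comm]
      rw [h1]
      exact C.zsmul_mem hx _
  -- rational values
  have hWrat : ∀ x ∈ W, ∀ w ∈ C', ∃ q : ℚ, B x w = q := by
    intro x hx w hw
    obtain ⟨n, hn, hnx⟩ := hWC x hx
    obtain ⟨q, hq⟩ := hrat _ hnx w hw
    refine ⟨q / n, ?_⟩
    rw [← Nat.cast_smul_eq_nsmul E, map_smul, LinearMap.smul_apply, smul_eq_mul] at hq
    push_cast
    rw [← hq]
    have : (n : E) ≠ 0 := by exact_mod_cast hn.ne'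
    field_simp
  choose! R hR using hWrat
  have hinj : Function.Injective ((↑) : ℚ → E) := Rat.cast_injective
  let f : C' → W →ₗ[ℚ] ℚ := fun w =>
    { toFun := fun x => R x w
      map_add' := by
        intro x y
        apply hinj
        rw [Rat.cast_add, ← hR _ (x + y).2 _ w.2, ← hR _ x.2 _ w.2, ← hR _ y.2 _ w.2,
          Submodule.coe_add, map_add, LinearMap.add_apply]
      map_smul' := by
        intro q x
        apply hinj
        rw [RingHom.id_apply, smul_eq_mul, Rat.cast_mul, ← hR _ (q • x).2 _ w.2,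
          ← hR _ x.2 _ w.2, Submodule.coe_smul, hsm, map_smul,
          LinearMap.smul_apply, smul_eq_mul] }
  have hf : ∀ w : C', ∀ x : W, ((f w x : ℚ) : E) = B x w := fun w x => (hR _ x.2 _ w.2).symm
  obtain ⟨n, a, b, hab⟩ := exists_dual f (by
    intro u hu
    obtain ⟨n, hn, hnu⟩ := hWC u u.2
    have h1 : n • (u : H) = 0 := by
      refine hD _ hnu fun w hw => ?_
      rw [← Nat.cast_smul_eq_nsmul E, map_smul, LinearMap.smul_apply,
        ← hf ⟨w, hw⟩ u, hu, Rat.cast_zero, smul_zero]
    apply Subtype.ext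
    rw [← Nat.cast_smul_eq_nsmul E, smul_eq_zero] at h1
    rcases h1 with h1 | h1
    · exact absurd (by exact_mod_cast h1) hn.ne'
    · exact h1)
  have h1 : ∀ x ∈ W, x = ∑ k, B x (a k) • (b k : H) := by
    intro x hx
    have h2 := congrArg Subtype.val (hab ⟨x, hx⟩)
    rw [AddSubmonoidClass.coe_finsetSum] at h2
    refine h2.trans (sum_congr rfl fun k _ => ?_)
    rw [Submodule.coe_smul, hsm, hf]
  have h2 : v = ∑ k, B v (a k) • (b k : H) := by
    rw [← hcv, Finsupp.sum]
    have h3 : ∀ k, B (∑ x ∈ c.support, c x • x) (a k : H') = ∑ x ∈ c.support, c x * B x (a k) := by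
      intro k
      rw [map_sum, LinearMap.sum_apply]
      refine sum_congr rfl fun x _ => ?_
      rw [map_smul, LinearMap.smul_apply, smul_eq_mul]
    simp only [h3, sum_smul]
    rw [sum_comm]
    refine sum_congr rfl fun x hx => ?_
    refine (congrArg (fun y => c x • y) (h1 x (Submodule.subset_span hx))).trans ?_
    rw [smul_sum]
    refine sum_congr rfl fun k _ => ?_
    rw [smul_smul]
  rw [h2]
  refine sum_eq_zero fun k _ => ?_
  rw [h0 _ (a k).2, zero_smul]

variable {ι : Type} [Fintype ι] {M : ι → Type} [∀ i, AddCommGroup (M i)] [∀ i, Module E (M i)]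
  {N : Type} [AddCommGroup N] [Module E N]

/-- The product of functionals. -/
noncomputable def prodFun (l : ∀ i, M i →ₗ[E] E) : (⨂[E] i, M i) →ₗ[E] E :=
  PiTensorProduct.lift ((MultilinearMap.mkPiAlgebra E ι E).compLinearMap l)

lemma prodFun_tprod (l : ∀ i, M i →ₗ[E] E) (u : ∀ i, M i) :
    prodFun l (PiTensorProduct.tprod E u) = ∏ i, l i (u i) := by
  unfold prodFun
  rw [PiTensorProduct.lift.tprod, MultilinearMap.compLinearMap_apply,
    MultilinearMap.mkPiAlgebra_apply]

/-- The contraction with functionals on the factors. -/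
noncomputable def contr (N : Type) [AddCommGroup N] [Module E N] (l : ∀ i, M i →ₗ[E] E) :
    (⨂[E] i, M i) ⊗[E] N →ₗ[E] N :=
  (TensorProduct.lid E N : E ⊗[E] N →ₗ[E] N) ∘ₗ LinearMap.rTensor N (prodFun l)

lemma contr_tmul (l : ∀ i, M i →ₗ[E] E) (x : ⨂[E] i, M i) (w : N) :
    contr N l (x ⊗ₜ[E] w) = prodFun l x • w := by
  unfold contr
  rw [LinearMap.comp_apply, LinearMap.rTensor_tmul, LinearEquiv.coe_coe, TensorProduct.lid_tmul]

/-- The contractions determine the elements. -/
theorem contr_expand [DecidableEq ι] (A : ∀ i, Submodule E (M i)) {n : ι → ℕ}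
    (a : ∀ i, Fin (n i) → M i →ₗ[E] E) (b : ∀ i, Fin (n i) → M i)
    (hab : ∀ i, ∀ u ∈ A i, u = ∑ k, a i k u • b i k) (v : (⨂[E] i, M i) ⊗[E] N)
    (hv : v ∈ Submodule.span E {v : (⨂[E] i, M i) ⊗[E] N | ∃ u ∈ tensorSpan A, ∃ w : N,
      v = u ⊗ₜ[E] w}) :
    v = ∑ k : ∀ i, Fin (n i), (PiTensorProduct.tprod E fun i => b i (k i)) ⊗ₜ[E]
      contr N (fun i => a i (k i)) v := by
  classical
  set Ψ : (⨂[E] i, M i) ⊗[E] N →ₗ[E] (⨂[E] i, M i) ⊗[E] N :=
    ∑ k : ∀ i, Fin (n i), (TensorProduct.mk E (⨂[E] i, M i) N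
      (PiTensorProduct.tprod E fun i => b i (k i))) ∘ₗ contr N (fun i => a i (k i)) with hΨ
  have h1 : ∀ v, Ψ v = ∑ k : ∀ i, Fin (n i), (PiTensorProduct.tprod E fun i => b i (k i)) ⊗ₜ[E]
      contr N (fun i => a i (k i)) v := by
    intro v
    rw [hΨ, LinearMap.sum_apply]
    rfl
  rw [← h1]
  refine Submodule.span_induction (p := fun v _ => v = Ψ v) ?_ ?_ ?_ ?_ hv
  · rintro _ ⟨u, hu, w, rfl⟩
    refine Submodule.span_induction (p := fun u _ => (u ⊗ₜ[E] w : (⨂[E] i, M i) ⊗[E] N)
      = Ψ (u ⊗ₜ[E] w)) ?_ ?_ ?_ ?_ hu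
    · rintro _ ⟨x, hx, rfl⟩
      rw [h1]
      simp only [contr_tmul, prodFun_tprod]
      have h2 : x = fun i => ∑ k, a i k (x i) • b i k := funext fun i => hab i _ (hx i)
      conv_lhs => rw [h2]
      rw [MultilinearMap.map_sum, sum_tmul]
      refine sum_congr rfl fun k _ => ?_
      rw [MultilinearMap.map_smul_univ, smul_tmul]
    · rw [zero_tmul, map_zero]
    · intro x y _ _ hx hy
      rw [add_tmul, map_add, ← hx, ← hy]
    · intro c x _ hx
      rw [← smul_tmul', map_smul, ← hx]
  · rw [map_zero]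
  · intro x y _ _ hx hy
    rw [map_add, ← hx, ← hy]
  · intro c x _ hx
    rw [map_smul, ← hx]

end

end Pool.Agent.J4.H42.Pr
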