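import Pool.Agent.J4.H42.PrB

/-!
# Generalized eigenspaces of tensor products with an arbitrary factor
-/

set_option autoImplicit false

namespace Pool.Agent.J4.H42.Pr

open Finset TensorProduct

section

variable {E : Type} [Field E]

/-- Tensors of generalized eigenvectors, two factors. -/
lemma tmulGen_mem {M N : Type} [AddCommGroup M] [Module E M] [AddCommGroup N] [Module E N]
    (F : Module.End E M) (G : Module.End E N) {x y : E} {u : M} {v : N}
    (hu : u ∈ F.maxGenEigenspace x) (hv : v ∈ G.maxGenEigenspace y) :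
    u ⊗ₜ[E] v ∈ Module.End.maxGenEigenspace (TensorProduct.map F G : Module.End E (M ⊗[E] N))
      (x * y) := by
  rw [Module.End.mem_maxGenEigenspace] at hu hv ⊢
  obtain ⟨n, hn⟩ := hu
  obtain ⟨m, hm⟩ := hv
  set A : Module.End E (M ⊗[E] N) := TensorProduct.map (F - x • 1) G with hA
  set B : Module.End E (M ⊗[E] N) := TensorProduct.map (x • 1) (G - y • 1) with hB
  have hsum : (TensorProduct.map F G : Module.End E (M ⊗[E] N)) - (x * y) • 1 = A + B := by
    refine TensorProduct.ext' fun a b => ?_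
    rw [hA, hB, LinearMap.sub_apply, LinearMap.add_apply, TensorProduct.map_tmul,
      TensorProduct.map_tmul, TensorProduct.map_tmul, LinearMap.smul_apply, Module.End.one_apply]
    simp only [LinearMap.sub_apply, LinearMap.smul_apply, Module.End.one_apply, tmul_sub, sub_tmul,
      smul_tmul', tmul_smul, mul_smul]
    rw [smul_comm x y]
    abel
  have hcomm : Commute A B := by
    rw [Commute, SemiconjBy, hA, hB, ← TensorProduct.map_mul, ← TensorProduct.map_mul]
    congr 1
    · rw [mul_smul_comm, smul_mul_assoc, mul_one, one_mul]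
    · rw [mul_sub, sub_mul, mul_smul_comm, smul_mul_assoc, mul_one, one_mul]
  have hpowA : ∀ k : ℕ, ∀ a b, (A ^ k) (a ⊗ₜ[E] b) = ((F - x • 1) ^ k) a ⊗ₜ[E] (G ^ k) b := by
    intro k
    induction k with
    | zero => intro a b; rfl
    | succ k ih =>
      intro a b
      rw [pow_succ, pow_succ, pow_succ, Module.End.mul_apply, Module.End.mul_apply,
        Module.End.mul_apply, hA, TensorProduct.map_tmul, ← hA, ih]
  have hpowB : ∀ k : ℕ, ∀ a b, (B ^ k) (a ⊗ₜ[E] b)
      = ((x • (1 : Module.End E M)) ^ k) a ⊗ₜ[E] ((G - y • 1) ^ k) b := by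
    intro k
    induction k with
    | zero => intro a b; rfl
    | succ k ih =>
      intro a b
      rw [pow_succ, pow_succ, pow_succ, Module.End.mul_apply, Module.End.mul_apply,
        Module.End.mul_apply, hB, TensorProduct.map_tmul, ← hB, ih]
  have hzero : ∀ k (T : Module.End E M) w, n ≤ k → (T ^ n) w = 0 → (T ^ k) w = 0 := by
    intro k T w hk h
    rw [← Nat.sub_add_cancel hk, pow_add, Module.End.mul_apply, h, map_zero]
  have hzero' : ∀ k (T : Module.End E N) w, m ≤ k → (T ^ m) w = 0 → (T ^ k) w = 0 := by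
    intro k T w hk h
    rw [← Nat.sub_add_cancel hk, pow_add, Module.End.mul_apply, h, map_zero]
  refine ⟨n + m, ?_⟩
  rw [hsum, hcomm.add_pow, LinearMap.sum_apply]
  refine sum_eq_zero fun k hk => ?_
  have hk' := mem_range.1 hk
  rw [Module.End.mul_apply, Module.End.mul_apply]
  have hcast : ((((n + m).choose k : ℕ) : Module.End E (M ⊗[E] N))) (u ⊗ₜ[E] v)
      = ((n + m).choose k) • (u ⊗ₜ[E] v) := by
    rw [← nsmul_one, LinearMap.smul_apply, Module.End.one_apply]
  rw [hcast, map_nsmul, map_nsmul]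
  by_cases h : n ≤ k
  · have h1 : (A ^ k) ((B ^ (n + m - k)) (u ⊗ₜ[E] v)) = 0 := by
      rw [← Module.End.mul_apply, (hcomm.pow_pow k (n + m - k)).eq, Module.End.mul_apply, hpowA,
        hzero k _ u h hn, zero_tmul, map_zero]
    rw [h1, smul_zero]
  · have h1 : (B ^ (n + m - k)) (u ⊗ₜ[E] v) = 0 := by
      rw [hpowB, hzero' (n + m - k) _ v (by omega) hm, tmul_zero]
    rw [h1, map_zero, smul_zero]

variable {ι : Type} [Fintype ι] {M : ι → Type} [∀ i, AddCommGroup (M i)] [∀ i, Module E (M i)]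
  {Z : Type} [AddCommGroup Z] [Module E Z]

/-- The endomorphisms are scalars on the submodules; the last factor is arbitrary. -/
theorem maxGen_leZ [IsAlgClosed E] [FiniteDimensional E Z] (G : ∀ i, Module.End E (M i))
    (A : ∀ i, Submodule E (M i)) (a : ι → E)
    (hA : ∀ i, ∀ v ∈ A i, G i v = a i • v) (Sm : ι → E → Prop)
    (hgen : ∀ i, A i ⊔ Submodule.span E {m | ∃ x, Sm i x ∧ m ∈ (G i).maxGenEigenspace x} = ⊤)
    (GZ : Module.End E Z) (b : E) (hb : ∏ i, a i ≠ 0)
    (hsm : ∀ (x : ι → E) (T : Finset ι), T.Nonempty → (∀ i ∈ T, Sm i (x i)) →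
      (∀ i, i ∉ T → x i = a i) → ∀ y, Module.End.HasEigenvalue GZ y →
      (∏ i, x i) * y ≠ (∏ i, a i) * b) :
    Module.End.maxGenEigenspace
      (TensorProduct.map (PiTensorProduct.map G) GZ : Module.End E ((⨂[E] i, M i) ⊗[E] Z))
        ((∏ i, a i) * b)
      ≤ Submodule.span E {t | ∃ u ∈ tensorSpan A, ∃ z ∈ GZ.maxGenEigenspace b,
          t = u ⊗ₜ[E] z} := by
  classical
  set P : Module.End E (⨂[E] i, M i) := PiTensorProduct.map G with hP
  set T : Module.End E ((⨂[E] i, M i) ⊗[E] Z) := TensorProduct.map P GZ with hT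
  set lam := (∏ i, a i) * b with hlam
  -- the generators of the first factor
  set g : ∀ i, ({m : M i | m ∈ A i} ⊕ {m : M i | ∃ x, Sm i x ∧ m ∈ (G i).maxGenEigenspace x}) →
    M i := fun i => Sum.elim Subtype.val Subtype.val with hg
  have hspan : ∀ i, Submodule.span E (Set.range (g i)) = ⊤ := by
    intro i
    rw [eq_top_iff, ← hgen i, sup_le_iff]
    constructor
    · intro v hv
      exact Submodule.subset_span ⟨Sum.inl ⟨v, hv⟩, rfl⟩
    · refine Submodule.span_mono ?_
      intro v hv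
      exact ⟨Sum.inr ⟨v, hv⟩, rfl⟩
  have htop := PiTensorProduct.submodule_span_eq_top (R := E) (M := M) (g := fun i => g i) hspan
  have hAP : ∀ v : ∀ i, M i, (∀ i, v i ∈ A i) →
      (⨂ₜ[E] i, v i) ∈ P.maxGenEigenspace (∏ i, a i) := by
    intro v hv
    refine tprodGen_mem G a v fun i => ?_
    rw [Module.End.mem_maxGenEigenspace]
    refine ⟨1, ?_⟩
    rw [pow_one, LinearMap.sub_apply, LinearMap.smul_apply, Module.End.one_apply, hA i _ (hv i),
      sub_self]
  have hAP' : tensorSpan A ≤ P.maxGenEigenspace (∏ i, a i) := by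
    refine Submodule.span_le.2 ?_
    rintro _ ⟨v, hv, rfl⟩
    exact hAP v hv
  set R := Submodule.span E {t | ∃ u ∈ tensorSpan A, ∃ z ∈ GZ.maxGenEigenspace b,
          t = u ⊗ₜ[E] z} with hR
  have hRle : R ≤ T.maxGenEigenspace lam := by
    refine Submodule.span_le.2 ?_
    rintro _ ⟨u, hu, z, hz, rfl⟩
    exact tmulGen_mem P GZ (hAP' hu) hz
  -- all tensors of generators
  have hone : ∀ (σ : ∀ i, {m : M i | m ∈ A i} ⊕ {m : M i | ∃ x, Sm i x ∧
      m ∈ (G i).maxGenEigenspace x}) (y : E) (z : Z), z ∈ GZ.maxGenEigenspace y → z ≠ 0 →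
      (⨂ₜ[E] i, g i (σ i)) ⊗ₜ[E] z ∈ R ⊔ ⨆ (ν) (_ : ν ≠ lam), T.maxGenEigenspace ν := by
    intro σ y z hz hz0
    have hy : Module.End.HasEigenvalue GZ y := by
      by_contra hy
      have h1 : GZ.maxGenEigenspace y = ⊥ := by
        by_contra hne
        apply hy
        have h2 : Module.End.HasUnifEigenvalue GZ y ⊤ := hne
        exact h2.lt zero_lt_one
      rw [h1, Submodule.mem_bot] at hz
      exact hz0 hz
    by_cases hall : ∀ i, ∃ v, σ i = Sum.inl v
    · have hmem : ∀ i, g i (σ i) ∈ A i := by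
        intro i
        obtain ⟨v, hv⟩ := hall i
        rw [hg]
        simp only [hv, Sum.elim_inl]
        exact v.2
      by_cases hyb : y = b
      · refine Submodule.mem_sup_left (Submodule.subset_span
          ⟨_, Submodule.subset_span ⟨fun i => g i (σ i), hmem, rfl⟩, z, ?_, rfl⟩)
        rw [← hyb]
        exact hz
      · refine Submodule.mem_sup_right ?_
        have hne : (∏ i, a i) * y ≠ lam := by
          rw [hlam]
          intro h
          exact hyb (mul_left_cancel₀ hb h)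
        exact Submodule.mem_iSup_of_mem _ (Submodule.mem_iSup_of_mem hne
          (tmulGen_mem P GZ (hAP _ hmem) hz))
    · refine Submodule.mem_sup_right ?_
      have hx : ∀ i, ∃ x : E, g i (σ i) ∈ (G i).maxGenEigenspace x ∧
          ((∃ v, σ i = Sum.inl v) → x = a i) ∧ ((¬ ∃ v, σ i = Sum.inl v) → Sm i x) := by
        intro i
        rcases h : σ i with v | v
        · refine ⟨a i, ?_, fun _ => rfl, fun h' => absurd ⟨v, rfl⟩ h'⟩
          rw [Module.End.mem_maxGenEigenspace]
          refine ⟨1, ?_⟩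
          rw [pow_one, LinearMap.sub_apply, LinearMap.smul_apply, Module.End.one_apply]
          have := hA i _ v.2
          rw [hg]
          simp only [Sum.elim_inl]
          rw [this, sub_self]
        · obtain ⟨x, hx1, hx2⟩ := v.2
          refine ⟨x, hx2, ?_, fun _ => hx1⟩
          rintro ⟨v', hv'⟩
          cases hv'
      choose x hx1 hx2 hx3 using hx
      have hne : (∏ i, x i) * y ≠ lam := by
        refine hsm x (univ.filter fun i => ¬ ∃ v, σ i = Sum.inl v) ?_ ?_ ?_ y hy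
        · push Not at hall
          obtain ⟨i, hi⟩ := hall
          exact ⟨i, mem_filter.2 ⟨mem_univ _, fun ⟨v, hv⟩ => hi v hv⟩⟩
        · intro i hi
          exact hx3 i (mem_filter.1 hi).2
        · intro i hi
          refine hx2 i ?_
          by_contra h
          exact hi (mem_filter.2 ⟨mem_univ _, h⟩)
      exact Submodule.mem_iSup_of_mem _ (Submodule.mem_iSup_of_mem hne
        (tmulGen_mem P GZ (tprodGen_mem G x _ hx1) hz))
  have hdec : R ⊔ ⨆ (ν) (_ : ν ≠ lam), T.maxGenEigenspace ν = ⊤ := by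
    rw [eq_top_iff, ← TensorProduct.span_tmul_eq_top]
    refine Submodule.span_le.2 ?_
    rintro _ ⟨u, z, rfl⟩
    have hu : u ∈ Submodule.span E (Set.range fun σ : (∀ i, {m : M i | m ∈ A i} ⊕
        {m : M i | ∃ x, Sm i x ∧ m ∈ (G i).maxGenEigenspace x}) => ⨂ₜ[E] i, g i (σ i)) := by
      rw [htop]
      exact Submodule.mem_top
    have hz : z ∈ ⨆ y, GZ.maxGenEigenspace y := by
      rw [Module.End.iSup_maxGenEigenspace_eq_top]
      exact Submodule.mem_top
    refine Submodule.span_induction (p := fun u _ => u ⊗ₜ[E] z ∈ R ⊔ ⨆ (ν) (_ : ν ≠ lam),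
      T.maxGenEigenspace ν) ?_ ?_ ?_ ?_ hu
    · rintro _ ⟨σ, rfl⟩
      refine Submodule.iSup_induction (fun y => GZ.maxGenEigenspace y)
        (motive := fun z => (⨂ₜ[E] i, g i (σ i)) ⊗ₜ[E] z ∈ R ⊔ ⨆ (ν) (_ : ν ≠ lam),
          T.maxGenEigenspace ν) hz ?_ ?_ ?_
      · intro y z hz
        by_cases hz0 : z = 0
        · rw [hz0, tmul_zero]
          exact Submodule.zero_mem _
        · exact hone σ y z hz hz0
      · rw [tmul_zero]
        exact Submodule.zero_mem _
      · intro z z' h h'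
        rw [tmul_add]
        exact Submodule.add_mem _ h h'
    · rw [zero_tmul]
      exact Submodule.zero_mem _
    · intro u u' _ _ h h'
      rw [add_tmul]
      exact Submodule.add_mem _ h h'
    · intro s u _ h
      rw [← smul_tmul']
      exact Submodule.smul_mem _ s h
  intro v hv
  have h3 : v ∈ R ⊔ ⨆ (ν) (_ : ν ≠ lam), T.maxGenEigenspace ν := by
    rw [hdec]
    exact Submodule.mem_top
  obtain ⟨r, hr, b', hb', rfl⟩ := Submodule.mem_sup.1 h3
  have h5 : b' ∈ T.maxGenEigenspace lam := by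
    have := Submodule.sub_mem _ hv (hRle hr)
    rwa [add_sub_cancel_left] at this
  have h6 : b' = 0 := by
    have := (Module.End.independent_maxGenEigenspace T lam).le_bot
      (Submodule.mem_inf.2 ⟨h5, hb'⟩)
    exact (Submodule.mem_bot E).1 this
  rw [h6, add_zero]
  exact hr

/-- The endomorphisms have finite order up to scalars on the submodules; the last factor is
arbitrary. -/
theorem maxGen_leZ' [IsAlgClosed E] [FiniteDimensional E Z] (F : ∀ i, Module.End E (M i))
    (A : ∀ i, Submodule E (M i)) {q : E} (hq : q ≠ 0) (w : ι → ℕ)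
    (hA : ∀ i, ∃ s : ℕ, 0 < s ∧ ∀ v ∈ A i, (F i ^ s) v = q ^ (s * w i) • v) (Sm : ι → E → Prop)
    (hgen : ∀ i, A i ⊔ Submodule.span E {m | ∃ x, Sm i x ∧ m ∈ (F i).maxGenEigenspace x} = ⊤)
    (FZ : Module.End E Z) (m : ℕ)
    (hsm : ∀ (x : ι → E) (T : Finset ι), T.Nonempty → (∀ i ∈ T, Sm i (x i)) →
      (∀ i, i ∉ T → x i = q ^ w i) → ∀ y, Module.End.HasEigenvalue FZ y → ∀ t : ℕ, 0 < t →
      (∏ i, x i ^ t) * y ^ t ≠ (∏ i, (q ^ w i) ^ t) * (q ^ m) ^ t)
    (r : ℕ) (hr : 0 < r) :
    ∃ t : ℕ, 0 < t ∧ Module.End.maxGenEigenspace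
      ((TensorProduct.map (PiTensorProduct.map F) FZ : Module.End E ((⨂[E] i, M i) ⊗[E] Z)) ^ r)
      (q ^ (r * (∑ i, w i + m)))
      ≤ Submodule.span E {v | ∃ u ∈ tensorSpan A,
          ∃ z ∈ (FZ ^ (r * t)).maxGenEigenspace (q ^ (r * t * m)), v = u ⊗ₜ[E] z} := by
  classical
  choose s hs0 hs using hA
  set t := ∏ i, s i with ht
  have ht0 : 0 < t := prod_pos fun i _ => hs0 i
  refine ⟨t, ht0, ?_⟩
  have hpow : ∀ i, ∀ (n : ℕ), ∀ v ∈ A i, ((F i ^ s i) ^ n) v = (q ^ (s i * w i)) ^ n • v := by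
    intro i n
    induction n with
    | zero => intro v _; rw [pow_zero, pow_zero, one_smul, Module.End.one_apply]
    | succ n ih =>
      intro v hv
      rw [pow_succ, Module.End.mul_apply, hs i v hv, map_smul, ih v hv, smul_smul, pow_succ,
        mul_comm]
  have hAt : ∀ i, ∀ v ∈ A i, (F i ^ (r * t)) v = (q ^ w i) ^ (r * t) • v := by
    intro i v hv
    obtain ⟨u, hu⟩ := (dvd_prod_of_mem s (mem_univ i)).mul_left r
    rw [← ht] at hu
    rw [hu, pow_mul, hpow i u v hv]
    congr 1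
    rw [← pow_mul, ← pow_mul]
    congr 1
    ring
  intro v hv
  have h1 := maxGen_pow _ t hv
  rw [← pow_mul, TensorProduct.map_pow, ← PiTensorProduct.map_pow] at h1
  have h2 : (q ^ (r * (∑ i, w i + m))) ^ t
      = (∏ i, (q ^ w i) ^ (r * t)) * (q ^ (r * t * m)) := by
    rw [prod_pow, prod_pow_eq_pow_sum, ← pow_mul, ← pow_mul, ← pow_add]
    congr 1
    ring
  rw [h2] at h1
  refine maxGen_leZ (fun i => F i ^ (r * t)) A (fun i => (q ^ w i) ^ (r * t)) hAt
    (fun i y => ∃ x, Sm i x ∧ y = x ^ (r * t)) ?_ (FZ ^ (r * t)) (q ^ (r * t * m)) ?_ ?_ h1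
  · intro i
    rw [eq_top_iff, ← hgen i]
    refine sup_le_sup_left (Submodule.span_mono ?_) _
    rintro m ⟨x, hx, hm⟩
    exact ⟨x ^ (r * t), ⟨x, hx, rfl⟩, maxGen_pow _ _ hm⟩
  · exact prod_ne_zero_iff.2 fun i _ => pow_ne_zero _ (pow_ne_zero _ hq)
  · intro y T hT hy hy' y' hy'e
    have h3 : ∀ i, ∃ x : E, y i = x ^ (r * t) ∧ (i ∈ T → Sm i x) ∧ (i ∉ T → x = q ^ w i) := by
      intro i
      by_cases hi : i ∈ T
      · obtain ⟨x, hx, hxy⟩ := hy i hi
        exact ⟨x, hxy, fun _ => hx, fun h => absurd hi h⟩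
      · exact ⟨q ^ w i, hy' i hi, fun h => absurd h hi, fun _ => rfl⟩
    choose x hx1 hx2 hx3 using h3
    have hrt : 0 < r * t := Nat.mul_pos hr ht0
    obtain ⟨γ, hγ, hγe⟩ : ∃ γ : E, Module.End.HasEigenvalue FZ γ ∧ γ ^ (r * t) = y' := by
      have h5 : y' ∈ spectrum E (FZ ^ (r * t)) :=
        Module.End.hasEigenvalue_iff_mem_spectrum.mp hy'e
      rw [spectrum.map_pow_of_pos FZ hrt] at h5
      obtain ⟨γ, hγ, hγe⟩ := h5
      exact ⟨γ, Module.End.hasEigenvalue_iff_mem_spectrum.mpr hγ, hγe⟩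
    have h4 := hsm x T hT (fun i hi => hx2 i hi) hx3 γ hγ (r * t) hrt
    rw [prod_congr rfl fun i _ => hx1 i, ← hγe]
    rw [← pow_mul q m, mul_comm m] at h4
    exact h4

/-- Vectors in `W ⊗ Z` on which a set of operators acts by given scalars, if the operators are scalars
on `W`. -/
theorem mem_span_of_scalar {U : Type} [AddCommGroup U] [Module E U] (W : Submodule E U)
    {Γ : Type} (S : Set Γ) (ρU : Γ → Module.End E U) (ρZ : Γ → Module.End E Z) (α β : Γ → E)
    (hα : ∀ g ∈ S, α g ≠ 0) (hW : ∀ g ∈ S, ∀ w ∈ W, ρU g w = α g • w) {v : U ⊗[E] Z}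
    (hv : v ∈ Submodule.span E {t | ∃ u ∈ W, ∃ z : Z, t = u ⊗ₜ[E] z})
    (hS : ∀ g ∈ S, (TensorProduct.map (ρU g) (ρZ g)) v = (α g * β g) • v) :
    v ∈ Submodule.span E {t | ∃ u ∈ W, ∃ z : Z, (∀ g ∈ S, ρZ g z = β g • z) ∧
      t = u ⊗ₜ[E] z} := by
  classical
  set j : W ⊗[E] Z →ₗ[E] U ⊗[E] Z := LinearMap.rTensor Z W.subtype with hj
  have hinj : Function.Injective j :=
    Module.Flat.rTensor_preserves_injective_linearMap _ W.injective_subtype
  obtain ⟨v', rfl⟩ : ∃ v', j v' = v := by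
    have h1 : Submodule.span E {t | ∃ u ∈ W, ∃ z : Z, t = u ⊗ₜ[E] z} ≤ LinearMap.range j := by
      refine Submodule.span_le.2 ?_
      rintro _ ⟨u, hu, z, rfl⟩
      exact ⟨(⟨u, hu⟩ : W) ⊗ₜ[E] z, by rw [hj, LinearMap.rTensor_tmul]; rfl⟩
    exact h1 hv
  have hS' : ∀ g ∈ S, (LinearMap.lTensor W (ρZ g)) v' = β g • v' := by
    intro g hg
    have h1 : ∀ x : W ⊗[E] Z, (TensorProduct.map (ρU g) (ρZ g)) (j x)
        = α g • j ((LinearMap.lTensor W (ρZ g)) x) := by
      intro x
      induction x using TensorProduct.induction_on with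
      | zero => simp
      | tmul w z =>
        rw [hj, LinearMap.rTensor_tmul, TensorProduct.map_tmul, LinearMap.lTensor_tmul,
          LinearMap.rTensor_tmul, Submodule.subtype_apply, hW g hg w w.2, smul_tmul']
      | add x y hx hy => rw [map_add, map_add, hx, hy, map_add, map_add, smul_add]
    have h2 := hS g hg
    rw [h1, mul_smul] at h2
    have h3 := smul_right_injective _ (hα g hg) h2
    rw [← map_smul] at h3
    exact hinj h3
  set b := Module.Basis.ofVectorSpace E W with hb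
  set e := TensorProduct.equivFinsuppOfBasisLeft (N := Z) b with he
  have hcoord : ∀ g, ∀ x : W ⊗[E] Z, ∀ k, e ((LinearMap.lTensor W (ρZ g)) x) k = ρZ g (e x k) := by
    intro g x k
    induction x using TensorProduct.induction_on with
    | zero => simp
    | tmul w z =>
      rw [LinearMap.lTensor_tmul, he, TensorProduct.equivFinsuppOfBasisLeft_apply_tmul_apply,
        TensorProduct.equivFinsuppOfBasisLeft_apply_tmul_apply, map_smul]
    | add x y hx hy => rw [map_add, map_add, Finsupp.add_apply, hx, hy, map_add, Finsupp.add_apply,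
        map_add]
  have hzk : ∀ k, ∀ g ∈ S, ρZ g (e v' k) = β g • e v' k := by
    intro k g hg
    rw [← hcoord, hS' g hg, map_smul, Finsupp.smul_apply]
  have hv' : v' = e.symm (e v') := (e.symm_apply_apply v').symm
  rw [hv', he, TensorProduct.equivFinsuppOfBasisLeft_symm_apply, ← he, Finsupp.sum, map_sum]
  refine Submodule.sum_mem _ fun k _ => Submodule.subset_span ?_
  exact ⟨(b k : U), (b k).2, e v' k, hzk k, by rw [hj, LinearMap.rTensor_tmul]; rfl⟩

end

end Pool.Agent.J4.H42.Pr
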