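import Pool.Agent.W528.HD.Fin
import Pool.Agent.W528.HC.MU
import Pool.Agent.W924.HC.PR
import Pool.Agent.W125.HC.PC

/-!
# Fibre products of Kummer coverings: character sums and numbers of points
-/

set_option autoImplicit false

namespace Pool.Agent.J4.H42.Fib

open Finset Polynomial Pool.Agent.W528.HA Pool.Agent.W528.HC

section defs

variable {s m : ℕ}

/-- The value at `(x, t)` of the function `∏ (l_i x + f_i(t)) ^ a_i`. -/
noncomputable def fct {L : Type} [Field L] (l : Fin m → L) (f : Fin m → L[X]) (a : Fin m → ℕ)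
    (x t : L) : L := ∏ i, (l i * x + (f i).eval t) ^ a i

/-- The sum over `(x, t) ∈ L²` of the value at `∏_k F_k(x, t) ^ ((N r / n_k) j_k) * t ^ (N e)`,
`F_k = ∏ (l_i x + f_i(t)) ^ a_(k, i)`, `N = n_1 ... n_s`, of the character of order `N r` of `L`
belonging to `z ↦ μ`: the character of the `k`-th covering is the `j_k`-th power of a fixed
character of order `n_k`, the one of the covering `u ^ r = t` the `e`-th power of a fixed character
of order `r`. -/
noncomputable def charSum (L : Type) [Field L] [Fintype L] (R : Type) [CommRing R]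
    (n : Fin s → ℕ) (r : ℕ) (l : Fin m → L) (f : Fin m → L[X]) (a : Fin s → Fin m → ℕ) (z : L)
    (μ : R) (j : Fin s → ℕ) (e : ℕ) : R :=
  ∑ x : L, ∑ t : L, kv ((∏ k, n k) * r) z μ
    (((∏ k, fct l f (a k) x t ^ ((((∏ i, n i) * r) / n k) * j k)) * t ^ ((∏ k, n k) * e))
      ^ ((Fintype.card L - 1) / ((∏ k, n k) * r)))

/-- The number of points `((x, u), y)` over `L` of the affine surface
`y_k ^ n_k = ∏ (l_i x + f_i(u ^ r)) ^ a_(k, i)`, `k ∈ B`. -/
noncomputable def points (L : Type) [Field L] (n : Fin s → ℕ) (r : ℕ) (l : Fin m → L)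
    (f : Fin m → L[X]) (a : Fin s → Fin m → ℕ) (B : Finset (Fin s)) : ℕ :=
  Set.ncard {v : (L × L) × (B → L) |
    ∀ k : B, v.2 k ^ n k = fct l f (a k) v.1.1 (v.1.2 ^ r)}

/-- The characters `j = (j_1, ..., j_s)`, `0 ≤ j_k < n_k`, which are not trivial outside of `B`. -/
def chars (n : Fin s → ℕ) (B : Finset (Fin s)) : Finset (Fin s → ℕ) :=
  (Fintype.piFinset fun k => range (n k)).filter fun j => ∃ k, k ∉ B ∧ j k ≠ 0

end defs

section

variable {s m : ℕ} {L : Type} [Field L] [Fintype L]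

lemma kv_prod {N : ℕ} {z : L} (hN : 2 ≤ N) (hz : IsPrimitiveRoot z N) {R : Type} [CommRing R]
    {μ : R} (hμ : μ ^ N = 1) {ι : Type} (S : Finset ι) (v : ι → L) :
    kv N z μ ((∏ i ∈ S, v i) ^ ((Fintype.card L - 1) / N))
      = ∏ i ∈ S, kv N z μ (v i ^ ((Fintype.card L - 1) / N)) := by
  classical
  induction S using Finset.induction_on with
  | empty =>
    rw [prod_empty, prod_empty, one_pow]
    exact Pool.Agent.W125.HC.PC.kv_one (by omega) hz μ
  | insert i S hi ih =>
    rw [prod_insert hi, prod_insert hi, mu_main L N z hN hz R μ hμ, ih]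

/-- the number of `n`-th roots as a sum over characters -/
lemma roots_eq {N n r : ℕ} {z : L} (hNn : N = n * r) (hz : IsPrimitiveRoot z N) (hn : 0 < n)
    (hr : 0 < r) {E : Type} [Field E] [CharZero E] {μ : E} (hμ : IsPrimitiveRoot μ N) (v : L) :
    ((Set.ncard {y : L | y ^ n = v} : ℕ) : E)
      = ∑ j ∈ range n, kv N z μ ((v ^ (r * j)) ^ ((Fintype.card L - 1) / N)) := by
  have h1 := Pool.Agent.W924.HC.PR.main L N n r z hNn hz hn hr E μ hμ v
  rw [h1, range_eq_Ico, sum_eq_sum_Ico_succ_bot hn, mul_zero, pow_zero, one_pow]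
  have hN : 0 < N := by rw [hNn]; exact Nat.mul_pos hn hr
  rw [Pool.Agent.W125.HC.PC.kv_one hN hz μ]

lemma points_eq (n : Fin s → ℕ) (r : ℕ) (l : Fin m → L) (f : Fin m → L[X])
    (a : Fin s → Fin m → ℕ) (B : Finset (Fin s)) {E : Type} [Field E] :
    ((points L n r l f a B : ℕ) : E) = ∑ x : L, ∑ u : L, ∏ k ∈ B,
      ((Set.ncard {y : L | y ^ n k = fct l f (a k) x (u ^ r)} : ℕ) : E) := by
  classical
  unfold points
  have h : {v : (L × L) × (B → L) | ∀ k : B, v.2 k ^ n k = fct l f (a k) v.1.1 (v.1.2 ^ r)} =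
      ((univ.filter (fun v : (L × L) × (B → L) =>
        ∀ k : B, v.2 k ^ n k = fct l f (a k) v.1.1 (v.1.2 ^ r)) : Finset ((L × L) × (B → L))) :
        Set ((L × L) × (B → L))) := by
    ext y; simp
  rw [h, Set.ncard_coe_finset, card_filter, Fintype.sum_prod_type, Fintype.sum_prod_type]
  push_cast
  refine sum_congr rfl fun x _ => sum_congr rfl fun u _ => ?_
  have h1 : ∀ k : Fin s, ((Set.ncard {y : L | y ^ n k = fct l f (a k) x (u ^ r)} : ℕ) : E)
      = ∑ y : L, if y ^ n k = fct l f (a k) x (u ^ r) then 1 else 0 := fun k =>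
    Pool.Agent.W125.HC.PC.ncard_eq _
  simp_rw [h1]
  rw [← prod_coe_sort B (fun k => ∑ y : L, if y ^ n k = fct l f (a k) x (u ^ r)
    then (1 : E) else 0)]
  rw [prod_univ_sum, Fintype.piFinset_univ]
  refine sum_congr rfl fun y _ => ?_
  rw [Finset.prod_ite_zero]
  simp

lemma charSum_total {n : Fin s → ℕ} (hn : ∀ k, 0 < n k) {r : ℕ} (hr : 0 < r) {z : L}
    (hN : 2 ≤ (∏ k, n k) * r) (hz : IsPrimitiveRoot z ((∏ k, n k) * r)) (l : Fin m → L)
    (f : Fin m → L[X]) (a : Fin s → Fin m → ℕ) {E : Type} [Field E] [CharZero E] {μ : E}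
    (hμ : IsPrimitiveRoot μ ((∏ k, n k) * r)) (B : Finset (Fin s)) :
    ∑ j ∈ (Fintype.piFinset fun k => if k ∈ B then range (n k) else {0}),
      ∑ e ∈ range r, charSum L E n r l f a z μ j e = (points L n r l f a B : E) := by
  classical
  set N := ∏ k, n k with hNdef
  have hdvd : ∀ k, N * r = n k * (N * r / n k) := fun k =>
    (Nat.mul_div_cancel' ((dvd_prod_of_mem n (mem_univ k)).mul_right r)).symm
  have hr' : ∀ k, 0 < N * r / n k := fun k =>
    Nat.div_pos (Nat.le_of_dvd (by omega) ((dvd_prod_of_mem n (mem_univ k)).mul_right r)) (hn k)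
  have hN0 : 0 < N := prod_pos fun k _ => hn k
  rw [points_eq]
  unfold charSum
  -- the product of the characters
  have h1 : ∀ (j : Fin s → ℕ) (e : ℕ) (x t : L), kv (N * r) z μ
      (((∏ k, fct l f (a k) x t ^ ((N * r / n k) * j k)) * t ^ (N * e))
        ^ ((Fintype.card L - 1) / (N * r)))
      = (∏ k, kv (N * r) z μ ((fct l f (a k) x t ^ ((N * r / n k) * j k))
        ^ ((Fintype.card L - 1) / (N * r))))
        * kv (N * r) z μ ((t ^ (N * e)) ^ ((Fintype.card L - 1) / (N * r))) := by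
    intro j e x t
    rw [mu_main L (N * r) z hN hz E μ hμ.pow_eq_one, kv_prod hN hz hμ.pow_eq_one]
  -- the product over the coverings
  have h2 : ∀ x t : L, ∑ j ∈ (Fintype.piFinset fun k => if k ∈ B then range (n k) else {0}),
      (∏ k, kv (N * r) z μ ((fct l f (a k) x t ^ ((N * r / n k) * j k))
        ^ ((Fintype.card L - 1) / (N * r))))
      = ∏ k ∈ B, ((Set.ncard {y : L | y ^ n k = fct l f (a k) x t} : ℕ) : E) := by
    intro x t
    rw [← prod_univ_sum (fun k => if k ∈ B then range (n k) else {0})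
      (fun k j => kv (N * r) z μ ((fct l f (a k) x t ^ ((N * r / n k) * j))
        ^ ((Fintype.card L - 1) / (N * r))))]
    rw [← prod_subset (subset_univ B)]
    · refine prod_congr rfl fun k hk => ?_
      rw [if_pos hk, roots_eq (hdvd k) hz (hn k) (hr' k) hμ]
    · intro k _ hk
      rw [if_neg hk, sum_singleton, mul_zero, pow_zero, one_pow]
      exact Pool.Agent.W125.HC.PC.kv_one (by omega) hz μ
  have h3 : ∀ t : L, ∑ e ∈ range r, kv (N * r) z μ
      ((t ^ (N * e)) ^ ((Fintype.card L - 1) / (N * r)))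
      = ((Set.ncard {u : L | u ^ r = t} : ℕ) : E) := fun t =>
    (roots_eq (mul_comm N r) hz hr hN0 hμ t).symm
  simp_rw [← hNdef, h1]
  obtain ⟨P, hP⟩ : ∃ P : (Fin s → ℕ) → L → L → E, P = fun j x t =>
    ∏ k, kv (N * r) z μ ((fct l f (a k) x t ^ ((N * r / n k) * j k))
      ^ ((Fintype.card L - 1) / (N * r))) := ⟨_, rfl⟩
  obtain ⟨Q, hQ⟩ : ∃ Q : ℕ → L → E, Q = fun e t =>
    kv (N * r) z μ ((t ^ (N * e)) ^ ((Fintype.card L - 1) / (N * r))) := ⟨_, rfl⟩
  have h2' : ∀ x t : L, ∑ j ∈ (Fintype.piFinset fun k => if k ∈ B then range (n k) else {0}),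
      P j x t = ∏ k ∈ B, ((Set.ncard {y : L | y ^ n k = fct l f (a k) x t} : ℕ) : E) := by
    rw [hP]; exact h2
  have h3' : ∀ t : L, ∑ e ∈ range r, Q e t = ((Set.ncard {u : L | u ^ r = t} : ℕ) : E) := by
    rw [hQ]; exact h3
  have h4 : ∑ j ∈ (Fintype.piFinset fun k => if k ∈ B then range (n k) else {0}),
      ∑ e ∈ range r, ∑ x : L, ∑ t : L, P j x t * Q e t
      = ∑ x : L, ∑ t : L, (∑ j ∈ (Fintype.piFinset fun k => if k ∈ B then range (n k) else {0}),
        P j x t) * ∑ e ∈ range r, Q e t := by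
    have e1 : ∀ j, ∑ e ∈ range r, ∑ x : L, ∑ t : L, P j x t * Q e t
        = ∑ x : L, ∑ t : L, ∑ e ∈ range r, P j x t * Q e t := by
      intro j
      rw [sum_comm]
      exact sum_congr rfl fun x _ => sum_comm
    simp only [e1, sum_mul_sum]
    rw [sum_comm]
    exact sum_congr rfl fun x _ => sum_comm
  have h5 : ∑ x : L, ∑ t : L, (∏ k ∈ B,
      ((Set.ncard {y : L | y ^ n k = fct l f (a k) x t} : ℕ) : E))
        * ((Set.ncard {u : L | u ^ r = t} : ℕ) : E)
      = ∑ x : L, ∑ u : L, ∏ k ∈ B,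
        ((Set.ncard {y : L | y ^ n k = fct l f (a k) x (u ^ r)} : ℕ) : E) := by
    refine sum_congr rfl fun x _ => ?_
    have e5 : ∀ t : L, (∏ k ∈ B, ((Set.ncard {y : L | y ^ n k = fct l f (a k) x t} : ℕ) : E))
        * ((Set.ncard {u : L | u ^ r = t} : ℕ) : E)
        = ∑ u : L, (∏ k ∈ B, ((Set.ncard {y : L | y ^ n k = fct l f (a k) x t} : ℕ) : E))
          * (if u ^ r = t then 1 else 0) := by
      intro t
      rw [Pool.Agent.W125.HC.PC.ncard_eq (fun u : L => u ^ r = t), mul_sum]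
    rw [sum_congr rfl fun t _ => e5 t, sum_comm]
    refine sum_congr rfl fun u _ => ?_
    rw [sum_eq_single_of_mem (u ^ r) (mem_univ _)]
    · rw [if_pos rfl, mul_one]
    · intro t _ ht
      rw [if_neg (fun h => ht h.symm), mul_zero]
  rw [hP, hQ] at h4
  simp only at h4
  rw [h4, ← h5]
  refine sum_congr rfl fun x _ => sum_congr rfl fun t _ => ?_
  rw [h2, h3]

lemma chars_eq {n : Fin s → ℕ} (B : Finset (Fin s)) :
    chars n B = (Fintype.piFinset fun k => range (n k)) \
      (Fintype.piFinset fun k => if k ∈ B then range (n k) else {0}) := by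
  classical
  ext j
  unfold chars
  rw [mem_filter, mem_sdiff]
  refine and_congr_right fun hj => ?_
  rw [Fintype.mem_piFinset] at hj
  rw [Fintype.mem_piFinset]
  push Not
  refine exists_congr fun k => ?_
  by_cases hk : k ∈ B
  · simp [hk, mem_range.1 (hj k)]
  · simp [hk]

/-- **The sum of all character sums.** -/
theorem total {n : Fin s → ℕ} (hn : ∀ k, 0 < n k) {r : ℕ} (hr : 0 < r) {z : L}
    (hN : 2 ≤ (∏ k, n k) * r) (hz : IsPrimitiveRoot z ((∏ k, n k) * r)) (l : Fin m → L)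
    (f : Fin m → L[X]) (a : Fin s → Fin m → ℕ) {E : Type} [Field E] [CharZero E] {μ : E}
    (hμ : IsPrimitiveRoot μ ((∏ k, n k) * r)) (B : Finset (Fin s)) :
    ∑ j ∈ chars n B, ∑ e ∈ range r, charSum L E n r l f a z μ j e
      = (points L n r l f a univ : E) - (points L n r l f a B : E) := by
  classical
  rw [← charSum_total hn hr hN hz l f a hμ B, ← charSum_total hn hr hN hz l f a hμ univ,
    chars_eq B]
  have h1 : (Fintype.piFinset fun k => if k ∈ (univ : Finset (Fin s)) then range (n k) else {0})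
      = Fintype.piFinset fun k => range (n k) := by
    congr 1
    funext k
    simp
  rw [h1, ← sum_sdiff (s₁ := Fintype.piFinset fun k => if k ∈ B then range (n k) else {0})
    (s₂ := Fintype.piFinset fun k => range (n k)), add_sub_cancel_right]
  refine Fintype.piFinset_subset _ _ fun k => ?_
  by_cases hk : k ∈ B
  · simp [hk]
  · simp [hk, hn k]

end

end Pool.Agent.J4.H42.Fib
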