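import Pool.Agent.J4.H42.FibA
import Pool.Agent.J4.H42.FibB
import Pool.Agent.W340.HD.IN
import Pool.Agent.W108.HD.ONE
import Pool.Agent.W940.HD.GE
import Pool.Agent.W551.HD.GN
import Pool.Agent.W135.HB.SA

/-!
# Fibre products of Kummer coverings: the L-functions
-/

set_option autoImplicit false

namespace Pool.Agent.J4.H42.Fib

open Finset Polynomial Pool.Agent.W528.HA Pool.Agent.W528.HC Pool.Agent.W528.HD

section

variable {s m : ℕ}

/-- `∏_{x ∈ A} (1 - x T)` is the L-function of the character `(j, e)`: for every finite extension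
`L` of `κ`, of degree `d`, the sum of the `x ^ d` is `charSum`. -/
def IsCharL (κ : Type) [Field κ] [Fintype κ] {E : Type} [Field E] (n : Fin s → ℕ) (r : ℕ)
    (l : Fin m → κ) (f : Fin m → κ[X]) (a : Fin s → Fin m → ℕ) (z : κ) (μ : E) (j : Fin s → ℕ)
    (e : ℕ) (A : Multiset E) : Prop :=
  ∀ (L : Type) [Field L] [Fintype L] [Algebra κ L],
    (A.map fun x => x ^ Module.finrank κ L).sum
      = charSum L E n r (fun i => algebraMap κ L (l i)) (fun i => (f i).map (algebraMap κ L)) a
        (algebraMap κ L z) μ j e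

/-- The product of the L-functions of the characters `(j, e)`, `j` not trivial outside of `B`. -/
noncomputable def lProd {E : Type} [Field E] (n : Fin s → ℕ) (r : ℕ) (B : Finset (Fin s))
    (A : (Fin s → ℕ) → ℕ → Multiset E) : E[X] :=
  ∏ j ∈ chars n B, ∏ e ∈ range r, ((A j e).map fun x => 1 - C x * X).prod

lemma small_mono {D D' : ℕ} {n : Fin s → ℕ} {a : Fin s → Fin m → ℕ} (h : Small D' n a)
    (hD : D ≤ D') : Small D n a := by
  unfold Small at h ⊢
  refine lt_of_le_of_lt (mul_le_mul_of_nonneg_right (by exact_mod_cast hD) ?_) h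
  exact sum_nonneg fun k _ => div_nonneg (sum_nonneg fun i _ => Nat.cast_nonneg _)
    (Nat.cast_nonneg _)

lemma charSum_eq {L : Type} [Field L] [Fintype L] {R : Type} [CommRing R] {n : Fin s → ℕ}
    (hn : ∀ k, 2 ≤ n k) (hcop : Pairwise fun i k => (n i).Coprime (n k)) {D : ℕ} (hD : 1 ≤ D)
    {a : Fin s → Fin m → ℕ} (h : Small D n a) {r : ℕ} (hr : 0 < r) (l : Fin m → L)
    (f : Fin m → L[X]) {z : L} (hN : 0 < ∏ k, n k) (hz : IsPrimitiveRoot z ((∏ k, n k) * r))
    (μ : R) {j : Fin s → ℕ} (hj : ∀ k, j k < n k) (e : ℕ) :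
    charSum L R n r l f a z μ j e
      = gSum L R ((∏ k, n k) * r) l f (fun i => r * (tot n a j i % ∏ k, n k))
        ((∏ k, n k) * e) z μ := by
  classical
  unfold charSum gSum
  obtain ⟨N, hNd⟩ : ∃ N, N = ∏ k, n k := ⟨_, rfl⟩
  have hw0 := Pool.Agent.W125.HC.PC.w_pos (Nat.mul_pos hN hr) hz
  have hwN := Pool.Agent.W125.HC.PC.order_dvd (Nat.mul_pos hN hr) hz
  have htz : ∀ i, ∏ k, n k ∣ tot n a j i → tot n a j i = 0 := fun i hi =>
    tot_zero hD hn hcop h hj hi
  have hdk : ∀ k, n k ∣ N := fun k => by rw [hNd]; exact dvd_prod_of_mem n (mem_univ k)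
  rw [← hNd] at hN hw0 hwN htz ⊢
  obtain ⟨w, hw⟩ : ∃ w, w = (Fintype.card L - 1) / (N * r) := ⟨_, rfl⟩
  rw [← hw] at hw0 hwN ⊢
  refine sum_congr rfl fun x _ => sum_congr rfl fun t _ => ?_
  congr 1
  rw [mul_pow, mul_pow, ← prod_pow, ← prod_pow]
  congr 1
  have h1 : ∀ k, (fct l f (a k) x t ^ (N * r / n k * j k)) ^ w
      = ∏ i, (l i * x + (f i).eval t) ^ (a k i * (N / n k * j k) * (r * w)) := by
    intro k
    unfold fct
    rw [← prod_pow, ← prod_pow]
    refine prod_congr rfl fun i _ => ?_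
    rw [← pow_mul, ← pow_mul]
    congr 1
    rw [Nat.mul_comm N r, Nat.mul_div_assoc r (hdk k)]
    ring
  simp_rw [h1]
  rw [prod_comm]
  refine prod_congr rfl fun i _ => ?_
  rw [prod_pow_eq_pow_sum, ← sum_mul, ← pow_mul]
  have h2 : ∑ k, a k i * (N / n k * j k) = tot n a j i := by
    unfold tot
    rw [← hNd]
  rw [h2]
  have hrw : r * (tot n a j i % N) * w = tot n a j i % N * (r * w) := by ring
  rw [hrw]
  have hrw0 : 0 < r * w := Nat.mul_pos hr hw0
  by_cases hy : l i * x + (f i).eval t = 0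
  · rw [hy]
    rcases Nat.eq_zero_or_pos (tot n a j i) with h0 | h0
    · rw [h0, Nat.zero_mod]
    · have h3 : tot n a j i % N ≠ 0 := by
        intro h4
        have := htz i (Nat.dvd_of_mod_eq_zero h4)
        omega
      rw [zero_pow (Nat.mul_pos h0 hrw0).ne',
        zero_pow (Nat.mul_pos (Nat.pos_of_ne_zero h3) hrw0).ne']
  · have h3 : (l i * x + (f i).eval t) ^ (N * (r * w)) = 1 := by
      rw [← mul_assoc, hwN]
      exact FiniteField.pow_card_sub_one_eq_one _ hy
    have h4 : tot n a j i * (r * w) = N * (r * w) * (tot n a j i / N)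
        + tot n a j i % N * (r * w) := by
      conv_lhs => rw [← Nat.div_add_mod (tot n a j i) N]
      ring
    rw [h4, pow_add, pow_mul _ (N * (r * w)), h3, one_pow, one_mul]

theorem fib_main {n : Fin s → ℕ} (hn : ∀ k, 2 ≤ n k)
    (hcop : Pairwise fun i k => (n i).Coprime (n k)) {r : ℕ} (hr : 0 < r)
    (hrn : ∀ k, r.Coprime (n k)) {c : ℕ} [Fact c.Prime]
    (hc : ∏ k, n k ∣ c - 1) (κ : Type) [Field κ] [Fintype κ] [CharP κ c] {z : κ}
    (hz : IsPrimitiveRoot z ((∏ k, n k) * r)) {E : Type} [Field E] [CharZero E] [IsAlgClosed E]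
    {μ : E} (hμ : IsPrimitiveRoot μ ((∏ k, n k) * r)) (l : Fin m → κ) (f : Fin m → κ[X]) {D : ℕ}
    (hD : 1 ≤ D) (hf : ∀ i, (f i).natDegree ≤ D) (a : Fin s → Fin m → ℕ)
    (ha : Small (if r = 1 then D else 2 * D) n a)
    (B : Finset (Fin s)) (A : (Fin s → ℕ) → ℕ → Multiset E)
    (hA : ∀ j ∈ chars n B, ∀ e < r, IsCharL κ n r l f a z μ j e (A j e)) :
    (∀ (L : Type) [Field L] [Fintype L] [Algebra κ L],
      ∑ j ∈ chars n B, ∑ e ∈ range r, ((A j e).map fun x => x ^ Module.finrank κ L).sum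
        = (points L n r (fun i => algebraMap κ L (l i)) (fun i => (f i).map (algebraMap κ L)) a
            univ : E)
          - (points L n r (fun i => algebraMap κ L (l i)) (fun i => (f i).map (algebraMap κ L)) a
            B : E)) ∧
    ∀ (ζ : E) (M : ℕ), 0 < M → ζ ^ M = 1 →
      (lProd n r B A).eval (ζ * (Fintype.card κ : E)⁻¹) ≠ 0 := by
  classical
  have hcp : c.Prime := Fact.out
  obtain ⟨F, hF0, hF⟩ := FiniteField.card κ c
  have hF0' : 0 < (F : ℕ) := F.2
  have hn0 : ∀ k, 0 < n k := fun k => by have := hn k; omega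
  by_cases hs : ∃ k : Fin s, True
  swap
  · -- there is no covering
    have hemp : chars n B = ∅ := by
      unfold chars
      rw [filter_eq_empty_iff]
      rintro j - ⟨k, -⟩
      exact hs ⟨k, trivial⟩
    have hB : B = univ := by
      ext k
      exact absurd ⟨k, trivial⟩ hs
    refine ⟨?_, ?_⟩
    · intro L _ _ _
      rw [hemp, sum_empty, hB, sub_self]
    · intro ζ M _ _
      unfold lProd
      rw [hemp, prod_empty, eval_one]
      exact one_ne_zero
  obtain ⟨k0, -⟩ := hs
  have hN : 2 ≤ ∏ k, n k :=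
    (hn k0).trans (Nat.le_of_dvd (prod_pos fun k _ => hn0 k) (dvd_prod_of_mem n (mem_univ k0)))
  have hNr : 2 ≤ (∏ k, n k) * r := hN.trans (Nat.le_mul_of_pos_right _ hr)
  have ha1 : Small D n a := small_mono ha (by split_ifs <;> omega)
  refine ⟨?_, ?_⟩
  · intro L _ _ _
    have hzL : IsPrimitiveRoot (algebraMap κ L z) ((∏ k, n k) * r) :=
      hz.map_of_injective (algebraMap κ L).injective
    rw [← total hn0 hr hNr hzL _ _ a hμ B]
    exact sum_congr rfl fun j hj => sum_congr rfl fun e he => hA j hj e (mem_range.1 he) L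
  · intro ζ M hM hζ h0
    unfold lProd at h0
    rw [eval_prod, prod_eq_zero_iff] at h0
    obtain ⟨j, hj, h0⟩ := h0
    rw [eval_prod, prod_eq_zero_iff] at h0
    obtain ⟨e, he, h0⟩ := h0
    rw [mem_range] at he
    rw [eval_multiset_prod, Multiset.prod_eq_zero_iff, Multiset.map_map, Multiset.mem_map] at h0
    obtain ⟨x, hx, h0⟩ := h0
    simp only [Function.comp, eval_sub, eval_one, eval_mul, eval_C, eval_X] at h0
    have hq : (Fintype.card κ : E) ≠ 0 := by exact_mod_cast Fintype.card_ne_zero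
    have h1 : x * ζ = Fintype.card κ := by
      have h2 : x * (ζ * (Fintype.card κ : E)⁻¹) = 1 := (sub_eq_zero.mp h0).symm
      field_simp at h2
      linear_combination h2
    have hjn : ∀ k, j k < n k := by
      unfold chars at hj
      rw [mem_filter, Fintype.mem_piFinset] at hj
      exact fun k => mem_range.1 (hj.1 k)
    obtain ⟨j', hj', hsum⟩ := arith hr hn hcop hrn ha hcp.one_lt.le hc hF0' hjn e
    refine g_nonvanish Pool.Agent.W551.HD.GN.main
      (Pool.Agent.W108.HD.ONE.main Pool.Agent.W551.HD.GN.main Pool.Agent.W340.HD.IN.main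
        Pool.Agent.W135.HB.SA.main) Pool.Agent.W940.HD.GE.main hNr κ hF hz hμ hD l f hf
      (fun i => r * (tot n a j i % ∏ k, n k)) ?_ ((∏ k, n k) * e) ?_ hj' hsum
      (A j e) ?_ x hx M hM ?_
    · intro i
      rw [mul_comm (∏ k, n k) r]
      exact Nat.mul_lt_mul_of_pos_left (Nat.mod_lt _ (by omega)) hr
    · exact Nat.mul_lt_mul_of_pos_left he (by omega)
    · intro L _ _ _
      rw [hA j hj e he L, charSum_eq hn hcop hD ha1 hr _ _ (by omega)
        (hz.map_of_injective (algebraMap κ L).injective) μ hjn]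
    · rw [← h1, mul_pow, hζ, mul_one]

end

end Pool.Agent.J4.H42.Fib
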