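import Pool.Agent.N410.FV.Ind
import Pool.Agent.TH676.Z.Cyc

/-!
# Subcubic subgraphs of a minimal quotient without nowhere-zero flow modulo five
-/

set_option autoImplicit false
set_option linter.unusedSectionVars false

namespace Pool.Agent.J4.H42.Fl

open Finset Pool.Agent.TH676.Z Pool.Agent.Y335.FL Pool.Agent.Y358.IN Pool.Agent.N410.FV

section cls

variable {V E : Type} [Fintype V] [DecidableEq V] [Fintype E] [DecidableEq E]

/-- the number of ends at `v` of the edges in `A` (loops count twice) -/
def degA (s t : E → V) (A : Finset E) (v : V) : ℕ :=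
  (A.filter (fun e => s e = v)).card + (A.filter (fun e => t e = v)).card

/-- all loopless sets of edges with maximum degree at most three have cyclomatic number at most
`N` -/
def Sub3 (N : ℕ) (s t : E → V) : Prop :=
  ∀ A : Finset E, (∀ e ∈ A, s e ≠ t e) → (∀ v, degA s t A v ≤ 3) →
    Module.finrank (ZMod 2) (ZF s t A) ≤ N

theorem degA_insert (s t : E → V) (A : Finset E) {e : E} (he : e ∉ A) (v : V) :
    degA s t (insert e A) v = degA s t A v + ((if s e = v then 1 else 0) + (if t e = v then 1 else 0))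
    := by
  unfold degA
  rw [filter_insert, filter_insert]
  have h1 : ∀ (p : E → Prop) [DecidablePred p], e ∉ A.filter p := fun p _ h => he (mem_filter.1 h).1
  by_cases h2 : s e = v <;> by_cases h3 : t e = v <;>
    simp only [h2, h3, if_true, if_false] <;>
    (try rw [card_insert_of_notMem (h1 _)]) <;> (try rw [card_insert_of_notMem (h1 _)]) <;> omega

theorem degA_ctr (s t : E → V) {u w : V} (huw : u ≠ w) (A : Finset E) (v : V) :
    degA (ctr u w ∘ s) (ctr u w ∘ t) A v =
      if v = w then 0 else if v = u then degA s t A u + degA s t A w else degA s t A v := by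
  unfold degA
  have key : ∀ g : E → V, (A.filter (fun e => (ctr u w ∘ g) e = v)).card =
      if v = w then 0 else if v = u then (A.filter (fun e => g e = u)).card +
        (A.filter (fun e => g e = w)).card else (A.filter (fun e => g e = v)).card := by
    intro g
    by_cases h1 : v = w
    · rw [if_pos h1, card_eq_zero, filter_eq_empty_iff]
      intro e _ he
      simp only [Function.comp, ctr] at he
      rw [h1] at he
      split_ifs at he with h2
      · exact huw he
      · exact h2 he
    · rw [if_neg h1]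
      by_cases h2 : v = u
      · rw [if_pos h2, ← card_union_of_disjoint, ← filter_or]
        · congr 1
          refine filter_congr fun e _ => ?_
          simp only [Function.comp, ctr]
          rw [h2]
          constructor
          · intro h3
            split_ifs at h3 with h4
            · exact Or.inr h4
            · exact Or.inl h3
          · rintro (h3 | h3)
            · rw [if_neg (by rw [h3]; exact huw)]; exact h3
            · rw [if_pos h3]
        · rw [disjoint_filter]
          intro e _ h3 h4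
          exact huw (h3.symm.trans h4)
      · rw [if_neg h2]
        congr 1
        refine filter_congr fun e _ => ?_
        simp only [Function.comp, ctr]
        constructor
        · intro h3
          split_ifs at h3 with h4
          · exact absurd h3.symm h2
          · exact h3
        · intro h3
          rw [if_neg (by rw [h3]; exact h1)]; exact h3
  rw [key s, key t]
  split_ifs <;> omega

/-- an edge at a vertex without other edges is in no cycle -/
theorem zf_pend {s t : E → V} {A : Finset E} {e : E} {u : V} (he : e ∉ A)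
    (hu : (s e = u ∧ t e ≠ u) ∨ (s e ≠ u ∧ t e = u)) (h0 : degA s t A u = 0) :
    ZF s t (insert e A) = ZF s t A := by
  apply le_antisymm
  · rintro x ⟨hx, hb⟩
    have hA : ∀ f ∈ A, s f ≠ u ∧ t f ≠ u := by
      intro f hf
      unfold degA at h0
      have h1 : (A.filter (fun e => s e = u)).card = 0 := by omega
      have h2 : (A.filter (fun e => t e = u)).card = 0 := by omega
      rw [card_eq_zero, filter_eq_empty_iff] at h1 h2
      exact ⟨h1 hf, h2 hf⟩
    have hxe : x e = 0 := by
      have h1 := hb u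
      unfold bd2 at h1
      rw [sum_eq_single e] at h1
      · rcases hu with ⟨h2, h3⟩ | ⟨h2, h3⟩
        · rwa [if_pos h2, if_neg h3, add_zero] at h1
        · rwa [if_neg h2, if_pos h3, zero_add] at h1
      · intro f _ hfe
        by_cases hf : f ∈ A
        · rw [if_neg (hA f hf).1, if_neg (hA f hf).2, add_zero]
        · rw [hx f (by rw [mem_insert]; tauto)]
          simp
      · intro h; exact absurd (mem_univ e) h
    refine ⟨fun f hf => ?_, hb⟩
    by_cases hfe : f = e
    · rw [hfe]; exact hxe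
    · exact hx f (by rw [mem_insert]; tauto)
  · exact MacDelx.ZF_mono (subset_insert e A)

/-- the class is closed under contractions -/
theorem sub3_cc (N : ℕ) : CC (V := V) (E := E) (Sub3 N) := by
  intro s t e hN hne A' hl hd
  set u := s e with hu
  set w := t e with hw
  have heA : e ∉ A' := by
    intro he
    apply hl e he
    simp only [Function.comp, ctr, ← hu, ← hw, if_neg hne, if_true]
  have hl' : ∀ f ∈ A', s f ≠ t f := by
    intro f hf h
    apply hl f hf
    simp only [Function.comp, h]
  have h1 : Module.finrank (ZMod 2) (ZF (ctr u w ∘ s) (ctr u w ∘ t) A') ≤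
      Module.finrank (ZMod 2) (ZF s t (insert e A')) := by
    have := Cycx.fr_con (src := s) (dst := t) (mem_insert_self e A') hne
    rwa [erase_insert heA] at this
  have hdu : degA s t A' u + degA s t A' w ≤ 3 := by
    have := hd u
    rwa [degA_ctr s t hne, if_neg hne, if_pos rfl] at this
  have hdv : ∀ v, degA s t A' v ≤ 3 := by
    intro v
    by_cases h2 : v = w
    · rw [h2]; omega
    by_cases h3 : v = u
    · rw [h3]; omega
    have := hd v
    rwa [degA_ctr s t hne, if_neg h2, if_neg h3] at this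
  refine h1.trans ?_
  by_cases h2 : degA s t A' u = 0
  · rw [zf_pend heA (Or.inl ⟨rfl, hne.symm⟩) h2]
    exact hN A' hl' hdv
  by_cases h3 : degA s t A' w = 0
  · rw [zf_pend heA (Or.inr ⟨hne, rfl⟩) h3]
    exact hN A' hl' hdv
  refine hN _ ?_ ?_
  · intro f hf
    rcases mem_insert.1 hf with rfl | hf
    · exact hne
    · exact hl' f hf
  · intro v
    rw [degA_insert s t A' heA]
    by_cases h4 : v = w
    · rw [h4, if_neg hne, if_pos hw.symm]; omega
    by_cases h5 : v = u
    · rw [h5, if_pos hu.symm, if_neg hne.symm]; omega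
    · rw [if_neg (Ne.symm h5), if_neg (Ne.symm h4)]
      have := hdv v
      omega

/-- the class only depends on the fibres of the labelling of the vertices -/
theorem sub3_congr {W W' : Type} [Fintype W] [DecidableEq W] [Fintype W'] [DecidableEq W']
    {N : ℕ} (s t : E → V) (p : V → W) (p' : V → W')
    (hpp : ∀ x y, p x = p y ↔ p' x = p' y) (h : Sub3 N (p ∘ s) (p ∘ t)) :
    Sub3 N (p' ∘ s) (p' ∘ t) := by
  have hdeg : ∀ (A : Finset E) v, degA (p ∘ s) (p ∘ t) A (p v) = degA (p' ∘ s) (p' ∘ t) A (p' v) := by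
    intro A v
    unfold degA
    congr 2
    · exact filter_congr fun e _ => hpp _ _
    · exact filter_congr fun e _ => hpp _ _
  have hbd : ∀ (x : E → ZMod 2) v, bd2 (p ∘ s) (p ∘ t) x (p v) = bd2 (p' ∘ s) (p' ∘ t) x (p' v) := by
    intro x v
    unfold bd2
    refine sum_congr rfl fun e _ => ?_
    simp only [Function.comp]
    rw [if_congr (hpp (s e) v) rfl rfl, if_congr (hpp (t e) v) rfl rfl]
  intro A hl hd
  have hl' : ∀ e ∈ A, (p ∘ s) e ≠ (p ∘ t) e := fun e he h => hl e he ((hpp _ _).1 h)
  have hd' : ∀ w, degA (p ∘ s) (p ∘ t) A w ≤ 3 := by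
    intro w
    by_cases hw : ∃ v, p v = w
    · obtain ⟨v, rfl⟩ := hw
      rw [hdeg]
      exact hd _
    · have h1 : degA (p ∘ s) (p ∘ t) A w = 0 := by
        unfold degA
        simp only [Function.comp]
        rw [filter_false_of_mem (fun e _ h => hw ⟨s e, h⟩),
          filter_false_of_mem (fun e _ h => hw ⟨t e, h⟩)]
        simp
      rw [h1]
      norm_num
  have hZ : ZF (p' ∘ s) (p' ∘ t) A = ZF (p ∘ s) (p ∘ t) A := by
    ext x
    constructor
    · rintro ⟨h1, h2⟩
      refine ⟨h1, fun w => ?_⟩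
      by_cases hw : ∃ v, p v = w
      · obtain ⟨v, rfl⟩ := hw
        rw [hbd]
        exact h2 _
      · unfold bd2
        refine sum_eq_zero fun e _ => ?_
        simp only [Function.comp]
        rw [if_neg (fun h => hw ⟨s e, h⟩), if_neg (fun h => hw ⟨t e, h⟩), add_zero]
    · rintro ⟨h1, h2⟩
      refine ⟨h1, fun w => ?_⟩
      by_cases hw : ∃ v, p' v = w
      · obtain ⟨v, rfl⟩ := hw
        rw [← hbd]
        exact h2 _
      · unfold bd2
        refine sum_eq_zero fun e _ => ?_
        simp only [Function.comp]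
        rw [if_neg (fun h => hw ⟨s e, h⟩), if_neg (fun h => hw ⟨t e, h⟩), add_zero]
  rw [hZ]
  exact h A hl' hd'

end cls

section data

variable {V E : Type} [Fintype V] [DecidableEq V] [Fintype E] [DecidableEq E]

/-- order and number of edges of a minimal quotient -/
theorem data2 (hc : St_contract) (ha : St_ahl) {src dst : E → V} (hM : MinC src dst)
    (hex : ∃ x y, Adj src dst x y) :
    ∃ y : ℝ, 0 ≤ y ∧ y ≤ 1 / 3 ∧ 2 * ∑ i ∈ range 6, (2 + y) ^ i ≤ ((Bv src dst).card : ℝ) ∧
      (3 + y) * ((Bv src dst).card : ℝ) = ((∑ a ∈ Bv src dst, dg src dst a : ℕ) : ℝ) ∧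
      (∀ a ∈ Bv src dst, 3 ≤ dg src dst a) ∧
      ∑ a ∈ Bv src dst, dg src dst a = 2 * (ein src dst univ).card := by
  classical
  have h3 := threeC hc hM
  have hgi := girthC hc hM
  set B : Finset V := Bv src dst with hB
  have hmB : ∀ v, v ∈ B ↔ ∃ y, Adj src dst v y := fun v => mem_Bv
  let G : SimpleGraph B :=
    { Adj := fun a b => Adj src dst a b
      symm := ⟨fun a b h => GiAux.adj_symm h⟩
      loopless := ⟨fun a h => h.1 rfl⟩ }
  have hGA : ∀ a b : B, G.Adj a b ↔ Adj src dst a b := fun a b => Iff.rfl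
  obtain ⟨x0, y0, hxy0⟩ := hex
  haveI : Nonempty B := ⟨⟨x0, (hmB x0).2 ⟨y0, hxy0⟩⟩⟩
  have hdeg : ∀ a : B, dg src dst a ≤ G.degree a := by
    intro a
    refine (dg_le_nb hc hM a).trans ?_
    rw [← G.card_neighborFinset_eq_degree]
    have h5 : nb src dst a ⊆ (G.neighborFinset a).map (Function.Embedding.subtype _) := by
      intro w hw
      have hw' : Adj src dst a w := (mem_filter.1 hw).2
      have hwB : w ∈ B := (hmB w).2 ⟨a, GiAux.adj_symm hw'⟩
      rw [mem_map]
      exact ⟨⟨w, hwB⟩, by rw [SimpleGraph.mem_neighborFinset, hGA]; exact hw', rfl⟩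
    have h6 := card_le_card h5
    rwa [card_map] at h6
  have hdg3 : ∀ a : B, 3 ≤ dg src dst a := by
    intro a
    obtain ⟨y, hy⟩ := (hmB a).1 a.2
    exact Ord.three_dg h3 hy
  have hdeg3 : ∀ a : B, 3 ≤ G.degree a := fun a => (hdg3 a).trans (hdeg a)
  have hahl := ha B G (fun a => by have := hdeg3 a; omega) (by
    intro k hk v hv h
    exact hgi k hk (fun i => (v i : V)) (fun i j hij => hv (Subtype.ext hij)) h)
  -- sparsity
  have hB2 : 2 ≤ B.card := by
    have h5 : ({x0, y0} : Finset V) ⊆ B := by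
      intro z hz
      rw [mem_insert, mem_singleton] at hz
      rcases hz with rfl | rfl
      · exact (hmB _).2 ⟨y0, hxy0⟩
      · exact (hmB _).2 ⟨x0, GiAux.adj_symm hxy0⟩
    have h6 := card_le_card h5
    rwa [card_pair hxy0.1] at h6
  have hsp := sparse hM B hB2
  have heB : ein src dst B = ein src dst univ := by
    ext e
    rw [mem_ein, mem_ein]
    constructor
    · rintro ⟨_, _, h⟩; exact ⟨mem_univ _, mem_univ _, h⟩
    · rintro ⟨_, _, h⟩
      exact ⟨(hmB _).2 ⟨dst e, h, e, Or.inl ⟨rfl, rfl⟩⟩,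
        (hmB _).2 ⟨src e, h.symm, e, Or.inr ⟨rfl, rfl⟩⟩, h⟩
  have hsumN : ∑ a ∈ B, dg src dst a = 2 * (ein src dst B).card := by
    rw [heB, ← sum_dg]
    refine sum_subset (subset_univ _) fun y _ hy => ?_
    by_contra h0
    have h1 : 0 < (univ.filter (fun e => src e ≠ dst e ∧ (src e = y ∨ dst e = y))).card :=
      Nat.pos_of_ne_zero h0
    obtain ⟨e, he⟩ := card_pos.1 h1
    obtain ⟨_, h4, h5⟩ := mem_filter.1 he
    apply hy
    rcases h5 with h5 | h5
    · exact (hmB _).2 ⟨dst e, h5 ▸ h4, e, Or.inl ⟨h5, rfl⟩⟩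
    · exact (hmB _).2 ⟨src e, h5 ▸ h4.symm, e, Or.inr ⟨rfl, h5⟩⟩
  set N : ℝ := (B.card : ℝ) with hN
  have hNc : (Fintype.card B : ℝ) = N := by rw [Fintype.card_coe]
  set m : ℝ := (G.edgeFinset.card : ℝ) with hm
  set S : ℝ := ((∑ a ∈ B, dg src dst a : ℕ) : ℝ) with hS
  have hN0 : 0 < N := by
    rw [hN]
    exact_mod_cast (by omega : 0 < B.card)
  rw [hNc] at hahl
  have hsum : ∑ a : B, (G.degree a : ℝ) = 2 * m := by
    rw [hm]
    exact_mod_cast G.sum_degrees_eq_twice_card_edges
  have hSm : S ≤ 2 * m := by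
    rw [← hsum, hS, ← sum_coe_sort B (fun a => dg src dst a)]
    push_cast
    exact sum_le_sum fun a _ => by exact_mod_cast hdeg a
  have hS3 : 3 * N ≤ S := by
    have h5 : 3 * B.card ≤ ∑ a ∈ B, dg src dst a := by
      rw [mul_comm, ← smul_eq_mul, ← sum_const]
      exact sum_le_sum fun a ha => hdg3 ⟨a, ha⟩
    rw [hN, hS]
    exact_mod_cast h5
  have hSup : 3 * S + 12 ≤ 10 * N := by
    have h5 : 3 * ∑ a ∈ B, dg src dst a + 12 ≤ 10 * B.card := by omega
    rw [hN, hS]
    exact_mod_cast h5
  set x : ℝ := S / N - 1 with hx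
  have hx2 : 2 ≤ x := by
    rw [hx]
    have : 3 ≤ S / N := by rwa [le_div_iff₀ hN0]
    linarith
  have hx3 : x ≤ 7 / 3 := by
    rw [hx]
    have : S / N ≤ 10 / 3 := by
      rw [div_le_iff₀ hN0]
      linarith
    linarith
  have hxx : x ≤ 2 * m / N - 1 := by
    rw [hx]
    have : S / N ≤ 2 * m / N := div_le_div_of_nonneg_right hSm hN0.le
    linarith
  have hmono : 2 * ∑ i ∈ range 6, x ^ i ≤ N := by
    refine le_trans ?_ hahl
    refine mul_le_mul_of_nonneg_left (sum_le_sum fun i _ => ?_) (by norm_num)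
    exact pow_le_pow_left₀ (by linarith) hxx i
  refine ⟨x - 2, by linarith, by linarith, ?_, ?_, fun a ha => hdg3 ⟨a, ha⟩, by rw [hsumN, heB]⟩
  · rw [show 2 + (x - 2) = x by ring]
    exact hmono
  · rw [hx]
    field_simp
    ring

theorem num_key {y : ℝ} (h0 : 0 ≤ y) (h1 : y ≤ 1 / 3) :
    126 ≤ (1 - y) * (2 * ∑ i ∈ range 6, (2 + y) ^ i) := by
  have key : (1 - y) * (2 * ∑ i ∈ range 6, (2 + y) ^ i) =
      2 * (63 + 66 * y - 18 * y ^ 2 - 62 * y ^ 3 - 38 * y ^ 4 - 10 * y ^ 5 - y ^ 6) := by
    rw [sum_range_succ, sum_range_succ, sum_range_succ, sum_range_succ, sum_range_succ,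
      sum_range_succ, sum_range_zero]
    ring
  rw [key]
  have e2 : y ^ 2 ≤ y / 3 := by nlinarith
  have e3 : y ^ 3 ≤ y / 9 := by nlinarith [mul_nonneg h0 h0]
  have e4 : y ^ 4 ≤ y / 27 := by
    have : y ^ 4 = y ^ 3 * y := by ring
    rw [this]
    nlinarith [pow_nonneg h0 3]
  have e5 : y ^ 5 ≤ y / 81 := by
    have : y ^ 5 = y ^ 4 * y := by ring
    rw [this]
    nlinarith [pow_nonneg h0 4]
  have e6 : y ^ 6 ≤ y / 243 := by
    have : y ^ 6 = y ^ 5 * y := by ring
    rw [this]
    nlinarith [pow_nonneg h0 5]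
  nlinarith

/-- `4 n - 2 m ≥ 126` for the numbers of the vertices (which are not isolated) and of the edges -/
theorem four_n (hc : St_contract) (ha : St_ahl) {src dst : E → V} (hM : MinC src dst)
    (hex : ∃ x y, Adj src dst x y) :
    126 + ∑ a ∈ Bv src dst, dg src dst a ≤ 4 * (Bv src dst).card := by
  obtain ⟨y, h0, h1, h2, h3, -, -⟩ := data2 hc ha hM hex
  have h4 := num_key h0 h1
  have h5 : (1 - y) * (2 * ∑ i ∈ range 6, (2 + y) ^ i) ≤ (1 - y) * ((Bv src dst).card : ℝ) :=
    mul_le_mul_of_nonneg_left h2 (by linarith)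
  have h6 : (126 : ℝ) + ((∑ a ∈ Bv src dst, dg src dst a : ℕ) : ℝ) ≤ 4 * ((Bv src dst).card : ℝ) := by
    rw [← h3]
    linarith
  exact_mod_cast h6

/-- **a subcubic subgraph with cyclomatic number at least 64** -/
theorem sub64 (hc : St_contract) (ha : St_ahl) {src dst : E → V} (hM : MinC src dst)
    (hex : ∃ x y, Adj src dst x y) : ¬ Sub3 63 src dst := by
  classical
  intro hS
  have h126 := four_n hc ha hM hex
  obtain ⟨-, -, -, -, -, h3, h2⟩ := data2 hc ha hM hex
  -- the edges at a vertex
  set inc : V → Finset E := fun v => univ.filter (fun e => src e ≠ dst e ∧ (src e = v ∨ dst e = v))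
    with hinc
  have hD : ∀ v, ∃ D ⊆ inc v, D.card = dg src dst v - 3 := fun v =>
    exists_subset_card_eq (Nat.sub_le _ _)
  choose D hDs hDc using hD
  set B := Bv src dst with hB
  set A : Finset E := ein src dst univ \ B.biUnion D with hA
  have hAl : ∀ e ∈ A, src e ≠ dst e := fun e he => (mem_ein.1 (mem_sdiff.1 he).1).2.2
  have hends : ∀ e ∈ A, src e ∈ B ∧ dst e ∈ B := by
    intro e he
    have h4 := hAl e he
    exact ⟨mem_Bv.2 ⟨dst e, h4, e, Or.inl ⟨rfl, rfl⟩⟩, mem_Bv.2 ⟨src e, h4.symm, e, Or.inr ⟨rfl, rfl⟩⟩⟩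
  have hAdeg : ∀ v, degA src dst A v ≤ 3 := by
    intro v
    have h4 : degA src dst A v = (A.filter (fun e => src e = v ∨ dst e = v)).card := by
      unfold degA
      rw [← card_union_of_disjoint, ← filter_or]
      rw [disjoint_filter]
      intro e he h5 h6
      exact hAl e he (h5.trans h6.symm)
    rw [h4]
    by_cases hv : v ∈ B
    · have h5 : A.filter (fun e => src e = v ∨ dst e = v) ⊆ inc v \ D v := by
        intro e he
        obtain ⟨h6, h7⟩ := mem_filter.1 he
        rw [mem_sdiff]
        refine ⟨mem_filter.2 ⟨mem_univ _, hAl e h6, h7⟩, fun h8 => ?_⟩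
        exact (mem_sdiff.1 h6).2 (mem_biUnion.2 ⟨v, hv, h8⟩)
      refine (card_le_card h5).trans ?_
      rw [card_sdiff_of_subset (hDs v), hDc]
      have h8 : (inc v).card = dg src dst v := rfl
      rw [h8]
      omega
    · have h5 : A.filter (fun e => src e = v ∨ dst e = v) = ∅ := by
        rw [filter_eq_empty_iff]
        rintro e he (h6 | h6)
        · exact hv (h6 ▸ (hends e he).1)
        · exact hv (h6 ▸ (hends e he).2)
      rw [h5]
      simp
  have hfr := hS A hAl hAdeg
  obtain ⟨x0, y0, hxy⟩ := hex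
  have hBne : B.Nonempty := ⟨x0, mem_Bv.2 ⟨y0, hxy⟩⟩
  have hdim := dim V E src dst A B hBne hends
  have hcardA : (ein src dst univ).card ≤ A.card + ∑ v ∈ B, (dg src dst v - 3) := by
    have h4 : (ein src dst univ).card ≤ A.card + (B.biUnion D).card := by
      rw [hA]
      exact card_le_card_sdiff_add_card
    have h5 : (B.biUnion D).card ≤ ∑ v ∈ B, (D v).card := card_biUnion_le
    have h6 : ∑ v ∈ B, (D v).card = ∑ v ∈ B, (dg src dst v - 3) := sum_congr rfl fun v _ => hDc v
    omega
  have hsum3 : ∑ v ∈ B, (dg src dst v - 3) + 3 * B.card = ∑ v ∈ B, dg src dst v := by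
    rw [mul_comm, ← smul_eq_mul, ← sum_const, ← sum_add_distrib]
    exact sum_congr rfl fun v hv => Nat.sub_add_cancel (h3 v hv)
  omega

end data

end Pool.Agent.J4.H42.Fl
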