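import Pool.Agent.J4.H42.FlA

/-!
# Flows from subcubic subgraphs and from partitions
-/

set_option autoImplicit false
set_option linter.unusedSectionVars false

namespace Pool.Agent.J4.H42.Fl

open Finset Pool.Agent.TH676.Z Pool.Agent.Y335.FL Pool.Agent.Y358.IN Pool.Agent.N410.FV

variable {V E : Type} [Fintype V] [DecidableEq V] [Fintype E] [DecidableEq E]

theorem br_comp {W : Type} [Fintype W] [DecidableEq W] {s d : E → V} (r : V → W)
    (hbr : Br s d ∅ ∅) : Br (r ∘ s) (r ∘ d) ∅ ∅ := by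
  intro Y _
  have h1 := hbr (univ.filter (fun v => r v ∈ Y)) (disjoint_empty_right _)
  rw [sdiff_empty] at h1 ⊢
  have h2 : crs (r ∘ s) (r ∘ d) Y = crs s d (univ.filter (fun v => r v ∈ Y)) := by
    ext e
    rw [mem_crs', mem_crs', mem_filter, mem_filter]
    simp
  rw [h2]
  exact h1

/-- joined by edges of `F` -/
def Joined (s d : E → V) (F : Finset E) : V → V → Prop :=
  Relation.EqvGen (fun a b => ∃ e ∈ F, s e = a ∧ d e = b)

/-- **Subcubic subgraphs of the graph in which `F` is contracted.** -/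
theorem flow_sub3 (hq : St_quot) (hc : St_contract) (ha : St_ahl) (s d : E → V) (F : Finset E)
    (hbr : Br s d ∅ ∅) {W : Type} [Fintype W] [DecidableEq W] (q : V → W)
    (hqF : ∀ x y, q x = q y ↔ Joined s d F x y) (h : Sub3 63 (q ∘ s) (q ∘ d)) :
    FlowOn s d ∅ F := by
  classical
  obtain ⟨W', _, _, r, hr, hrF, hl, hY⟩ := hq V E s d F
  have h0 : FlowOn (r ∘ s) (r ∘ d) ∅ ∅ → FlowOn s d ∅ F := fun h => by
    have h1 := hl ∅ h
    rwa [union_empty] at h1
  apply h0
  by_contra hn
  have hfib : ∀ x y, q x = q y ↔ r x = r y := by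
    intro x y
    constructor
    · intro h1
      have h2 := (hqF x y).1 h1
      induction h2 with
      | rel a b h3 =>
        obtain ⟨e, he, rfl, rfl⟩ := h3
        exact hrF e he
      | refl a => rfl
      | symm a b _ ih => exact (ih ((hqF _ _).2 (by assumption))).symm
      | trans a b c h4 h5 ih1 ih2 =>
        exact (ih1 ((hqF _ _).2 h4)).trans (ih2 ((hqF _ _).2 h5))
    · intro h1
      have h2 := hY (univ.filter (fun v => q v = q x)) (by
        rw [disjoint_left]
        intro e he heF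
        rw [mem_crs', mem_filter, mem_filter] at he
        apply he
        have h3 : q (s e) = q (d e) := (hqF _ _).2 (Relation.EqvGen.rel _ _ ⟨e, heF, rfl, rfl⟩)
        simp only [mem_univ, true_and, h3]) x y h1
      have h3 := h2.1 (by simp)
      rw [mem_filter] at h3
      exact h3.2.symm
  have hr3 : Sub3 63 (r ∘ s) (r ∘ d) := sub3_congr s d q r hfib h
  obtain ⟨s1, d1, hcl, hM⟩ := exists_minC (sub3_cc 63) (r ∘ s) (r ∘ d) hr3 (br_comp r hbr) hn
  by_cases hloop : ∀ e, s1 e = d1 e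
  · exact hM.nf (flow_of_loops hloop)
  push Not at hloop
  obtain ⟨e0, he0⟩ := hloop
  exact sub64 hc ha hM ⟨s1 e0, d1 e0, he0, e0, Or.inl ⟨rfl, rfl⟩⟩ hcl

/-- for every partition into `k` classes with at least three boundary edges and without crossing
edges in `F`, and `m` crossing edges, `3 m ≥ 5 k - 5` or
`k < 2 (1 + x + ... + x ^ 5)` with `x = 2 m / k - 1` -/
def Crowd (s d : E → V) (F : Finset E) : Prop :=
  ∀ (k : ℕ) (p : V → Fin k), Function.Surjective p → (∀ e ∈ F, p (s e) = p (d e)) →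
    (∀ i, 3 ≤ (crs s d (fib p i)).card) →
    5 * k ≤ 3 * (univ.filter (fun e => p (s e) ≠ p (d e))).card + 5 ∨
    (k : ℝ) < 2 * ∑ i ∈ range 6,
      (2 * ((univ.filter (fun e => p (s e) ≠ p (d e))).card : ℝ) / k - 1) ^ i

/-- **Partitions** -/
theorem flow_crowd (hq : St_quot) (hc : St_contract) (ha : St_ahl) (s d : E → V) (F : Finset E)
    (hbr : Br s d ∅ ∅) (h : Crowd s d F) : FlowOn s d ∅ F := by
  classical
  obtain ⟨W, _, _, r, hr, hrF, hl, -⟩ := hq V E s d F
  have h0 : FlowOn (r ∘ s) (r ∘ d) ∅ ∅ → FlowOn s d ∅ F := fun h => by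
    have h1 := hl ∅ h
    rwa [union_empty] at h1
  apply h0
  by_contra hn
  have hbr' : Br (r ∘ s) (r ∘ d) ∅ ∅ := br_comp r hbr
  obtain ⟨s1, d1, ⟨ρ, rfl, rfl⟩, hM⟩ := exists_minC (ccR (r ∘ s) (r ∘ d)) (r ∘ s) (r ∘ d)
    ⟨id, rfl, rfl⟩ hbr' hn
  set P : V → W := ρ ∘ r with hP
  have e1 : ρ ∘ r ∘ s = P ∘ s := rfl
  have e2 : ρ ∘ r ∘ d = P ∘ d := rfl
  rw [e1, e2] at hM
  by_cases hloop : ∀ e, (P ∘ s) e = (P ∘ d) e
  · exact hM.nf (flow_of_loops hloop)
  push Not at hloop
  obtain ⟨e0, he0⟩ := hloop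
  have hex : ∃ x y, Adj (P ∘ s) (P ∘ d) x y :=
    ⟨(P ∘ s) e0, (P ∘ d) e0, he0, e0, Or.inl ⟨rfl, rfl⟩⟩
  obtain ⟨y, hy0', hy1, hy2, hy3, hdg3, hsum⟩ := data2 hc ha hM hex
  set B : Finset W := Bv (P ∘ s) (P ∘ d) with hB
  have hmB : ∀ x, x ∈ B ↔ ∃ z, Adj (P ∘ s) (P ∘ d) x z := fun x => mem_Bv
  have hends : ∀ e, P (s e) ≠ P (d e) → P (s e) ∈ B ∧ P (d e) ∈ B := by
    intro e he
    exact ⟨(hmB _).2 ⟨P (d e), he, e, Or.inl ⟨rfl, rfl⟩⟩,
      (hmB _).2 ⟨P (s e), he.symm, e, Or.inr ⟨rfl, rfl⟩⟩⟩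
  obtain ⟨hy0, hz0⟩ := hends e0 he0
  set y0 := P (s e0) with hy0'
  set k := B.card with hk
  set φ : B ≃ Fin k := B.equivFin with hφ
  set q : V → W := fun v => if P v ∈ B then P v else y0 with hq'
  have hqB : ∀ v, q v ∈ B := by
    intro v
    by_cases h1 : P v ∈ B
    · simp only [hq', if_pos h1]; exact h1
    · simp only [hq', if_neg h1]; exact hy0
  have hqe : ∀ e, P (s e) ≠ P (d e) → q (s e) = P (s e) ∧ q (d e) = P (d e) := by
    intro e he
    obtain ⟨h1, h2⟩ := hends e he
    exact ⟨if_pos h1, if_pos h2⟩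
  have hqe' : ∀ e, P (s e) = P (d e) → q (s e) = q (d e) := by
    intro e he
    simp only [hq', he]
  have hqiff : ∀ e, q (s e) ≠ q (d e) ↔ P (s e) ≠ P (d e) := by
    intro e
    constructor
    · intro h1 h2
      exact h1 (hqe' e h2)
    · intro h1
      rw [(hqe e h1).1, (hqe e h1).2]
      exact h1
  set p : V → Fin k := fun v => φ ⟨q v, hqB v⟩ with hp
  have hpiff : ∀ e, p (s e) ≠ p (d e) ↔ P (s e) ≠ P (d e) := by
    intro e
    rw [← hqiff e]
    constructor
    · intro h1 h2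
      exact h1 (congrArg φ (Subtype.ext h2))
    · intro h1 h2
      exact h1 (congrArg Subtype.val (φ.injective h2))
  have hpi : ∀ i v, p v = i ↔ q v = (φ.symm i).1 := by
    intro i v
    constructor
    · intro h1
      rw [← h1]
      simp [hp]
    · intro h1
      have h2 : (⟨q v, hqB v⟩ : B) = φ.symm i := Subtype.ext h1
      simp only [hp, h2, Equiv.apply_symm_apply]
  have hcrs : ∀ i, crs s d (fib p i) = univ.filter (fun e => (P ∘ s) e ≠ (P ∘ d) e ∧
      ((P ∘ s) e = (φ.symm i).1 ∨ (P ∘ d) e = (φ.symm i).1)) := by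
    intro i
    ext e
    rw [mem_crs', mem_fib, mem_fib, hpi, hpi, mem_filter]
    simp only [mem_univ, true_and, Function.comp]
    by_cases h1 : P (s e) = P (d e)
    · have h2 := hqe' e h1
      rw [h2]
      simp [h1]
    · rw [(hqe e h1).1, (hqe e h1).2]
      have h5 : ∀ y, P (s e) = y → P (d e) = y → False := fun y h2 h3 => h1 (h2.trans h3.symm)
      have h6 := h5 (φ.symm i).1
      by_cases h7 : P (s e) = (φ.symm i).1 <;> by_cases h8 : P (d e) = (φ.symm i).1
      · exact (h6 h7 h8).elim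
      · simp [h7, h8]
        intro h9
        exact h8 h9.symm
      · simp [h7, h8]
      · simp [h7, h8]
  have hcard : ∀ i, (crs s d (fib p i)).card = dg (P ∘ s) (P ∘ d) (φ.symm i).1 := by
    intro i
    rw [hcrs]
    rfl
  have hcr : (univ.filter (fun e => p (s e) ≠ p (d e))) = ein (P ∘ s) (P ∘ d) B := by
    ext e
    rw [mem_filter, mem_ein, hpiff]
    simp only [mem_univ, true_and, Function.comp]
    exact ⟨fun h1 => ⟨(hends e h1).1, (hends e h1).2, h1⟩, fun h1 => h1.2.2⟩
  have hcr' : ein (P ∘ s) (P ∘ d) B = ein (P ∘ s) (P ∘ d) univ := by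
    ext e
    rw [mem_ein, mem_ein]
    constructor
    · rintro ⟨_, _, h⟩; exact ⟨mem_univ _, mem_univ _, h⟩
    · rintro ⟨_, _, h⟩
      exact ⟨(hends e h).1, (hends e h).2, h⟩
  have hB2 : 2 ≤ B.card := by
    have h5 : ({P (s e0), P (d e0)} : Finset W) ⊆ B := by
      intro z hz
      rw [mem_insert, mem_singleton] at hz
      rcases hz with rfl | rfl
      · exact hy0
      · exact hz0
    have h6 := card_le_card h5
    rwa [card_pair (show P (s e0) ≠ P (d e0) from he0)] at h6
  have hsp := sparse hM B hB2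
  have hmain := h k p (fun i => by
      obtain ⟨z, h4, e, he⟩ := (hmB _).1 (φ.symm i).2
      rcases he with ⟨h5, h6⟩ | ⟨h5, h6⟩
      · have h7 : P (s e) ≠ P (d e) := by
          change (P ∘ s) e ≠ (P ∘ d) e
          rw [h5, h6]; exact h4
        exact ⟨s e, (hpi _ _).2 (by rw [(hqe e h7).1]; exact h5)⟩
      · have h7 : P (s e) ≠ P (d e) := by
          change (P ∘ s) e ≠ (P ∘ d) e
          rw [h5, h6]; exact h4.symm
        exact ⟨d e, (hpi _ _).2 (by rw [(hqe e h7).2]; exact h6)⟩)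
    (fun e he => by
      by_contra h1
      have h2 := (hpiff e).1 h1
      apply h2
      simp only [hP, Function.comp, hrF e he])
    (fun i => by rw [hcard]; exact hdg3 _ (φ.symm i).2)
  rw [hcr] at hmain
  rcases hmain with hmain | hmain
  · omega
  · have hk0 : (0 : ℝ) < (k : ℝ) := by exact_mod_cast (by omega : 0 < k)
    have h5 : 2 * ((ein (P ∘ s) (P ∘ d) B).card : ℝ) / k - 1 = 2 + y := by
      have h6 : ((∑ a ∈ B, dg (P ∘ s) (P ∘ d) a : ℕ) : ℝ) = 2 * ((ein (P ∘ s) (P ∘ d) B).card : ℝ) := by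
        rw [hsum, hcr']
        push_cast
        ring
      rw [← h6, ← hy3]
      rw [mul_div_assoc, div_self hk0.ne']
      ring
    rw [h5] at hmain
    linarith

/-- the number of crossing edges of a partition -/
theorem crowd_of_two (s d : E → V) (F : Finset E)
    (h : ∀ (k : ℕ) (p : V → Fin k), Function.Surjective p → (∀ e ∈ F, p (s e) = p (d e)) →
      2 * k ≤ (univ.filter (fun e => p (s e) ≠ p (d e))).card + 62) : Crowd s d F := by
  classical
  intro k p hp hF h3
  by_contra hcon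
  push Not at hcon
  obtain ⟨hc1, hc2⟩ := hcon
  have h1 := h k p hp hF
  set m := (univ.filter (fun e => p (s e) ≠ p (d e))).card with hm
  have hk : 0 < k := by omega
  have hkR : (0 : ℝ) < k := by exact_mod_cast hk
  -- `3 k ≤ 2 m`
  have h4 : 3 * k ≤ 2 * m := by
    have h5 : ∑ i : Fin k, 3 ≤ ∑ i : Fin k, (crs s d (fib p i)).card := sum_le_sum fun i _ => h3 i
    rw [sum_const, card_univ, Fintype.card_fin, smul_eq_mul] at h5
    have h6 : ∑ i : Fin k, (crs s d (fib p i)).card ≤ 2 * m := by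
      have h7 : ∀ i : Fin k, (crs s d (fib p i)).card ≤
          ((univ.filter (fun e => p (s e) ≠ p (d e))).filter (fun e => p (s e) = i)).card +
          ((univ.filter (fun e => p (s e) ≠ p (d e))).filter (fun e => p (d e) = i)).card := by
        intro i
        refine le_trans (card_le_card ?_) (card_union_le _ _)
        intro e he
        rw [mem_crs', mem_fib, mem_fib] at he
        simp only [mem_union, mem_filter, mem_univ, true_and]
        have h8 : p (s e) ≠ p (d e) := fun h => he (by rw [h])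
        by_cases h9 : p (s e) = i
        · left; exact ⟨h8, h9⟩
        · right
          refine ⟨h8, ?_⟩
          by_contra h10
          exact he ⟨fun h => absurd h h9, fun h => absurd h h10⟩
      refine (sum_le_sum fun i _ => h7 i).trans ?_
      rw [sum_add_distrib, ← card_eq_sum_card_fiberwise (f := fun e => p (s e)) (t := univ)
        (fun x _ => mem_univ _), ← card_eq_sum_card_fiberwise (f := fun e => p (d e)) (t := univ)
        (fun x _ => mem_univ _)]
      omega
    omega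
  set y : ℝ := 2 * (m : ℝ) / k - 3 with hy
  have hy0 : 0 ≤ y := by
    have : (3 : ℝ) ≤ 2 * (m : ℝ) / k := by
      rw [le_div_iff₀ hkR]
      exact_mod_cast h4
    linarith
  have hy1 : y ≤ 1 / 3 := by
    have : 2 * (m : ℝ) / k ≤ 10 / 3 := by
      rw [div_le_iff₀ hkR]
      have h5 : 6 * m ≤ 10 * k := by omega
      have h6 : (6 : ℝ) * m ≤ 10 * k := by exact_mod_cast h5
      linarith
    linarith
  have hkey := num_key hy0 hy1
  have h5 : 2 * (m : ℝ) / k - 1 = 2 + y := by rw [hy]; ring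
  rw [h5] at hc2
  have h6 : (1 - y) * (2 * ∑ i ∈ range 6, (2 + y) ^ i) ≤ (1 - y) * (k : ℝ) :=
    mul_le_mul_of_nonneg_left hc2 (by linarith)
  have h7 : (1 - y) * (k : ℝ) = 4 * k - 2 * m := by
    rw [hy]
    field_simp
    ring
  rw [h7] at h6
  have h8 : (2 : ℝ) * k ≤ m + 62 := by exact_mod_cast h1
  linarith

/-- a set of edges which connects all vertices has at least `k - 1` crossing edges -/
theorem cross_of_conn (s d : E → V) (T : Finset E)
    (hT : ∀ Y : Finset V, Y.Nonempty → Y ≠ univ → ∃ e ∈ T, ¬ (s e ∈ Y ↔ d e ∈ Y))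
    (k : ℕ) (p : V → Fin k) (hp : Function.Surjective p) :
    k ≤ (T.filter (fun e => p (s e) ≠ p (d e))).card + 1 := by
  classical
  rcases Nat.eq_zero_or_pos k with hk | hk
  · omega
  haveI : NeZero k := ⟨by omega⟩
  haveI : Nonempty (Fin k) := ⟨⟨0, hk⟩⟩
  set C := T.filter (fun e => p (s e) ≠ p (d e)) with hC
  let G : SimpleGraph (Fin k) := SimpleGraph.fromEdgeSet {z | ∃ e ∈ C, z = s(p (s e), p (d e))}
  have hadj : ∀ e ∈ C, G.Adj (p (s e)) (p (d e)) := by
    intro e he
    rw [SimpleGraph.fromEdgeSet_adj]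
    exact ⟨⟨e, he, rfl⟩, (mem_filter.1 he).2⟩
  have hconn : G.Connected := by
    rw [SimpleGraph.connected_iff_exists_forall_reachable]
    refine ⟨⟨0, hk⟩, fun w => ?_⟩
    by_contra hw
    set Y : Finset V := univ.filter (fun v => G.Reachable ⟨0, hk⟩ (p v)) with hY
    obtain ⟨v0, hv0⟩ := hp ⟨0, hk⟩
    obtain ⟨w0, hw0⟩ := hp w
    obtain ⟨e, heT, he⟩ := hT Y ⟨v0, mem_filter.2 ⟨mem_univ _, by rw [hv0]⟩⟩ (by
      intro h
      have h1 : w0 ∈ Y := by rw [h]; exact mem_univ _
      rw [mem_filter, hw0] at h1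
      exact hw h1.2)
    rw [mem_filter, mem_filter] at he
    simp only [mem_univ, true_and] at he
    by_cases h2 : p (s e) = p (d e)
    · rw [h2] at he
      exact he Iff.rfl
    · have h3 := hadj e (mem_filter.2 ⟨heT, h2⟩)
      exact he ⟨fun h => h.trans h3.reachable, fun h => h.trans h3.symm.reachable⟩
  have h1 := hconn.card_vert_le_card_edgeSet_add_one
  rw [Nat.card_eq_fintype_card, Fintype.card_fin] at h1
  refine h1.trans ?_
  apply Nat.add_le_add_right
  have h2 : G.edgeSet ⊆ ((C.image (fun e => s(p (s e), p (d e))) : Finset (Sym2 (Fin k))) :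
      Set (Sym2 (Fin k))) := by
    intro z hz
    rw [SimpleGraph.edgeSet_fromEdgeSet] at hz
    obtain ⟨⟨e, he, rfl⟩, -⟩ := hz
    rw [mem_coe, mem_image]
    exact ⟨e, he, rfl⟩
  have h3 : Nat.card G.edgeSet ≤ (C.image (fun e => s(p (s e), p (d e)))).card := by
    rw [Nat.card_coe_set_eq, ← Set.ncard_coe_finset]
    exact Set.ncard_le_ncard h2 (Finset.finite_toSet _)
  exact h3.trans card_image_le

/-- two connecting sets of edges with few common edges -/
theorem crowd_of_trees (s d : E → V) (F T T' : Finset E)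
    (hT : ∀ Y : Finset V, Y.Nonempty → Y ≠ univ → ∃ e ∈ T, ¬ (s e ∈ Y ↔ d e ∈ Y))
    (hT' : ∀ Y : Finset V, Y.Nonempty → Y ≠ univ → ∃ e ∈ T', ¬ (s e ∈ Y ↔ d e ∈ Y))
    (h60 : ((T ∩ T') \ F).card ≤ 60) : Crowd s d F := by
  classical
  refine crowd_of_two s d F fun k p hp hF => ?_
  have h1 := cross_of_conn s d T hT k p hp
  have h2 := cross_of_conn s d T' hT' k p hp
  set C := univ.filter (fun e => p (s e) ≠ p (d e)) with hC
  have h3 : (T.filter (fun e => p (s e) ≠ p (d e)) ∪ T'.filter (fun e => p (s e) ≠ p (d e))).card ≤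
      C.card := by
    apply card_le_card
    intro e he
    rw [mem_union, mem_filter, mem_filter] at he
    rw [hC, mem_filter]
    exact ⟨mem_univ _, by tauto⟩
  have h4 : (T.filter (fun e => p (s e) ≠ p (d e)) ∩ T'.filter (fun e => p (s e) ≠ p (d e))).card ≤
      60 := by
    refine le_trans (card_le_card ?_) h60
    intro e he
    rw [mem_inter, mem_filter, mem_filter] at he
    rw [mem_sdiff, mem_inter]
    exact ⟨⟨he.1.1, he.2.1⟩, fun h => he.1.2 (hF e h)⟩
  have h5 := card_union_add_card_inter (T.filter (fun e => p (s e) ≠ p (d e)))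
    (T'.filter (fun e => p (s e) ≠ p (d e)))
  omega

end Pool.Agent.J4.H42.Fl
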