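import Mathlib

/-!
# Isomorphism invariant families: coding

A family of subsets of `[N]^d`, `d = e + 2`, which is closed under permutations is built from families on smaller sets. The
vertices of a rare rigid pattern `v` serve to label the other vertices.
-/

set_option autoImplicit false

namespace Pool.Agent.J4.H42.Iso

open Finset

variable {e n N : ℕ}

/-- the pattern: on the points `v i` the set `A` is the set of the cells with `c 0 ≤ c 1` -/
def Ev (v : Fin n → Fin N) (A : Finset (Fin (e + 2) → Fin N)) : Prop :=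
  ∀ c : Fin (e + 2) → Fin n, (fun i => v (c i)) ∈ A ↔ c 0 ≤ c 1

/-- the type of the labels -/
abbrev Lb (e n : ℕ) : Type := Finset (Bool × (Fin (e + 1) → Fin n))

/-- the position of the new point -/
def pos (e : ℕ) (b : Bool) : Fin (e + 2) := if b then 0 else 1

/-- the cells which contain `x` once -/
def cl (v : Fin n → Fin N) (q : Bool × (Fin (e + 1) → Fin n)) (x : Fin N) : Fin (e + 2) → Fin N :=
  (pos e q.1).insertNth x (fun i => v (q.2 i))

/-- the label of a point -/
def lab (v : Fin n → Fin N) (A : Finset (Fin (e + 2) → Fin N)) (x : Fin N) : Lb e n :=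
  univ.filter fun q => cl v q x ∈ A

lemma mem_lab {v : Fin n → Fin N} {A : Finset (Fin (e + 2) → Fin N)} {x : Fin N}
    {q : Bool × (Fin (e + 1) → Fin n)} : q ∈ lab v A x ↔ cl v q x ∈ A := by
  simp [lab]

/-- `x` is not a point of the pattern -/
def Out (v : Fin n → Fin N) (x : Fin N) : Prop := ∀ i, v i ≠ x

/-- the points outside the pattern -/
noncomputable def rest (v : Fin n → Fin N) : Finset (Fin N) := by
  classical exact univ.filter (Out v)

lemma mem_rest {v : Fin n → Fin N} {x : Fin N} : x ∈ rest v ↔ Out v x := by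
  classical
  simp [rest]

/-- cells outside the pattern -/
def Far (v : Fin n → Fin N) (t : Fin (e + 2) → Fin N) : Prop := ∀ i, Out v (t i)

/-- the labelled structure outside the pattern -/
noncomputable def R (v : Fin n → Fin N) (A : Finset (Fin (e + 2) → Fin N)) :
    Finset (Fin (e + 2) → Lb e n) := by
  classical exact (A.filter (Far v)).image fun t i => lab v A (t i)

lemma mem_R {v : Fin n → Fin N} {A : Finset (Fin (e + 2) → Fin N)} {l : Fin (e + 2) → Lb e n} :
    l ∈ R v A ↔ ∃ t ∈ A, Far v t ∧ (fun i => lab v A (t i)) = l := by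
  classical
  simp only [R, mem_image, mem_filter]
  constructor
  · rintro ⟨t, ⟨h1, h2⟩, h3⟩
    exact ⟨t, h1, h2, h3⟩
  · rintro ⟨t, h1, h2, h3⟩
    exact ⟨t, ⟨h1, h2⟩, h3⟩

/-- the set of the labels -/
noncomputable def Lam (v : Fin n → Fin N) (A : Finset (Fin (e + 2) → Fin N)) : Finset (Lb e n) :=
  (rest v).image (lab v A)

/-- the labels are different -/
def Dist (v : Fin n → Fin N) (A : Finset (Fin (e + 2) → Fin N)) : Prop :=
  ∀ x y, Out v x → Out v y → lab v A x = lab v A y → x = y

/-- the cells of a cube -/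
def cube {U : Type} [DecidableEq U] (d : ℕ) (γ : Finset U) : Finset (Fin d → U) :=
  Fintype.piFinset fun _ => γ

lemma mem_cube {U : Type} [DecidableEq U] {d : ℕ} {γ : Finset U} {t : Fin d → U} :
    t ∈ cube d γ ↔ ∀ i, t i ∈ γ := by
  simp [cube]

/-- good families -/
def Gd {U : Type} [DecidableEq U] {d : ℕ} (S : Finset (Finset (Fin d → U))) : Prop :=
  ∃ A ∈ S, ∃ γ : Finset U, γ.Nonempty ∧ Disjoint A (cube d γ) ∧ A ∪ cube d γ ∈ S

/-- the coded family -/
noncomputable def Cod (n N : ℕ) (T : Finset (Lb e n) → Finset (Finset (Fin (e + 2) → Lb e n))) :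
    Finset (Finset (Fin (e + 2) → Fin N)) := by
  classical
  exact univ.filter fun A => ∃ v : Fin n → Fin N, Ev v A ∧ Dist v A ∧
    R v A ∈ T (Lam v A) ∧ ∀ w : Fin n → Fin N, Ev w A → w = v

lemma mem_Cod {T : Finset (Lb e n) → Finset (Finset (Fin (e + 2) → Lb e n))}
    {A : Finset (Fin (e + 2) → Fin N)} : A ∈ Cod n N T ↔ ∃ v : Fin n → Fin N, Ev v A ∧ Dist v A ∧
      R v A ∈ T (Lam v A) ∧ ∀ w : Fin n → Fin N, Ev w A → w = v := by
  classical
  simp [Cod]

/-! ### permutations -/

/-- the action of the permutations -/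
def act {d : ℕ} (π : Equiv.Perm (Fin N)) (A : Finset (Fin d → Fin N)) : Finset (Fin d → Fin N) :=
  A.image fun t i => π (t i)

lemma mem_act {d : ℕ} {π : Equiv.Perm (Fin N)} {A : Finset (Fin d → Fin N)} {t : Fin d → Fin N} :
    t ∈ act π A ↔ (fun i => π.symm (t i)) ∈ A := by
  simp only [act, mem_image]
  constructor
  · rintro ⟨s, hs, rfl⟩
    simpa using hs
  · intro h
    exact ⟨_, h, by ext i; simp⟩

lemma ev_act {π : Equiv.Perm (Fin N)} {A : Finset (Fin (e + 2) → Fin N)} {w : Fin n → Fin N} :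
    Ev w (act π A) ↔ Ev (fun i => π.symm (w i)) A := by
  unfold Ev
  simp only [mem_act]

lemma cl_comp (f : Fin N → Fin N) (v : Fin n → Fin N) (q : Bool × (Fin (e + 1) → Fin n))
    (x : Fin N) : (fun i => f (cl v q x i)) = cl (fun i => f (v i)) q (f x) := by
  funext i
  unfold cl
  refine Fin.succAboveCases (pos e q.1) ?_ (fun j => ?_) i
  · simp
  · simp

lemma lab_act {π : Equiv.Perm (Fin N)} {A : Finset (Fin (e + 2) → Fin N)} {w : Fin n → Fin N}
    {x : Fin N} : lab w (act π A) x = lab (fun i => π.symm (w i)) A (π.symm x) := by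
  ext q
  rw [mem_lab, mem_lab, mem_act, cl_comp]

lemma out_act {π : Equiv.Perm (Fin N)} {w : Fin n → Fin N} {x : Fin N} :
    Out w x ↔ Out (fun i => π.symm (w i)) (π.symm x) := by
  unfold Out
  simp

lemma act_mem {T : Finset (Lb e n) → Finset (Finset (Fin (e + 2) → Lb e n))}
    {π : Equiv.Perm (Fin N)} {A : Finset (Fin (e + 2) → Fin N)} (hA : A ∈ Cod n N T) :
    act π A ∈ Cod n N T := by
  rw [mem_Cod] at hA ⊢
  obtain ⟨v, h1, h2, h3, h4⟩ := hA
  have hv : (fun i => π.symm (π (v i))) = v := by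
    funext i
    simp
  have hL : ∀ x, lab (fun i => π (v i)) (act π A) x = lab v A (π.symm x) := by
    intro x
    rw [lab_act, hv]
  have hO : ∀ x, Out (fun i => π (v i)) x ↔ Out v (π.symm x) := by
    intro x
    rw [out_act (π := π), hv]
  refine ⟨fun i => π (v i), ?_, ?_, ?_, ?_⟩
  · rw [ev_act, hv]
    exact h1
  · intro x y hx hy hxy
    rw [hL, hL] at hxy
    exact π.symm.injective (h2 _ _ ((hO x).1 hx) ((hO y).1 hy) hxy)
  · have e1 : Lam (fun i => π (v i)) (act π A) = Lam v A := by
      ext l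
      simp only [Lam, mem_image, mem_rest]
      constructor
      · rintro ⟨x, hx, rfl⟩
        exact ⟨π.symm x, (hO x).1 hx, (hL x).symm⟩
      · rintro ⟨x, hx, rfl⟩
        refine ⟨π x, (hO _).2 (by simpa using hx), ?_⟩
        rw [hL]
        simp
    have e2 : R (fun i => π (v i)) (act π A) = R v A := by
      ext l
      simp only [mem_R, mem_act]
      constructor
      · rintro ⟨t, ht, hf, rfl⟩
        refine ⟨_, ht, fun i => (hO _).1 (hf i), ?_⟩
        funext i
        rw [hL]
      · rintro ⟨t, ht, hf, rfl⟩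
        refine ⟨fun i => π (t i), by simpa using ht, fun i => (hO _).2 (by simpa using hf i), ?_⟩
        funext i
        rw [hL]
        simp
    rw [e1, e2]
    exact h3
  · intro w hw
    rw [ev_act] at hw
    have := h4 _ hw
    funext i
    have h5 : π.symm (w i) = v i := congrFun this i
    rw [← h5]
    simp

/-! ### the coded family is not good -/

lemma exists_mem_cl {v : Fin n → Fin N} {q : Bool × (Fin (e + 1) → Fin n)} {x : Fin N} :
    ∃ i, cl v q x i = v (q.2 0) := by
  refine ⟨(pos e q.1).succAbove 0, ?_⟩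
  unfold cl
  rw [Fin.insertNth_apply_succAbove]

lemma not_gd {T : Finset (Lb e n) → Finset (Finset (Fin (e + 2) → Lb e n))}
    (hT : ∀ Λ, ¬ Gd (T Λ)) : ¬ Gd (Cod n N T) := by
  rintro ⟨A, hA, γ, hγ, hdis, hA'⟩
  rw [mem_Cod] at hA hA'
  obtain ⟨v, h1, h2, h3, h4⟩ := hA
  obtain ⟨v', h1', h2', h3', h4'⟩ := hA'
  have hnot : ∀ t, t ∈ cube (e + 2) γ → t ∉ A := fun t ht ht' =>
    Finset.disjoint_left.1 hdis ht' ht
  have hvγ : ∀ i, v i ∉ γ := by
    intro i hi
    refine hnot (fun _ => v i) (mem_cube.2 fun _ => hi) ?_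
    exact (h1 (fun _ => i)).2 le_rfl
  -- the cells which touch the pattern
  have htouch : ∀ t : Fin (e + 2) → Fin N, (∃ i j, t i = v j) →
      (t ∈ A ∪ cube (e + 2) γ ↔ t ∈ A) := by
    rintro t ⟨i, j, hij⟩
    rw [mem_union]
    constructor
    · rintro (h | h)
      · exact h
      · exact absurd (hij ▸ mem_cube.1 h i) (hvγ j)
    · exact Or.inl
  have hE : Ev v (A ∪ cube (e + 2) γ) := by
    intro c
    rw [htouch _ ⟨0, c 0, rfl⟩]
    exact h1 c
  have hvv : v = v' := h4' v hE
  subst hvv
  have hL : ∀ x, lab v (A ∪ cube (e + 2) γ) x = lab v A x := by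
    intro x
    ext q
    rw [mem_lab, mem_lab]
    obtain ⟨i, hi⟩ := exists_mem_cl (v := v) (q := q) (x := x)
    exact htouch _ ⟨i, _, hi⟩
  have hLam : Lam v (A ∪ cube (e + 2) γ) = Lam v A := by
    unfold Lam
    refine image_congr ?_
    intro x _
    exact hL x
  have hγo : ∀ x ∈ γ, Out v x := fun x hx i hi => hvγ i (hi ▸ hx)
  refine hT (Lam v A) ⟨R v A, h3, γ.image (lab v A), hγ.image _, ?_, ?_⟩
  · rw [Finset.disjoint_left]
    intro l hl hl'
    obtain ⟨t, ht, hf, rfl⟩ := mem_R.1 hl
    rw [mem_cube] at hl'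
    refine hnot t (mem_cube.2 fun i => ?_) ht
    obtain ⟨x, hx, hxt⟩ := mem_image.1 (hl' i)
    rw [← h2 x (t i) (hγo x hx) (hf i) hxt]
    exact hx
  · have : R v A ∪ cube (e + 2) (γ.image (lab v A)) = R v (A ∪ cube (e + 2) γ) := by
      ext l
      rw [mem_union, mem_R, mem_R]
      constructor
      · rintro (⟨t, ht, hf, rfl⟩ | hl)
        · refine ⟨t, mem_union_left _ ht, hf, ?_⟩
          funext i
          rw [hL]
        · rw [mem_cube] at hl
          choose t ht using fun i => mem_image.1 (hl i)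
          refine ⟨t, mem_union_right _ (mem_cube.2 fun i => (ht i).1), fun i => hγo _ (ht i).1, ?_⟩
          funext i
          rw [hL]
          exact (ht i).2
      · rintro ⟨t, ht, hf, rfl⟩
        rcases mem_union.1 ht with ht | ht
        · left
          refine ⟨t, ht, hf, ?_⟩
          funext i
          rw [hL]
        · right
          rw [mem_cube] at ht ⊢
          intro i
          rw [hL]
          exact mem_image_of_mem _ (ht i)
    rw [this, ← hLam]
    exact h3'

end Pool.Agent.J4.H42.Iso
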