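import Mathlib
import Pool.Agent.J4.H42.IsoA

/-!
# Isomorphism invariant families: counting
-/

set_option autoImplicit false

namespace Pool.Agent.J4.H42.Iso

open Finset

variable {e n N : ℕ}

/-- sets which are determined outside `D` -/
lemma forced {C : Type} [Fintype C] [DecidableEq C] (D : Finset C) (F : Finset (Finset C))
    (h : ∀ A ∈ F, ∀ B ∈ F, (∀ c, c ∉ D → (c ∈ A ↔ c ∈ B)) → A = B) :
    #F * 2 ^ #D ≤ 2 ^ Fintype.card C := by
  have h1 : #F ≤ #(Dᶜ.powerset) := by
    refine card_le_card_of_injOn (fun A => A \ D) ?_ ?_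
    · intro A _
      rw [mem_coe, mem_powerset]
      intro c hc
      rw [mem_compl]
      exact (mem_sdiff.1 hc).2
    · intro A hA B hB hAB
      refine h A hA B hB fun c hc => ?_
      have h2 : c ∈ A \ D ↔ c ∈ B \ D := by
        simp only at hAB
        rw [hAB]
      simpa [mem_sdiff, hc] using h2
  rw [card_powerset, card_compl] at h1
  calc #F * 2 ^ #D ≤ 2 ^ (Fintype.card C - #D) * 2 ^ #D := Nat.mul_le_mul_right _ h1
    _ = 2 ^ Fintype.card C := by
        rw [← pow_add, Nat.sub_add_cancel (card_le_univ D)]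

/-- the cells of the pattern -/
def blk (v : Fin n → Fin N) : Finset (Fin (e + 2) → Fin N) :=
  univ.image fun (c : Fin (e + 2) → Fin n) i => v (c i)

lemma mem_blk {v : Fin n → Fin N} {t : Fin (e + 2) → Fin N} :
    t ∈ blk v ↔ ∃ c : Fin (e + 2) → Fin n, (fun i => v (c i)) = t := by
  simp [blk]

lemma card_blk {v : Fin n → Fin N} (hv : Function.Injective v) :
    #(blk (e := e) v) = n ^ (e + 2) := by
  unfold blk
  rw [card_image_of_injective]
  · simp
  · intro c c' h
    funext i
    exact hv (congrFun h i)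

/-- the sets with the pattern `v` -/
noncomputable def EE (e : ℕ) (v : Fin n → Fin N) : Finset (Finset (Fin (e + 2) → Fin N)) := by
  classical exact univ.filter (Ev v)

lemma mem_EE {v : Fin n → Fin N} {A : Finset (Fin (e + 2) → Fin N)} : A ∈ EE e v ↔ Ev v A := by
  classical
  simp [EE]

lemma card_cells : Fintype.card (Fin (e + 2) → Fin N) = N ^ (e + 2) := by simp

lemma le_card_EE {v : Fin n → Fin N} (hv : Function.Injective v) :
    2 ^ (N ^ (e + 2)) ≤ #(EE e v) * 2 ^ (n ^ (e + 2)) := by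
  classical
  set P : Finset (Fin (e + 2) → Fin N) :=
    (univ.filter fun c : Fin (e + 2) → Fin n => c 0 ≤ c 1).image fun c i => v (c i) with hP
  have hPb : ∀ c : Fin (e + 2) → Fin n, (fun i => v (c i)) ∈ P ↔ c 0 ≤ c 1 := by
    intro c
    rw [hP, mem_image]
    constructor
    · rintro ⟨c', hc', h⟩
      have : c' = c := by
        funext i
        exact hv (congrFun h i)
      subst this
      simpa using hc'
    · intro h
      exact ⟨c, by simpa using h, rfl⟩
  have h1 : #((blk (e := e) v)ᶜ.powerset) ≤ #(EE e v) := by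
    refine card_le_card_of_injOn (fun B => B ∪ P) ?_ ?_
    · intro B hB
      rw [mem_coe, mem_powerset] at hB
      rw [mem_coe, mem_EE]
      intro c
      rw [mem_union, hPb]
      constructor
      · rintro (h | h)
        · exact absurd (mem_blk.2 ⟨c, rfl⟩) (mem_compl.1 (hB h))
        · exact h
      · exact Or.inr
    · intro B hB B' hB' h
      rw [mem_coe, mem_powerset] at hB hB'
      have hPsub : P ⊆ blk v := by
        intro t ht
        rw [hP, mem_image] at ht
        obtain ⟨c, -, rfl⟩ := ht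
        exact mem_blk.2 ⟨c, rfl⟩
      ext t
      have h2 : t ∈ B ∪ P ↔ t ∈ B' ∪ P := by
        simp only at h
        rw [h]
      rw [mem_union, mem_union] at h2
      constructor
      · intro ht
        rcases h2.1 (Or.inl ht) with h3 | h3
        · exact h3
        · exact absurd (hPsub h3) (mem_compl.1 (hB ht))
      · intro ht
        rcases h2.2 (Or.inl ht) with h3 | h3
        · exact h3
        · exact absurd (hPsub h3) (mem_compl.1 (hB' ht))
  rw [card_powerset, card_compl, card_blk hv, card_cells] at h1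
  calc 2 ^ (N ^ (e + 2)) = 2 ^ (N ^ (e + 2) - n ^ (e + 2)) * 2 ^ (n ^ (e + 2)) := by
        rw [← pow_add, Nat.sub_add_cancel]
        refine Nat.pow_le_pow_left ?_ _
        simpa using Fintype.card_le_of_injective v hv
    _ ≤ _ := Nat.mul_le_mul_right _ h1

/-- the cells which contain `x` once -/
def cls (e : ℕ) (v : Fin n → Fin N) (x : Fin N) : Finset (Fin (e + 2) → Fin N) :=
  univ.image fun q => cl v q x

lemma cl_pos (v : Fin n → Fin N) (q : Bool × (Fin (e + 1) → Fin n)) (x : Fin N) :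
    cl v q x (pos e q.1) = x := by
  unfold cl
  simp

lemma cl_succ (v : Fin n → Fin N) (q : Bool × (Fin (e + 1) → Fin n)) (x : Fin N)
    (j : Fin (e + 1)) : cl v q x ((pos e q.1).succAbove j) = v (q.2 j) := by
  unfold cl
  rw [Fin.insertNth_apply_succAbove]

lemma cl_eq_pos {v : Fin n → Fin N} {q : Bool × (Fin (e + 1) → Fin n)} {x : Fin N}
    {i : Fin (e + 2)} {y : Fin N} (hy : Out v y) (h : cl v q x i = y) :
    i = pos e q.1 := by
  by_contra hi
  obtain ⟨j, rfl⟩ := Fin.exists_succAbove_eq hi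
  rw [cl_succ] at h
  exact hy _ h

lemma pos_inj {b b' : Bool} (h : pos e b = pos e b') : b = b' := by
  have h01 : (0 : Fin (e + 2)) ≠ 1 := by simp
  cases b <;> cases b' <;> simp [pos] at h ⊢

lemma cl_inj {v : Fin n → Fin N} (hv : Function.Injective v) {x : Fin N} (hx : Out v x) :
    Function.Injective fun q : Bool × (Fin (e + 1) → Fin n) => cl v q x := by
  intro q q' h
  simp only at h
  have h1 : cl v q' x (pos e q.1) = x := by rw [← h, cl_pos]
  have h2 := cl_eq_pos hx h1
  have h3 : q.1 = q'.1 := pos_inj h2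
  refine Prod.ext h3 ?_
  funext j
  have h4 := congrFun h ((pos e q.1).succAbove j)
  rw [cl_succ, h3, cl_succ] at h4
  exact hv h4

lemma card_cls {v : Fin n → Fin N} (hv : Function.Injective v) {x : Fin N} (hx : Out v x) :
    #(cls e v x) = 2 * n ^ (e + 1) := by
  unfold cls
  rw [card_image_of_injective _ (cl_inj hv hx)]
  simp

lemma mem_cls {v : Fin n → Fin N} {x : Fin N} {t : Fin (e + 2) → Fin N} :
    t ∈ cls e v x ↔ ∃ q, cl v q x = t := by
  simp [cls]

/-- two points have the same label -/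
lemma card_same {v : Fin n → Fin N} (hv : Function.Injective v) {x y : Fin N} (hx : Out v x)
    (hy : Out v y) (hxy : x ≠ y) (F : Finset (Finset (Fin (e + 2) → Fin N)))
    (hF : ∀ A ∈ F, Ev v A ∧ lab v A x = lab v A y) :
    #F * 2 ^ (n ^ (e + 2) + 2 * n ^ (e + 1)) ≤ 2 ^ (N ^ (e + 2)) := by
  have hdis : Disjoint (blk (e := e) v) (cls e v x) := by
    rw [Finset.disjoint_left]
    intro t h1 h2
    obtain ⟨c, rfl⟩ := mem_blk.1 h1
    obtain ⟨q, hq⟩ := mem_cls.1 h2
    have := congrFun hq (pos e q.1)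
    rw [cl_pos] at this
    exact hx _ this.symm
  have hcard : #(blk (e := e) v ∪ cls e v x) = n ^ (e + 2) + 2 * n ^ (e + 1) := by
    rw [card_union_of_disjoint hdis, card_blk hv, card_cls hv hx]
  rw [← hcard, ← card_cells]
  refine forced _ F fun A hA B hB h => ?_
  obtain ⟨hA1, hA2⟩ := hF A hA
  obtain ⟨hB1, hB2⟩ := hF B hB
  ext t
  by_cases ht : t ∈ blk v ∪ cls e v x
  · rcases mem_union.1 ht with ht | ht
    · obtain ⟨c, rfl⟩ := mem_blk.1 ht
      rw [hA1 c, hB1 c]
    · obtain ⟨q, rfl⟩ := mem_cls.1 ht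
      have e1 : cl v q x ∈ A ↔ cl v q y ∈ A := by
        rw [← mem_lab, ← mem_lab, hA2]
      have e2 : cl v q x ∈ B ↔ cl v q y ∈ B := by
        rw [← mem_lab, ← mem_lab, hB2]
      rw [e1, e2]
      refine h _ ?_
      rw [mem_union, not_or]
      constructor
      · intro h3
        obtain ⟨c, hc⟩ := mem_blk.1 h3
        have := congrFun hc (pos e q.1)
        rw [cl_pos] at this
        exact hy _ this
      · intro h3
        obtain ⟨q', hq'⟩ := mem_cls.1 h3
        have h4 : cl v q' x (pos e q.1) = y := by rw [hq', cl_pos]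
        have h5 := cl_eq_pos hy h4
        rw [h5, cl_pos] at h4
        exact hxy h4
  · exact h t ht

/-- the sets with the pattern `v` and different labels -/
noncomputable def FF (e : ℕ) (v : Fin n → Fin N) : Finset (Finset (Fin (e + 2) → Fin N)) := by
  classical exact univ.filter fun A => Ev v A ∧ Dist v A

lemma mem_FF {v : Fin n → Fin N} {A : Finset (Fin (e + 2) → Fin N)} :
    A ∈ FF e v ↔ Ev v A ∧ Dist v A := by
  classical
  simp [FF]

lemma card_pairs (N : ℕ) : 2 * #(univ.filter fun p : Fin N × Fin N => p.1 < p.2) ≤ N ^ 2 := by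
  have h1 : #(univ.filter fun p : Fin N × Fin N => p.1 < p.2) =
      #(univ.filter fun p : Fin N × Fin N => p.2 < p.1) := by
    refine card_bij (fun p _ => (p.2, p.1)) ?_ ?_ ?_
    · intro p hp
      simpa using hp
    · intro p _ q _ h
      simp only [Prod.mk.injEq] at h
      exact Prod.ext h.2 h.1
    · intro p hp
      exact ⟨(p.2, p.1), by simpa using hp, rfl⟩
  have h2 : Disjoint (univ.filter fun p : Fin N × Fin N => p.1 < p.2)
      (univ.filter fun p : Fin N × Fin N => p.2 < p.1) := by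
    rw [Finset.disjoint_filter]
    intro p _ h
    exact not_lt.2 h.le
  calc 2 * #(univ.filter fun p : Fin N × Fin N => p.1 < p.2)
      = #((univ.filter fun p : Fin N × Fin N => p.1 < p.2) ∪
        (univ.filter fun p : Fin N × Fin N => p.2 < p.1)) := by
        rw [card_union_of_disjoint h2, ← h1, two_mul]
    _ ≤ #(univ : Finset (Fin N × Fin N)) := card_le_card (subset_univ _)
    _ = N ^ 2 := by
        rw [card_univ, Fintype.card_prod, Fintype.card_fin, sq]

lemma card_FF {v : Fin n → Fin N} (hv : Function.Injective v)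
    (hN : 2 * N ^ 2 ≤ 3 * 4 ^ (n ^ (e + 1))) :
    2 ^ (N ^ (e + 2)) ≤ 4 * (#(FF e v) * 2 ^ (n ^ (e + 2))) := by
  classical
  set Pr := univ.filter fun p : Fin N × Fin N => p.1 < p.2 with hPr
  set G : Fin N × Fin N → Finset (Finset (Fin (e + 2) → Fin N)) := fun p =>
    univ.filter fun A => Ev v A ∧ Out v p.1 ∧ Out v p.2 ∧ lab v A p.1 = lab v A p.2 with hG
  have h1 : EE e v ⊆ FF e v ∪ Pr.biUnion G := by
    intro A hA
    rw [mem_EE] at hA
    by_cases hD : Dist v A
    · exact mem_union_left _ (mem_FF.2 ⟨hA, hD⟩)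
    · refine mem_union_right _ ?_
      unfold Dist at hD
      push Not at hD
      obtain ⟨x, y, hx, hy, hxy, hne⟩ := hD
      rw [mem_biUnion]
      rcases lt_or_gt_of_ne hne with hlt | hlt
      · exact ⟨(x, y), by simpa [hPr] using hlt, by simp [hG, hA, hx, hy, hxy]⟩
      · exact ⟨(y, x), by simpa [hPr] using hlt, by simp [hG, hA, hx, hy, hxy]⟩
  have h2 : #(EE e v) ≤ #(FF e v) + ∑ p ∈ Pr, #(G p) :=
    (card_le_card h1).trans ((card_union_le _ _).trans (Nat.add_le_add_left card_biUnion_le _))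
  have h3 : ∀ p ∈ Pr, #(G p) * 2 ^ (n ^ (e + 2) + 2 * n ^ (e + 1)) ≤ 2 ^ (N ^ (e + 2)) := by
    intro p hp
    rw [hPr, mem_filter] at hp
    rcases (G p).eq_empty_or_nonempty with h0 | ⟨A, hA⟩
    · rw [h0]
      simp
    · have hA' := hA
      rw [hG] at hA'
      simp only [mem_filter, mem_univ, true_and] at hA'
      refine card_same hv hA'.2.1 hA'.2.2.1 hp.2.ne _ fun B hB => ?_
      rw [hG] at hB
      simp only [mem_filter, mem_univ, true_and] at hB
      exact ⟨hB.1, hB.2.2.2⟩
  have h4 := le_card_EE (e := e) hv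
  have h5 : (4 : ℕ) ^ (n ^ (e + 1)) = 2 ^ (2 * n ^ (e + 1)) := by
    rw [pow_mul]
    norm_num
  have h6 := card_pairs N
  rw [← hPr] at h6
  have h7 : (∑ p ∈ Pr, #(G p)) * 2 ^ (n ^ (e + 2) + 2 * n ^ (e + 1)) ≤ #Pr * 2 ^ (N ^ (e + 2)) := by
    rw [sum_mul]
    refine (sum_le_sum h3).trans ?_
    rw [sum_const, smul_eq_mul]
  have h8 : 2 ^ (N ^ (e + 2)) * 4 ^ (n ^ (e + 1)) ≤
      #(FF e v) * 2 ^ (n ^ (e + 2)) * 4 ^ (n ^ (e + 1)) + #Pr * 2 ^ (N ^ (e + 2)) := by
    calc 2 ^ (N ^ (e + 2)) * 4 ^ (n ^ (e + 1))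
        ≤ #(EE e v) * 2 ^ (n ^ (e + 2)) * 4 ^ (n ^ (e + 1)) := Nat.mul_le_mul_right _ h4
      _ ≤ (#(FF e v) + ∑ p ∈ Pr, #(G p)) * 2 ^ (n ^ (e + 2)) * 4 ^ (n ^ (e + 1)) :=
          Nat.mul_le_mul_right _ (Nat.mul_le_mul_right _ h2)
      _ = #(FF e v) * 2 ^ (n ^ (e + 2)) * 4 ^ (n ^ (e + 1)) +
          (∑ p ∈ Pr, #(G p)) * 2 ^ (n ^ (e + 2) + 2 * n ^ (e + 1)) := by
          rw [h5, pow_add]
          ring
      _ ≤ _ := Nat.add_le_add_left h7 _
  set X := 2 ^ (N ^ (e + 2)) with hX
  set Y := 4 ^ (n ^ (e + 1)) with hY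
  set Z := #(FF e v) * 2 ^ (n ^ (e + 2)) with hZ
  have hYpos : 0 < Y := by positivity
  have h9 : 4 * (#Pr * X) ≤ 3 * (Y * X) := by
    have : 4 * #Pr ≤ 3 * Y := by omega
    calc 4 * (#Pr * X) = (4 * #Pr) * X := by ring
      _ ≤ (3 * Y) * X := Nat.mul_le_mul_right _ this
      _ = _ := by ring
  have h10 : X * Y ≤ (4 * Z) * Y := by nlinarith
  exact Nat.le_of_mul_le_mul_right h10 hYpos

end Pool.Agent.J4.H42.Iso
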