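import Mathlib
import Pool.Agent.J4.H42.IsoB

/-!
# Isomorphism invariant families: the coded family is large, pairs of patterns
-/

set_option autoImplicit false

namespace Pool.Agent.J4.H42.Iso

open Finset

variable {e n N : ℕ}

/-- the sets which count for `v` -/
noncomputable def PP (T : Finset (Lb e n) → Finset (Finset (Fin (e + 2) → Lb e n)))
    (v : Fin n → Fin N) : Finset (Finset (Fin (e + 2) → Fin N)) := by
  classical exact univ.filter fun A => Ev v A ∧ Dist v A ∧ R v A ∈ T (Lam v A)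

lemma mem_PP {T : Finset (Lb e n) → Finset (Finset (Fin (e + 2) → Lb e n))}
    {v : Fin n → Fin N} {A : Finset (Fin (e + 2) → Fin N)} :
    A ∈ PP T v ↔ Ev v A ∧ Dist v A ∧ R v A ∈ T (Lam v A) := by
  classical
  simp [PP]

/-- replace the labelled structure -/
noncomputable def put (v : Fin n → Fin N) (A : Finset (Fin (e + 2) → Fin N))
    (B : Finset (Fin (e + 2) → Lb e n)) : Finset (Fin (e + 2) → Fin N) := by
  classical
  exact univ.filter fun t => (Far v t ∧ (fun i => lab v A (t i)) ∈ B) ∨ (¬ Far v t ∧ t ∈ A)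

lemma mem_put {v : Fin n → Fin N} {A : Finset (Fin (e + 2) → Fin N)}
    {B : Finset (Fin (e + 2) → Lb e n)} {t : Fin (e + 2) → Fin N} :
    t ∈ put v A B ↔ (Far v t ∧ (fun i => lab v A (t i)) ∈ B) ∨ (¬ Far v t ∧ t ∈ A) := by
  classical
  simp [put]

lemma mem_put_near {v : Fin n → Fin N} {A : Finset (Fin (e + 2) → Fin N)}
    {B : Finset (Fin (e + 2) → Lb e n)} {t : Fin (e + 2) → Fin N} (h : ¬ Far v t) :
    t ∈ put v A B ↔ t ∈ A := by
  rw [mem_put]
  simp [h]

lemma mem_put_far {v : Fin n → Fin N} {A : Finset (Fin (e + 2) → Fin N)}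
    {B : Finset (Fin (e + 2) → Lb e n)} {t : Fin (e + 2) → Fin N} (h : Far v t) :
    t ∈ put v A B ↔ (fun i => lab v A (t i)) ∈ B := by
  rw [mem_put]
  simp [h]

lemma not_far_of {v : Fin n → Fin N} {t : Fin (e + 2) → Fin N} {i : Fin (e + 2)} {j : Fin n}
    (h : t i = v j) : ¬ Far v t := fun hf => hf i j h.symm

lemma lab_put {v : Fin n → Fin N} {A : Finset (Fin (e + 2) → Fin N)}
    {B : Finset (Fin (e + 2) → Lb e n)} (x : Fin N) : lab v (put v A B) x = lab v A x := by
  ext q
  rw [mem_lab, mem_lab]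
  obtain ⟨i, hi⟩ := exists_mem_cl (v := v) (q := q) (x := x)
  exact mem_put_near (not_far_of hi)

lemma lam_put {v : Fin n → Fin N} {A : Finset (Fin (e + 2) → Fin N)}
    {B : Finset (Fin (e + 2) → Lb e n)} : Lam v (put v A B) = Lam v A := by
  unfold Lam
  exact image_congr fun x _ => lab_put x

lemma R_put {v : Fin n → Fin N} {A : Finset (Fin (e + 2) → Fin N)}
    {B : Finset (Fin (e + 2) → Lb e n)} (hB : ∀ l ∈ B, ∀ i, l i ∈ Lam v A) :
    R v (put v A B) = B := by
  ext l
  rw [mem_R]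
  constructor
  · rintro ⟨t, ht, hf, rfl⟩
    rw [mem_put_far hf] at ht
    have : (fun i => lab v (put v A B) (t i)) = fun i => lab v A (t i) := by
      funext i
      exact lab_put _
    rw [this]
    exact ht
  · intro hl
    choose t ht using fun i => mem_image.1 (hB l hl i)
    have hf : Far v t := fun i => mem_rest.1 (ht i).1
    have h1 : (fun i => lab v A (t i)) = l := by
      funext i
      exact (ht i).2
    refine ⟨t, ?_, hf, ?_⟩
    · rw [mem_put_far hf, h1]
      exact hl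
    · rw [← h1]
      funext i
      exact lab_put _

/-- the cells outside the pattern -/
noncomputable def farc (e : ℕ) (v : Fin n → Fin N) : Finset (Fin (e + 2) → Fin N) :=
  Fintype.piFinset fun _ => rest v

lemma mem_farc {v : Fin n → Fin N} {t : Fin (e + 2) → Fin N} : t ∈ farc e v ↔ Far v t := by
  simp [farc, Far, mem_rest]

lemma card_lam {v : Fin n → Fin N} {A : Finset (Fin (e + 2) → Fin N)} (hA : Dist v A) :
    #(Lam v A) = #(rest v) := by
  unfold Lam
  refine card_image_of_injOn ?_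
  intro x hx y hy h
  rw [mem_coe, mem_rest] at hx hy
  exact hA x y hx hy h

lemma card_PP {T : Finset (Lb e n) → Finset (Finset (Fin (e + 2) → Lb e n))}
    (hsub : ∀ Λ, ∀ B ∈ T Λ, ∀ l ∈ B, ∀ i, l i ∈ Λ) {δ : ℝ}
    (hT : ∀ Λ, δ * 2 ^ (#Λ ^ (e + 2)) ≤ #(T Λ)) (v : Fin n → Fin N) :
    δ * #(FF e v) ≤ #(PP T v) := by
  classical
  have h1 : ∑ A ∈ FF e v, #(T (Lam v A)) ≤ #(PP T v) * 2 ^ (#(rest v) ^ (e + 2)) := by
    have h2 : #(PP T v) * 2 ^ (#(rest v) ^ (e + 2)) = #((PP T v) ×ˢ (farc e v).powerset) := by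
      rw [card_product, card_powerset]
      congr 2
      simp [farc]
    rw [h2, ← card_sigma]
    refine card_le_card_of_injOn (fun p => (put v p.1 p.2, p.1 ∩ farc e v)) ?_ ?_
    · rintro ⟨A, B⟩ hp
      rw [mem_coe, mem_sigma] at hp
      obtain ⟨hA, hB⟩ := hp
      simp only at hA hB
      rw [mem_FF] at hA
      rw [mem_coe, mem_product, mem_powerset, mem_PP]
      refine ⟨⟨?_, ?_, ?_⟩, inter_subset_right⟩
      · intro c
        rw [← hA.1 c]
        exact mem_put_near (not_far_of (i := 0) rfl)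
      · intro x y hx hy hxy
        rw [lab_put, lab_put] at hxy
        exact hA.2 x y hx hy hxy
      · rw [lam_put, R_put (hsub _ B hB)]
        exact hB
    · rintro ⟨A, B⟩ hp ⟨A', B'⟩ hp' h
      rw [mem_coe, mem_sigma] at hp hp'
      simp only at hp hp'
      simp only [Prod.mk.injEq] at h
      obtain ⟨h3, h4⟩ := h
      have hAA : A = A' := by
        ext t
        by_cases ht : Far v t
        · have e1 : t ∈ A ∩ farc e v ↔ t ∈ A' ∩ farc e v := by rw [h4]
          simpa [mem_inter, mem_farc, ht] using e1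
        · rw [← mem_put_near (B := B) ht, ← mem_put_near (A := A') (B := B') ht, h3]
      subst hAA
      have hBB : B = B' := by
        rw [← R_put (hsub _ B hp.2), h3, R_put (hsub _ B' hp'.2)]
      subst hBB
      rfl
  have h3 : ∀ A ∈ FF e v, δ * 2 ^ (#(rest v) ^ (e + 2)) ≤ (#(T (Lam v A)) : ℝ) := by
    intro A hA
    rw [mem_FF] at hA
    rw [← card_lam hA.2]
    exact hT _
  have h4 : (#(FF e v) : ℝ) * (δ * 2 ^ (#(rest v) ^ (e + 2))) ≤
      #(PP T v) * 2 ^ (#(rest v) ^ (e + 2)) := by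
    calc (#(FF e v) : ℝ) * (δ * 2 ^ (#(rest v) ^ (e + 2)))
        = ∑ _A ∈ FF e v, δ * 2 ^ (#(rest v) ^ (e + 2)) := by rw [sum_const, nsmul_eq_mul]
      _ ≤ ∑ A ∈ FF e v, (#(T (Lam v A)) : ℝ) := sum_le_sum h3
      _ ≤ _ := by exact_mod_cast h1
  have h5 : (0 : ℝ) < 2 ^ (#(rest v) ^ (e + 2)) := by positivity
  refine le_of_mul_le_mul_right ?_ h5
  calc δ * #(FF e v) * 2 ^ (#(rest v) ^ (e + 2))
      = (#(FF e v) : ℝ) * (δ * 2 ^ (#(rest v) ^ (e + 2))) := by ring
    _ ≤ _ := h4

/-- the inequality of Bonferroni -/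
lemma bonf (T : Finset (Lb e n) → Finset (Finset (Fin (e + 2) → Lb e n))) :
    ∑ v : Fin n → Fin N, #(PP T v) ≤ #(Cod n N T) +
      ∑ v : Fin n → Fin N, ∑ w ∈ univ.erase v, #(EE e v ∩ EE e w) := by
  classical
  have h1 : ∑ v : Fin n → Fin N, #(PP T v) =
      ∑ A : Finset (Fin (e + 2) → Fin N), ∑ v : Fin n → Fin N, if A ∈ PP T v then 1 else 0 := by
    rw [sum_comm]
    refine sum_congr rfl fun v _ => ?_
    rw [sum_ite_mem, univ_inter, card_eq_sum_ones]
  have h2 : #(Cod n N T) = ∑ A : Finset (Fin (e + 2) → Fin N), if A ∈ Cod n N T then 1 else 0 := by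
    rw [sum_ite_mem, univ_inter, card_eq_sum_ones]
  have h3 : ∑ v : Fin n → Fin N, ∑ w ∈ univ.erase v, #(EE e v ∩ EE e w) =
      ∑ A : Finset (Fin (e + 2) → Fin N), ∑ v : Fin n → Fin N, ∑ w ∈ univ.erase v,
        if A ∈ EE e v ∩ EE e w then 1 else 0 := by
    rw [sum_comm]
    refine sum_congr rfl fun v _ => ?_
    rw [sum_comm]
    refine sum_congr rfl fun w _ => ?_
    rw [sum_ite_mem, univ_inter, card_eq_sum_ones]
  rw [h1, h2, h3, ← sum_add_distrib]
  refine sum_le_sum fun A _ => ?_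
  by_cases hA : A ∈ Cod n N T
  · rw [if_pos hA]
    obtain ⟨v, hv1, hv2, hv3, hv4⟩ := mem_Cod.1 hA
    have : ∑ v : Fin n → Fin N, (if A ∈ PP T v then 1 else 0) ≤ 1 := by
      rw [sum_eq_single v]
      · split_ifs <;> simp
      · intro w _ hw
        rw [if_neg]
        intro h
        exact hw (hv4 w (mem_PP.1 h).1)
      · simp
    omega
  · rw [if_neg hA, zero_add]
    refine sum_le_sum fun v _ => ?_
    split_ifs with hv
    · rw [mem_PP] at hv
      -- there is another pattern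
      have : ∃ w : Fin n → Fin N, Ev w A ∧ w ≠ v := by
        by_contra hcon
        push Not at hcon
        exact hA (mem_Cod.2 ⟨v, hv.1, hv.2.1, hv.2.2, hcon⟩)
      obtain ⟨w, hw1, hw2⟩ := this
      have h5 : (if A ∈ EE e v ∩ EE e w then 1 else 0) ≤ ∑ w ∈ univ.erase v,
          if A ∈ EE e v ∩ EE e w then 1 else 0 :=
        single_le_sum (f := fun w => if A ∈ EE e v ∩ EE e w then 1 else 0)
          (fun _ _ => Nat.zero_le _) (mem_erase.2 ⟨hw2, mem_univ w⟩)
      rw [if_pos (mem_inter.2 ⟨mem_EE.2 hv.1, mem_EE.2 hw1⟩)] at h5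
      exact h5
    · exact Nat.zero_le _

/-! ### pairs of patterns -/

lemma consistent {v w : Fin n → Fin N} {A : Finset (Fin (e + 2) → Fin N)} (hv : Ev v A)
    (hw : Ev w A) {i i' j j' : Fin n} (h : v i = w j) (h' : v i' = w j') : i ≤ i' ↔ j ≤ j' := by
  have h1 := hv (fun a => if a = 0 then i else i')
  have h2 := hw (fun a => if a = 0 then j else j')
  have h3 : (fun a : Fin (e + 2) => v (if a = 0 then i else i')) =
      fun a => w (if a = 0 then j else j') := by
    funext a
    split_ifs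
    · exact h
    · exact h'
  rw [h3] at h1
  have h10 : (1 : Fin (e + 2)) ≠ 0 := by simp
  simp only [h10, if_true, if_false] at h1 h2
  exact h1.symm.trans h2

lemma ev_inj {v : Fin n → Fin N} {A : Finset (Fin (e + 2) → Fin N)} (hv : Ev v A) :
    Function.Injective v := by
  intro i j hij
  have h := consistent hv hv (i := i) (j := j) (i' := j) (j' := i) hij hij.symm
  rcases le_total i j with h1 | h1
  · exact le_antisymm h1 (h.1 h1)
  · exact le_antisymm (h.2 h1) h1

/-- the common points, seen from `v` -/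
noncomputable def com (v w : Fin n → Fin N) : Finset (Fin n) := by
  classical exact univ.filter fun i => ∃ j, v i = w j

lemma mem_com {v w : Fin n → Fin N} {i : Fin n} : i ∈ com v w ↔ ∃ j, v i = w j := by
  classical
  simp [com]

lemma card_com {v w : Fin n → Fin N} (hv : Function.Injective v) (hw : Function.Injective w) :
    #(com v w) = #(com w v) := by
  classical
  choose f hf using fun i : com v w => mem_com.1 i.2
  refine card_bij (fun i hi => f ⟨i, hi⟩) ?_ ?_ ?_
  · intro i hi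
    exact mem_com.2 ⟨i, (hf ⟨i, hi⟩).symm⟩
  · intro i hi i' hi' h
    have h1 := hf ⟨i, hi⟩
    have h2 := hf ⟨i', hi'⟩
    rw [h] at h1
    exact hv (h1.trans h2.symm)
  · intro j hj
    obtain ⟨i, hi⟩ := mem_com.1 hj
    have him : i ∈ com v w := mem_com.2 ⟨j, hi.symm⟩
    refine ⟨i, him, ?_⟩
    have h1 := hf ⟨i, him⟩
    exact hw (h1.symm.trans hi.symm)

lemma rank {v w : Fin n → Fin N} {A : Finset (Fin (e + 2) → Fin N)} (hv : Ev v A)
    (hw : Ev w A) {i j : Fin n} (h : v i = w j) :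
    #((com v w).filter (· < i)) = #((com w v).filter (· < j)) := by
  classical
  choose f hf using fun i : com v w => mem_com.1 i.2
  refine card_bij (fun i' hi' => f ⟨i', (mem_filter.1 hi').1⟩) ?_ ?_ ?_
  · intro i' hi'
    obtain ⟨h1, h2⟩ := mem_filter.1 hi'
    have h3 := hf ⟨i', h1⟩
    refine mem_filter.2 ⟨mem_com.2 ⟨i', h3.symm⟩, ?_⟩
    have h4 := consistent hv hw h h3
    exact not_le.1 fun h5 => absurd (h4.2 h5) (not_le.2 h2)
  · intro i₁ h₁ i₂ h₂ h3
    have e1 := hf ⟨i₁, (mem_filter.1 h₁).1⟩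
    have e2 := hf ⟨i₂, (mem_filter.1 h₂).1⟩
    rw [h3] at e1
    exact ev_inj hv (e1.trans e2.symm)
  · intro j' hj'
    obtain ⟨h1, h2⟩ := mem_filter.1 hj'
    obtain ⟨i', hi'⟩ := mem_com.1 h1
    have him : i' ∈ com v w := mem_com.2 ⟨j', hi'.symm⟩
    have h4 := consistent hv hw h hi'.symm
    refine ⟨i', mem_filter.2 ⟨him, not_le.1 fun h5 => absurd (h4.1 h5) (not_le.2 h2)⟩, ?_⟩
    exact ev_inj hw ((hf ⟨i', him⟩).symm.trans hi'.symm)

lemma rank_inj {I : Finset (Fin n)} {i i' : Fin n} (hi : i ∈ I) (hi' : i' ∈ I)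
    (h : #(I.filter (· < i)) = #(I.filter (· < i'))) : i = i' := by
  classical
  have key : ∀ a b : Fin n, a ∈ I → a < b → #(I.filter (· < a)) < #(I.filter (· < b)) := by
    intro a b ha hab
    refine card_lt_card ⟨?_, ?_⟩
    · intro x hx
      obtain ⟨h1, h2⟩ := mem_filter.1 hx
      exact mem_filter.2 ⟨h1, h2.trans hab⟩
    · intro h1
      have := mem_filter.1 (h1 (mem_filter.2 ⟨ha, hab⟩))
      exact lt_irrefl _ this.2
  rcases lt_trichotomy i i' with h1 | h1 | h1
  · exact absurd h (key i i' hi h1).ne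
  · exact h1
  · exact absurd h (key i' i hi' h1).ne'

/-- the number of the sets with two patterns -/
lemma card_two {v w : Fin n → Fin N} (hne : (EE e v ∩ EE e w).Nonempty) :
    #(EE e v ∩ EE e w) * 2 ^ (2 * n ^ (e + 2)) ≤ 2 ^ (N ^ (e + 2)) * 2 ^ (#(com v w) ^ (e + 2)) := by
  classical
  obtain ⟨A₀, hA₀⟩ := hne
  rw [mem_inter, mem_EE, mem_EE] at hA₀
  have hv := ev_inj hA₀.1
  have hw := ev_inj hA₀.2
  have h1 : #(blk (e := e) v ∩ blk w) = #(com v w) ^ (e + 2) := by
    have : blk (e := e) v ∩ blk w =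
        (Fintype.piFinset fun _ : Fin (e + 2) => com v w).image fun c i => v (c i) := by
      ext t
      simp only [mem_inter, mem_blk, mem_image, Fintype.mem_piFinset, mem_com]
      constructor
      · rintro ⟨⟨c, rfl⟩, ⟨c', hc'⟩⟩
        exact ⟨c, fun a => ⟨c' a, (congrFun hc' a).symm⟩, rfl⟩
      · rintro ⟨c, hc, rfl⟩
        refine ⟨⟨c, rfl⟩, ?_⟩
        choose c' hc' using hc
        exact ⟨c', funext fun a => (hc' a).symm⟩
    rw [this, card_image_of_injective]
    · simp
    · intro c c' h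
      funext i
      exact hv (congrFun h i)
  have h2 := card_union_add_card_inter (blk (e := e) v) (blk w)
  rw [h1, card_blk hv, card_blk hw] at h2
  have h3 := forced (blk (e := e) v ∪ blk w) (EE e v ∩ EE e w) ?_
  · rw [card_cells] at h3
    calc #(EE e v ∩ EE e w) * 2 ^ (2 * n ^ (e + 2))
        = #(EE e v ∩ EE e w) * 2 ^ #(blk (e := e) v ∪ blk w) * 2 ^ (#(com v w) ^ (e + 2)) := by
          rw [mul_assoc, ← pow_add, h2, two_mul]
      _ ≤ _ := Nat.mul_le_mul_right _ h3
  · intro A hA B hB h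
    rw [mem_inter, mem_EE, mem_EE] at hA hB
    ext t
    by_cases ht : t ∈ blk v ∪ blk w
    · rcases mem_union.1 ht with ht | ht
      · obtain ⟨c, rfl⟩ := mem_blk.1 ht
        rw [hA.1 c, hB.1 c]
      · obtain ⟨c, rfl⟩ := mem_blk.1 ht
        rw [hA.2 c, hB.2 c]
    · exact h t ht

/-- two patterns with all points in common are equal -/
lemma eq_of_com {v w : Fin n → Fin N} {A : Finset (Fin (e + 2) → Fin N)} (hv : Ev v A)
    (hw : Ev w A) (h : #(com v w) = n) : w = v := by
  classical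
  have h1 : com v w = univ := by
    rw [← card_eq_iff_eq_univ, h, Fintype.card_fin]
  have h2 : com w v = univ := by
    rw [← card_eq_iff_eq_univ, ← card_com (ev_inj hv) (ev_inj hw), h, Fintype.card_fin]
  funext i
  have h3 : i ∈ com v w := by
    rw [h1]
    exact mem_univ i
  obtain ⟨j, hj⟩ := mem_com.1 h3
  have h4 := rank hv hw hj
  rw [h1, h2] at h4
  have h5 := rank_inj (mem_univ i) (mem_univ j) h4
  subst h5
  exact hj.symm

/-- the number of the patterns with given common points -/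
lemma card_fib (v : Fin n → Fin N) (I J : Finset (Fin n))
    (W : Finset (Fin n → Fin N)) (hW : ∀ w ∈ W, (EE e v ∩ EE e w).Nonempty ∧ com v w = I ∧
      com w v = J) : #W ≤ N ^ (n - #J) := by
  classical
  have h1 : #W ≤ Fintype.card ({j // j ∉ J} → Fin N) := by
    rw [← card_univ]
    refine card_le_card_of_injOn (fun w j => w j.1) (fun _ _ => mem_univ _) ?_
    intro w hw w' hw' h
    obtain ⟨⟨A, hA⟩, h2, h3⟩ := hW w hw
    obtain ⟨⟨A', hA'⟩, h2', h3'⟩ := hW w' hw'
    rw [mem_inter, mem_EE, mem_EE] at hA hA'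
    funext j
    by_cases hj : j ∈ J
    · have hj1 := hj
      rw [← h3] at hj1
      obtain ⟨i, hi⟩ := mem_com.1 hj1
      have hj2 := hj
      rw [← h3'] at hj2
      obtain ⟨i', hi'⟩ := mem_com.1 hj2
      have r1 := rank hA.1 hA.2 hi.symm
      have r2 := rank hA'.1 hA'.2 hi'.symm
      rw [h2, h3] at r1
      rw [h2', h3'] at r2
      have him : i ∈ I := by
        rw [← h2]
        exact mem_com.2 ⟨j, hi.symm⟩
      have him' : i' ∈ I := by
        rw [← h2']
        exact mem_com.2 ⟨j, hi'.symm⟩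
      have := rank_inj him him' (r1.trans r2.symm)
      rw [hi, hi', this]
    · exact congrFun h ⟨j, hj⟩
  refine h1.trans (le_of_eq ?_)
  rw [Fintype.card_fun, Fintype.card_fin]
  congr 1
  rw [Fintype.card_subtype_compl]
  simp

end Pool.Agent.J4.H42.Iso
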