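import Mathlib
import Pool.Agent.J4.H42.IsoC

/-!
# Isomorphism invariant families: the second moment
-/

set_option autoImplicit false

namespace Pool.Agent.J4.H42.Iso

open Finset

variable {e n N : ℕ}

lemma pair_sum (v : Fin n → Fin N) :
    (∑ w ∈ univ.erase v, #(EE e v ∩ EE e w)) * 2 ^ (2 * n ^ (e + 2)) ≤
      2 ^ (N ^ (e + 2)) * ∑ k ∈ range n, n.choose k ^ 2 * (N ^ (n - k) * 2 ^ (k ^ (e + 2))) := by
  classical
  set W := (univ.erase v).filter fun w => (EE e v ∩ EE e w).Nonempty with hW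
  have h1 : ∑ w ∈ univ.erase v, #(EE e v ∩ EE e w) = ∑ w ∈ W, #(EE e v ∩ EE e w) := by
    rw [hW, sum_filter]
    refine sum_congr rfl fun w _ => ?_
    split_ifs with h
    · rfl
    · rw [not_nonempty_iff_eq_empty.1 h, card_empty]
  have hprop : ∀ w ∈ W, ∃ A, Ev v A ∧ Ev (e := e) w A ∧ w ≠ v := by
    intro w hw
    obtain ⟨h2, A, hA⟩ := mem_filter.1 hw
    rw [mem_inter, mem_EE, mem_EE] at hA
    exact ⟨A, hA.1, hA.2, (mem_erase.1 h2).1⟩
  rw [h1, sum_mul]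
  calc ∑ w ∈ W, #(EE e v ∩ EE e w) * 2 ^ (2 * n ^ (e + 2))
      ≤ ∑ w ∈ W, 2 ^ (N ^ (e + 2)) * 2 ^ (#(com v w) ^ (e + 2)) :=
        sum_le_sum fun w hw => card_two (mem_filter.1 hw).2
    _ = 2 ^ (N ^ (e + 2)) * ∑ w ∈ W, 2 ^ (#(com v w) ^ (e + 2)) := by rw [mul_sum]
    _ ≤ _ := Nat.mul_le_mul_left _ ?_
  set K : Finset (Σ _ : ℕ, Finset (Fin n) × Finset (Fin n)) :=
    (range n).sigma fun k => powersetCard k univ ×ˢ powersetCard k univ with hK
  have hmap : ∀ w ∈ W, (⟨#(com v w), com v w, com w v⟩ : Σ _ : ℕ, Finset (Fin n) × Finset (Fin n))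
      ∈ K := by
    intro w hw
    obtain ⟨A, h2, h3, h4⟩ := hprop w hw
    rw [hK, mem_sigma]
    simp only [mem_range, mem_product, mem_powersetCard, subset_univ, true_and]
    refine ⟨lt_of_le_of_ne ?_ fun h => h4 (eq_of_com h2 h3 h), ?_⟩
    · simpa using card_le_univ (com v w)
    · exact (card_com (ev_inj h2) (ev_inj h3)).symm
  rw [← sum_fiberwise_of_maps_to hmap]
  calc ∑ κ ∈ K, ∑ w ∈ W.filter (fun w => (⟨#(com v w), com v w, com w v⟩ :
          Σ _ : ℕ, Finset (Fin n) × Finset (Fin n)) = κ), 2 ^ (#(com v w) ^ (e + 2))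
      ≤ ∑ κ ∈ K, N ^ (n - κ.1) * 2 ^ (κ.1 ^ (e + 2)) := by
        refine sum_le_sum fun κ hκ => ?_
        obtain ⟨k, I, J⟩ := κ
        rw [hK, mem_sigma] at hκ
        simp only [mem_range, mem_product, mem_powersetCard, subset_univ, true_and] at hκ
        have h5 : ∀ w ∈ W.filter (fun w => (⟨#(com v w), com v w, com w v⟩ :
            Σ _ : ℕ, Finset (Fin n) × Finset (Fin n)) = ⟨k, I, J⟩),
            2 ^ (#(com v w) ^ (e + 2)) = 2 ^ (k ^ (e + 2)) := by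
          intro w hw
          have := (mem_filter.1 hw).2
          simp only [Sigma.mk.injEq, heq_eq_eq, Prod.mk.injEq] at this
          rw [this.1]
        rw [sum_congr rfl h5, sum_const, smul_eq_mul]
        refine Nat.mul_le_mul_right _ ?_
        have h6 := card_fib (e := e) v I J (W.filter (fun w => (⟨#(com v w), com v w, com w v⟩ :
            Σ _ : ℕ, Finset (Fin n) × Finset (Fin n)) = ⟨k, I, J⟩)) ?_
        · rw [hκ.2.2] at h6
          exact h6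
        · intro w hw
          obtain ⟨hw1, hw2⟩ := mem_filter.1 hw
          simp only [Sigma.mk.injEq, heq_eq_eq, Prod.mk.injEq] at hw2
          exact ⟨(mem_filter.1 hw1).2, hw2.2.1, hw2.2.2⟩
    _ = ∑ k ∈ range n, n.choose k ^ 2 * (N ^ (n - k) * 2 ^ (k ^ (e + 2))) := by
        rw [hK, sum_sigma]
        refine sum_congr rfl fun k _ => ?_
        simp only
        rw [sum_const, card_product, card_powersetCard, card_univ, Fintype.card_fin, smul_eq_mul, sq]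

/-- the terms with few common points -/
lemma term_small {k h : ℕ} (hn : n = 2 * h) (hk0 : 1 ≤ k) (hk : k ≤ h) (hN : 2 ^ (n ^ (e + 1)) ≤ 2 * N)
    (hN2 : N ^ n ≤ 2 ^ (n ^ (e + 2))) :
    n.choose k ^ 2 * (N ^ (n - k) * 2 ^ (k ^ (e + 2))) * (2 ^ h) ^ k ≤
      (2 * n ^ 2) ^ k * 2 ^ (n ^ (e + 2)) := by
  set M := 2 ^ (n ^ (e + 1)) with hM
  have hMpos : 0 < M := by positivity
  have hMn : M ^ n = 2 ^ (n ^ (e + 2)) := by
    rw [hM, ← pow_mul, ← pow_succ]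
  -- `N ^ (n - k) ≤ 2 ^ k M ^ (n - k)`
  have h1 : N ^ (n - k) ≤ 2 ^ k * M ^ (n - k) := by
    have h2 : N ^ (n - k) * M ^ k ≤ 2 ^ k * M ^ (n - k) * M ^ k := by
      calc N ^ (n - k) * M ^ k ≤ N ^ (n - k) * (2 * N) ^ k :=
            Nat.mul_le_mul_left _ (Nat.pow_le_pow_left hN k)
        _ = 2 ^ k * N ^ n := by
            rw [mul_pow, show n = (n - k) + k by omega, pow_add]
            simp only [Nat.add_sub_cancel]
            ring
        _ ≤ 2 ^ k * M ^ n := Nat.mul_le_mul_left _ (hMn ▸ hN2)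
        _ = 2 ^ k * M ^ (n - k) * M ^ k := by
            rw [mul_assoc, ← pow_add, Nat.sub_add_cancel (by omega)]
    exact Nat.le_of_mul_le_mul_right h2 (by positivity)
  -- `2 ^ (k ^ d) (2 ^ h) ^ k ≤ M ^ k`
  have h3 : 2 ^ (k ^ (e + 2)) * (2 ^ h) ^ k ≤ M ^ k := by
    rw [hM, ← pow_mul, ← pow_mul, ← pow_add]
    refine Nat.pow_le_pow_right (by norm_num) ?_
    have h4 : k ^ (e + 1) + h ≤ n ^ (e + 1) := by
      have h5 : k ^ e ≤ n ^ e := Nat.pow_le_pow_left (by omega) e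
      have h6 : 1 ≤ n ^ e := Nat.one_le_pow _ _ (by omega)
      calc k ^ (e + 1) + h = k ^ e * k + 1 * h := by ring
        _ ≤ n ^ e * k + n ^ e * h := Nat.add_le_add (Nat.mul_le_mul_right _ h5)
            (Nat.mul_le_mul_right _ h6)
        _ = n ^ e * (k + h) := by ring
        _ ≤ n ^ e * n := Nat.mul_le_mul_left _ (by omega)
        _ = n ^ (e + 1) := by ring
    calc k ^ (e + 2) + h * k = (k ^ (e + 1) + h) * k := by ring
      _ ≤ n ^ (e + 1) * k := Nat.mul_le_mul_right _ h4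
  have h7 : n.choose k ^ 2 ≤ (n ^ 2) ^ k := by
    calc n.choose k ^ 2 ≤ (n ^ k) ^ 2 := Nat.pow_le_pow_left (Nat.choose_le_pow n k) 2
      _ = (n ^ 2) ^ k := by rw [← pow_mul, ← pow_mul, mul_comm]
  calc n.choose k ^ 2 * (N ^ (n - k) * 2 ^ (k ^ (e + 2))) * (2 ^ h) ^ k
      = n.choose k ^ 2 * N ^ (n - k) * (2 ^ (k ^ (e + 2)) * (2 ^ h) ^ k) := by ring
    _ ≤ (n ^ 2) ^ k * (2 ^ k * M ^ (n - k)) * M ^ k :=
        Nat.mul_le_mul (Nat.mul_le_mul h7 h1) h3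
    _ = (2 * n ^ 2) ^ k * (M ^ (n - k) * M ^ k) := by rw [mul_pow]; ring
    _ = (2 * n ^ 2) ^ k * 2 ^ (n ^ (e + 2)) := by
        rw [← pow_add, Nat.sub_add_cancel (by omega), hMn]

/-- the terms with many common points -/
lemma term_large {k h : ℕ} (hk : h ≤ k) (hkn : k < n) (hN : N ≤ 2 * 2 ^ (n ^ (e + 1))) :
    n.choose k ^ 2 * (N ^ (n - k) * 2 ^ (k ^ (e + 2))) * (2 ^ h) ^ (n - k) ≤
      (2 * n ^ 2) ^ (n - k) * 2 ^ (n ^ (e + 2)) := by
  set M := 2 ^ (n ^ (e + 1)) with hM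
  have h1 : N ^ (n - k) ≤ 2 ^ (n - k) * M ^ (n - k) := by
    rw [← mul_pow]
    exact Nat.pow_le_pow_left hN _
  have h7 : n.choose k ^ 2 ≤ (n ^ 2) ^ (n - k) := by
    rw [← Nat.choose_symm hkn.le]
    calc n.choose (n - k) ^ 2 ≤ (n ^ (n - k)) ^ 2 :=
          Nat.pow_le_pow_left (Nat.choose_le_pow n (n - k)) 2
      _ = (n ^ 2) ^ (n - k) := by rw [← pow_mul, ← pow_mul, mul_comm]
  have h3 : 2 ^ (k ^ (e + 2)) * (2 ^ h) ^ (n - k) * M ^ (n - k) ≤ 2 ^ (n ^ (e + 2)) := by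
    rw [hM, ← pow_mul, ← pow_mul, ← pow_add, ← pow_add]
    refine Nat.pow_le_pow_right (by norm_num) ?_
    obtain ⟨j, rfl⟩ : ∃ j, n = k + j := ⟨n - k, by omega⟩
    rw [Nat.add_sub_cancel_left]
    have h5 : k ^ e ≤ (k + j) ^ e := Nat.pow_le_pow_left (by omega) e
    have h6 : 1 ≤ (k + j) ^ e := Nat.one_le_pow _ _ (by omega)
    calc k ^ (e + 2) + h * j + (k + j) ^ (e + 1) * j
        = k ^ e * k ^ 2 + 1 * (h * j) + (k + j) ^ e * ((k + j) * j) := by ring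
      _ ≤ (k + j) ^ e * k ^ 2 + (k + j) ^ e * (k * j) + (k + j) ^ e * ((k + j) * j) := by
          gcongr
      _ = (k + j) ^ e * (k ^ 2 + k * j + (k + j) * j) := by ring
      _ = (k + j) ^ e * (k + j) ^ 2 := by ring
      _ = (k + j) ^ (e + 2) := by ring
  calc n.choose k ^ 2 * (N ^ (n - k) * 2 ^ (k ^ (e + 2))) * (2 ^ h) ^ (n - k)
      = n.choose k ^ 2 * N ^ (n - k) * (2 ^ (k ^ (e + 2)) * (2 ^ h) ^ (n - k)) := by ring
    _ ≤ (n ^ 2) ^ (n - k) * (2 ^ (n - k) * M ^ (n - k)) *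
          (2 ^ (k ^ (e + 2)) * (2 ^ h) ^ (n - k)) :=
        Nat.mul_le_mul_right _ (Nat.mul_le_mul h7 h1)
    _ = (2 * n ^ 2) ^ (n - k) * (2 ^ (k ^ (e + 2)) * (2 ^ h) ^ (n - k) * M ^ (n - k)) := by
        rw [mul_pow]; ring
    _ ≤ _ := Nat.mul_le_mul_left _ h3

lemma le_of_pow {x : ℝ} {a r : ℝ} {j : ℕ} (hj : 1 ≤ j) (hr : 0 < r) (ha : 0 ≤ a) (har : a ≤ r)
    {y : ℝ} (hy : 0 ≤ y) (h : x * r ^ j ≤ a ^ j * y) : x ≤ a / r * y := by
  have h1 : (a / r) ^ j ≤ a / r := by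
    refine pow_le_of_le_one (by positivity) ?_ (by omega)
    rwa [div_le_one hr]
  have h2 : x ≤ (a / r) ^ j * y := by
    rw [div_pow, div_mul_eq_mul_div, le_div_iff₀ (by positivity)]
    exact h
  exact h2.trans (mul_le_mul_of_nonneg_right h1 hy)

/-- the sum over the patterns which meet a given one -/
lemma sum_terms {h : ℕ} (hn : n = 2 * h) (hh : 1 ≤ h) (hsmall : 2 * n ^ 2 ≤ 2 ^ h)
    (hN : 2 ^ (n ^ (e + 1)) ≤ 2 * N) (hN1 : N ≤ 2 * 2 ^ (n ^ (e + 1)))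
    (hN2 : N ^ n ≤ 2 ^ (n ^ (e + 2))) :
    ((∑ k ∈ range n, n.choose k ^ 2 * (N ^ (n - k) * 2 ^ (k ^ (e + 2))) : ℕ) : ℝ) ≤
      (N : ℝ) ^ n + n * (2 * n ^ 2 / 2 ^ h) * 2 ^ (n ^ (e + 2)) := by
  have hn0 : 0 < n := by omega
  have h1 : ∀ k ∈ range n, ((n.choose k ^ 2 * (N ^ (n - k) * 2 ^ (k ^ (e + 2))) : ℕ) : ℝ) ≤
      (if k = 0 then (N : ℝ) ^ n else 0) + 2 * n ^ 2 / 2 ^ h * 2 ^ (n ^ (e + 2)) := by
    intro k hk
    rw [mem_range] at hk
    have hy : (0 : ℝ) ≤ 2 ^ (n ^ (e + 2)) := by positivity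
    have hρ : (0 : ℝ) ≤ 2 * n ^ 2 / 2 ^ h * 2 ^ (n ^ (e + 2)) := by positivity
    have har : (2 * (n : ℝ) ^ 2) ≤ 2 ^ h := by exact_mod_cast hsmall
    split_ifs with hk0
    · subst hk0
      have : ((n.choose 0 ^ 2 * (N ^ (n - 0) * 2 ^ (0 ^ (e + 2))) : ℕ) : ℝ) = (N : ℝ) ^ n := by
        simp
      rw [this]
      linarith
    · rw [zero_add]
      by_cases hkh : k ≤ h
      · have h2 := term_small (e := e) hn (by omega : 1 ≤ k) hkh hN hN2
        refine le_of_pow (j := k) (by omega) (by positivity) (by positivity) har hy ?_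
        exact_mod_cast h2
      · have h2 := term_large (e := e) (h := h) (by omega) hk hN1
        refine le_of_pow (j := n - k) (by omega) (by positivity) (by positivity) har hy ?_
        exact_mod_cast h2
  rw [Nat.cast_sum]
  refine (sum_le_sum h1).trans ?_
  rw [sum_add_distrib, sum_ite_eq' (range n) 0, if_pos (mem_range.2 hn0), sum_const, card_range,
    nsmul_eq_mul]
  exact le_of_eq (by ring)

/-- the coded family is large -/
lemma card_Cod {T : Finset (Lb e n) → Finset (Finset (Fin (e + 2) → Lb e n))}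
    (hsub : ∀ Λ, ∀ B ∈ T Λ, ∀ l ∈ B, ∀ i, l i ∈ Λ) {δ : ℝ} (hδ : 0 < δ)
    (hT : ∀ Λ, δ * 2 ^ (#Λ ^ (e + 2)) ≤ #(T Λ)) {h : ℕ} (hn : n = 2 * h) (hh : 1 ≤ h)
    (hsmall : 2 * n ^ 2 ≤ 2 ^ h) (hN : 2 ^ (n ^ (e + 1)) ≤ 2 * N)
    (hN1 : N ≤ 2 * 2 ^ (n ^ (e + 1))) (hN3 : 2 * N ^ 2 ≤ 3 * 4 ^ (n ^ (e + 1)))
    (hN2 : N ^ n ≤ 2 ^ (n ^ (e + 2)))
    (h1 : (N : ℝ) ^ n ≤ δ / 8 * 2 ^ (n ^ (e + 2))) (h2 : n * (2 * n ^ 2 / 2 ^ h) ≤ δ / 16) :
    (N.descFactorial n : ℝ) / 2 ^ (n ^ (e + 2)) * (δ / 16) * 2 ^ (N ^ (e + 2)) ≤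
      #(Cod n N T) := by
  classical
  set X : ℝ := 2 ^ (N ^ (e + 2)) with hX
  set Y : ℝ := 2 ^ (n ^ (e + 2)) with hY
  have hXpos : 0 < X := by positivity
  have hYpos : 0 < Y := by positivity
  set V := univ.filter fun v : Fin n → Fin N => Function.Injective v with hV
  have hVcard : #V = N.descFactorial n := by
    rw [hV, ← Fintype.card_subtype,
      Fintype.card_congr (Equiv.subtypeInjectiveEquivEmbedding (Fin n) (Fin N)),
      Fintype.card_embedding_eq, Fintype.card_fin, Fintype.card_fin]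
  have hb := bonf T (N := N)
  -- lower bound
  have hlow : (#V : ℝ) * (δ * (X / (4 * Y))) ≤ ((∑ v : Fin n → Fin N, #(PP T v) : ℕ) : ℝ) := by
    rw [Nat.cast_sum]
    calc (#V : ℝ) * (δ * (X / (4 * Y))) = ∑ _v ∈ V, δ * (X / (4 * Y)) := by
          rw [sum_const, nsmul_eq_mul]
      _ ≤ ∑ v ∈ V, (#(PP T v) : ℝ) := by
          refine sum_le_sum fun v hv => ?_
          rw [hV, mem_filter] at hv
          refine le_trans ?_ (card_PP hsub hT v)
          refine mul_le_mul_of_nonneg_left ?_ hδ.le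
          rw [div_le_iff₀ (by positivity)]
          have := card_FF (e := e) hv.2 hN3
          have h3 : (2 : ℝ) ^ (N ^ (e + 2)) ≤ 4 * (#(FF e v) * 2 ^ (n ^ (e + 2))) := by
            exact_mod_cast this
          calc X ≤ 4 * (#(FF e v) * 2 ^ (n ^ (e + 2))) := h3
            _ = #(FF e v) * (4 * Y) := by rw [hY]; ring
      _ ≤ ∑ v : Fin n → Fin N, (#(PP T v) : ℝ) :=
          sum_le_sum_of_subset_of_nonneg (subset_univ _) fun _ _ _ => Nat.cast_nonneg _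
  -- upper bound
  have hup : ((∑ v : Fin n → Fin N, ∑ w ∈ univ.erase v, #(EE e v ∩ EE e w) : ℕ) : ℝ) ≤
      #V * (X / Y * (δ / 8 + δ / 16)) := by
    have h3 : ∑ v : Fin n → Fin N, ∑ w ∈ univ.erase v, #(EE e v ∩ EE e w) =
        ∑ v ∈ V, ∑ w ∈ univ.erase v, #(EE e v ∩ EE e w) := by
      rw [hV, sum_filter]
      refine sum_congr rfl fun v _ => ?_
      split_ifs with hv
      · rfl
      · refine sum_eq_zero fun w _ => ?_
        rw [card_eq_zero, eq_empty_iff_forall_notMem]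
        intro A hA
        rw [mem_inter, mem_EE] at hA
        exact hv (ev_inj hA.1)
    rw [h3, Nat.cast_sum]
    calc ∑ v ∈ V, ((∑ w ∈ univ.erase v, #(EE e v ∩ EE e w) : ℕ) : ℝ)
        ≤ ∑ _v ∈ V, X / Y * (δ / 8 + δ / 16) := by
          refine sum_le_sum fun v _ => ?_
          have h4 := pair_sum (e := e) v
          have h5 := sum_terms (e := e) hn hh hsmall hN hN1 hN2
          have h6 : ((∑ w ∈ univ.erase v, #(EE e v ∩ EE e w) : ℕ) : ℝ) * (Y * Y) ≤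
              X * ((N : ℝ) ^ n + n * (2 * n ^ 2 / 2 ^ h) * Y) := by
            have h7 : ((∑ w ∈ univ.erase v, #(EE e v ∩ EE e w) : ℕ) : ℝ) *
                2 ^ (2 * n ^ (e + 2)) ≤ X * ((∑ k ∈ range n, n.choose k ^ 2 *
                  (N ^ (n - k) * 2 ^ (k ^ (e + 2))) : ℕ) : ℝ) := by
              rw [hX]
              exact_mod_cast h4
            have h8 : Y * Y = 2 ^ (2 * n ^ (e + 2)) := by
              rw [hY, ← pow_add, ← two_mul]
            rw [h8]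
            exact h7.trans (mul_le_mul_of_nonneg_left h5 hXpos.le)
          have h9 : X * ((N : ℝ) ^ n + n * (2 * n ^ 2 / 2 ^ h) * Y) ≤
              X * (δ / 8 * Y + δ / 16 * Y) := by
            refine mul_le_mul_of_nonneg_left ?_ hXpos.le
            exact add_le_add h1 (mul_le_mul_of_nonneg_right h2 hYpos.le)
          have h10 : ((∑ w ∈ univ.erase v, #(EE e v ∩ EE e w) : ℕ) : ℝ) * (Y * Y) ≤
              (X / Y * (δ / 8 + δ / 16)) * (Y * Y) := by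
            refine (h6.trans h9).trans (le_of_eq ?_)
            field_simp
          exact le_of_mul_le_mul_right h10 (by positivity)
      _ = _ := by rw [sum_const, nsmul_eq_mul]
  have hb' : ((∑ v : Fin n → Fin N, #(PP T v) : ℕ) : ℝ) ≤ (#(Cod n N T) : ℝ) +
      ((∑ v : Fin n → Fin N, ∑ w ∈ univ.erase v, #(EE e v ∩ EE e w) : ℕ) : ℝ) := by
    exact_mod_cast hb
  have hfin : (#V : ℝ) * (δ * (X / (4 * Y))) - #V * (X / Y * (δ / 8 + δ / 16)) =
      (N.descFactorial n : ℝ) / Y * (δ / 16) * X := by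
    rw [hVcard]
    field_simp
    ring
  linarith

end Pool.Agent.J4.H42.Iso
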