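import Mathlib
import Pool.Agent.J4.H42.IsoD

/-!
# Isomorphism invariant families: choice of the parameters
-/

set_option autoImplicit false

namespace Pool.Agent.J4.H42.Iso

open Finset Filter Topology

lemma four_sq_le {n : ℕ} (hn : 8 ≤ n) : 4 * n ^ 2 ≤ 2 ^ n := by
  induction n, hn using Nat.le_induction with
  | base => norm_num
  | succ n hn ih =>
    rw [pow_succ 2 n]
    nlinarith

lemma choose_N (e : ℕ) {n : ℕ} {lam : ℝ} (hl : 0 < lam) (hl1 : lam ≤ 1 / 2) (hn : 8 ≤ n)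
    (hsmall : (1 / 2 : ℝ) ^ n < lam) : ∃ N : ℕ, 2 ^ (n ^ (e + 1)) ≤ 2 * N ∧
      N ≤ 2 * 2 ^ (n ^ (e + 1)) ∧ 2 * N ^ 2 ≤ 3 * 4 ^ (n ^ (e + 1)) ∧ N ^ n ≤ 2 ^ (n ^ (e + 2)) ∧
      (N : ℝ) ^ n ≤ 2 * lam * 2 ^ (n ^ (e + 2)) ∧
      lam / 2 ≤ (N.descFactorial n : ℝ) / 2 ^ (n ^ (e + 2)) := by
  classical
  set M := 2 ^ (n ^ (e + 1)) with hM
  have hn1 : n ≤ n ^ (e + 1) := by
    calc n = n ^ 1 := (pow_one n).symm
      _ ≤ n ^ (e + 1) := Nat.pow_le_pow_right (by omega) (by omega)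
  have hMbig : 2 ^ n ≤ M := Nat.pow_le_pow_right (by norm_num) hn1
  have h4 := four_sq_le hn
  have hMpos : 0 < M := by positivity
  have hMn : M ^ n = 2 ^ (n ^ (e + 2)) := by
    rw [hM, ← pow_mul, ← pow_succ]
  have hY : ((2 : ℝ) ^ (n ^ (e + 2))) = (M : ℝ) ^ n := by exact_mod_cast hMn.symm
  have hMR : (0 : ℝ) < M := by exact_mod_cast hMpos
  have hMnR : (0 : ℝ) < (M : ℝ) ^ n := by positivity
  have hex : ∃ N : ℕ, lam * (M : ℝ) ^ n < ((N + 1).descFactorial n : ℝ) := by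
    refine ⟨M + n, ?_⟩
    have h1 : (M + n + 1 + 1 - n) ^ n ≤ (M + n + 1).descFactorial n := Nat.pow_sub_le_descFactorial _ _
    have h2 : M ^ n ≤ (M + n + 1).descFactorial n := by
      refine le_trans (Nat.pow_le_pow_left ?_ n) h1
      omega
    have h3 : ((M : ℝ) ^ n) ≤ ((M + n + 1).descFactorial n : ℝ) := by exact_mod_cast h2
    nlinarith
  set N := Nat.find hex with hNdef
  have hP : lam * (M : ℝ) ^ n < ((N + 1).descFactorial n : ℝ) := Nat.find_spec hex
  have hQ : (N.descFactorial n : ℝ) ≤ lam * (M : ℝ) ^ n := by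
    rcases Nat.eq_zero_or_pos N with h0 | h0
    · rw [h0]
      have : (0 : ℕ).descFactorial n = 0 := by
        rw [Nat.descFactorial_eq_zero_iff_lt]
        omega
      rw [this]
      simp only [Nat.cast_zero]
      positivity
    · have := Nat.find_min hex (m := N - 1) (by omega)
      rw [Nat.sub_add_cancel h0] at this
      exact not_lt.1 this
  clear_value N
  -- lower bound for `N`
  obtain ⟨M', hM'⟩ : ∃ M', M = 2 * M' := by
    refine ⟨2 ^ (n ^ (e + 1) - 1), ?_⟩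
    rw [hM, ← pow_succ', Nat.sub_add_cancel (by omega)]
  have hNlow : M ≤ 2 * N := by
    by_contra hcon
    have h1 : N + 1 ≤ M' := by omega
    have h2 : (N + 1).descFactorial n ≤ M' ^ n :=
      (Nat.descFactorial_le_pow _ _).trans (Nat.pow_le_pow_left h1 n)
    have h3 : ((N + 1).descFactorial n : ℝ) ≤ (M' : ℝ) ^ n := by exact_mod_cast h2
    have h5 : (M' : ℝ) ^ n = (1 / 2 : ℝ) ^ n * (M : ℝ) ^ n := by
      rw [← mul_pow, hM']
      congr 1
      push_cast
      ring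
    rw [h5] at h3
    have h6 := mul_lt_mul_of_pos_right hsmall hMnR
    linarith
  have hNup : N < M + n := by
    by_contra hcon
    have h1 : M ^ n ≤ N.descFactorial n := by
      refine le_trans (Nat.pow_le_pow_left ?_ n) (Nat.pow_sub_le_descFactorial _ _)
      omega
    have h2 : ((M : ℝ) ^ n) ≤ (N.descFactorial n : ℝ) := by exact_mod_cast h1
    nlinarith
  have h10n : 10 * n ≤ M := by nlinarith
  have hN2n : 2 * n ^ 2 ≤ N := by omega
  have hNpos : 0 < N := by nlinarith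
  have hNR : (0 : ℝ) < N := by exact_mod_cast hNpos
  -- `N ^ n ≤ 2 (N)_n`
  have hdesc : (N : ℝ) ^ n ≤ 2 * (N.descFactorial n : ℝ) := by
    have h1 : ((N + 1 - n : ℕ) : ℝ) ^ n ≤ (N.descFactorial n : ℝ) := by
      exact_mod_cast Nat.pow_sub_le_descFactorial N n
    have h2 : ((N + 1 - n : ℕ) : ℝ) = (N : ℝ) + 1 - n := by
      rw [Nat.cast_sub (by nlinarith)]
      push_cast
      ring
    have h3 : (1 : ℝ) + n * (-(n / N)) ≤ (1 + -(n / N : ℝ)) ^ n := by
      refine one_add_mul_le_pow ?_ n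
      have : (n : ℝ) / N ≤ 1 := by
        rw [div_le_one hNR]
        exact_mod_cast (by nlinarith : n ≤ N)
      linarith
    have h4 : (n : ℝ) * (n / N) ≤ 1 / 2 := by
      rw [← mul_div_assoc, div_le_iff₀ hNR]
      have : 2 * (n : ℝ) ^ 2 ≤ N := by exact_mod_cast hN2n
      nlinarith
    have h5 : (1 + -(n / N : ℝ)) ^ n * (N : ℝ) ^ n = ((N : ℝ) - n) ^ n := by
      rw [← mul_pow]
      congr 1
      field_simp
      ring
    have h6 : ((N : ℝ) - n) ^ n ≤ ((N : ℝ) + 1 - n) ^ n := by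
      refine pow_le_pow_left₀ ?_ (by linarith) n
      have : (n : ℝ) ≤ N := by exact_mod_cast (by nlinarith : n ≤ N)
      linarith
    have h7 : (1 / 2 : ℝ) * (N : ℝ) ^ n ≤ (1 + -(n / N : ℝ)) ^ n * (N : ℝ) ^ n := by
      refine mul_le_mul_of_nonneg_right ?_ (by positivity)
      linarith
    rw [h2] at h1
    linarith
  have hE : (N : ℝ) ^ n ≤ 2 * lam * (M : ℝ) ^ n := by linarith
  refine ⟨N, hNlow, by omega, ?_, ?_, ?_, ?_⟩
  · have h1 : (4 : ℕ) ^ (n ^ (e + 1)) = M ^ 2 := by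
      rw [hM, ← pow_mul, mul_comm, pow_mul]
      norm_num
    rw [h1]
    nlinarith
  · rw [← hMn]
    have : (N : ℝ) ^ n ≤ (M : ℝ) ^ n := by nlinarith
    exact_mod_cast this
  · rw [hY]
    exact hE
  · rw [hY, le_div_iff₀ hMnR]
    have h1 : (N + 1 - n) * (N + 1).descFactorial n = (N + 1) * N.descFactorial n :=
      Nat.succ_descFactorial N n
    have h2 : (N + 1) * (N + 1).descFactorial n ≤ (N + 1) * (2 * N.descFactorial n) := by
      calc (N + 1) * (N + 1).descFactorial n ≤ (2 * (N + 1 - n)) * (N + 1).descFactorial n := by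
            refine Nat.mul_le_mul_right _ ?_
            have : 2 * n ≤ N := by nlinarith
            omega
        _ = 2 * ((N + 1 - n) * (N + 1).descFactorial n) := by ring
        _ = (N + 1) * (2 * N.descFactorial n) := by rw [h1]; ring
    have h3 : (N + 1).descFactorial n ≤ 2 * N.descFactorial n :=
      Nat.le_of_mul_le_mul_left h2 (by omega)
    have h4 : ((N + 1).descFactorial n : ℝ) ≤ 2 * (N.descFactorial n : ℝ) := by exact_mod_cast h3
    linarith

/-- transport to another finite set -/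
lemma transport {d m : ℕ} (hd : 1 ≤ d) {U : Type} [DecidableEq U] (Λ : Finset U) (hΛ : #Λ = m)
    (S : Finset (Finset (Fin d → Fin m))) (hS : ¬ Gd S) :
    ∃ T : Finset (Finset (Fin d → U)), (∀ B ∈ T, ∀ l ∈ B, ∀ i, l i ∈ Λ) ∧ #T = #S ∧ ¬ Gd T := by
  classical
  have ε := Λ.equivFinOfCardEq hΛ
  set f : Fin m → U := fun i => (ε.symm i).1 with hf
  have hfinj : Function.Injective f := fun i j h => ε.symm.injective (Subtype.ext h)
  have hfmem : ∀ i, f i ∈ Λ := fun i => (ε.symm i).2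
  set F : (Fin d → Fin m) → (Fin d → U) := fun t i => f (t i) with hF
  have hFinj : Function.Injective F := fun s t h => funext fun i => hfinj (congrFun h i)
  have hIinj : Function.Injective fun A : Finset (Fin d → Fin m) => A.image F :=
    image_injective hFinj
  refine ⟨S.image fun A => A.image F, ?_, card_image_of_injective _ hIinj, ?_⟩
  · intro B hB l hl i
    obtain ⟨A, -, rfl⟩ := mem_image.1 hB
    obtain ⟨t, -, rfl⟩ := mem_image.1 hl
    exact hfmem _
  · rintro ⟨B, hB, γ, hγ, hdis, hB'⟩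
    obtain ⟨A, hA, rfl⟩ := mem_image.1 hB
    obtain ⟨A', hA', h⟩ := mem_image.1 hB'
    set γ₀ : Finset (Fin m) := univ.filter fun i => f i ∈ γ with hγ₀
    have hrange : ∀ x ∈ γ, ∃ i, f i = x := by
      intro x hx
      have h1 : (fun _ : Fin d => x) ∈ A'.image F := by
        rw [h]
        exact mem_union_right _ (mem_cube.2 fun _ => hx)
      obtain ⟨t, -, ht⟩ := mem_image.1 h1
      exact ⟨t ⟨0, hd⟩, congrFun ht ⟨0, hd⟩⟩
    have hcube : (cube d γ₀).image F = cube d γ := by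
      ext l
      rw [mem_image, mem_cube]
      constructor
      · rintro ⟨t, ht, rfl⟩ i
        rw [mem_cube] at ht
        have := ht i
        rw [hγ₀, mem_filter] at this
        exact this.2
      · intro hl
        choose t ht using fun i => hrange (l i) (hl i)
        refine ⟨t, ?_, funext ht⟩
        rw [mem_cube]
        intro i
        rw [hγ₀, mem_filter]
        refine ⟨mem_univ _, ?_⟩
        rw [ht]
        exact hl i
    refine hS ⟨A, hA, γ₀, ?_, ?_, ?_⟩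
    · obtain ⟨x, hx⟩ := hγ
      obtain ⟨i, hi⟩ := hrange x hx
      exact ⟨i, by rw [hγ₀, mem_filter]; exact ⟨mem_univ _, hi ▸ hx⟩⟩
    · rw [← hcube] at hdis
      rw [Finset.disjoint_left] at hdis ⊢
      intro t h1 h2
      exact hdis (mem_image_of_mem _ h1) (mem_image_of_mem _ h2)
    · have : A ∪ cube d γ₀ = A' := by
        apply hIinj
        simp only
        rw [image_union, hcube, h]
      rw [this]
      exact hA'

/-- bad families for all sizes give invariant bad families for arbitrarily large sizes -/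
theorem inv_of_bad (e : ℕ) {δ : ℝ} (hδ : 0 < δ) (hδ1 : δ ≤ 1)
    (hbad : ∀ N : ℕ, ∃ S : Finset (Finset (Fin (e + 2) → Fin N)),
      δ * 2 ^ (N ^ (e + 2)) < #S ∧ ¬ Gd S) (N₀ : ℕ) :
    ∃ N : ℕ, N₀ ≤ N ∧ ∃ S : Finset (Finset (Fin (e + 2) → Fin N)),
      (∀ π : Equiv.Perm (Fin N), ∀ A ∈ S, act π A ∈ S) ∧ ¬ Gd S ∧
        δ ^ 2 / 512 * 2 ^ (N ^ (e + 2)) ≤ #S := by
  classical
  -- the size of the pattern
  have t1 : Tendsto (fun h : ℕ => ((h : ℝ) ^ 3 / (2 : ℝ) ^ h)) atTop (𝓝 0) :=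
    tendsto_pow_const_div_const_pow_of_one_lt 3 (by norm_num)
  have t2 : Tendsto (fun h : ℕ => (1 / 2 : ℝ) ^ h) atTop (𝓝 0) :=
    tendsto_pow_atTop_nhds_zero_of_lt_one (by norm_num) (by norm_num)
  have ev1 : ∀ᶠ h : ℕ in atTop, (h : ℝ) ^ 3 / (2 : ℝ) ^ h < δ / 256 :=
    t1.eventually (gt_mem_nhds (by positivity))
  have ev2 : ∀ᶠ h : ℕ in atTop, (1 / 2 : ℝ) ^ h < δ / 16 :=
    t2.eventually (gt_mem_nhds (by positivity))
  obtain ⟨h, hh1, hh2, hh3, hh4⟩ :=
    (ev1.and (ev2.and ((eventually_ge_atTop 4).and (eventually_ge_atTop (N₀ + 1))))).exists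
  set n := 2 * h with hn
  have hh16 : 16 * (h : ℝ) ^ 3 ≤ δ / 16 * 2 ^ h := by
    rw [div_lt_iff₀ (by positivity)] at hh1
    linarith
  have h2 : (n : ℝ) * (2 * n ^ 2 / 2 ^ h) ≤ δ / 16 := by
    rw [← mul_div_assoc, div_le_iff₀ (by positivity), hn]
    push_cast
    calc (2 * (h : ℝ)) * (2 * (2 * h) ^ 2) = 16 * (h : ℝ) ^ 3 := by ring
      _ ≤ _ := hh16
  have hhR : (4 : ℝ) ≤ h := by exact_mod_cast hh3
  have hsmall : 2 * n ^ 2 ≤ 2 ^ h := by
    have h3 : (2 : ℝ) * (n : ℝ) ^ 2 ≤ 2 ^ h := by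
      have h5 : (2 : ℝ) * (n : ℝ) ^ 2 ≤ 16 * (h : ℝ) ^ 3 := by
        rw [hn]
        push_cast
        nlinarith [sq_nonneg (h : ℝ)]
      have h6 : δ / 16 * 2 ^ h ≤ (2 : ℝ) ^ h := by
        have : (0 : ℝ) < 2 ^ h := by positivity
        nlinarith
      linarith
    exact_mod_cast h3
  have hnsmall : (1 / 2 : ℝ) ^ n < δ / 16 := by
    refine lt_of_le_of_lt ?_ hh2
    exact pow_le_pow_of_le_one (by norm_num) (by norm_num) (by omega)
  obtain ⟨N, c1, c2, c3, c4, c5, c6⟩ := choose_N e (n := n) (lam := δ / 16) (by positivity)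
    (by linarith) (by omega) hnsmall
  -- the families
  have hT : ∀ Λ : Finset (Lb e n), ∃ T : Finset (Finset (Fin (e + 2) → Lb e n)),
      (∀ B ∈ T, ∀ l ∈ B, ∀ i, l i ∈ Λ) ∧ δ * 2 ^ (#Λ ^ (e + 2)) ≤ #T ∧ ¬ Gd T := by
    intro Λ
    obtain ⟨S, hS1, hS2⟩ := hbad #Λ
    obtain ⟨T, hT1, hT2, hT3⟩ := transport (by omega) Λ rfl S hS2
    exact ⟨T, hT1, by rw [hT2]; exact hS1.le, hT3⟩
  choose T hT1 hT2 hT3 using hT
  refine ⟨N, ?_, Cod n N T, fun π A hA => act_mem hA, not_gd hT3, ?_⟩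
  · -- `N` is large
    have h7 : 2 ^ n ≤ 2 ^ (n ^ (e + 1)) := by
      refine Nat.pow_le_pow_right (by norm_num) ?_
      calc n = n ^ 1 := (pow_one n).symm
        _ ≤ n ^ (e + 1) := Nat.pow_le_pow_right (by omega) (by omega)
    have h8 : n < 2 ^ n := Nat.lt_two_pow_self
    omega
  · have h9 := card_Cod hT1 hδ hT2 (N := N) hn (by omega) hsmall c1 c2 c3 c4
      (by convert c5 using 2; ring) h2
    refine le_trans ?_ h9
    refine mul_le_mul_of_nonneg_right ?_ (by positivity)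
    calc δ ^ 2 / 512 = δ / 16 / 2 * (δ / 16) := by ring
      _ ≤ _ := mul_le_mul_of_nonneg_right c6 (by positivity)

end Pool.Agent.J4.H42.Iso
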