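import Mathlib

/-!
# Generalized eigenspaces of tensor products
-/

set_option autoImplicit false

namespace Pool.Agent.J4.H42.Pr

open Finset TensorProduct

section

variable {E : Type} [Field E]

/-- A map commuting with endomorphisms respects generalized eigenspaces. -/
lemma maxGen_map {M M' : Type} [AddCommGroup M] [Module E M] [AddCommGroup M'] [Module E M']
    (A : Module.End E M) (B : Module.End E M') (π : M →ₗ[E] M') (h : ∀ x, π (A x) = B (π x))
    {x : E} {m : M} (hm : m ∈ A.maxGenEigenspace x) : π m ∈ B.maxGenEigenspace x := by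
  rw [Module.End.mem_maxGenEigenspace] at hm ⊢
  obtain ⟨n, hn⟩ := hm
  refine ⟨n, ?_⟩
  have h1 : ∀ (n : ℕ) (m : M), ((B - x • 1) ^ n) (π m) = π (((A - x • 1) ^ n) m) := by
    intro n
    induction n with
    | zero => intro m; rfl
    | succ n ih =>
      intro m
      rw [pow_succ, pow_succ, Module.End.mul_apply, Module.End.mul_apply, ← ih]
      congr 1
      simp [h]
  rw [h1, hn, map_zero]

/-- Generalized eigenvectors of powers. -/
lemma maxGen_pow {M : Type} [AddCommGroup M] [Module E M] (A : Module.End E M) (s : ℕ) {x : E}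
    {m : M} (hm : m ∈ A.maxGenEigenspace x) : m ∈ (A ^ s).maxGenEigenspace (x ^ s) := by
  rw [Module.End.mem_maxGenEigenspace] at hm ⊢
  obtain ⟨n, hn⟩ := hm
  refine ⟨n, ?_⟩
  have hc : Commute A (x • (1 : Module.End E M)) := by
    rw [Commute, SemiconjBy]
    rw [mul_smul_comm, smul_mul_assoc, one_mul, mul_one]
  have h1 : A ^ s - x ^ s • (1 : Module.End E M)
      = (∑ i ∈ range s, A ^ i * (x • (1 : Module.End E M)) ^ (s - 1 - i))
        * (A - x • 1) := by
    rw [hc.geom_sum₂_mul]
    congr 1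
    rw [smul_pow, one_pow]
  have hc2 : Commute (∑ i ∈ range s, A ^ i * (x • (1 : Module.End E M)) ^ (s - 1 - i))
      (A - x • 1) := by
    refine Commute.sum_left _ _ _ fun i _ => ?_
    refine Commute.mul_left ?_ ?_
    · exact ((Commute.refl A).sub_right hc).pow_left i
    · exact (hc.symm.sub_right (Commute.refl _)).pow_left _
  rw [h1, hc2.mul_pow, Module.End.mul_apply, hn, map_zero]

variable {ι : Type} [Fintype ι] {M : ι → Type} [∀ i, AddCommGroup (M i)] [∀ i, Module E (M i)]

/-- Tensors of generalized eigenvectors. -/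
lemma tprod_mem_aux [DecidableEq ι] (G : ∀ i, Module.End E (M i)) (x : ι → E) (K : ℕ) :
    ∀ (k : ι → ℕ), ∑ i, k i ≤ K → ∀ (m : ∀ i, M i), (∀ i, ((G i - x i • 1) ^ k i) (m i) = 0) →
      (((PiTensorProduct.map G : Module.End E (⨂[E] i, M i)) - (∏ i, x i) • 1) ^ (K + 1))
        (⨂ₜ[E] i, m i) = 0 := by
  induction K with
  | zero =>
    intro k hk m hm
    by_cases h0 : ∃ i, k i = 0
    · obtain ⟨i, hi⟩ := h0
      have h1 := hm i
      rw [hi, pow_zero, Module.End.one_apply] at h1
      have h2 : (⨂ₜ[E] i, m i) = 0 := (PiTensorProduct.tprod E).map_coord_zero i h1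
      rw [h2, map_zero]
    · push Not at h0
      have hemp : IsEmpty ι := by
        constructor
        intro i
        have h1 := h0 i
        have h2 := single_le_sum (f := k) (fun _ _ => Nat.zero_le _) (mem_univ i)
        omega
      rw [zero_add, pow_one, LinearMap.sub_apply, PiTensorProduct.map_tprod,
        LinearMap.smul_apply, Module.End.one_apply]
      rw [Fintype.prod_empty, one_smul, sub_eq_zero]
      congr 1
      funext i
      exact hemp.elim i
  | succ K ih =>
    intro k hk m hm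
    by_cases h0 : ∃ i, k i = 0
    · obtain ⟨i, hi⟩ := h0
      have h1 := hm i
      rw [hi, pow_zero, Module.End.one_apply] at h1
      have h2 : (⨂ₜ[E] i, m i) = 0 := (PiTensorProduct.tprod E).map_coord_zero i h1
      rw [h2, map_zero]
    · push Not at h0
      rw [pow_succ, Module.End.mul_apply, LinearMap.sub_apply, PiTensorProduct.map_tprod,
        LinearMap.smul_apply, Module.End.one_apply]
      have h1 : (fun i => G i (m i)) = (fun i => x i • m i) + fun i => (G i - x i • 1) (m i) := by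
        funext i
        rw [Pi.add_apply]
        simp
      rw [h1, MultilinearMap.map_add_univ]
      have h2 : (∏ i, x i) • (⨂ₜ[E] i, m i)
          = (PiTensorProduct.tprod E) ((univ : Finset ι).piecewise (fun i => x i • m i)
            (fun i => (G i - x i • 1) (m i))) := by
        rw [Finset.piecewise_univ, MultilinearMap.map_smul_univ]
      rw [h2, ← Finset.add_sum_erase univ _ (mem_univ (univ : Finset ι)), add_sub_cancel_left,
        map_sum]
      refine sum_eq_zero fun S hS => ?_
      have hSne : S ≠ univ := ne_of_mem_erase hS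
      obtain ⟨i0, hi0⟩ : ∃ i0, i0 ∉ S := by
        by_contra h
        push Not at h
        exact hSne (eq_univ_of_forall h)
      refine ih (fun i => if i ∈ S then k i else k i - 1) ?_ _ ?_
      · have h3 : ∑ i, (if i ∈ S then k i else k i - 1) < ∑ i, k i := by
          refine sum_lt_sum (fun i _ => ?_) ⟨i0, mem_univ _, ?_⟩
          · split_ifs <;> omega
          · rw [if_neg hi0]
            have := h0 i0
            omega
        omega
      · intro i
        by_cases hi : i ∈ S
        · rw [if_pos hi, Finset.piecewise_eq_of_mem _ _ _ hi, map_smul, hm i, smul_zero]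
        · rw [if_neg hi, Finset.piecewise_eq_of_notMem _ _ _ hi, ← Module.End.mul_apply,
            ← pow_succ, Nat.sub_add_cancel (Nat.one_le_iff_ne_zero.mpr (h0 i))]
          exact hm i

lemma tprodGen_mem (G : ∀ i, Module.End E (M i)) (x : ι → E) (m : ∀ i, M i)
    (hm : ∀ i, m i ∈ (G i).maxGenEigenspace (x i)) :
    (⨂ₜ[E] i, m i) ∈
      Module.End.maxGenEigenspace (PiTensorProduct.map G : Module.End E (⨂[E] i, M i))
        (∏ i, x i) := by
  classical
  have h1 : ∀ i, ∃ k : ℕ, ((G i - x i • 1) ^ k) (m i) = 0 := fun i =>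
    (Module.End.mem_maxGenEigenspace _ _ _).1 (hm i)
  choose k hk using h1
  rw [Module.End.mem_maxGenEigenspace]
  exact ⟨_, tprod_mem_aux G x (∑ i, k i) k le_rfl m hk⟩

/-- The span of the tensors of elements of the submodules. -/
def tensorSpan (A : ∀ i, Submodule E (M i)) : Submodule E (⨂[E] i, M i) :=
  Submodule.span E {t | ∃ a : ∀ i, M i, (∀ i, a i ∈ A i) ∧ t = ⨂ₜ[E] i, a i}

/-- The first main step: the endomorphisms are scalars on the submodules. -/
theorem maxGen_le (G : ∀ i, Module.End E (M i)) (A : ∀ i, Submodule E (M i)) (a : ι → E)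
    (hA : ∀ i, ∀ v ∈ A i, G i v = a i • v) (Sm : ι → E → Prop)
    (hgen : ∀ i, A i ⊔ Submodule.span E {m | ∃ x, Sm i x ∧ m ∈ (G i).maxGenEigenspace x} = ⊤)
    (hsm : ∀ (x : ι → E) (T : Finset ι), T.Nonempty → (∀ i ∈ T, Sm i (x i)) →
      (∀ i, i ∉ T → x i = a i) → ∏ i, x i ≠ ∏ i, a i) :
    Module.End.maxGenEigenspace (PiTensorProduct.map G : Module.End E (⨂[E] i, M i)) (∏ i, a i)
      ≤ tensorSpan A := by
  classical
  set T : Module.End E (⨂[E] i, M i) := PiTensorProduct.map G with hT
  set lam := ∏ i, a i with hlam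
  -- the generators
  set g : ∀ i, ({m : M i | m ∈ A i} ⊕ {m : M i | ∃ x, Sm i x ∧ m ∈ (G i).maxGenEigenspace x}) →
    M i := fun i => Sum.elim Subtype.val Subtype.val with hg
  have hspan : ∀ i, Submodule.span E (Set.range (g i)) = ⊤ := by
    intro i
    rw [eq_top_iff, ← hgen i, sup_le_iff]
    constructor
    · intro v hv
      exact Submodule.subset_span ⟨Sum.inl ⟨v, hv⟩, rfl⟩
    · refine Submodule.span_mono ?_
      intro v hv
      exact ⟨Sum.inr ⟨v, hv⟩, rfl⟩
  have htop := PiTensorProduct.submodule_span_eq_top (R := E) (M := M) (g := fun i => g i) hspan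
  have hR : tensorSpan A ≤ T.maxGenEigenspace lam := by
    refine Submodule.span_le.2 ?_
    rintro _ ⟨v, hv, rfl⟩
    refine tprodGen_mem G a v fun i => ?_
    rw [Module.End.mem_maxGenEigenspace]
    refine ⟨1, ?_⟩
    rw [pow_one, LinearMap.sub_apply, LinearMap.smul_apply, Module.End.one_apply, hA i _ (hv i),
      sub_self]
  have hdec : tensorSpan A ⊔ ⨆ (ν) (_ : ν ≠ lam), T.maxGenEigenspace ν = ⊤ := by
    rw [eq_top_iff, ← htop]
    refine Submodule.span_le.2 ?_
    rintro _ ⟨σ, rfl⟩
    by_cases hall : ∀ i, ∃ v, σ i = Sum.inl v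
    · refine Submodule.mem_sup_left (Submodule.subset_span ⟨fun i => g i (σ i), ?_, rfl⟩)
      intro i
      obtain ⟨v, hv⟩ := hall i
      rw [hg]
      simp only [hv, Sum.elim_inl]
      exact v.2
    · refine Submodule.mem_sup_right ?_
      have hx : ∀ i, ∃ x : E, g i (σ i) ∈ (G i).maxGenEigenspace x ∧
          ((∃ v, σ i = Sum.inl v) → x = a i) ∧ ((¬ ∃ v, σ i = Sum.inl v) → Sm i x) := by
        intro i
        rcases h : σ i with v | v
        · refine ⟨a i, ?_, fun _ => rfl, fun h' => absurd ⟨v, rfl⟩ h'⟩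
          rw [Module.End.mem_maxGenEigenspace]
          refine ⟨1, ?_⟩
          rw [pow_one, LinearMap.sub_apply, LinearMap.smul_apply, Module.End.one_apply]
          have := hA i _ v.2
          rw [hg]
          simp only [Sum.elim_inl]
          rw [this, sub_self]
        · obtain ⟨x, hx1, hx2⟩ := v.2
          refine ⟨x, hx2, ?_, fun _ => hx1⟩
          rintro ⟨v', hv'⟩
          cases hv'
      choose x hx1 hx2 hx3 using hx
      have hne : ∏ i, x i ≠ lam := by
        refine hsm x (univ.filter fun i => ¬ ∃ v, σ i = Sum.inl v) ?_ ?_ ?_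
        · push Not at hall
          obtain ⟨i, hi⟩ := hall
          exact ⟨i, mem_filter.2 ⟨mem_univ _, fun ⟨v, hv⟩ => hi v hv⟩⟩
        · intro i hi
          exact hx3 i (mem_filter.1 hi).2
        · intro i hi
          refine hx2 i ?_
          by_contra h
          exact hi (mem_filter.2 ⟨mem_univ _, h⟩)
      refine Submodule.mem_iSup_of_mem (∏ i, x i) (Submodule.mem_iSup_of_mem hne ?_)
      exact tprodGen_mem G x _ hx1
  intro v hv
  have h3 : v ∈ tensorSpan A ⊔ ⨆ (ν) (_ : ν ≠ lam), T.maxGenEigenspace ν := by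
    rw [hdec]
    exact Submodule.mem_top
  obtain ⟨r, hr, b, hb, rfl⟩ := Submodule.mem_sup.1 h3
  have h5 : b ∈ T.maxGenEigenspace lam := by
    have := Submodule.sub_mem _ hv (hR hr)
    rwa [add_sub_cancel_left] at this
  have h6 : b = 0 := by
    have := (Module.End.independent_maxGenEigenspace T lam).le_bot
      (Submodule.mem_inf.2 ⟨h5, hb⟩)
    exact (Submodule.mem_bot E).1 this
  rw [h6, add_zero]
  exact hr

/-- The endomorphisms have finite order up to scalars on the submodules. -/
theorem maxGen_le' (F : ∀ i, Module.End E (M i)) (A : ∀ i, Submodule E (M i)) (q : E) (w : ι → ℕ)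
    (hA : ∀ i, ∃ s : ℕ, 0 < s ∧ ∀ v ∈ A i, (F i ^ s) v = q ^ (s * w i) • v) (Sm : ι → E → Prop)
    (hgen : ∀ i, A i ⊔ Submodule.span E {m | ∃ x, Sm i x ∧ m ∈ (F i).maxGenEigenspace x} = ⊤)
    (hsm : ∀ (x : ι → E) (T : Finset ι), T.Nonempty → (∀ i ∈ T, Sm i (x i)) →
      (∀ i, i ∉ T → x i = q ^ w i) → ∀ t : ℕ, 0 < t → ∏ i, x i ^ t ≠ ∏ i, (q ^ w i) ^ t)
    (r : ℕ) (hr : 0 < r) :
    Module.End.maxGenEigenspace ((PiTensorProduct.map F : Module.End E (⨂[E] i, M i)) ^ r)
      (q ^ (r * ∑ i, w i)) ≤ tensorSpan A := by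
  classical
  choose s hs0 hs using hA
  set t := ∏ i, s i with ht
  have ht0 : 0 < t := prod_pos fun i _ => hs0 i
  have hpow : ∀ i, ∀ (n : ℕ), ∀ v ∈ A i, ((F i ^ s i) ^ n) v = (q ^ (s i * w i)) ^ n • v := by
    intro i n
    induction n with
    | zero => intro v _; rw [pow_zero, pow_zero, one_smul, Module.End.one_apply]
    | succ n ih =>
      intro v hv
      rw [pow_succ, Module.End.mul_apply, hs i v hv, map_smul, ih v hv, smul_smul, pow_succ,
        mul_comm]
  have hAt : ∀ i, ∀ v ∈ A i, (F i ^ (r * t)) v = (q ^ w i) ^ (r * t) • v := by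
    intro i v hv
    obtain ⟨u, hu⟩ := (dvd_prod_of_mem s (mem_univ i)).mul_left r
    rw [← ht] at hu
    rw [hu, pow_mul, hpow i u v hv]
    congr 1
    rw [← pow_mul, ← pow_mul]
    congr 1
    ring
  intro v hv
  have h1 := maxGen_pow _ t hv
  rw [← pow_mul, ← PiTensorProduct.map_pow] at h1
  have h2 : (q ^ (r * ∑ i, w i)) ^ t = ∏ i, (q ^ w i) ^ (r * t) := by
    rw [prod_pow, prod_pow_eq_pow_sum, ← pow_mul, ← pow_mul]
    congr 1
    ring
  rw [h2] at h1
  refine maxGen_le (fun i => F i ^ (r * t)) A (fun i => (q ^ w i) ^ (r * t)) hAt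
    (fun i y => ∃ x, Sm i x ∧ y = x ^ (r * t)) ?_ ?_ h1
  · intro i
    rw [eq_top_iff, ← hgen i]
    refine sup_le_sup_left (Submodule.span_mono ?_) _
    rintro m ⟨x, hx, hm⟩
    exact ⟨x ^ (r * t), ⟨x, hx, rfl⟩, maxGen_pow _ _ hm⟩
  · intro y T hT hy hy'
    have h3 : ∀ i, ∃ x : E, y i = x ^ (r * t) ∧ (i ∈ T → Sm i x) ∧ (i ∉ T → x = q ^ w i) := by
      intro i
      by_cases hi : i ∈ T
      · obtain ⟨x, hx, hxy⟩ := hy i hi
        exact ⟨x, hxy, fun _ => hx, fun h => absurd hi h⟩
      · exact ⟨q ^ w i, hy' i hi, fun h => absurd h hi, fun _ => rfl⟩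
    choose x hx1 hx2 hx3 using h3
    have h4 := hsm x T hT (fun i hi => hx2 i hi) hx3 (r * t) (Nat.mul_pos hr ht0)
    rwa [prod_congr rfl fun i _ => hx1 i]

end

end Pool.Agent.J4.H42.Pr
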