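import Pool.Agent.J4.H42.PrA
import Pool.Agent.J4.H42.PrB
import Pool.Agent.J4.H42.FibB
import Pool.Agent.W528.HI.Main
import Pool.Agent.W528.HC.MU
import Pool.Agent.W924.HC.PR
import Pool.Agent.W340.HD.IN
import Pool.Agent.W108.HD.ONE
import Pool.Agent.W940.HD.GE
import Pool.Agent.W551.HD.GN
import Pool.Agent.W816.HI.AT
import Pool.Agent.W15.HI.PT

/-!
# Products of varieties whose cohomology is described by character sums of coprime orders
-/

set_option autoImplicit false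

namespace Pool.Agent.J4.H42.Pr

open Finset Polynomial TensorProduct Pool.Agent.W528.HA Pool.Agent.W528.HB Pool.Agent.W528.HD
  Pool.Agent.W528.HI

section

variable {ι : Type} [Fintype ι]

lemma coprime_div' [DecidableEq ι] {N : ι → ℕ} (hN : ∀ i, 0 < N i)
    (hcop : Pairwise fun i k => (N i).Coprime (N k)) (k : ι) :
    ((∏ i, N i) / N k).Coprime (N k) := by
  have h1 : (∏ i, N i) / N k = ∏ i ∈ univ.erase k, N i := by
    rw [← Finset.mul_prod_erase univ N (mem_univ k), Nat.mul_div_cancel_left _ (hN k)]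
  rw [h1]
  exact Nat.Coprime.prod_left fun i hi => hcop (mem_erase.1 hi).1

/-- One root of unity for all the factors. -/
lemma exists_root {F : Type} [Field F] {N : ι → ℕ} (hN : ∀ i, 0 < N i)
    (hcop : Pairwise fun i k => (N i).Coprime (N k)) (z : ι → F)
    (hz : ∀ i, IsPrimitiveRoot (z i) (N i)) :
    ∃ w : F, IsPrimitiveRoot w (∏ i, N i) ∧ ∀ k, w ^ ((∏ i, N i) / N k) = z k := by
  classical
  set T := ∏ i, N i with hT
  have hdv : ∀ k, N k ∣ T := fun k => dvd_prod_of_mem N (mem_univ k)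
  have hT0 : 0 < T := prod_pos fun i _ => hN i
  have hu : ∀ k, ∃ u : ℕ, u * (T / N k) ≡ 1 [MOD N k] := by
    intro k
    obtain ⟨u, _, hu⟩ := Fib.unit_gcd (hN k) (T / N k)
    have h1 : Nat.gcd (T / N k) (N k) = 1 := coprime_div' hN hcop k
    rw [h1] at hu
    exact ⟨u, hu⟩
  choose u hu using hu
  have hoth : ∀ i k, i ≠ k → N i ∣ T / N k := by
    intro i k hik
    have h1 : T / N k = ∏ i ∈ univ.erase k, N i := by
      rw [hT, ← Finset.mul_prod_erase univ N (mem_univ k), Nat.mul_div_cancel_left _ (hN k)]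
    rw [h1]
    exact dvd_prod_of_mem N (mem_erase.2 ⟨hik, mem_univ i⟩)
  have hpow : ∀ k, (∏ i, z i ^ u i) ^ (T / N k) = z k := by
    intro k
    rw [← prod_pow, ← Finset.mul_prod_erase univ _ (mem_univ k)]
    have h1 : ∏ i ∈ univ.erase k, (z i ^ u i) ^ (T / N k) = 1 := by
      refine prod_eq_one fun i hi => ?_
      obtain ⟨e, he⟩ := hoth i k (mem_erase.1 hi).1
      rw [he, ← pow_mul, show u i * (N i * e) = N i * (u i * e) from by ring, pow_mul,
        (hz i).pow_eq_one, one_pow]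
    rw [h1, mul_one, ← pow_mul]
    conv_rhs => rw [← pow_one (z k)]
    rw [pow_eq_pow_mod _ (hz k).pow_eq_one, pow_eq_pow_mod 1 (hz k).pow_eq_one]
    rw [hu k]
  refine ⟨∏ i, z i ^ u i, ⟨?_, ?_⟩, hpow⟩
  · rw [← prod_pow]
    refine prod_eq_one fun i _ => ?_
    obtain ⟨e, he⟩ := hdv i
    rw [he, ← pow_mul, show u i * (N i * e) = N i * (u i * e) from by ring, pow_mul,
      (hz i).pow_eq_one, one_pow]
  · intro l hl
    have h1 : ∀ k, N k ∣ l := by
      intro k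
      refine (hz k).dvd_of_pow_eq_one l ?_
      rw [← hpow k, ← pow_mul, mul_comm, pow_mul, hl, one_pow]
    exact Fintype.prod_dvd_of_isRelPrime
      (fun i k hik => Nat.coprime_iff_isRelPrime.mp (hcop hik)) h1

/-- The common residue map and, for all exponents prime to the orders, a common embedding. -/
theorem exists_common {c : ℕ} [Fact c.Prime] {N : ι → ℕ} (hN : ∀ i, 0 < N i)
    (hcop : Pairwise fun i k => (N i).Coprime (N k))
    (κ : Type) [Field κ] [Fintype κ] [CharP κ c] (z : ι → κ)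
    (hz : ∀ i, IsPrimitiveRoot (z i) (N i)) {E : Type} [Field E] [CharZero E] [IsAlgClosed E]
    (μ : ι → E) (hμ : ∀ i, IsPrimitiveRoot (μ i) (N i)) :
    ∃ (k : Type) (_ : Field k) (_ : IsAlgClosed k) (_ : CharP k c) (R : Subring (PadicAlgCl c))
      (res : R →+* k) (eκ : κ →+* k) (Ω : ι → PadicAlgCl c) (hΩR : ∀ i, Ω i ∈ R),
      IsRes c R res ∧ (∀ i, IsPrimitiveRoot (Ω i) (N i)) ∧
      (∀ i, res ⟨Ω i, hΩR i⟩ = eκ (z i)) ∧
      ∀ J : ι → ℕ, (∀ i, (J i).Coprime (N i)) →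
        ∃ fe : algebraicClosure ℚ E →+* PadicAlgCl c, ∀ i, ∀ h : IsAlgebraic ℚ (μ i),
          fe ⟨μ i, (mem_algebraicClosure_iff).mpr h⟩ = Ω i ^ J i := by
  classical
  obtain ⟨w, hw, hwz⟩ := exists_root hN hcop z hz
  obtain ⟨ν, hν, hνμ⟩ := exists_root hN hcop μ hμ
  set T := ∏ i, N i with hT
  have hT0 : 0 < T := prod_pos fun i _ => hN i
  have hdv : ∀ k, N k ∣ T := fun k => dvd_prod_of_mem N (mem_univ k)
  obtain ⟨k, _, hk1, hk2, R, res, eκ, Ω, hΩR, hR, hΩ, hΩw⟩ := exists_setup (c := c) hT0 κ hw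
  have hEM : EM := Pool.Agent.W346.HA.EM.main
  refine ⟨k, inferInstance, hk1, hk2, R, res, eκ, fun i => Ω ^ (T / N i),
    fun i => R.pow_mem hΩR _, hR, ?_, ?_, ?_⟩
  · intro i
    exact hΩ.pow hT0 (Nat.div_mul_cancel (hdv i)).symm
  · intro i
    have h1 : res ⟨Ω ^ (T / N i), R.pow_mem hΩR _⟩ = res ⟨Ω, hΩR⟩ ^ (T / N i) := by
      rw [← map_pow]
      rfl
    rw [h1, hΩw, ← map_pow, hwz]
  · intro J hJ
    obtain ⟨j', hj'⟩ := Nat.chineseRemainderOfFinset J N univ (fun k _ => (hN k).ne')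
      (fun i _ k _ hik => hcop hik)
    have hcop' : j'.Coprime T := by
      refine Nat.Coprime.prod_right fun k _ => ?_
      have h1 := hj' k (mem_univ k)
      unfold Nat.Coprime
      rw [h1.gcd_eq]
      exact hJ k
    obtain ⟨fe, hfe⟩ := hEM E (PadicAlgCl c) T ν (Ω ^ j') hT0 hν (hΩ.pow_of_coprime j' hcop')
    have hνalg : IsAlgebraic ℚ ν := by
      have h1 : IsIntegral ℤ ν := hν.isIntegral hT0
      exact (h1.tower_top (A := ℚ)).isAlgebraic
    refine ⟨fe, fun i h => ?_⟩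
    have h1 : (⟨μ i, (mem_algebraicClosure_iff).mpr h⟩ : algebraicClosure ℚ E)
        = (⟨ν, (mem_algebraicClosure_iff).mpr hνalg⟩ : algebraicClosure ℚ E) ^ (T / N i) := by
      apply Subtype.ext
      push_cast
      exact (hνμ i).symm
    rw [h1, map_pow, hfe _ rfl, ← pow_mul, ← pow_mul, mul_comm j', pow_mul, pow_mul]
    have h2 : (Ω ^ (T / N i)) ^ N i = 1 := by
      rw [← pow_mul, Nat.div_mul_cancel (hdv i), hΩ.pow_eq_one]
    rw [pow_eq_pow_mod _ h2, pow_eq_pow_mod (J i) h2, hj' i (mem_univ i)]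

end

section

variable {c : ℕ} [Fact c.Prime] {κ : Type} [Fintype κ] {E : Type} [Field E] [CharZero E]

/-- `x` is zero or smaller than `q ^ w` for the embeddings with `μ ↦ Ω ^ J`, for some `J`. -/
def IsSmall (κ : Type) [Fintype κ] (N : ℕ) (μ : E) (Ω : PadicAlgCl c) (w : ℕ) (x : E) : Prop :=
  x = 0 ∨ ∃ J : ℕ, J.Coprime N ∧ ∀ fe : algebraicClosure ℚ E →+* PadicAlgCl c,
    (∀ h : IsAlgebraic ℚ μ, fe ⟨μ, (mem_algebraicClosure_iff).mpr h⟩ = Ω ^ J) →
    ∃ h : x ∈ algebraicClosure ℚ E, ‖fe ⟨x, h⟩‖ < ‖((Fintype.card κ : ℕ) : PadicAlgCl c)‖ ^ w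

variable {ι : Type} [Fintype ι]

lemma small_prod [Nonempty κ] {N : ι → ℕ} {μ : ι → E} {Ω : ι → PadicAlgCl c}
    (hfe : ∀ J : ι → ℕ, (∀ i, (J i).Coprime (N i)) →
        ∃ fe : algebraicClosure ℚ E →+* PadicAlgCl c, ∀ i, ∀ h : IsAlgebraic ℚ (μ i),
          fe ⟨μ i, (mem_algebraicClosure_iff).mpr h⟩ = Ω i ^ J i) (w : ι → ℕ)
    (x : ι → E) (T : Finset ι) (hT : T.Nonempty)
    (hx : ∀ i ∈ T, IsSmall κ (N i) (μ i) (Ω i) (w i) (x i))
    (hx' : ∀ i, i ∉ T → x i = (Fintype.card κ : E) ^ w i) (t : ℕ) (ht : 0 < t) :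
    ∏ i, x i ^ t ≠ ∏ i, ((Fintype.card κ : E) ^ w i) ^ t := by
  classical
  intro heq
  have hq : (Fintype.card κ : E) ≠ 0 := by exact_mod_cast Fintype.card_ne_zero
  have hx0 : ∀ i, x i ≠ 0 := by
    intro i h0
    have h1 : ∏ i, x i ^ t = 0 := prod_eq_zero (mem_univ i) (by rw [h0, zero_pow (by omega)])
    rw [h1] at heq
    exact (prod_ne_zero_iff.2 fun i _ => pow_ne_zero t (pow_ne_zero _ hq)) heq.symm
  have hJ : ∀ i, ∃ J : ℕ, J.Coprime (N i) ∧ (i ∈ T → ∀ fe : algebraicClosure ℚ E →+* PadicAlgCl c,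
      (∀ h : IsAlgebraic ℚ (μ i), fe ⟨μ i, (mem_algebraicClosure_iff).mpr h⟩ = Ω i ^ J) →
      ∃ h : x i ∈ algebraicClosure ℚ E,
        ‖fe ⟨x i, h⟩‖ < ‖((Fintype.card κ : ℕ) : PadicAlgCl c)‖ ^ w i) := by
    intro i
    by_cases hi : i ∈ T
    · rcases hx i hi with h | ⟨J, hJ1, hJ2⟩
      · exact absurd h (hx0 i)
      · exact ⟨J, hJ1, fun _ => hJ2⟩
    · exact ⟨1, Nat.coprime_one_left _, fun h => absurd h hi⟩
  choose J hJ1 hJ2 using hJ
  obtain ⟨fe, hfe⟩ := hfe J hJ1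
  set Q := ‖((Fintype.card κ : ℕ) : PadicAlgCl c)‖ with hQ
  have hQ0 : 0 < Q := by
    rw [hQ, norm_pos_iff]
    exact_mod_cast Fintype.card_ne_zero
  have hmem : ∀ i, ∃ h : x i ∈ algebraicClosure ℚ E, ‖fe ⟨x i, h⟩‖ ≤ Q ^ w i ∧
      (i ∈ T → ‖fe ⟨x i, h⟩‖ < Q ^ w i) := by
    intro i
    by_cases hi : i ∈ T
    · obtain ⟨h, h'⟩ := hJ2 i hi fe (hfe i)
      exact ⟨h, h'.le, fun _ => h'⟩
    · have h1 : x i = ((((Fintype.card κ : ℕ) : algebraicClosure ℚ E) ^ w i :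
          algebraicClosure ℚ E) : E) := by
        rw [hx' i hi]
        push_cast
        rfl
      refine ⟨by rw [h1]; exact Subtype.prop _, le_of_eq ?_, fun h => absurd h hi⟩
      have h2 : (⟨x i, by rw [h1]; exact Subtype.prop _⟩ : algebraicClosure ℚ E)
          = ((Fintype.card κ : ℕ) : algebraicClosure ℚ E) ^ w i := Subtype.ext h1
      rw [h2, map_pow, map_natCast, norm_pow]
  choose hm hm1 hm2 using hmem
  have h3 : ∏ i, (⟨x i, hm i⟩ : algebraicClosure ℚ E) ^ t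
      = ∏ i, (((Fintype.card κ : ℕ) : algebraicClosure ℚ E) ^ w i) ^ t := by
    apply (algebraMap (algebraicClosure ℚ E) E).injective
    rw [map_prod, map_prod]
    simp only [map_pow, map_natCast]
    exact heq
  have h4 := congrArg (fun y => ‖fe y‖) h3
  simp only [map_prod, map_pow, map_natCast, norm_prod, norm_pow] at h4
  rw [← hQ] at h4
  obtain ⟨i0, hi0⟩ := hT
  have h5 : ∏ i, ‖fe ⟨x i, hm i⟩‖ ^ t < ∏ i, (Q ^ w i) ^ t := by
    refine prod_lt_prod (fun i _ => ?_) (fun i _ => ?_) ⟨i0, mem_univ _, ?_⟩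
    · refine pow_pos (norm_pos_iff.mpr ?_) t
      rw [_root_.map_ne_zero]
      intro h
      exact hx0 i (congrArg Subtype.val h)
    · exact pow_le_pow_left₀ (norm_nonneg _) (hm1 i) t
    · exact pow_lt_pow_left₀ (hm2 i0 hi0) (norm_nonneg _) (by omega)
  rw [h4] at h5
  exact lt_irrefl _ h5

end

/-- The image of a space with given eigenvalues. -/
lemma range_le {E : Type} [Field E] [IsAlgClosed E] {V M : Type} [AddCommGroup V] [Module E V]
    [FiniteDimensional E V] [AddCommGroup M] [Module E M] (Φ : Module.End E V)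
    (F : Module.End E M) (cl : V →ₗ[E] M) (hcl : ∀ v, cl (Φ v) = F (cl v)) (Sm : E → Prop)
    (h : ∀ x, Module.End.HasEigenvalue Φ x → Sm x) :
    LinearMap.range cl ≤ Submodule.span E {m | ∃ x, Sm x ∧ m ∈ F.maxGenEigenspace x} := by
  rw [LinearMap.range_eq_map, ← Module.End.iSup_maxGenEigenspace_eq_top Φ, Submodule.map_iSup]
  refine iSup_le fun x => ?_
  rw [Submodule.map_le_iff_le_comap]
  intro v hv
  by_cases hx : Module.End.HasEigenvalue Φ x
  · exact Submodule.subset_span ⟨x, h x hx, maxGen_map Φ F cl hcl hv⟩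
  · have h1 : Φ.maxGenEigenspace x = ⊥ := by
      by_contra hne
      apply hx
      have h2 : Module.End.HasUnifEigenvalue Φ x ⊤ := hne
      exact h2.lt zero_lt_one
    rw [h1, Submodule.mem_bot] at hv
    rw [hv]
    exact Submodule.zero_mem _

/-- The eigenvalues of the parts of the cohomology of `y ^ n = ∏ (x ^ e - f_i(u ^ r)) ^ a_i`. -/
theorem surface_small {n e r c D P Q R : ℕ} (hn : 2 ≤ n) (he : 0 < e) (hr : 0 < r)
    (hen : e.Coprime n) (hrn : r.Coprime n) (her : e.Coprime r) (hP1 : 1 ≤ P) (hQ1 : 1 ≤ Q)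
    (hR1 : 1 ≤ R)
    (hP : ∀ l : ℕ, l.Prime → l ∣ n → P ≤ l) (hQ : ∀ l : ℕ, l.Prime → l ∣ e → Q ≤ l)
    (hR : ∀ l : ℕ, l.Prime → l ∣ r → R ≤ l)
    [Fact c.Prime] (hc : n * e * r ∣ c - 1)
    (κ : Type) [Field κ] [Fintype κ] [CharP κ c]
    {z : κ} (hz : IsPrimitiveRoot z (n * e * r)) {E : Type} [Field E] [CharZero E] [IsAlgClosed E]
    {μ : E} (hμ : IsPrimitiveRoot μ (n * e * r)) {m : ℕ} (hD : 1 ≤ D) (f : Fin m → κ[X])
    (hf : ∀ i, (f i).natDegree ≤ D)
    (a : Fin m → ℕ) (ha : ∀ i, 0 < a i)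
    (ha2 : D * (Q * R * ∑ i, a i + P * R) + P * Q < P * Q * R)
    {k : Type} [Field k] [IsAlgClosed k] [CharP k c] {R' : Subring (PadicAlgCl c)}
    {res : R' →+* k} (hR' : IsRes c R' res)
    (eκ : κ →+* k) {Ω : PadicAlgCl c} (hΩ : IsPrimitiveRoot Ω (n * e * r)) (hΩR : Ω ∈ R')
    (hΩz : res ⟨Ω, hΩR⟩ = eκ z)
    {V : Type} [AddCommGroup V] [Module E V] [FiniteDimensional E V]
    (i s₁ s₂ : ℕ) (hi : i < n - 1) (hs₁ : s₁ < e) (hs₂ : s₂ < r)
    (Φ : Module.End E V) (hΦ : TriTrace κ n e r f a z μ (i + 1) s₁ s₂ Φ)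
    (x : E) (hx : Module.End.HasEigenvalue Φ x) : IsSmall κ (n * e * r) μ Ω 1 x := by
  classical
  have hGN : GN := Pool.Agent.W551.HD.GN.main
  have hONE : ONE := Pool.Agent.W108.HD.ONE.main Pool.Agent.W551.HD.GN.main
    Pool.Agent.W340.HD.IN.main Pool.Agent.W135.HB.SA.main
  have hGE : GE := Pool.Agent.W940.HD.GE.main
  have hAT : AT := Pool.Agent.W816.HI.AT.main
  have hcp : c.Prime := Fact.out
  obtain ⟨F, hF0, hF⟩ := FiniteField.card κ c
  have hF0' : 0 < (F : ℕ) := F.2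
  have hn0 : 0 < n := by omega
  have hN : 2 ≤ n * e * r := by
    rw [mul_assoc]
    exact le_trans hn (Nat.le_mul_of_pos_right n (Nat.mul_pos he hr))
  by_cases hx0 : x = 0
  · exact Or.inl hx0
  obtain ⟨j', hj', hsum⟩ := hAT n e r c F D P Q R hn he hr hen hrn her hP1 hQ1 hR1 hP hQ hR hcp
    hc hF0' m a ha hD ha2 (i + 1) s₁ s₂ (by omega) (by omega) hs₁ hs₂
  have hμalg : IsAlgebraic ℚ μ := by
    have h1 : IsIntegral ℤ μ := hμ.isIntegral (by omega)
    exact (h1.tower_top (A := ℚ)).isAlgebraic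
  refine Or.inr ⟨j', hj', fun fe hfe => ?_⟩
  refine g_bound hGN hONE hGE hN κ hF hz hD
    (Sum.elim (fun _ : Fin m => (1 : κ)) (fun _ : Unit => (1 : κ)))
    (Sum.elim (fun i => -(f i)) (fun _ => 0)) ?_
    (Sum.elim (fun k => e * r * ((i + 1) * a k % n)) (fun _ => n * r * s₁)) ?_
    (n * e * s₂) ?_ hj' ?_ hR' eκ hΩ hΩR hΩz fe hμalg (hfe hμalg) Φ ?_ x hx hx0
  · rintro (k | k)
    · rw [Sum.elim_inl, natDegree_neg]
      exact hf k
    · simp
  · rintro (k | k)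
    · rw [Sum.elim_inl, show n * e * r = e * r * n from by ring]
      exact Nat.mul_lt_mul_of_pos_left (Nat.mod_lt _ hn0) (Nat.mul_pos he hr)
    · rw [Sum.elim_inr, show n * e * r = n * r * e from by ring]
      exact Nat.mul_lt_mul_of_pos_left hs₁ (Nat.mul_pos hn0 hr)
  · exact Nat.mul_lt_mul_of_pos_left hs₂ (Nat.mul_pos hn0 he)
  · rw [Fintype.sum_sum_type]
    simp only [Sum.elim_inl, Sum.elim_inr, Finset.univ_unique, Finset.sum_const,
      Finset.card_singleton, one_smul]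
    exact hsum
  · intro L _ _ _
    rw [hΦ L, triSum_eq]
    congr 1
    · funext i
      rcases i with i | i
      · simp
      · simp
    · funext i
      rcases i with i | i
      · simp
      · simp

end Pool.Agent.J4.H42.Pr
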