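import Pool.Agent.J4.H42.PrE
import Pool.Agent.J4.H42.PrF
import Pool.Agent.J4.H42.PrD

/-!
# Half-integral weights: curves
-/

set_option autoImplicit false

namespace Pool.Agent.J4.H42.Pr

open Finset Polynomial TensorProduct Pool.Agent.W528.HA Pool.Agent.W528.HB Pool.Agent.W528.HD
  Pool.Agent.W528.HG Pool.Agent.J4.H42.Wt

/-- The norm of the eigenvalues under a given embedding. -/
theorem bound' {c : ℕ} [Fact c.Prime] {N : ℕ} 
    (κ : Type) [Field κ] [Fintype κ] [CharP κ c] {f : ℕ} (hf : Fintype.card κ = c ^ f)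
    (M K : ℕ) (hK : 0 < K) {j : ℕ}
    {z : κ} {E : Type} [Field E] [CharZero E] [IsAlgClosed E] {μ : E}
    (Sm : ∀ (L : Type) [Field L] [Fintype L] [Algebra κ L] (R : Type) [CommRing R], R → R)
    (hSm : ∀ (L : Type) [Field L] [Fintype L] [Algebra κ L] (R R' : Type) [CommRing R]
      [CommRing R'] (g : R →+* R') (x : R), g (Sm L R x) = Sm L R' (g x))
    {k : Type} [Field k] [IsAlgClosed k] {R : Subring (PadicAlgCl c)} {res : R →+* k}
    (eκ : κ →+* k) {Ω : PadicAlgCl c} (hΩ : IsPrimitiveRoot Ω N) (hΩR : Ω ∈ R)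
    (hΩz : res ⟨Ω, hΩR⟩ = eκ z)
    (hest : ∀ (n : ℕ), 0 < n → ∀ (L : Type) [Field L] [Fintype L] [Algebra κ L]
      [CharP L c], Fintype.card L = c ^ (f * n) → ∀ (e : L →+* k) (Ω : PadicAlgCl c),
      IsPrimitiveRoot Ω N → (∃ h : Ω ∈ R, res ⟨Ω, h⟩ = e (algebraMap κ L z)) →
      ‖Sm L (PadicAlgCl c) (Ω ^ j)‖ ^ K
        ≤ ‖((Fintype.card L : ℕ) : PadicAlgCl c)‖ ^ M * ‖((c : ℕ) : PadicAlgCl c)‖ ^ n)
    (fe : algebraicClosure ℚ E →+* PadicAlgCl c) (hμalg : IsAlgebraic ℚ μ)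
    (hfμ : fe ⟨μ, (mem_algebraicClosure_iff).mpr hμalg⟩ = Ω ^ j)
    (S : Finset E) (mult : E → ℕ) (hS : ∀ a ∈ S, a ≠ 0 ∧ 0 < mult a)
    (hA : ∀ (L : Type) [Field L] [Fintype L] [Algebra κ L],
      ∑ a ∈ S, (mult a : E) * a ^ Module.finrank κ L = Sm L E μ)
    (e : E) (heS : e ∈ S) :
    ∃ h : e ∈ algebraicClosure ℚ E,
      ‖fe ⟨e, h⟩‖ ^ K < ‖((Fintype.card κ : ℕ) : PadicAlgCl c)‖ ^ M := by
  classical
  have hAL : AL := Pool.Agent.W782.HA.AL.main
  have hBD : BD := Pool.Agent.W605.HA.BD.main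
  have hext : ∀ n, 1 ≤ n → ∃ (L : Type) (_ : Field L) (_ : Fintype L) (_ : Algebra κ L),
      Module.finrank κ L = n := by
    intro n hn
    have : NeZero n := ⟨by omega⟩
    let _ : Fintype (FiniteField.Extension κ c n) := Fintype.ofFinite _
    exact ⟨FiniteField.Extension κ c n, inferInstance, inferInstance, inferInstance,
      FiniteField.finrank_extension κ c n⟩
  have hpoly : ∀ n, 1 ≤ n → ∃ g : ℚ[X], aeval μ g = ∑ a ∈ S, (mult a : E) * a ^ n := by
    intro n hn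
    obtain ⟨L, _, _, _, hL⟩ := hext n hn
    have h1 := hA L
    rw [hL] at h1
    refine ⟨Sm L ℚ[X] X, ?_⟩
    have h3 := hSm L ℚ[X] E ((aeval μ : ℚ[X] →ₐ[ℚ] E) : ℚ[X] →+* E) X
    rw [RingHom.coe_coe, aeval_X] at h3
    rw [h3, ← h1]
  have halg := hAL E μ hμalg S mult hS hpoly
  have hμK : μ ∈ algebraicClosure ℚ E := (mem_algebraicClosure_iff).mpr hμalg
  set μK : algebraicClosure ℚ E := ⟨μ, hμK⟩ with hμKdef
  have hfμ : fe μK = Ω ^ j := hfμ
  set g : E → PadicAlgCl c := fun x => if h : x ∈ algebraicClosure ℚ E then fe ⟨x, h⟩ else 0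
    with hgdef
  have hmem : ∀ x ∈ S, x ∈ algebraicClosure ℚ E := fun x hx =>
    (mem_algebraicClosure_iff).mpr (halg x hx)
  have hg : ∀ (x : E) (hx : x ∈ algebraicClosure ℚ E), g x = fe ⟨x, hx⟩ := by
    intro x hx
    simp only [hgdef]
    rw [dif_pos hx]
  have hinj : Set.InjOn g (S : Set E) := by
    intro x hx y hy hxy
    rw [hg x (hmem x hx), hg y (hmem y hy)] at hxy
    have := fe.injective hxy
    exact congrArg Subtype.val this
  set ρ := ‖((c : ℕ) : PadicAlgCl c)‖ with hρ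
  have hρ0 : 0 < ρ := by
    rw [hρ, norm_pos_iff]
    exact_mod_cast (Fact.out : c.Prime).ne_zero
  have hρ1 : ρ < 1 := by
    have h1 : algebraMap ℚ_[c] (PadicAlgCl c) ((c : ℕ) : ℚ_[c]) = ((c : ℕ) : PadicAlgCl c) :=
      map_natCast _ _
    rw [hρ, ← h1, PadicAlgCl.norm_extends, Padic.norm_natCast_lt_one_iff]
  -- the bound
  set Q0 := ‖((Fintype.card κ : ℕ) : PadicAlgCl c)‖ with hQ0
  have hQ0pos : 0 < Q0 := norm_card_pos (c := c) (L := κ)
  have hQρ : 0 < Q0 ^ M * ρ := mul_pos (pow_pos hQ0pos M) hρ0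
  set B := (Q0 ^ M * ρ) ^ ((K : ℝ)⁻¹) with hB
  have hB0 : 0 < B := Real.rpow_pos_of_pos hQρ _
  have hBK : B ^ K = Q0 ^ M * ρ := by
    rw [hB, ← Real.rpow_natCast, ← Real.rpow_mul hQρ.le, inv_mul_cancel₀ (by positivity),
      Real.rpow_one]
  have hbound : ∀ n, 1 ≤ n → ‖∑ x ∈ S, (mult x : PadicAlgCl c) * g x ^ n‖ ≤ B ^ n := by
    intro n hn
    obtain ⟨L, _, _, _, hL⟩ := hext n hn
    have : CharP L c := charP_of_injective_algebraMap (algebraMap κ L).injective c
    have hcardL' : Fintype.card L = Fintype.card κ ^ n := by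
      rw [← hL]
      exact Module.card_eq_pow_finrank
    have hcardL : Fintype.card L = c ^ (f * n) := by
      rw [pow_mul, ← hf, hcardL']
    -- the embedding of L
    obtain ⟨eL, heL⟩ : ∃ eL : L →+* k, ∀ y : κ, eL (algebraMap κ L y) = eκ y := by
      letI : Algebra κ k := (eκ : κ →+* k).toAlgebra
      have : Module.Finite κ L := .of_finite
      exact ⟨((IsAlgClosed.lift : L →ₐ[κ] k) : L →+* k), fun y =>
        (IsAlgClosed.lift : L →ₐ[κ] k).commutes y⟩
    have h1 := hA L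
    rw [hL] at h1
    have hest1 := hest n (by omega) L hcardL eL Ω hΩ ⟨hΩR, by rw [hΩz, heL]⟩
    -- the equation in the field of algebraic numbers
    have h2 : ∑ x ∈ S.attach, ((mult x.1 : ℕ) : algebraicClosure ℚ E)
          * (⟨x.1, hmem x.1 x.2⟩ : algebraicClosure ℚ E) ^ n
        = Sm L (algebraicClosure ℚ E) μK := by
      apply (algebraMap (algebraicClosure ℚ E) E).injective
      rw [hSm L _ E (algebraMap (algebraicClosure ℚ E) E), map_sum]
      have h3 : ∑ x ∈ S.attach, algebraMap (algebraicClosure ℚ E) E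
          (((mult x.1 : ℕ) : algebraicClosure ℚ E)
          * (⟨x.1, hmem x.1 x.2⟩ : algebraicClosure ℚ E) ^ n)
          = ∑ x ∈ S, (mult x : E) * x ^ n := by
        rw [← sum_attach S]
        refine sum_congr rfl fun x _ => ?_
        rw [map_mul, map_pow, map_natCast]
        rfl
      rw [h3, h1]
      rfl
    have h4 := congrArg fe h2
    rw [hSm L _ _ fe, hfμ, map_sum] at h4
    have h5 : ∑ x ∈ S.attach, fe (((mult x.1 : ℕ) : algebraicClosure ℚ E)
          * (⟨x.1, hmem x.1 x.2⟩ : algebraicClosure ℚ E) ^ n)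
        = ∑ x ∈ S, (mult x : PadicAlgCl c) * g x ^ n := by
      rw [← sum_attach S]
      refine sum_congr rfl fun x _ => ?_
      rw [map_mul, map_pow, map_natCast, hg x.1 (hmem x.1 x.2)]
    rw [h5] at h4
    rw [← h4] at hest1
    have hcn : ‖((Fintype.card L : ℕ) : PadicAlgCl c)‖ = Q0 ^ n := by
      rw [hcardL', hQ0]
      push_cast
      rw [norm_pow]
    rw [hcn] at hest1
    have h8 : ‖∑ x ∈ S, (mult x : PadicAlgCl c) * g x ^ n‖ ^ K ≤ (B ^ n) ^ K := by
      refine hest1.trans (le_of_eq ?_)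
      rw [← pow_mul B, mul_comm n K, pow_mul B, hBK, mul_pow, ← pow_mul, ← pow_mul, mul_comm n M]
    exact le_of_pow_le_pow_left₀ (by omega) (by positivity) h8
  -- apply the boundedness lemma
  have hfin := hBD (PadicAlgCl c) (S.image g) (fun y => ∑ x ∈ S with g x = y, mult x)
    B (by positivity) (by
      intro y hy
      obtain ⟨x, hx, rfl⟩ := mem_image.mp hy
      refine ⟨?_, ?_⟩
      · rw [hg x (hmem x hx)]
        intro h
        have h1 : (⟨x, hmem x hx⟩ : algebraicClosure ℚ E) = 0 := by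
          apply fe.injective
          rw [h, map_zero]
        exact (hS x hx).1 (congrArg Subtype.val h1)
      · apply sum_pos (fun x hx => (hS x (mem_filter.mp hx).1).2)
        exact ⟨x, mem_filter.mpr ⟨hx, rfl⟩⟩) (by
      intro n hn
      have h1 : ∑ y ∈ S.image g, ((∑ x ∈ S with g x = y, mult x : ℕ) : PadicAlgCl c) * y ^ n
          = ∑ x ∈ S, (mult x : PadicAlgCl c) * g x ^ n := by
        rw [sum_image hinj]
        refine sum_congr rfl fun x hx => ?_
        have h2 : (S.filter fun x' => g x' = g x) = {x} := by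
          ext x'
          rw [mem_filter, mem_singleton]
          constructor
          · rintro ⟨h3, h4⟩
            exact hinj h3 hx h4
          · rintro rfl
            exact ⟨hx, rfl⟩
        rw [h2, sum_singleton]
      rw [h1]
      exact hbound n hn) (g e) (mem_image_of_mem g heS)
  refine ⟨hmem e heS, ?_⟩
  rw [← hg e (hmem e heS)]
  refine lt_of_le_of_lt (pow_le_pow_left₀ (norm_nonneg _) hfin K) ?_
  rw [hBK]
  have := mul_lt_mul_of_pos_left hρ1 (pow_pos hQ0pos M)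
  rwa [mul_one] at this

/-- The nonzero eigenvalues of an operator whose traces are given. -/
theorem op_bound' {c : ℕ} [Fact c.Prime] {N : ℕ} 
    (κ : Type) [Field κ] [Fintype κ] [CharP κ c] {f : ℕ} (hf : Fintype.card κ = c ^ f)
    (M K : ℕ) (hK : 0 < K) {j : ℕ}
    {z : κ} {E : Type} [Field E] [CharZero E] [IsAlgClosed E] {μ : E}
    (Sm : ∀ (L : Type) [Field L] [Fintype L] [Algebra κ L] (R : Type) [CommRing R], R → R)
    (hSm : ∀ (L : Type) [Field L] [Fintype L] [Algebra κ L] (R R' : Type) [CommRing R]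
      [CommRing R'] (g : R →+* R') (x : R), g (Sm L R x) = Sm L R' (g x))
    {k : Type} [Field k] [IsAlgClosed k] {R : Subring (PadicAlgCl c)} {res : R →+* k}
    (eκ : κ →+* k) {Ω : PadicAlgCl c} (hΩ : IsPrimitiveRoot Ω N) (hΩR : Ω ∈ R)
    (hΩz : res ⟨Ω, hΩR⟩ = eκ z)
    (hest : ∀ (n : ℕ), 0 < n → ∀ (L : Type) [Field L] [Fintype L] [Algebra κ L]
      [CharP L c], Fintype.card L = c ^ (f * n) → ∀ (e : L →+* k) (Ω : PadicAlgCl c),
      IsPrimitiveRoot Ω N → (∃ h : Ω ∈ R, res ⟨Ω, h⟩ = e (algebraMap κ L z)) →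
      ‖Sm L (PadicAlgCl c) (Ω ^ j)‖ ^ K
        ≤ ‖((Fintype.card L : ℕ) : PadicAlgCl c)‖ ^ M * ‖((c : ℕ) : PadicAlgCl c)‖ ^ n)
    (fe : algebraicClosure ℚ E →+* PadicAlgCl c) (hμalg : IsAlgebraic ℚ μ)
    (hfμ : fe ⟨μ, (mem_algebraicClosure_iff).mpr hμalg⟩ = Ω ^ j)
    {V : Type} [AddCommGroup V] [Module E V] [FiniteDimensional E V]
    (Φ : Module.End E V)
    (hΦ : ∀ (L : Type) [Field L] [Fintype L] [Algebra κ L],
      LinearMap.trace E V (Φ ^ Module.finrank κ L) = Sm L E μ)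
    (x : E) (hx : Module.End.HasEigenvalue Φ x) (hx0 : x ≠ 0) :
    ∃ h : x ∈ algebraicClosure ℚ E,
      ‖fe ⟨x, h⟩‖ ^ K < ‖((Fintype.card κ : ℕ) : PadicAlgCl c)‖ ^ M := by
  classical
  have hTE : TE := Pool.Agent.W800.HA.TE.main
  obtain ⟨S, mult, hS, hSe, htr⟩ := hTE E V Φ
  have heS := hSe x hx0 hx
  refine bound' κ hf M K hK Sm hSm eκ hΩ hΩR hΩz hest fe hμalg hfμ S mult hS ?_ x heS
  intro L _ _ _
  have hL : 1 ≤ Module.finrank κ L := by
    have : Module.Finite κ L := .of_finite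
    exact Module.finrank_pos
  rw [← htr _ hL, hΦ L]


section curve

/-- The sum over `x ∈ L` of the value at `∏ (P_i(x) + b_i) ^ (j a_i mod n)` of the character of
order `n` of `L` belonging to `z ↦ μ`. -/
noncomputable def curveSum (L : Type) [Field L] [Fintype L] (R : Type) [CommRing R] (n : ℕ)
    {m : ℕ} (P : Fin m → L[X]) (b : Fin m → L) (a : Fin m → ℕ) (z : L) (μ : R) (j : ℕ) : R :=
  ∑ x : L, kv n z μ ((∏ i, ((P i).eval x + b i) ^ (j * a i % n)) ^ ((Fintype.card L - 1) / n))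

/-- The number of points `(x, y)` over `L` of the curve `y ^ n = ∏ (P_i(x) + b_i) ^ a_i`. -/
noncomputable def curvePoints (L : Type) [Field L] (n : ℕ) {m : ℕ} (P : Fin m → L[X])
    (b : Fin m → L) (a : Fin m → ℕ) : ℕ :=
  Set.ncard {v : L × L | v.2 ^ n = ∏ i, ((P i).eval v.1 + b i) ^ a i}

/-- The traces of the powers of `Φ` are the sums `- curveSum`. -/
def CurveTrace (κ : Type) [Field κ] [Fintype κ] {E : Type} [Field E] (n : ℕ) {m : ℕ}
    (P : Fin m → κ[X]) (b : Fin m → κ) (a : Fin m → ℕ) (z : κ) (μ : E) (j : ℕ) {V : Type}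
    [AddCommGroup V] [Module E V] (Φ : Module.End E V) : Prop :=
  ∀ (L : Type) [Field L] [Fintype L] [Algebra κ L],
    LinearMap.trace E V (Φ ^ Module.finrank κ L)
      = - curveSum L E n (fun i => (P i).map (algebraMap κ L)) (fun i => algebraMap κ L (b i))
        a (algebraMap κ L z) μ j

lemma map_curveSum {L : Type} [Field L] [Fintype L] {R R' : Type} [CommRing R] [CommRing R']
    (g : R →+* R') (n : ℕ) {m : ℕ} (P : Fin m → L[X]) (b : Fin m → L) (a : Fin m → ℕ) (z : L)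
    (μ : R) (j : ℕ) : g (curveSum L R n P b a z μ j) = curveSum L R' n P b a z (g μ) j := by
  unfold curveSum
  rw [map_sum]
  refine sum_congr rfl fun x _ => ?_
  rw [map_kv g _ z μ _]

/-- The sum of the character sums is the number of points minus the number of elements. -/
theorem curve_total {L : Type} [Field L] [Fintype L] {n : ℕ} (hn : 2 ≤ n)
    {z : L} (hz : IsPrimitiveRoot z n) {E : Type} [Field E] [CharZero E] {μ : E}
    (hμ : IsPrimitiveRoot μ n) {m : ℕ} (P : Fin m → L[X]) (b : Fin m → L)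
    (a : Fin m → ℕ) (ha : ∀ i, 0 < a i ∧ (a i).Coprime n) :
    ∑ j ∈ Ico 1 n, curveSum L E n P b a z μ j
      = (curvePoints L n P b a : E) - (Fintype.card L : E) := by
  classical
  have hn0 : 0 < n := by omega
  have hPR : Pool.Agent.W528.HC.PR := Pool.Agent.W924.HC.PR.main
  have h1 : ∀ j ∈ Ico 1 n, ∀ x : L,
      (∏ i, ((P i).eval x + b i) ^ (j * a i % n)) ^ ((Fintype.card L - 1) / n)
        = ((∏ i, ((P i).eval x + b i) ^ a i) ^ (1 * j)) ^ ((Fintype.card L - 1) / n) := by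
    intro j hj x
    rw [mem_Ico] at hj
    rw [← prod_pow, ← prod_pow, ← prod_pow]
    refine prod_congr rfl fun i _ => ?_
    have hnd : ¬ n ∣ j * a i := by
      intro hd
      have h2 := (Nat.Coprime.symm (ha i).2).dvd_of_dvd_mul_right hd
      have := Nat.le_of_dvd (by omega) h2
      omega
    have h3 := Pool.Agent.W125.HC.PC.pow_mod (p := n) (r := 1) hn0 one_pos
      (z := z) (by rw [mul_one]; exact hz) hnd (y := (P i).eval x + b i)
    rw [mul_one, one_mul, one_mul] at h3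
    rw [h3, ← pow_mul ((P i).eval x + b i) (a i), one_mul]
    congr 2
    ring
  have h2 : ∀ x : L, ∑ j ∈ Ico 1 n, kv n z μ
      ((∏ i, ((P i).eval x + b i) ^ (j * a i % n)) ^ ((Fintype.card L - 1) / n))
      = ((Set.ncard {y : L | y ^ n = ∏ i, ((P i).eval x + b i) ^ a i} : ℕ) : E) - 1 := by
    intro x
    have h3 := hPR L n n 1 z (mul_one n).symm hz hn0 one_pos E μ hμ
      (∏ i, ((P i).eval x + b i) ^ a i)
    rw [h3, add_sub_cancel_left]
    exact sum_congr rfl fun j hj => by rw [h1 j hj x]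
  unfold curveSum
  rw [sum_comm, sum_congr rfl fun x _ => h2 x, sum_sub_distrib, sum_const, card_univ, nsmul_eq_mul,
    mul_one]
  congr 1
  unfold curvePoints
  have h4 : {v : L × L | v.2 ^ n = ∏ i, ((P i).eval v.1 + b i) ^ a i} =
      ((univ.filter (fun v : L × L => v.2 ^ n = ∏ i, ((P i).eval v.1 + b i) ^ a i) :
        Finset (L × L)) : Set (L × L)) := by
    ext y; simp
  rw [h4, Set.ncard_coe_finset, card_filter, Fintype.sum_prod_type]
  push_cast
  refine sum_congr rfl fun x _ => ?_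
  rw [Pool.Agent.W125.HC.PC.ncard_eq]

/-- The arithmetic of the exponents. -/
lemma arith_curve {n c F : ℕ} (hn : 2 ≤ n) (hc1 : 1 ≤ c) (hc : n ∣ c - 1) (hF : 0 < F) {m : ℕ}
    {a : Fin m → ℕ} (ha2 : 2 * ∑ i, a i < n.minFac) {j : ℕ} (hj0 : 0 < j) (hj : j < n) :
    ∃ j' : ℕ, j'.Coprime n ∧
      2 * ∑ i, ∑ e ∈ range F, (j' * (j * a i % n) * c ^ e) % n < F * n := by
  obtain ⟨j', hj', h1⟩ := Fib.unit_gcd (n := n) (by omega) j
  refine ⟨j', hj', ?_⟩
  obtain ⟨g, hg⟩ : ∃ g, g = Nat.gcd j n := ⟨_, rfl⟩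
  rw [← hg] at h1
  have hg0 : 0 < g := by rw [hg]; exact Nat.gcd_pos_of_pos_left n hj0
  have hgj : g ∣ j := by rw [hg]; exact Nat.gcd_dvd_left j n
  obtain ⟨k, hk⟩ : g ∣ n := by rw [hg]; exact Nat.gcd_dvd_right j n
  have hk1 : k ≠ 1 := by
    rintro rfl
    have h2 := Nat.le_of_dvd hj0 hgj
    omega
  have hkn : n.minFac ≤ k :=
    (Nat.minFac_le_of_dvd (Nat.minFac_prime hk1).two_le
      ((Nat.minFac_dvd k).trans ⟨g, by rw [hk, mul_comm]⟩)).trans
      (Nat.minFac_le (Nat.pos_of_ne_zero (by rintro rfl; omega)))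
  have hcn : ∀ e : ℕ, c ^ e ≡ 1 [MOD n] := by
    intro e
    have h2 : c ≡ 1 [MOD n] := ((Nat.modEq_iff_dvd' hc1).mpr hc).symm
    calc c ^ e ≡ 1 ^ e [MOD n] := h2.pow e
      _ = 1 := one_pow e
  have hlt : ∀ i, g * a i < n := by
    intro i
    have h2 : a i ≤ ∑ i, a i := single_le_sum (f := a) (fun _ _ => Nat.zero_le _) (mem_univ i)
    rw [hk]
    exact Nat.mul_lt_mul_of_pos_left (by omega) hg0
  have hval : ∀ i e, (j' * (j * a i % n) * c ^ e) % n = g * a i := by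
    intro i e
    have h2 : j' * (j * a i % n) * c ^ e ≡ g * a i [MOD n] := by
      calc j' * (j * a i % n) * c ^ e ≡ j' * (j * a i) * 1 [MOD n] :=
            ((Nat.ModEq.refl j').mul (Nat.mod_modEq _ _)).mul (hcn e)
        _ = j' * j * a i := by ring
        _ ≡ g * a i [MOD n] := h1.mul_right _
    rw [h2, Nat.mod_eq_of_lt (hlt i)]
  simp only [hval, sum_const, card_range, smul_eq_mul]
  rw [← mul_sum, ← mul_sum]
  have h3 : 2 * (F * (g * ∑ i, a i)) = F * (g * (2 * ∑ i, a i)) := by ring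
  rw [h3, hk]
  exact Nat.mul_lt_mul_of_pos_left (Nat.mul_lt_mul_of_pos_left (by omega) hg0) hF

/-- The estimate of the sums in one variable. -/
theorem curve_est {c : ℕ} [Fact c.Prime] {k : Type} [Field k] [CharP k c]
    {R : Subring (PadicAlgCl c)} {res : R →+* k}
    (hR : IsRes c R res) {N : ℕ} (hN : 2 ≤ N) {F n : ℕ} (hF0 : 0 < F) (hn : 0 < n)
    (hNf : N ∣ c ^ F - 1)
    (L : Type) [Field L] [Fintype L] [CharP L c] (hcard : Fintype.card L = c ^ (F * n))
    (eL : L →+* k) {z : L} (hz : IsPrimitiveRoot z N) {Ω : PadicAlgCl c}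
    (hΩ : IsPrimitiveRoot Ω N) (hΩz : ∃ h : Ω ∈ R, res ⟨Ω, h⟩ = eL z) {m : ℕ}
    (P : Fin m → L[X]) (hP : ∀ i, IsAdditive c (P i)) (b : Fin m → L) (a : Fin m → ℕ) (i : ℕ)
    {j : ℕ} (hj : j.Coprime N)
    (hjd : 2 * ∑ l, ∑ s ∈ range F, (j * (i * a l % N) * c ^ s) % N < F * N) :
    ‖curveSum L (PadicAlgCl c) N P b a z (Ω ^ j) i‖ ^ (2 * N)
      ≤ ‖((Fintype.card L : ℕ) : PadicAlgCl c)‖ ^ N * ‖((c : ℕ) : PadicAlgCl c)‖ ^ n := by
  classical
  have hAV : AV := Pool.Agent.W308.HG.AV.main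
  have hGN : GN := Pool.Agent.W551.HD.GN.main
  have hIN : IN := Pool.Agent.W340.HD.IN.main
  have hSA : SA := Pool.Agent.W135.HB.SA.main
  have hDG : DG := Pool.Agent.W883.HB.DG.main Pool.Agent.W135.HB.SA.main
  have hDI : DI := Pool.Agent.W563.HB.DI.main
  have hAY : AY := Pool.Agent.W271.HB.AY.main
  have hGO : GO := Pool.Agent.W540.HB.GO.main
  have hTT : TT := Pool.Agent.W400.HB.TT.main
  have hc1 : 1 ≤ c := (Fact.out : c.Prime).one_lt.le
  have hNk : (N : k) ≠ 0 := natCast_ne_zero_of_dvd hNf hF0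
  obtain ⟨ν, hν⟩ : ∃ ζ : PadicAlgCl c, IsPrimitiveRoot ζ c := by
    have : NeZero ((c : ℕ) : PadicAlgCl c) := ⟨by exact_mod_cast (Fact.out : c.Prime).ne_zero⟩
    exact HasEnoughRootsOfUnity.exists_primitiveRoot (PadicAlgCl c) c
  obtain ⟨w, hw⟩ := hTT c k R res hR L eL
  obtain ⟨-, hprop⟩ := hAY c L
  obtain ⟨ψ, hψ, hψν⟩ := hAV c L ν hν
  obtain ⟨hψ1, hψ2⟩ := hprop ψ hψ
  have hgo := hGO c k R res hR L eL w hw ψ hψ
  have hd := dvd_card_of_root hz (by omega)
  have hTz := fun (b : ℕ) (y : L) (hb : 1 ≤ b) =>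
    kvT hw (by omega) hNk hz hΩ.pow_eq_one hΩz b y hb
  set T := w ^ ((Fintype.card L - 1) / N) with hT
  have hTN : T ^ N = 1 := T_pow_card w hd
  have hne : ∀ b, 1 ≤ b → b < N → T ^ b ≠ 1 := by
    intro b hb hbN h
    obtain ⟨y, hy0, hy⟩ := exists_pow_eq' L (by omega) hd hz.pow_eq_one
    have h1 := hTz 1 y le_rfl
    rw [pow_one, pow_one, hy] at h1
    have h2 : kv N z Ω z = Ω := by
      unfold kv
      rw [sum_eq_single 1]
      · rw [pow_one, if_pos rfl, pow_one]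
      · intro i hi hi1
        rw [mem_range] at hi
        rw [if_neg]
        intro h
        apply hi1
        apply hz.pow_inj hi (by omega)
        rw [pow_one]
        exact h.symm
      · intro h
        exact absurd (mem_range.mpr (by omega)) h
    rw [h2] at h1
    have h3 : (T ^ b) y = (1 : MulChar L (PadicAlgCl c)) y := by rw [h]
    rw [MulChar.pow_apply' T (by omega), h1, MulChar.one_apply (isUnit_iff_ne_zero.mpr hy0)] at h3
    exact hΩ.pow_ne_one_of_pos_of_lt (by omega) hbN h3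
  have he : ∀ l, i * a l % N < N := fun l => Nat.mod_lt _ (by omega)
  have hCw : ∀ y : L, HasWeight c 1 (C y) := by
    intro y n hn
    have h1 : n = 0 := by
      by_contra h0
      rw [mem_support_iff, coeff_C, if_neg h0] at hn
      exact hn rfl
    rw [h1]
    exact ⟨0, by simp, by simp⟩
  -- the sum in two variables
  have htwo : gSumW L (PadicAlgCl c) N c P (fun l => C (b l)) (fun l => i * a l % N) 0 0 0 z
      (Ω ^ j) ν = ((Fintype.card L : ℕ) : PadicAlgCl c) *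
        curveSum L (PadicAlgCl c) N P b a z (Ω ^ j) i := by
    unfold gSumW curveSum
    rw [mul_sum]
    refine sum_congr rfl fun x _ => ?_
    simp only [eval_C, eval_zero, add_zero, av_zero, mul_one, pow_zero]
    rw [sum_const, card_univ, nsmul_eq_mul]
  rw [gSumW_eq hN L T hTN hTz P _ _ he 0 (by omega) hj 0 0 ψ hψν] at htwo
  have hest := two_estW hGN hIN hSA hDG hDI w ψ hψ1 hψ2 hgo hcard hd (Nat.mul_pos hF0 hn) hne
    (D := 1) le_rfl
    {l // i * a l % N ≠ 0} (fun l => P l.1) (fun l => hP l.1) (fun l => C (b l.1))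
    (fun l => hCw _)
    (fun l => (j * (i * a l.1 % N)) % N) (by
      intro l
      refine ⟨?_, Nat.mod_lt _ (by omega)⟩
      rw [Nat.one_le_iff_ne_zero]
      intro h
      have h1 : N ∣ j * (i * a l.1 % N) := Nat.dvd_of_mod_eq_zero h
      have h2 : N ∣ i * a l.1 % N := (Nat.Coprime.symm hj).dvd_of_dvd_mul_left h1
      exact absurd (Nat.le_of_dvd (Nat.pos_of_ne_zero l.2) h2) (by have := he l.1; omega))
    ((j * 0) % N) (Nat.mod_lt _ (by omega)) 0 (by intro n hn; simp at hn) 0 HasWeight.zero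
  rw [← hT] at hest
  rw [htwo] at hest
  -- the exponent
  have hper : ∀ b : ℕ, ∑ s ∈ range (F * n), ((j * b) % N * c ^ s) % N
      = n * ∑ s ∈ range F, (j * b * c ^ s) % N := by
    intro b
    rw [sum_period (by omega) hNf hc1]
    congr 1
    refine sum_congr rfl fun s _ => ?_
    exact (Nat.mod_modEq (j * b) N).mul_right (c ^ s)
  have h1 : ∑ l : {l // i * a l % N ≠ 0}, ∑ s ∈ range (F * n),
      ((j * (i * a l.1 % N)) % N * c ^ s) % N
      = n * ∑ l, ∑ s ∈ range F, (j * (i * a l % N) * c ^ s) % N := by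
    rw [mul_sum, sum_congr rfl fun l _ => hper (i * a l.1 % N)]
    rw [← sum_subtype (univ.filter fun l => i * a l % N ≠ 0) (p := fun l => i * a l % N ≠ 0)
      (by intro i; simp) (fun l => n * ∑ s ∈ range F, (j * (i * a l % N) * c ^ s) % N)]
    rw [sum_filter]
    refine sum_congr rfl fun l _ => ?_
    by_cases h : i * a l % N = 0
    · rw [h, if_neg (by simp)]
      simp
    · rw [if_pos h]
  have h0 : ∑ s ∈ range (F * n), (j * 0 % N * c ^ s) % N = 0 := by
    rw [mul_zero, Nat.zero_mod]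
    simp
  rw [h1, h0] at hest
  set A := ∑ l, ∑ s ∈ range F, (j * (i * a l % N) * c ^ s) % N with hA
  set ρ := ‖((c : ℕ) : PadicAlgCl c)‖ with hρ
  have hρ0 : 0 < ρ := by
    rw [hρ, norm_pos_iff]
    exact_mod_cast (Fact.out : c.Prime).ne_zero
  have hρ1 : ρ ≤ 1 := norm_natCast_le c
  have hcardn : ‖((Fintype.card L : ℕ) : PadicAlgCl c)‖ = ρ ^ (F * n) := by
    rw [hcard]
    push_cast
    rw [norm_pow]
  rw [norm_mul, hcardn] at hest
  rw [hcardn]
  set X := ‖curveSum L (PadicAlgCl c) N P b a z (Ω ^ j) i‖ with hX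
  have hX0 : 0 ≤ X := norm_nonneg _
  have h3 : X ^ N * ρ ^ (n * A) ≤ ρ ^ (F * n * N) := by
    have h4 : (ρ ^ (F * n)) ^ N * (X ^ N * ρ ^ (n * A))
        ≤ (ρ ^ (F * n)) ^ N * ρ ^ (F * n * N) := by
      calc (ρ ^ (F * n)) ^ N * (X ^ N * ρ ^ (n * A))
          = (ρ ^ (F * n) * X) ^ (1 * N) * ρ ^ (1 * (n * A) + 0) := by
            rw [one_mul, mul_pow, one_mul, add_zero]; ring
        _ ≤ ρ ^ (F * n * (1 + 1) * N) := hest
        _ = (ρ ^ (F * n)) ^ N * ρ ^ (F * n * N) := by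
            rw [← pow_mul, ← pow_add]
            congr 1
            ring
    exact le_of_mul_le_mul_left h4 (pow_pos (pow_pos hρ0 _) _)
  have h5 : (X ^ N * ρ ^ (n * A)) ^ 2 ≤ (ρ ^ (F * n * N)) ^ 2 :=
    pow_le_pow_left₀ (mul_nonneg (pow_nonneg hX0 _) (pow_nonneg hρ0.le _)) h3 2
  have h6 : (ρ ^ (F * n * N)) ^ 2 ≤ ((ρ ^ (F * n)) ^ N * ρ ^ n) * (ρ ^ (n * A)) ^ 2 := by
    rw [← pow_mul, ← pow_mul, ← pow_mul, ← pow_add, ← pow_add]
    apply pow_le_pow_of_le_one hρ0.le hρ1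
    have h7 : 2 * A + 1 ≤ F * N := hjd
    calc F * n * N + n + n * A * 2 = n * (F * N) + n * (2 * A + 1) := by ring
      _ ≤ n * (F * N) + n * (F * N) := Nat.add_le_add_left (Nat.mul_le_mul_left n h7) _
      _ = F * n * N * 2 := by ring
  have h8 : X ^ (2 * N) * (ρ ^ (n * A)) ^ 2
      ≤ ((ρ ^ (F * n)) ^ N * ρ ^ n) * (ρ ^ (n * A)) ^ 2 := by
    calc X ^ (2 * N) * (ρ ^ (n * A)) ^ 2 = (X ^ N * ρ ^ (n * A)) ^ 2 := by
          rw [mul_pow, ← pow_mul X, mul_comm N 2]
      _ ≤ _ := h5.trans h6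
  exact le_of_mul_le_mul_right h8 (pow_pos (pow_pos hρ0 _) 2)

end curve

end Pool.Agent.J4.H42.Pr
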