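import Pool.Agent.J4.H42.PrH

/-!
# Half-integral weights: products
-/

set_option autoImplicit false

namespace Pool.Agent.J4.H42.Pr

open Finset Polynomial TensorProduct Pool.Agent.W528.HA Pool.Agent.W528.HB Pool.Agent.W528.HD
  Pool.Agent.W528.HG Pool.Agent.J4.H42.Wt

section

variable {c : ℕ} [Fact c.Prime] {κ : Type} [Fintype κ] {E : Type} [Field E] [CharZero E]

/-- `x ^ 2` is smaller than `q ^ w` for the embeddings with `μ ↦ Ω ^ J`, for some `J`. -/
def IsSmallH (κ : Type) [Fintype κ] (N : ℕ) (μ : E) (Ω : PadicAlgCl c) (w : ℕ) (x : E) : Prop :=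
  x = 0 ∨ ∃ J : ℕ, J.Coprime N ∧ ∀ fe : algebraicClosure ℚ E →+* PadicAlgCl c,
    (∀ h : IsAlgebraic ℚ μ, fe ⟨μ, (mem_algebraicClosure_iff).mpr h⟩ = Ω ^ J) →
    ∃ h : x ∈ algebraicClosure ℚ E,
      ‖fe ⟨x, h⟩‖ ^ 2 < ‖((Fintype.card κ : ℕ) : PadicAlgCl c)‖ ^ w

/-- `γ` is algebraic, and all the complex numbers conjugate to `γ` have absolute value
`q ^ (m / 2)`. -/
def IsWeilH {E : Type} [Field E] [CharZero E] (q m : ℕ) (γ : E) : Prop :=
  IsAlgebraic ℚ γ ∧ ∀ w : ℂ, aeval w (minpoly ℚ γ) = 0 → ‖w‖ ^ 2 = (q : ℝ) ^ m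

end

/-- The eigenvalues of the parts of the cohomology of `y ^ n = ∏ (P_i(x) + b_i) ^ a_i`. -/
theorem curve_small {n c : ℕ} (hn : 2 ≤ n)
    [Fact c.Prime] (hnc : n ∣ c - 1) (κ : Type) [Field κ] [Fintype κ] [CharP κ c]
    {z : κ} (hz : IsPrimitiveRoot z n) {E : Type} [Field E] [CharZero E] [IsAlgClosed E]
    {μ : E} (hμ : IsPrimitiveRoot μ n) {m : ℕ}
    (P : Fin m → κ[X]) (hP : ∀ i, IsAdditive c (P i)) (b : Fin m → κ)
    (a : Fin m → ℕ) (ha2 : 2 * ∑ i, a i < n.minFac)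
    {k : Type} [Field k] [IsAlgClosed k] [CharP k c] {R' : Subring (PadicAlgCl c)}
    {res : R' →+* k} (hR' : IsRes c R' res)
    (eκ : κ →+* k) {Ω : PadicAlgCl c} (hΩ : IsPrimitiveRoot Ω n) (hΩR : Ω ∈ R')
    (hΩz : res ⟨Ω, hΩR⟩ = eκ z)
    {V : Type} [AddCommGroup V] [Module E V] [FiniteDimensional E V]
    (j : ℕ) (hj0 : 0 < j) (hj : j < n)
    (Φ : Module.End E V) (hΦ : CurveTrace κ n P b a z μ j Φ)
    (x : E) (hx : Module.End.HasEigenvalue Φ x) : IsSmallH κ n μ Ω 1 x := by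
  classical
  have hc : c.Prime := Fact.out
  obtain ⟨F, hF0, hF⟩ := FiniteField.card κ c
  have hF0' : 0 < (F : ℕ) := F.2
  by_cases hx0 : x = 0
  · exact Or.inl hx0
  obtain ⟨j', hj', hsum⟩ := arith_curve hn hc.one_lt.le hnc hF0' ha2 hj0 hj
  have hNf : n ∣ c ^ (F : ℕ) - 1 := by
    rw [← hF]
    exact dvd_card_of_root hz (by omega)
  have hμalg : IsAlgebraic ℚ μ := by
    have h1 : IsIntegral ℤ μ := hμ.isIntegral (by omega)
    exact (h1.tower_top (A := ℚ)).isAlgebraic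
  refine Or.inr ⟨j', hj', fun fe hfe => ?_⟩
  obtain ⟨h, h1⟩ := op_bound' (N := n) (j := j') κ hF n (2 * n) (by omega)
    (fun L _ _ _ R _ ω => - curveSum L R n (fun i => (P i).map (algebraMap κ L))
      (fun i => algebraMap κ L (b i)) a (algebraMap κ L z) ω j)
    (fun L _ _ _ R R' _ _ g y => by rw [map_neg, map_curveSum]) eκ hΩ hΩR hΩz (by
      intro n' hn' L _ _ _ _ hcard eL Ω hΩ hΩz
      rw [norm_neg]
      exact curve_est hR' hn hF0' hn' hNf L hcard eL
        (hz.map_of_injective (algebraMap κ L).injective) hΩ hΩz _ (fun i => (hP i).map _) _ a j hj'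
        hsum) fe hμalg
    (hfe hμalg) Φ hΦ x hx hx0
  refine ⟨h, ?_⟩
  rw [pow_mul] at h1
  rw [pow_one]
  exact lt_of_pow_lt_pow_left₀ n (norm_nonneg _) h1

theorem exists_root_leH {c : ℕ} [Fact c.Prime] {E : Type} [Field E] [CharZero E] {q m : ℕ} {γ : E}
    (h : IsWeilH q m γ) : ∃ ρ : PadicAlgCl c, aeval ρ (minpoly ℚ γ) = 0 ∧
      ‖ρ‖ ^ 2 ≤ ‖(q : PadicAlgCl c)‖ ^ m := by
  classical
  obtain ⟨halg, hw⟩ := h
  have hint : IsIntegral ℚ γ := halg.isIntegral
  set P := minpoly ℚ γ with hP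
  have hmon : P.Monic := minpoly.monic hint
  have hdeg : 0 < P.natDegree := minpoly.natDegree_pos hint
  -- the complex numbers
  have h1 : ‖algebraMap ℚ ℂ (P.coeff 0)‖ ^ 2 = ((q : ℝ) ^ m) ^ P.natDegree := by
    have hs : (P.map (algebraMap ℚ ℂ)).Splits := IsAlgClosed.splits _
    have h2 := hs.coeff_zero_eq_prod_roots_of_monic (hmon.map _)
    rw [coeff_map] at h2
    rw [h2, norm_mul, norm_pow, norm_neg, norm_one, one_pow, one_mul]
    have h3 : ∀ S : Multiset ℂ, (∀ w ∈ S, ‖w‖ ^ 2 = (q : ℝ) ^ m) →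
        ‖S.prod‖ ^ 2 = ((q : ℝ) ^ m) ^ Multiset.card S := by
      intro S
      induction S using Multiset.induction_on with
      | empty => intro _; simp
      | cons a S ih =>
        intro hS
        rw [Multiset.prod_cons, norm_mul, mul_pow, hS a (Multiset.mem_cons_self a S),
          ih fun w hw => hS w (Multiset.mem_cons_of_mem hw), Multiset.card_cons, pow_succ, mul_comm]
    rw [h3 _ (fun w hw' => hw w (by
      have := (mem_roots'.1 hw').2
      rwa [IsRoot.def, eval_map_algebraMap] at this)), ← hs.natDegree_eq_card_roots, natDegree_map]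
  have h2 : (P.coeff 0) ^ 2 = ((q : ℚ) ^ m) ^ P.natDegree := by
    have h3 : ‖algebraMap ℚ ℂ (P.coeff 0)‖ ^ 2 = (((P.coeff 0) ^ 2 : ℚ) : ℝ) := by
      rw [eq_ratCast, Complex.norm_ratCast, sq_abs]
      push_cast
      rfl
    rw [h3] at h1
    exact_mod_cast h1
  -- the `c`-adic numbers
  have h3 : ‖algebraMap ℚ (PadicAlgCl c) (P.coeff 0)‖ ^ 2
      = (‖(q : PadicAlgCl c)‖ ^ m) ^ P.natDegree := by
    rw [← norm_pow, ← map_pow, h2, map_pow, map_pow, map_natCast, norm_pow, norm_pow]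
  by_contra hcon
  push Not at hcon
  have hs : (P.map (algebraMap ℚ (PadicAlgCl c))).Splits := IsAlgClosed.splits _
  have h4 := hs.coeff_zero_eq_prod_roots_of_monic (hmon.map _)
  rw [coeff_map] at h4
  rw [h4, norm_mul, norm_pow, norm_neg, norm_one, one_pow, one_mul] at h3
  have hB : 0 ≤ ‖(q : PadicAlgCl c)‖ ^ m := by positivity
  have h5 : ∀ S : Multiset (PadicAlgCl c), (∀ w ∈ S, ‖(q : PadicAlgCl c)‖ ^ m < ‖w‖ ^ 2) → S ≠ 0 →
      (‖(q : PadicAlgCl c)‖ ^ m) ^ Multiset.card S < ‖S.prod‖ ^ 2 := by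
    intro S
    induction S using Multiset.induction_on with
    | empty => intro _ h0; exact absurd rfl h0
    | cons a S ih =>
      intro hS _
      have ha := hS a (Multiset.mem_cons_self a S)
      rw [Multiset.prod_cons, norm_mul, Multiset.card_cons, pow_succ, mul_comm, mul_pow]
      by_cases h0 : S = 0
      · rw [h0, Multiset.card_zero, pow_zero, mul_one, Multiset.prod_zero, norm_one, one_pow,
          mul_one]
        exact ha
      · have h6 := ih (fun w hw => hS w (Multiset.mem_cons_of_mem hw)) h0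
        exact mul_lt_mul'' ha h6 hB (pow_nonneg hB _)
  have hcard : Multiset.card (P.map (algebraMap ℚ (PadicAlgCl c))).roots = P.natDegree := by
    rw [← hs.natDegree_eq_card_roots, natDegree_map]
  have h6 := h5 (P.map (algebraMap ℚ (PadicAlgCl c))).roots (fun w hw' => hcon w (by
      have := (mem_roots'.1 hw').2
      rwa [IsRoot.def, eval_map_algebraMap] at this)) (by
      intro h0
      rw [h0, Multiset.card_zero] at hcard
      omega)
  rw [hcard, h3] at h6
  exact lt_irrefl _ h6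

section

variable {c : ℕ} [Fact c.Prime] {κ : Type} [Fintype κ] {E : Type} [Field E] [CharZero E]
  [IsAlgClosed E] {ι : Type} [Fintype ι]

lemma IsWeilH.ne_zero {E : Type} [Field E] [CharZero E] {q m : ℕ} (hq : 0 < q) {γ : E}
    (h : IsWeilH q m γ) : γ ≠ 0 := by
  rintro rfl
  have h1 := h.2 0 (by rw [minpoly.zero]; simp)
  rw [norm_zero, zero_pow two_ne_zero] at h1
  have h2 : (0 : ℝ) < (q : ℝ) ^ m := by positivity
  rw [← h1] at h2
  exact lt_irrefl _ h2

/-- The product of small numbers and of a Weil number which is independent of the roots of unity is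
not a power of `q`. -/
theorem prod_ne [Nonempty κ] (hκ : 1 < Fintype.card κ) {N : ι → ℕ} (hN : ∀ i, 0 < N i)
    (hcop : Pairwise fun i k => (N i).Coprime (N k)) {μ : ι → E}
    (hμ : ∀ i, IsPrimitiveRoot (μ i) (N i)) {Ω : ι → PadicAlgCl c}
    (hfe : ∀ J : ι → ℕ, (∀ i, (J i).Coprime (N i)) →
        ∃ fe : algebraicClosure ℚ E →+* PadicAlgCl c, ∀ i, ∀ h : IsAlgebraic ℚ (μ i),
          fe ⟨μ i, (mem_algebraicClosure_iff).mpr h⟩ = Ω i ^ J i) (w : ι → ℕ) (m : ℕ)
    (x : ι → E) (T : Finset ι) (hT : T.Nonempty)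
    (hx : ∀ i ∈ T, IsSmallH κ (N i) (μ i) (Ω i) (w i) (x i))
    (hxw : ∀ i ∈ T, IsWeilH (Fintype.card κ) (w i) (x i))
    (hx' : ∀ i, i ∉ T → ∃ k : ℕ, x i = (Fintype.card κ : E) ^ k ∧ w i = 2 * k) (γ : E)
    (hγ : IsWeilH (Fintype.card κ) m γ) (hγ' : IsIndep (∏ i, N i) γ) (b : ℤ) :
    (∏ i, x i) * γ ≠ (Fintype.card κ : E) ^ b := by
  classical
  intro heq
  have hq : (Fintype.card κ : E) ≠ 0 := by exact_mod_cast Fintype.card_ne_zero
  have hx0 : ∀ i, x i ≠ 0 := by
    intro i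
    by_cases hi : i ∈ T
    · exact (hxw i hi).ne_zero Fintype.card_pos
    · obtain ⟨k, hk, -⟩ := hx' i hi
      rw [hk]
      exact pow_ne_zero k hq
  have hγ0 : γ ≠ 0 := hγ.ne_zero Fintype.card_pos
  have hmemx : ∀ i, x i ∈ algebraicClosure ℚ E := by
    intro i
    by_cases hi : i ∈ T
    · exact (mem_algebraicClosure_iff).mpr (hxw i hi).1
    · obtain ⟨k, hk, -⟩ := hx' i hi
      have h1 : x i = ((((Fintype.card κ : ℕ) : algebraicClosure ℚ E) ^ k :
          algebraicClosure ℚ E) : E) := by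
        rw [hk]
        push_cast
        rfl
      rw [h1]
      exact Subtype.prop _
  have hγK : γ ∈ algebraicClosure ℚ E := (mem_algebraicClosure_iff).mpr hγ.1
  -- the equation in the field of algebraic numbers
  have h3 : (∏ i, (⟨x i, hmemx i⟩ : algebraicClosure ℚ E)) *
      (⟨γ, hγK⟩ : algebraicClosure ℚ E)
      = ((Fintype.card κ : ℕ) : algebraicClosure ℚ E) ^ b := by
    apply (algebraMap (algebraicClosure ℚ E) E).injective
    rw [map_mul, map_prod, map_zpow₀, map_natCast]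
    exact heq
  have hxk : ∀ i, i ∉ T → ∃ k : ℕ, (⟨x i, hmemx i⟩ : algebraicClosure ℚ E)
      = ((Fintype.card κ : ℕ) : algebraicClosure ℚ E) ^ k ∧ w i = 2 * k := by
    intro i hi
    obtain ⟨k, hk, hw⟩ := hx' i hi
    refine ⟨k, Subtype.ext (hk.trans ?_), hw⟩
    push_cast
    rfl
  -- the weights
  have hweight : ((∑ i, w i + m : ℕ) : ℤ) = 2 * b := by
    let σ : algebraicClosure ℚ E →ₐ[ℚ] ℂ :=
      have : Algebra.IsAlgebraic ℚ (algebraicClosure ℚ E) := algebraicClosure.isAlgebraic ℚ E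
      IsAlgClosed.lift
    have hσ : ∀ (y : E) (hy : y ∈ algebraicClosure ℚ E) (n : ℕ), IsWeilH (Fintype.card κ) n y →
        ‖σ ⟨y, hy⟩‖ ^ 2 = (Fintype.card κ : ℝ) ^ n := by
      intro y hy n hyw
      apply hyw.2
      rw [aeval_algHom_apply]
      have h1 : aeval (⟨y, hy⟩ : algebraicClosure ℚ E) (minpoly ℚ y) = 0 := by
        apply (algebraMap (algebraicClosure ℚ E) E).injective
        rw [map_zero, ← aeval_algebraMap_apply]
        exact minpoly.aeval ℚ y
      rw [h1, map_zero]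
    have h4 := congrArg (fun y => ‖σ y‖ ^ 2) h3
    simp only [map_mul, map_prod, map_zpow₀, map_natCast, norm_mul, norm_prod, norm_zpow, mul_pow]
      at h4
    rw [hσ γ hγK m hγ, ← prod_pow] at h4
    have h5 : ∏ i, ‖σ ⟨x i, hmemx i⟩‖ ^ 2 = (Fintype.card κ : ℝ) ^ (∑ i, w i) := by
      rw [← prod_pow_eq_pow_sum]
      refine prod_congr rfl fun i _ => ?_
      by_cases hi : i ∈ T
      · exact hσ _ _ _ (hxw i hi)
      · obtain ⟨k, hk, hw⟩ := hxk i hi
        rw [hk, map_pow, map_natCast, norm_pow, Complex.norm_natCast, ← pow_mul, hw, mul_comm]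
    rw [h5, Complex.norm_natCast, ← pow_add] at h4
    have h6 : (Fintype.card κ : ℝ) ^ ((∑ i, w i + m : ℕ) : ℤ) = (Fintype.card κ : ℝ) ^ (b * 2) := by
      rw [zpow_natCast, h4, zpow_mul]
      norm_cast
    have h7 := zpow_right_injective₀ (a := (Fintype.card κ : ℝ))
      (by exact_mod_cast Fintype.card_pos) (by exact_mod_cast hκ.ne') h6
    rw [h7, mul_comm]
  -- the `c`-adic absolute values
  have hJ : ∀ i, ∃ J : ℕ, J.Coprime (N i) ∧ (i ∈ T → ∀ fe : algebraicClosure ℚ E →+* PadicAlgCl c,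
      (∀ h : IsAlgebraic ℚ (μ i), fe ⟨μ i, (mem_algebraicClosure_iff).mpr h⟩ = Ω i ^ J) →
      ∃ h : x i ∈ algebraicClosure ℚ E,
        ‖fe ⟨x i, h⟩‖ ^ 2 < ‖((Fintype.card κ : ℕ) : PadicAlgCl c)‖ ^ w i) := by
    intro i
    by_cases hi : i ∈ T
    · rcases hx i hi with h | ⟨J, hJ1, hJ2⟩
      · exact absurd h (hx0 i)
      · exact ⟨J, hJ1, fun _ => hJ2⟩
    · exact ⟨1, Nat.coprime_one_left _, fun h => absurd h hi⟩
  choose J hJ1 hJ2 using hJ
  obtain ⟨fe0, hfe0⟩ := hfe J hJ1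
  obtain ⟨ρ, hρ1, hρ2⟩ := exists_root_leH (c := c) hγ
  obtain ⟨fe, hfe1, hfe2⟩ := swap' hN hcop hμ fe0 γ hγ.1 hγ' hρ1
  have hfe : ∀ i, ∀ h : IsAlgebraic ℚ (μ i),
      fe ⟨μ i, (mem_algebraicClosure_iff).mpr h⟩ = Ω i ^ J i := fun i h => by
    rw [hfe1 i, hfe0 i h]
  set Q := ‖((Fintype.card κ : ℕ) : PadicAlgCl c)‖ with hQ
  have hQ0 : 0 < Q := by
    rw [hQ, norm_pos_iff]
    exact_mod_cast Fintype.card_ne_zero
  have hm : ∀ i, ‖fe ⟨x i, hmemx i⟩‖ ^ 2 ≤ Q ^ w i ∧
      (i ∈ T → ‖fe ⟨x i, hmemx i⟩‖ ^ 2 < Q ^ w i) := by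
    intro i
    by_cases hi : i ∈ T
    · obtain ⟨h, h'⟩ := hJ2 i hi fe (hfe i)
      exact ⟨h'.le, fun _ => h'⟩
    · obtain ⟨k, hk, hw⟩ := hxk i hi
      refine ⟨le_of_eq ?_, fun h => absurd h hi⟩
      rw [hk, map_pow, map_natCast, norm_pow, ← pow_mul, hw, mul_comm]
  have h4 := congrArg (fun y => ‖fe y‖ ^ 2) h3
  simp only [map_mul, map_prod, map_zpow₀, map_natCast, norm_mul, norm_prod, norm_zpow, mul_pow]
    at h4
  rw [← hQ, hfe2 hγK, ← prod_pow] at h4
  obtain ⟨i0, hi0⟩ := hT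
  have h5 : ∏ i, ‖fe ⟨x i, hmemx i⟩‖ ^ 2 < ∏ i, Q ^ w i := by
    refine prod_lt_prod (fun i _ => ?_) (fun i _ => (hm i).1) ⟨i0, mem_univ _, (hm i0).2 hi0⟩
    refine pow_pos (norm_pos_iff.mpr ?_) 2
    rw [_root_.map_ne_zero]
    intro h
    exact hx0 i (congrArg Subtype.val h)
  have h7 : (∏ i, ‖fe ⟨x i, hmemx i⟩‖ ^ 2) * ‖ρ‖ ^ 2 < (∏ i, Q ^ w i) * Q ^ m := by
    refine mul_lt_mul h5 hρ2 ?_ (prod_nonneg fun i _ => by positivity)
    refine pow_pos (norm_pos_iff.mpr ?_) 2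
    intro h0
    have h8 := hfe2 hγK
    rw [h0] at h8
    have h9 := (map_eq_zero fe).1 h8
    exact hγ0 (congrArg Subtype.val h9)
  rw [h4, prod_pow_eq_pow_sum, ← pow_add] at h7
  have h8 : (Q ^ b) ^ 2 = Q ^ (∑ i, w i + m) := by
    rw [← zpow_natCast Q (∑ i, w i + m), hweight, mul_comm, zpow_mul]
    norm_cast
  rw [h8] at h7
  exact lt_irrefl _ h7

end

section

variable {E : Type} [Field E] [IsAlgClosed E] {ι : Type} [Fintype ι] {M : ι → Type}
  [∀ i, AddCommGroup (M i)] [∀ i, Module E (M i)] [∀ i, FiniteDimensional E (M i)]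
  {N : Type} [AddCommGroup N] [Module E N] [FiniteDimensional E N]

/-- The space is spanned by the generalized eigenvectors. -/
lemma span_gen {M : Type} [AddCommGroup M] [Module E M] [FiniteDimensional E M]
    (F : Module.End E M) : Submodule.span E (Set.range (Subtype.val :
      {m : M | ∃ x, F.HasEigenvalue x ∧ m ∈ F.maxGenEigenspace x} → M)) = ⊤ := by
  rw [Subtype.range_coe_subtype, eq_top_iff, ← Module.End.iSup_maxGenEigenspace_eq_top F]
  refine iSup_le fun x v hv => ?_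
  by_cases hx : F.HasEigenvalue x
  · exact Submodule.subset_span ⟨x, hx, hv⟩
  · have h1 : F.maxGenEigenspace x = ⊥ := by
      by_contra hne
      apply hx
      have h2 : Module.End.HasUnifEigenvalue F x ⊤ := hne
      exact h2.lt zero_lt_one
    rw [h1, Submodule.mem_bot] at hv
    rw [hv]
    exact Submodule.zero_mem _

/-- The eigenvalues of a tensor product are products of eigenvalues. -/
theorem eigen_prod (G : ∀ i, Module.End E (M i)) (F : Module.End E N) {lam : E}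
    (h : Module.End.HasEigenvalue (TensorProduct.map (PiTensorProduct.map G) F :
      Module.End E ((⨂[E] i, M i) ⊗[E] N)) lam) :
    ∃ (x : ι → E) (y : E), (∀ i, (G i).HasEigenvalue (x i)) ∧ F.HasEigenvalue y ∧
      lam = (∏ i, x i) * y := by
  classical
  by_contra hcon
  push Not at hcon
  set T : Module.End E ((⨂[E] i, M i) ⊗[E] N) := TensorProduct.map (PiTensorProduct.map G) F
    with hT
  have hspan := PiTensorProduct.submodule_span_eq_top (R := E) (M := M)
    (g := fun i => (Subtype.val :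
      {m : M i | ∃ x, (G i).HasEigenvalue x ∧ m ∈ (G i).maxGenEigenspace x} → M i))
    fun i => span_gen (G i)
  have hdec : ⨆ (ν) (_ : ν ≠ lam), T.maxGenEigenspace ν = ⊤ := by
    rw [eq_top_iff]
    rintro v -
    refine TensorProduct.induction_on v (Submodule.zero_mem _) ?_ fun x y hx hy =>
      Submodule.add_mem _ hx hy
    intro u w
    have hu : u ∈ Submodule.span E (Set.range fun σ : (∀ i, {m : M i | ∃ x,
        (G i).HasEigenvalue x ∧ m ∈ (G i).maxGenEigenspace x}) =>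
        PiTensorProduct.tprod E fun i => (σ i : M i)) := by
      rw [hspan]
      exact Submodule.mem_top
    have hw : w ∈ Submodule.span E (Set.range (Subtype.val :
        {m : N | ∃ x, F.HasEigenvalue x ∧ m ∈ F.maxGenEigenspace x} → N)) := by
      rw [span_gen]
      exact Submodule.mem_top
    refine Submodule.span_induction (p := fun u _ => u ⊗ₜ[E] w ∈
      ⨆ (ν) (_ : ν ≠ lam), T.maxGenEigenspace ν) ?_ ?_ ?_ ?_ hu
    · rintro _ ⟨σ, rfl⟩
      refine Submodule.span_induction (p := fun w _ =>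
        (PiTensorProduct.tprod E fun i => (σ i : M i)) ⊗ₜ[E] w ∈
        ⨆ (ν) (_ : ν ≠ lam), T.maxGenEigenspace ν) ?_ ?_ ?_ ?_ hw
      · rintro _ ⟨⟨w, y, hy, hwy⟩, rfl⟩
        choose x hx1 hx2 using fun i => (σ i).2
        refine Submodule.mem_iSup_of_mem ((∏ i, x i) * y) (Submodule.mem_iSup_of_mem
          (Ne.symm (hcon x y hx1 hy)) ?_)
        exact tmulGen_mem _ _ (tprodGen_mem G x _ hx2) hwy
      · rw [tmul_zero]
        exact Submodule.zero_mem _
      · intro a b _ _ ha hb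
        rw [tmul_add]
        exact Submodule.add_mem _ ha hb
      · intro a b _ hb
        rw [tmul_smul]
        exact Submodule.smul_mem _ a hb
    · rw [zero_tmul]
      exact Submodule.zero_mem _
    · intro a b _ _ ha hb
      rw [add_tmul]
      exact Submodule.add_mem _ ha hb
    · intro a b _ hb
      rw [← smul_tmul']
      exact Submodule.smul_mem _ a hb
  obtain ⟨v, hv⟩ := h.exists_hasEigenvector
  have h1 : v ∈ T.maxGenEigenspace lam := by
    rw [Module.End.mem_maxGenEigenspace]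
    refine ⟨1, ?_⟩
    rw [pow_one, LinearMap.sub_apply, LinearMap.smul_apply, Module.End.one_apply, hv.apply_eq_smul,
      sub_self]
  have h2 := (Module.End.independent_maxGenEigenspace T lam).le_bot
    (Submodule.mem_inf.2 ⟨h1, by rw [hdec]; exact Submodule.mem_top⟩)
  exact hv.2 ((Submodule.mem_bot E).1 h2)

end

end Pool.Agent.J4.H42.Pr
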