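import Mathlib

set_option autoImplicit false

namespace Pool.Agent.J4.H42.SqFree

/-- two adjacent order-isomorphic blocks of length `l`, the first one starting at `i` -/
def Sq (h : ℕ → ℚ) (i l : ℕ) : Prop :=
  ∀ a < l, ∀ b < l, (h (i + a) < h (i + b) ↔ h (i + l + a) < h (i + l + b))

/-- the infinite square-free sequence: lows and highs increase, the middle terms repeat the sequence -/
def f : ℕ → ℚ
  | n =>
    if _h : n % 2 = 1 then f (n / 2) / 3
    else if n % 4 = 0 then -1 - 1 / (((n / 4 : ℕ) : ℚ) + 1)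
    else 2 - 1 / (((n / 4 : ℕ) : ℚ) + 1)
termination_by n => n
decreasing_by omega

lemma f_odd (j : ℕ) : f (2 * j + 1) = f j / 3 := by
  rw [f]
  have h1 : (2 * j + 1) % 2 = 1 := by omega
  have h2 : (2 * j + 1) / 2 = j := by omega
  rw [dif_pos h1, h2]

lemma f_low (i : ℕ) : f (4 * i) = -1 - 1 / ((i : ℚ) + 1) := by
  rw [f]
  have h1 : ¬ (4 * i) % 2 = 1 := by omega
  have h2 : (4 * i) % 4 = 0 := by omega
  have h3 : (4 * i) / 4 = i := by omega
  rw [dif_neg h1, if_pos h2, h3]

lemma f_high (i : ℕ) : f (4 * i + 2) = 2 - 1 / ((i : ℚ) + 1) := by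
  rw [f]
  have h1 : ¬ (4 * i + 2) % 2 = 1 := by omega
  have h2 : ¬ (4 * i + 2) % 4 = 0 := by omega
  have h3 : (4 * i + 2) / 4 = i := by omega
  rw [dif_neg h1, if_neg h2, h3]

lemma inv_bd (i : ℕ) : 0 < 1 / ((i : ℚ) + 1) ∧ 1 / ((i : ℚ) + 1) ≤ 1 := by
  have h : (0 : ℚ) ≤ i := Nat.cast_nonneg i
  constructor
  · positivity
  · rw [div_le_one (by linarith)]; linarith

lemma inv_lt {i j : ℕ} (h : i < j) : 1 / ((j : ℚ) + 1) < 1 / ((i : ℚ) + 1) := by
  have h0 : (0 : ℚ) ≤ i := Nat.cast_nonneg i
  have h1 : (i : ℚ) < j := by exact_mod_cast h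
  exact one_div_lt_one_div_of_lt (by linarith) (by linarith)

lemma low_bd (i : ℕ) : -2 ≤ f (4 * i) ∧ f (4 * i) < -1 := by
  rw [f_low]; have := inv_bd i; constructor <;> linarith

lemma high_bd (i : ℕ) : 1 ≤ f (4 * i + 2) ∧ f (4 * i + 2) < 2 := by
  rw [f_high]; have := inv_bd i; constructor <;> linarith

lemma f_bd (n : ℕ) : -2 ≤ f n ∧ f n ≤ 2 := by
  induction n using Nat.strong_induction_on with
  | _ n ih =>
    rcases Nat.even_or_odd' n with ⟨c, hc | hc⟩
    · rcases Nat.even_or_odd' c with ⟨d, hd | hd⟩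
      · have : n = 4 * d := by omega
        rw [this]; have := low_bd d; constructor <;> linarith
      · have : n = 4 * d + 2 := by omega
        rw [this]; have := high_bd d; constructor <;> linarith
    · rw [hc, f_odd]
      have := ih c (by omega)
      constructor <;> linarith

lemma mid_bd (j : ℕ) : -1 < f (2 * j + 1) ∧ f (2 * j + 1) < 1 := by
  rw [f_odd]; have := f_bd j; constructor <;> linarith

lemma low_lt {i j : ℕ} (h : i < j) : f (4 * i) < f (4 * j) := by
  rw [f_low, f_low]; have := inv_lt h; linarith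

lemma high_lt {i j : ℕ} (h : i < j) : f (4 * i + 2) < f (4 * j + 2) := by
  rw [f_high, f_high]; have := inv_lt h; linarith

/-- classification of indices -/
lemma cases4 (n : ℕ) : (∃ i, n = 4 * i) ∨ (∃ i, n = 4 * i + 2) ∨ (∃ j, n = 2 * j + 1) := by
  rcases Nat.even_or_odd' n with ⟨c, hc | hc⟩
  · rcases Nat.even_or_odd' c with ⟨d, hd | hd⟩
    · exact Or.inl ⟨d, by omega⟩
    · exact Or.inr (Or.inl ⟨d, by omega⟩)
  · exact Or.inr (Or.inr ⟨c, hc⟩)

lemma f_inj : ∀ a b : ℕ, f a = f b → a = b := by
  intro a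
  induction a using Nat.strong_induction_on with
  | _ a ih =>
    intro b hab
    rcases cases4 a with ⟨i, rfl⟩ | ⟨i, rfl⟩ | ⟨i, rfl⟩ <;>
    rcases cases4 b with ⟨j, rfl⟩ | ⟨j, rfl⟩ | ⟨j, rfl⟩
    · rcases lt_trichotomy i j with h | h | h
      · have := low_lt h; linarith
      · rw [h]
      · have := low_lt h; linarith
    · have := low_bd i; have := high_bd j; linarith
    · have := low_bd i; have := mid_bd j; linarith
    · have := high_bd i; have := low_bd j; linarith
    · rcases lt_trichotomy i j with h | h | h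
      · have := high_lt h; linarith
      · rw [h]
      · have := high_lt h; linarith
    · have := high_bd i; have := mid_bd j; linarith
    · have := mid_bd i; have := low_bd j; linarith
    · have := mid_bd i; have := high_bd j; linarith
    · rw [f_odd, f_odd] at hab
      have := ih i (by omega) j (by linarith)
      rw [this]

lemma f_up (k : ℕ) : f k < f (k + 1) ↔ (k % 4 = 0 ∨ k % 4 = 1) := by
  obtain ⟨i, r, hr, rfl⟩ : ∃ i r, r < 4 ∧ k = 4 * i + r := ⟨k / 4, k % 4, by omega, by omega⟩
  interval_cases r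
  · have h1 := low_bd i
    have h2 := mid_bd (2 * i)
    rw [show 2 * (2 * i) + 1 = 4 * i + 1 by ring] at h2
    constructor
    · intro _; omega
    · intro _
      simp only [add_zero]
      linarith
  · have h1 := high_bd i
    have h2 := mid_bd (2 * i)
    rw [show 2 * (2 * i) + 1 = 4 * i + 1 by ring] at h2
    constructor
    · intro _; omega
    · intro _
      rw [show 4 * i + 1 + 1 = 4 * i + 2 by ring]
      linarith
  · have h1 := high_bd i
    have h2 := mid_bd (2 * i + 1)
    rw [show 2 * (2 * i + 1) + 1 = 4 * i + 2 + 1 by ring] at h2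
    constructor
    · intro h; linarith
    · intro h; omega
  · have h1 := low_bd (i + 1)
    have h2 := mid_bd (2 * i + 1)
    rw [show 2 * (2 * i + 1) + 1 = 4 * i + 3 by ring] at h2
    rw [show 4 * (i + 1) = 4 * i + 3 + 1 by ring] at h1
    constructor
    · intro h; linarith
    · intro h; omega

/-- a sequence with the up-up-down-down pattern has only squares of length divisible by four -/
lemma sq_four {h : ℕ → ℚ} {n c i l : ℕ} (hup : ∀ k, k + 1 < n → (h k < h (k + 1) ↔
    ((k + c) % 4 = 0 ∨ (k + c) % 4 = 1))) (hl : 2 ≤ l) (hn : i + 2 * l ≤ n) (hs : Sq h i l) :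
    l % 4 = 0 := by
  have e0 := hs 0 (by omega) 1 (by omega)
  have u0 := hup i (by omega)
  have u1 := hup (i + l) (by omega)
  simp only [add_zero] at e0
  rw [u0, u1] at e0
  by_cases h2 : l = 2
  · subst h2; omega
  · have e1 := hs 1 (by omega) 2 (by omega)
    have v0 := hup (i + 1) (by omega)
    have v1 := hup (i + l + 1) (by omega)
    rw [show i + 2 = i + 1 + 1 by ring, show i + l + 2 = i + l + 1 + 1 by ring, v0, v1] at e1
    omega

lemma f_no_sq : ∀ l : ℕ, 2 ≤ l → ∀ i, ¬ Sq f i l := by
  intro l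
  induction l using Nat.strong_induction_on with
  | _ l ih =>
    intro hl i hs
    have h4 : l % 4 = 0 := by
      refine sq_four (n := i + 2 * l) (c := 0) ?_ hl le_rfl hs
      intro k _
      rw [add_zero]; exact f_up k
    obtain ⟨k, rfl⟩ : ∃ k, l = 4 * k := ⟨l / 4, by omega⟩
    obtain ⟨j, e, he, hj⟩ : ∃ j e, e < 2 ∧ i + e = 2 * j + 1 := by
      rcases Nat.even_or_odd' i with ⟨c, hc | hc⟩
      · exact ⟨c, 1, by omega, by omega⟩
      · exact ⟨c, 0, by omega, by omega⟩
    refine ih (2 * k) (by omega) (by omega) j ?_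
    intro a ha b hb
    have key := hs (e + 2 * a) (by omega) (e + 2 * b) (by omega)
    rw [show i + (e + 2 * a) = 2 * (j + a) + 1 by omega,
      show i + (e + 2 * b) = 2 * (j + b) + 1 by omega,
      show i + 4 * k + (e + 2 * a) = 2 * (j + 2 * k + a) + 1 by omega,
      show i + 4 * k + (e + 2 * b) = 2 * (j + 2 * k + b) + 1 by omega,
      f_odd, f_odd, f_odd, f_odd] at key
    constructor
    · intro h
      have := key.1 (by linarith)
      linarith
    · intro h
      have := key.2 (by linarith)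
      linarith

end Pool.Agent.J4.H42.SqFree
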