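import Pool.Agent.J4.H42.SqFree

set_option autoImplicit false

namespace Pool.Agent.J4.H42.SqFree

def P (k : ℕ) : ℚ := ([10, 17, 16, 11, 13, 15, 14, 12, 19, 20, 18] : List ℚ).getD k 0
def Q (k : ℕ) : ℚ := ([-18, -20, -19, -12, -14, -15, -13, -11, -16, -17, -10] : List ℚ).getD k 0

/-- the extremal sequence, `N` terms of `f` between the two ends -/
def g (N k : ℕ) : ℚ := if k < 11 then P k else if k < 11 + N then f (k - 11) else Q (k - 11 - N)

lemma P_bd {k : ℕ} (h : k < 11) : 10 ≤ P k := by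
  interval_cases k <;> norm_num [P]

lemma Q_bd {k : ℕ} (h : k < 11) : Q k ≤ -10 := by
  interval_cases k <;> norm_num [Q]

lemma gP {N k : ℕ} (h : k < 11) : g N k = P k := by
  unfold g; rw [if_pos h]

lemma gM {N j : ℕ} (h : j < N) : g N (11 + j) = f j := by
  unfold g
  rw [if_neg (by omega), if_pos (by omega)]
  congr 1
  omega

lemma gQ (N k : ℕ) : g N (11 + N + k) = Q k := by
  unfold g
  rw [if_neg (by omega), if_neg (by omega)]
  congr 1
  omega

lemma P_inj {a b : ℕ} (ha : a < 11) (hb : b < 11) (h : P a = P b) : a = b := by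
  interval_cases a <;> interval_cases b <;> first | rfl | (exfalso; norm_num [P] at h)

lemma Q_inj {a b : ℕ} (ha : a < 11) (hb : b < 11) (h : Q a = Q b) : a = b := by
  interval_cases a <;> interval_cases b <;> first | rfl | (exfalso; norm_num [Q] at h)

lemma casesg {N k : ℕ} (h : k < N + 22) :
    k < 11 ∨ (∃ j, j < N ∧ k = 11 + j) ∨ (∃ j, j < 11 ∧ k = 11 + N + j) := by
  by_cases h1 : k < 11
  · exact Or.inl h1
  · by_cases h2 : k < 11 + N
    · exact Or.inr (Or.inl ⟨k - 11, by omega, by omega⟩)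
    · exact Or.inr (Or.inr ⟨k - 11 - N, by omega, by omega⟩)

lemma g_inj {N a b : ℕ} (ha : a < N + 22) (hb : b < N + 22) (h : g N a = g N b) : a = b := by
  rcases casesg ha with h1 | ⟨i, hi, rfl⟩ | ⟨i, hi, rfl⟩ <;>
  rcases casesg hb with h2 | ⟨j, hj, rfl⟩ | ⟨j, hj, rfl⟩
  · rw [gP h1, gP h2] at h; exact P_inj h1 h2 h
  · rw [gP h1, gM hj] at h; have := P_bd h1; have := f_bd j; linarith
  · rw [gP h1, gQ] at h; have := P_bd h1; have := Q_bd hj; linarith
  · rw [gP h2, gM hi] at h; have := P_bd h2; have := f_bd i; linarith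
  · rw [gM hi, gM hj] at h; rw [f_inj i j h]
  · rw [gM hi, gQ] at h; have := f_bd i; have := Q_bd hj; linarith
  · rw [gP h2, gQ] at h; have := P_bd h2; have := Q_bd hi; linarith
  · rw [gM hj, gQ] at h; have := f_bd j; have := Q_bd hi; linarith
  · rw [gQ, gQ] at h; rw [Q_inj hi hj h]

lemma g_up {t k : ℕ} (h : k + 1 < 8 * t + 7 + 22) :
    g (8 * t + 7) k < g (8 * t + 7) (k + 1) ↔ ((k + 1) % 4 = 0 ∨ (k + 1) % 4 = 1) := by
  rcases casesg (show k < 8 * t + 7 + 22 by omega) with h1 | ⟨i, hi, rfl⟩ | ⟨i, hi, rfl⟩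
  · by_cases h2 : k = 10
    · subst h2
      rw [gP (by norm_num), show 10 + 1 = 11 + 0 by norm_num, gM (by omega)]
      have := P_bd (show 10 < 11 by norm_num)
      have := f_bd 0
      constructor
      · intro h; linarith
      · intro h; omega
    · rw [gP h1, gP (by omega)]
      have h3 : k < 10 := by omega
      interval_cases k <;> norm_num [P]
  · by_cases h2 : i + 1 = 8 * t + 7
    · rw [gM hi, show 11 + i + 1 = 11 + (8 * t + 7) + 0 by omega, gQ]
      have := Q_bd (show 0 < 11 by norm_num)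
      have := f_bd i
      constructor
      · intro h; linarith
      · intro h; omega
    · rw [gM hi, show 11 + i + 1 = 11 + (i + 1) by ring, gM (by omega), f_up]
      constructor <;> intro h <;> omega
  · rw [gQ, show 11 + (8 * t + 7) + i + 1 = 11 + (8 * t + 7) + (i + 1) by ring, gQ]
    have h3 : i < 10 := by omega
    interval_cases i <;> norm_num [Q] <;> omega

/-- values near the ends of the middle part -/
lemma f0 : f 0 = -2 := by have := f_low 0; norm_num at this; exact this
lemma f1 : f 1 = -2 / 3 := by have := f_odd 0; rw [f0] at this; norm_num at this; rw [this]; norm_num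
lemma f2 : f 2 = 1 := by have := f_high 0; norm_num at this; exact this
lemma f3 : f 3 = -2 / 9 := by have := f_odd 1; rw [f1] at this; norm_num at this; rw [this]; norm_num
lemma f4 : f 4 = -3 / 2 := by have := f_low 1; norm_num at this; rw [this]; norm_num
lemma f5 : f 5 = 1 / 3 := by have := f_odd 2; rw [f2] at this; norm_num at this; rw [this]
lemma f6 : f 6 = 3 / 2 := by have := f_high 1; norm_num at this; rw [this]

lemma low_mid {a b : ℕ} (ha : a % 4 = 0) (hb : b % 2 = 1) : f a < f b := by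
  obtain ⟨i, rfl⟩ : ∃ i, a = 4 * i := ⟨a / 4, by omega⟩
  obtain ⟨j, rfl⟩ : ∃ j, b = 2 * j + 1 := ⟨b / 2, by omega⟩
  have := low_bd i; have := mid_bd j; linarith

lemma mid_high {a b : ℕ} (ha : a % 2 = 1) (hb : b % 4 = 2) : f a < f b := by
  obtain ⟨i, rfl⟩ : ∃ i, a = 2 * i + 1 := ⟨a / 2, by omega⟩
  obtain ⟨j, rfl⟩ : ∃ j, b = 4 * j + 2 := ⟨b / 4, by omega⟩
  have := high_bd j; have := mid_bd i; linarith

lemma low_low {a b : ℕ} (ha : a % 4 = 0) (hb : b % 4 = 0) (h : a < b) : f a < f b := by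
  obtain ⟨i, rfl⟩ : ∃ i, a = 4 * i := ⟨a / 4, by omega⟩
  obtain ⟨j, rfl⟩ : ∃ j, b = 4 * j := ⟨b / 4, by omega⟩
  exact low_lt (by omega)

lemma high_high {a b : ℕ} (ha : a % 4 = 2) (hb : b % 4 = 2) (h : a < b) : f a < f b := by
  obtain ⟨i, rfl⟩ : ∃ i, a = 4 * i + 2 := ⟨a / 4, by omega⟩
  obtain ⟨j, rfl⟩ : ∃ j, b = 4 * j + 2 := ⟨b / 4, by omega⟩
  exact high_lt (by omega)

/-- order of the last terms of the middle part -/
lemma last_facts (t : ℕ) : f (8 * t + 4) < f (8 * t + 3) ∧ f (8 * t + 3) < f (8 * t + 5) ∧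
    f (8 * t + 5) < f (8 * t + 2) ∧ f (8 * t + 2) < f (8 * t + 6) ∧
    f (8 * t + 1) < f (8 * t + 3) := by
  refine ⟨low_mid (by omega) (by omega), ?_, mid_high (by omega) (by omega),
    high_high (by omega) (by omega) (by omega), ?_⟩
  · rw [show 8 * t + 3 = 2 * (4 * t + 1) + 1 by ring, show 8 * t + 5 = 2 * (4 * t + 2) + 1 by ring,
      f_odd, f_odd]
    have := mid_high (a := 4 * t + 1) (b := 4 * t + 2) (by omega) (by omega)
    linarith
  · rw [show 8 * t + 1 = 2 * (4 * t) + 1 by ring, show 8 * t + 3 = 2 * (4 * t + 1) + 1 by ring,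
      f_odd, f_odd]
    have := low_mid (a := 4 * t) (b := 4 * t + 1) (by omega) (by omega)
    linarith

/-- comparison of a value of the left end with a value of the middle part -/
lemma P_gt {N a b : ℕ} (ha : a < 11) (hb : 11 ≤ b) (hb' : b < 11 + N) : g N b < g N a := by
  obtain ⟨j, rfl⟩ : ∃ j, b = 11 + j := ⟨b - 11, by omega⟩
  rw [gP ha, gM (by omega)]
  have := P_bd ha; have := f_bd j; linarith

lemma Q_lt {N a b : ℕ} (ha : a < 11) (hb : 11 ≤ b) (hb' : b < 11 + N) :
    g N (11 + N + a) < g N b := by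
  obtain ⟨j, rfl⟩ : ∃ j, b = 11 + j := ⟨b - 11, by omega⟩
  rw [gQ, gM (by omega)]
  have := Q_bd ha; have := f_bd j; linarith

lemma contra {h : ℕ → ℚ} {i l a b : ℕ} (hs : Sq h i l) (ha : a < l) (hb : b < l)
    (h1 : h (i + b) < h (i + a)) (h2 : h (i + l + a) < h (i + l + b)) : False := by
  have := (hs a ha b hb).2 h2
  linarith

lemma contra' {h : ℕ → ℚ} {i l a b : ℕ} (hs : Sq h i l) (ha : a < l) (hb : b < l)
    (h1 : h (i + a) < h (i + b)) (h2 : h (i + l + b) < h (i + l + a)) : False := by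
  have := (hs a ha b hb).1 h1
  linarith

/-- the first values -/
lemma gval {N : ℕ} (hN : 7 ≤ N) : g N 0 = 10 ∧ g N 1 = 17 ∧ g N 2 = 16 ∧ g N 3 = 11 ∧ g N 4 = 13 ∧
    g N 5 = 15 ∧ g N 6 = 14 ∧ g N 7 = 12 ∧ g N 8 = 19 ∧ g N 9 = 20 ∧ g N 10 = 18 ∧ g N 11 = -2 ∧
    g N 12 = -2 / 3 ∧ g N 13 = 1 ∧ g N 14 = -2 / 9 ∧ g N 15 = -3 / 2 ∧ g N 16 = 1 / 3 ∧
    g N 17 = 3 / 2 := by
  refine ⟨?_, ?_, ?_, ?_, ?_, ?_, ?_, ?_, ?_, ?_, ?_, ?_, ?_, ?_, ?_, ?_, ?_, ?_⟩
  · rw [gP (by norm_num)]; rfl
  · rw [gP (by norm_num)]; rfl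
  · rw [gP (by norm_num)]; rfl
  · rw [gP (by norm_num)]; rfl
  · rw [gP (by norm_num)]; rfl
  · rw [gP (by norm_num)]; rfl
  · rw [gP (by norm_num)]; rfl
  · rw [gP (by norm_num)]; rfl
  · rw [gP (by norm_num)]; rfl
  · rw [gP (by norm_num)]; rfl
  · rw [gP (by norm_num)]; rfl
  · rw [show 11 = 11 + 0 by norm_num, gM (by omega), f0]
  · rw [show 12 = 11 + 1 by norm_num, gM (by omega), f1]
  · rw [show 13 = 11 + 2 by norm_num, gM (by omega), f2]
  · rw [show 14 = 11 + 3 by norm_num, gM (by omega), f3]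
  · rw [show 15 = 11 + 4 by norm_num, gM (by omega), f4]
  · rw [show 16 = 11 + 5 by norm_num, gM (by omega), f5]
  · rw [show 17 = 11 + 6 by norm_num, gM (by omega), f6]

/-- the left end: squares that start before the middle part -/
lemma left_no_sq {t k i : ℕ} (ht : 2 ≤ t) (hk : 1 ≤ k) (hi : i < 11)
    (hn : i + 2 * (4 * k) ≤ 8 * t + 7 + 22) : ¬ Sq (g (8 * t + 7)) i (4 * k) := by
  intro hs
  have MM : ∀ {x y : ℕ}, 11 ≤ x → x < 11 + (8 * t + 7) → 11 ≤ y → y < 11 + (8 * t + 7) →
      f (x - 11) < f (y - 11) → g (8 * t + 7) x < g (8 * t + 7) y := by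
    intro x y h1 h2 h3 h4 h5
    obtain ⟨a, rfl⟩ : ∃ a, x = 11 + a := ⟨x - 11, by omega⟩
    obtain ⟨b, rfl⟩ : ∃ b, y = 11 + b := ⟨y - 11, by omega⟩
    rw [gM (by omega), gM (by omega)]
    rwa [show 11 + a - 11 = a by omega, show 11 + b - 11 = b by omega] at h5
  obtain ⟨v0, v1, v2, v3, v4, v5, v6, v7, v8, v9, v10, v11, v12, v13, v14, v15, v16, v17⟩ :=
    gval (N := 8 * t + 7) (by omega)
  by_cases h1 : i + 4 * k ≤ 11
  · -- first half inside the left end
    have hk2 : k ≤ 2 := by omega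
    interval_cases k
    · have hi2 : i < 8 := by omega
      interval_cases i
      · refine contra' hs (a := 0) (b := 3) (by norm_num) (by norm_num) ?_ ?_ <;> norm_num [v0, v1, v2, v3, v4, v5, v6, v7, v8, v9, v10, v11, v12, v13, v14, v15, v16, v17]
      · refine contra hs (a := 0) (b := 3) (by norm_num) (by norm_num) ?_ ?_ <;> norm_num [v0, v1, v2, v3, v4, v5, v6, v7, v8, v9, v10, v11, v12, v13, v14, v15, v16, v17]
      · refine contra hs (a := 0) (b := 2) (by norm_num) (by norm_num) ?_ ?_ <;> norm_num [v0, v1, v2, v3, v4, v5, v6, v7, v8, v9, v10, v11, v12, v13, v14, v15, v16, v17]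
      · refine contra' hs (a := 1) (b := 3) (by norm_num) (by norm_num) ?_ ?_ <;> norm_num [v0, v1, v2, v3, v4, v5, v6, v7, v8, v9, v10, v11, v12, v13, v14, v15, v16, v17]
      · refine contra' hs (a := 0) (b := 2) (by norm_num) (by norm_num) ?_ ?_ <;> norm_num [v0, v1, v2, v3, v4, v5, v6, v7, v8, v9, v10, v11, v12, v13, v14, v15, v16, v17]
      · refine contra' hs (a := 0) (b := 3) (by norm_num) (by norm_num) ?_ ?_ <;> norm_num [v0, v1, v2, v3, v4, v5, v6, v7, v8, v9, v10, v11, v12, v13, v14, v15, v16, v17]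
      · refine contra' hs (a := 0) (b := 2) (by norm_num) (by norm_num) ?_ ?_ <;> norm_num [v0, v1, v2, v3, v4, v5, v6, v7, v8, v9, v10, v11, v12, v13, v14, v15, v16, v17]
      · refine contra hs (a := 1) (b := 3) (by norm_num) (by norm_num) ?_ ?_ <;> norm_num [v0, v1, v2, v3, v4, v5, v6, v7, v8, v9, v10, v11, v12, v13, v14, v15, v16, v17]
    · have hi2 : i < 4 := by omega
      interval_cases i
      · refine contra' hs (a := 0) (b := 2) (by norm_num) (by norm_num) ?_ ?_ <;> norm_num [v0, v1, v2, v3, v4, v5, v6, v7, v8, v9, v10, v11, v12, v13, v14, v15, v16, v17]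
      · refine contra' hs (a := 0) (b := 7) (by norm_num) (by norm_num) ?_ ?_ <;> norm_num [v0, v1, v2, v3, v4, v5, v6, v7, v8, v9, v10, v11, v12, v13, v14, v15, v16, v17]
      · refine contra' hs (a := 0) (b := 6) (by norm_num) (by norm_num) ?_ ?_ <;> norm_num [v0, v1, v2, v3, v4, v5, v6, v7, v8, v9, v10, v11, v12, v13, v14, v15, v16, v17]
      · refine contra' hs (a := 2) (b := 5) (by norm_num) (by norm_num) ?_ ?_ <;> norm_num [v0, v1, v2, v3, v4, v5, v6, v7, v8, v9, v10, v11, v12, v13, v14, v15, v16, v17]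

  · by_cases h2 : 14 ≤ i + 4 * k
    · -- a high term of the middle part is seen
      refine contra hs (a := 10 - i) (b := 13 - i) (by omega) (by omega) ?_ ?_
      · rw [show i + (10 - i) = 10 by omega, show i + (13 - i) = 13 by omega]
        exact P_gt (by norm_num) (by norm_num) (by omega)
      · refine MM (by omega) (by omega) (by omega) (by omega) (mid_high (by omega) (by omega))
    · by_cases h3 : i + 4 * k = 12
      · by_cases h4 : k = 1
        · subst h4
          have hi8 : i = 8 := by omega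
          subst hi8
          refine contra hs (a := 0) (b := 2) (by norm_num) (by norm_num) ?_ ?_ <;>
            norm_num [v8, v10, v12, v14]
        · refine contra hs (a := 7 - i) (b := 11 - i) (by omega) (by omega) ?_ ?_
          · rw [show i + (7 - i) = 7 by omega, show i + (11 - i) = 11 by omega]
            exact P_gt (by norm_num) (by norm_num) (by omega)
          · refine MM (by omega) (by omega) (by omega) (by omega)
              (low_low (by omega) (by omega) (by omega))
      · have h5 : i + 4 * k = 13 := by omega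
        by_cases h4 : k = 1
        · subst h4
          have hi8 : i = 9 := by omega
          subst hi8
          refine contra hs (a := 1) (b := 3) (by norm_num) (by norm_num) ?_ ?_ <;>
            norm_num [v10, v12, v14, v16]
        · refine contra hs (a := 7 - i) (b := 12 - i) (by omega) (by omega) ?_ ?_
          · rw [show i + (7 - i) = 7 by omega, show i + (12 - i) = 12 by omega]
            exact P_gt (by norm_num) (by norm_num) (by omega)
          · refine MM (by omega) (by omega) (by omega) (by omega)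
              (low_mid (by omega) (by omega))

end Pool.Agent.J4.H42.SqFree
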