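import Pool.Agent.J4.H42.SqFree2

set_option autoImplicit false

namespace Pool.Agent.J4.H42.SqFree

lemma gQval (t : ℕ) : g (8 * t + 7) (8 * t + 18) = -18 ∧ g (8 * t + 7) (8 * t + 19) = -20 ∧
    g (8 * t + 7) (8 * t + 20) = -19 ∧ g (8 * t + 7) (8 * t + 21) = -12 ∧
    g (8 * t + 7) (8 * t + 22) = -14 ∧ g (8 * t + 7) (8 * t + 23) = -15 ∧
    g (8 * t + 7) (8 * t + 24) = -13 ∧ g (8 * t + 7) (8 * t + 25) = -11 ∧
    g (8 * t + 7) (8 * t + 26) = -16 ∧ g (8 * t + 7) (8 * t + 27) = -17 ∧
    g (8 * t + 7) (8 * t + 28) = -10 := by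
  have key : ∀ j, g (8 * t + 7) (8 * t + 18 + j) = Q j := by
    intro j
    rw [← gQ (8 * t + 7) j]
    congr 1
    omega
  exact ⟨key 0, key 1, key 2, key 3, key 4, key 5, key 6, key 7, key 8, key 9, key 10⟩

/-- the right end: squares that end after the middle part -/
lemma right_no_sq {t k i : ℕ} (ht : 2 ≤ t) (hk : 1 ≤ k) (hi : 11 ≤ i)
    (hi2 : 8 * t + 18 < i + 2 * (4 * k))
    (hn : i + 2 * (4 * k) ≤ 8 * t + 7 + 22) : ¬ Sq (g (8 * t + 7)) i (4 * k) := by
  intro hs
  have MM : ∀ {x y : ℕ}, 11 ≤ x → x < 11 + (8 * t + 7) → 11 ≤ y → y < 11 + (8 * t + 7) →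
      f (x - 11) < f (y - 11) → g (8 * t + 7) x < g (8 * t + 7) y := by
    intro x y h1 h2 h3 h4 h5
    obtain ⟨a, rfl⟩ : ∃ a, x = 11 + a := ⟨x - 11, by omega⟩
    obtain ⟨b, rfl⟩ : ∃ b, y = 11 + b := ⟨y - 11, by omega⟩
    rw [gM (by omega), gM (by omega)]
    rwa [show 11 + a - 11 = a by omega, show 11 + b - 11 = b by omega] at h5
  have bM : ∀ x, 11 ≤ x → x < 11 + (8 * t + 7) → -2 ≤ g (8 * t + 7) x ∧ g (8 * t + 7) x ≤ 2 := by
    intro x h1 h2
    obtain ⟨a, rfl⟩ : ∃ a, x = 11 + a := ⟨x - 11, by omega⟩
    rw [gM (by omega)]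
    exact f_bd a
  obtain ⟨w18, w19, w20, w21, w22, w23, w24, w25, w26, w27, w28⟩ := gQval t
  obtain ⟨e, he⟩ : ∃ e, i + 2 * (4 * k) = 8 * t + 18 + e := ⟨i + 2 * (4 * k) - (8 * t + 18), by omega⟩
  have he2 : e < 12 := by omega
  by_cases h1 : 8 * t + 18 ≤ i + 4 * k
  · have hk2 : k ≤ 2 := by omega
    interval_cases k
    · have he3 : 4 ≤ e := by omega
      interval_cases e
      · obtain rfl : i = 8 * t + 14 := by omega
        refine contra' hs (a := 0) (b := 2) (by norm_num) (by norm_num) ?_ ?_
        · show g (8 * t + 7) (8 * t + 14) < g (8 * t + 7) (8 * t + 16); exact MM (by omega) (by omega) (by omega) (by omega) (by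
            rw [show 8 * t + 14 - 11 = 8 * t + 3 by omega, show 8 * t + 16 - 11 = 8 * t + 5 by omega]
            exact (last_facts t).2.1)
        · show g (8 * t + 7) (8 * t + 20) < g (8 * t + 7) (8 * t + 18); rw [w20, w18]; norm_num
      · obtain rfl : i = 8 * t + 15 := by omega
        refine contra hs (a := 0) (b := 3) (by norm_num) (by norm_num) ?_ ?_
        · show g (8 * t + 7) (8 * t + 18) < g (8 * t + 7) (8 * t + 15); rw [w18]; linarith [(bM (8 * t + 15) (by omega) (by omega)).1]
        · show g (8 * t + 7) (8 * t + 19) < g (8 * t + 7) (8 * t + 22); rw [w19, w22]; norm_num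
      · obtain rfl : i = 8 * t + 16 := by omega
        refine contra hs (a := 0) (b := 2) (by norm_num) (by norm_num) ?_ ?_
        · show g (8 * t + 7) (8 * t + 18) < g (8 * t + 7) (8 * t + 16); rw [w18]; linarith [(bM (8 * t + 16) (by omega) (by omega)).1]
        · show g (8 * t + 7) (8 * t + 20) < g (8 * t + 7) (8 * t + 22); rw [w20, w22]; norm_num
      · obtain rfl : i = 8 * t + 17 := by omega
        refine contra hs (a := 1) (b := 3) (by norm_num) (by norm_num) ?_ ?_
        · show g (8 * t + 7) (8 * t + 20) < g (8 * t + 7) (8 * t + 18); rw [w20, w18]; norm_num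
        · show g (8 * t + 7) (8 * t + 22) < g (8 * t + 7) (8 * t + 24); rw [w22, w24]; norm_num
      · obtain rfl : i = 8 * t + 18 := by omega
        refine contra hs (a := 0) (b := 2) (by norm_num) (by norm_num) ?_ ?_
        · show g (8 * t + 7) (8 * t + 20) < g (8 * t + 7) (8 * t + 18); rw [w20, w18]; norm_num
        · show g (8 * t + 7) (8 * t + 22) < g (8 * t + 7) (8 * t + 24); rw [w22, w24]; norm_num
      · obtain rfl : i = 8 * t + 19 := by omega
        refine contra' hs (a := 0) (b := 3) (by norm_num) (by norm_num) ?_ ?_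
        · show g (8 * t + 7) (8 * t + 19) < g (8 * t + 7) (8 * t + 22); rw [w19, w22]; norm_num
        · show g (8 * t + 7) (8 * t + 26) < g (8 * t + 7) (8 * t + 23); rw [w26, w23]; norm_num
      · obtain rfl : i = 8 * t + 20 := by omega
        refine contra' hs (a := 0) (b := 2) (by norm_num) (by norm_num) ?_ ?_
        · show g (8 * t + 7) (8 * t + 20) < g (8 * t + 7) (8 * t + 22); rw [w20, w22]; norm_num
        · show g (8 * t + 7) (8 * t + 26) < g (8 * t + 7) (8 * t + 24); rw [w26, w24]; norm_num
      · obtain rfl : i = 8 * t + 21 := by omega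
        refine contra hs (a := 0) (b := 3) (by norm_num) (by norm_num) ?_ ?_
        · show g (8 * t + 7) (8 * t + 24) < g (8 * t + 7) (8 * t + 21); rw [w24, w21]; norm_num
        · show g (8 * t + 7) (8 * t + 25) < g (8 * t + 7) (8 * t + 28); rw [w25, w28]; norm_num
    · have he3 : 8 ≤ e := by omega
      interval_cases e
      · obtain rfl : i = 8 * t + 10 := by omega
        refine contra hs (a := 0) (b := 5) (by norm_num) (by norm_num) ?_ ?_
        · show g (8 * t + 7) (8 * t + 15) < g (8 * t + 7) (8 * t + 10); exact MM (by omega) (by omega) (by omega) (by omega) (low_mid (by omega) (by omega))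
        · show g (8 * t + 7) (8 * t + 18) < g (8 * t + 7) (8 * t + 23); rw [w18, w23]; norm_num
      · obtain rfl : i = 8 * t + 11 := by omega
        refine contra hs (a := 0) (b := 7) (by norm_num) (by norm_num) ?_ ?_
        · show g (8 * t + 7) (8 * t + 18) < g (8 * t + 7) (8 * t + 11); rw [w18]; linarith [(bM (8 * t + 11) (by omega) (by omega)).1]
        · show g (8 * t + 7) (8 * t + 19) < g (8 * t + 7) (8 * t + 26); rw [w19, w26]; norm_num
      · obtain rfl : i = 8 * t + 12 := by omega
        refine contra hs (a := 0) (b := 6) (by norm_num) (by norm_num) ?_ ?_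
        · show g (8 * t + 7) (8 * t + 18) < g (8 * t + 7) (8 * t + 12); rw [w18]; linarith [(bM (8 * t + 12) (by omega) (by omega)).1]
        · show g (8 * t + 7) (8 * t + 20) < g (8 * t + 7) (8 * t + 26); rw [w20, w26]; norm_num
      · obtain rfl : i = 8 * t + 13 := by omega
        refine contra hs (a := 0) (b := 7) (by norm_num) (by norm_num) ?_ ?_
        · show g (8 * t + 7) (8 * t + 20) < g (8 * t + 7) (8 * t + 13); rw [w20]; linarith [(bM (8 * t + 13) (by omega) (by omega)).1]
        · show g (8 * t + 7) (8 * t + 21) < g (8 * t + 7) (8 * t + 28); rw [w21, w28]; norm_num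

  · by_cases h2 : e + 3 ≤ 4 * k
    · refine contra' hs (a := 4 * k - e - 3) (b := 4 * k - e) (by omega) (by omega) ?_ ?_
      · exact MM (by omega) (by omega) (by omega) (by omega) (low_mid (by omega) (by omega))
      · rw [show i + 4 * k + (4 * k - e) = 11 + (8 * t + 7) + 0 by omega]
        exact Q_lt (by norm_num) (by omega) (by omega)
    · by_cases h3 : e + 1 = 4 * k
      · by_cases h4 : k = 1
        · subst h4
          obtain rfl : i = 8 * t + 13 := by omega
          refine contra' hs (a := 1) (b := 3) (by norm_num) (by norm_num) ?_ ?_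
          · show g (8 * t + 7) (8 * t + 14) < g (8 * t + 7) (8 * t + 16)
            exact MM (by omega) (by omega) (by omega) (by omega) (by
              rw [show 8 * t + 14 - 11 = 8 * t + 3 by omega, show 8 * t + 16 - 11 = 8 * t + 5 by omega]
              exact (last_facts t).2.1)
          · show g (8 * t + 7) (8 * t + 20) < g (8 * t + 7) (8 * t + 18)
            rw [w20, w18]; norm_num
        · refine contra' hs (a := 0) (b := 4) (by omega) (by omega) ?_ ?_
          · exact MM (by omega) (by omega) (by omega) (by omega)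
              (high_high (by omega) (by omega) (by omega))
          · rw [show i + 4 * k + 4 = 11 + (8 * t + 7) + 3 by omega]
            exact Q_lt (by norm_num) (by omega) (by omega)
      · have h5 : e + 2 = 4 * k := by omega
        by_cases h4 : k = 1
        · subst h4
          obtain rfl : i = 8 * t + 12 := by omega
          refine contra' hs (a := 0) (b := 2) (by norm_num) (by norm_num) ?_ ?_
          · show g (8 * t + 7) (8 * t + 12) < g (8 * t + 7) (8 * t + 14)
            exact MM (by omega) (by omega) (by omega) (by omega) (by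
              rw [show 8 * t + 12 - 11 = 8 * t + 1 by omega, show 8 * t + 14 - 11 = 8 * t + 3 by omega]
              exact (last_facts t).2.2.2.2)
          · show g (8 * t + 7) (8 * t + 18) < g (8 * t + 7) (8 * t + 16)
            rw [w18]; linarith [(bM (8 * t + 16) (by omega) (by omega)).1]
        · refine contra' hs (a := 0) (b := 5) (by omega) (by omega) ?_ ?_
          · exact MM (by omega) (by omega) (by omega) (by omega)
              (mid_high (by omega) (by omega))
          · rw [show i + 4 * k + 5 = 11 + (8 * t + 7) + 3 by omega]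
            exact Q_lt (by norm_num) (by omega) (by omega)

/-- the whole sequence has no squares -/
theorem g_no_sq {t l i : ℕ} (ht : 2 ≤ t) (hl : 2 ≤ l) (hn : i + 2 * l ≤ 8 * t + 7 + 22) :
    ¬ Sq (g (8 * t + 7)) i l := by
  intro hs
  have h4 : l % 4 = 0 := sq_four (n := 8 * t + 7 + 22) (c := 1) (fun k hk => g_up hk) hl hn hs
  obtain ⟨k, rfl⟩ : ∃ k, l = 4 * k := ⟨l / 4, by omega⟩
  by_cases h1 : i < 11
  · exact left_no_sq ht (by omega) h1 hn hs
  · by_cases h2 : 8 * t + 18 < i + 2 * (4 * k)
    · exact right_no_sq ht (by omega) (by omega) h2 hn hs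
    · refine f_no_sq (4 * k) hl (i - 11) ?_
      intro a ha b hb
      have key := hs a ha b hb
      rw [show i + a = 11 + (i - 11 + a) by omega, show i + b = 11 + (i - 11 + b) by omega,
        show i + 4 * k + a = 11 + (i - 11 + 4 * k + a) by omega,
        show i + 4 * k + b = 11 + (i - 11 + 4 * k + b) by omega,
        gM (by omega), gM (by omega), gM (by omega), gM (by omega)] at key
      exact key

end Pool.Agent.J4.H42.SqFree
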