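import Pool.Agent.J4.H42.SqFree3

set_option autoImplicit false

namespace Pool.Agent.J4.H42.SqFree

/-- the sequence `h` with `x` inserted at slot `p` -/
def ins (h : ℕ → ℚ) (p : ℕ) (x : ℚ) (k : ℕ) : ℚ := if k < p then h k else if k = p then x else h (k - 1)

lemma ins_lt {h : ℕ → ℚ} {p k : ℕ} {x : ℚ} (hk : k < p) : ins h p x k = h k := by
  unfold ins; rw [if_pos hk]
lemma ins_eq {h : ℕ → ℚ} {p : ℕ} {x : ℚ} : ins h p x p = x := by
  unfold ins; rw [if_neg (by omega), if_pos rfl]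
lemma ins_gt {h : ℕ → ℚ} {p k : ℕ} {x : ℚ} (hk : p ≤ k) : ins h p x (k + 1) = h k := by
  unfold ins; rw [if_neg (by omega), if_neg (by omega)]; rfl

lemma sq2 {h : ℕ → ℚ} {i : ℕ} (h0 : h i ≠ h (i + 1)) (h1 : h (i + 2) ≠ h (i + 3))
    (h2 : h i < h (i + 1) ↔ h (i + 2) < h (i + 3)) : Sq h i 2 := by
  intro a ha b hb
  interval_cases a <;> interval_cases b
  · simp
  · exact h2
  · rw [show i + 2 + 1 = i + 3 by ring]
    simp only [add_zero]
    constructor
    · intro h3
      by_contra h4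
      have h5 : h (i + 2) < h (i + 3) := lt_of_le_of_ne (not_lt.1 h4) h1
      have := h2.2 h5
      linarith
    · intro h3
      by_contra h4
      have h5 : h i < h (i + 1) := lt_of_le_of_ne (not_lt.1 h4) h0
      have := h2.1 h5
      linarith
  · simp

/-- a square given by two lists of values in the same order -/
lemma sq_of {h : ℕ → ℚ} {i l : ℕ} (A B : ℕ → ℚ) (hA : ∀ a < l, h (i + a) = A a)
    (hB : ∀ a < l, h (i + l + a) = B a)
    (hAB : ∀ a < l, ∀ b < l, (A a < A b ↔ B a < B b)) : Sq h i l := by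
  intro a ha b hb
  rw [hA a ha, hA b hb, hB a ha, hB b hb]
  exact hAB a ha b hb

section interior

lemma interior {t q : ℕ} {x : ℚ} (hq : q + 6 ≤ 8 * t + 7 + 22)
    (hx : ∀ k < 8 * t + 7 + 22, g (8 * t + 7) k ≠ x) :
    ∃ i, i + 2 * 2 ≤ 8 * t + 7 + 22 + 1 ∧ Sq (ins (g (8 * t + 7)) (q + 3) x) i 2 := by
  have e0 : ins (g (8 * t + 7)) (q + 3) x q = g (8 * t + 7) q := ins_lt (by omega)
  have e1 : ins (g (8 * t + 7)) (q + 3) x (q + 1) = g (8 * t + 7) (q + 1) := ins_lt (by omega)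
  have e2 : ins (g (8 * t + 7)) (q + 3) x (q + 2) = g (8 * t + 7) (q + 2) := ins_lt (by omega)
  have e3 : ins (g (8 * t + 7)) (q + 3) x (q + 3) = x := ins_eq
  have e4 : ins (g (8 * t + 7)) (q + 3) x (q + 4) = g (8 * t + 7) (q + 3) := ins_gt (by omega)
  have e5 : ins (g (8 * t + 7)) (q + 3) x (q + 5) = g (8 * t + 7) (q + 4) := ins_gt (by omega)
  have e6 : ins (g (8 * t + 7)) (q + 3) x (q + 6) = g (8 * t + 7) (q + 5) := ins_gt (by omega)
  have ne : ∀ a b, a < 8 * t + 7 + 22 → b < 8 * t + 7 + 22 → a ≠ b →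
      g (8 * t + 7) a ≠ g (8 * t + 7) b := fun a b ha hb hab he => hab (g_inj ha hb he)
  have u0 := g_up (t := t) (k := q) (by omega)
  have u1 := g_up (t := t) (k := q + 1) (by omega)
  have u3 := g_up (t := t) (k := q + 3) (by omega)
  have u4 := g_up (t := t) (k := q + 4) (by omega)
  by_contra hcon
  push Not at hcon
  have c0 : ¬ (g (8 * t + 7) q < g (8 * t + 7) (q + 1) ↔ g (8 * t + 7) (q + 2) < x) := by
    intro hh
    refine hcon q (by omega) (sq2 ?_ ?_ ?_)
    · rw [e0, e1]; exact ne _ _ (by omega) (by omega) (by omega)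
    · rw [e2, e3]; exact hx _ (by omega)
    · rw [e0, e1, e2, e3]; exact hh
  have c1 : ¬ (g (8 * t + 7) (q + 1) < g (8 * t + 7) (q + 2) ↔ x < g (8 * t + 7) (q + 3)) := by
    intro hh
    refine hcon (q + 1) (by omega) (sq2 ?_ ?_ ?_)
    · rw [e1, show q + 1 + 1 = q + 2 by ring, e2]; exact ne _ _ (by omega) (by omega) (by omega)
    · rw [show q + 1 + 2 = q + 3 by ring, show q + 1 + 3 = q + 4 by ring, e3, e4]
      exact (hx _ (by omega)).symm
    · rw [show q + 1 + 2 = q + 3 by ring, show q + 1 + 3 = q + 4 by ring,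
        show q + 1 + 1 = q + 2 by ring, e1, e2, e3, e4]; exact hh
  have c2 : ¬ (g (8 * t + 7) (q + 2) < x ↔ g (8 * t + 7) (q + 3) < g (8 * t + 7) (q + 4)) := by
    intro hh
    refine hcon (q + 2) (by omega) (sq2 ?_ ?_ ?_)
    · rw [show q + 2 + 1 = q + 3 by ring, e2, e3]; exact hx _ (by omega)
    · rw [show q + 2 + 2 = q + 4 by ring, show q + 2 + 3 = q + 5 by ring, e4, e5]
      exact ne _ _ (by omega) (by omega) (by omega)
    · rw [show q + 2 + 2 = q + 4 by ring, show q + 2 + 3 = q + 5 by ring,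
        show q + 2 + 1 = q + 3 by ring, e2, e3, e4, e5]; exact hh
  have c3 : ¬ (x < g (8 * t + 7) (q + 3) ↔ g (8 * t + 7) (q + 4) < g (8 * t + 7) (q + 5)) := by
    intro hh
    refine hcon (q + 3) (by omega) (sq2 ?_ ?_ ?_)
    · rw [show q + 3 + 1 = q + 4 by ring, e3, e4]; exact (hx _ (by omega)).symm
    · rw [show q + 3 + 2 = q + 5 by ring, show q + 3 + 3 = q + 6 by ring, e5, e6]
      exact ne _ _ (by omega) (by omega) (by omega)
    · rw [show q + 3 + 2 = q + 5 by ring, show q + 3 + 3 = q + 6 by ring,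
        show q + 3 + 1 = q + 4 by ring, e3, e4, e5, e6]; exact hh
  rw [u0] at c0
  rw [show q + 1 + 1 = q + 2 by ring] at u1
  rw [show q + 3 + 1 = q + 4 by ring] at u3
  rw [show q + 4 + 1 = q + 5 by ring] at u4
  rw [u1] at c1
  rw [u3] at c2
  rw [u4] at c3
  by_cases a1 : g (8 * t + 7) (q + 2) < x <;> by_cases a2 : x < g (8 * t + 7) (q + 3) <;>
    simp only [a1, a2, iff_true, iff_false, true_iff, false_iff, not_not] at c0 c1 c2 c3 <;> omega

end interior

end Pool.Agent.J4.H42.SqFree
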