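import Pool.Agent.J4.H42.SqFree4

set_option autoImplicit false

namespace Pool.Agent.J4.H42.SqFree

/-- insertion near the left end -/
lemma left_ins {t p : ℕ} {x : ℚ} (hp : p ≤ 2)
    (hx : ∀ k < 8 * t + 7 + 22, g (8 * t + 7) k ≠ x) :
    ∃ i l, 2 ≤ l ∧ i + 2 * l ≤ 8 * t + 7 + 22 + 1 ∧ Sq (ins (g (8 * t + 7)) p x) i l := by
  obtain ⟨v0, v1, v2, v3, v4, v5, v6, v7, v8, v9, v10, v11, v12, v13, v14, v15, v16, v17⟩ :=
    gval (N := 8 * t + 7) (by omega)
  have x0 := hx 0 (by omega)
  have x1 := hx 1 (by omega)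
  have x2 := hx 2 (by omega)
  rw [v0] at x0
  rw [v1] at x1
  rw [v2] at x2
  interval_cases p
  · rcases lt_or_gt_of_ne x0 with h | h
    · -- `10 < x`
      refine ⟨0, 2, le_rfl, by omega, sq2 ?_ ?_ ?_⟩ <;> norm_num [ins, v0, v1, v2]
      · exact h.ne'
      · exact h.le
    · refine ⟨0, 4, by norm_num, by omega, ?_⟩
      intro a ha b hb
      interval_cases a <;> interval_cases b <;> norm_num [ins, v0, v1, v2, v3, v4, v5, v6] <;>
        linarith
  · rcases lt_or_gt_of_ne x0 with h | h
    · rcases lt_or_gt_of_ne x1 with h' | h'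
      · refine ⟨1, 2, le_rfl, by omega, sq2 ?_ ?_ ?_⟩ <;> norm_num [ins, v0, v1, v2, v3]
        · exact h'.ne'
        · exact h'.le
      · rcases lt_or_gt_of_ne x2 with h'' | h''
        · refine ⟨1, 8, by norm_num, by omega, ?_⟩
          intro a ha b hb
          interval_cases a <;> interval_cases b <;>
            norm_num [ins, v0, v1, v2, v3, v4, v5, v6, v7, v8, v9, v10, v11, v12, v13, v14, v15] <;>
            linarith
        · refine ⟨0, 4, by norm_num, by omega, ?_⟩
          intro a ha b hb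
          interval_cases a <;> interval_cases b <;> norm_num [ins, v0, v1, v2, v3, v4, v5, v6] <;>
            linarith
    · refine ⟨0, 2, le_rfl, by omega, sq2 ?_ ?_ ?_⟩ <;> norm_num [ins, v0, v1, v2, v3]
      · exact h.ne'
      · exact h.le
  · rcases lt_or_gt_of_ne x1 with h | h
    · refine ⟨1, 8, by norm_num, by omega, ?_⟩
      intro a ha b hb
      interval_cases a <;> interval_cases b <;>
        norm_num [ins, v0, v1, v2, v3, v4, v5, v6, v7, v8, v9, v10, v11, v12, v13, v14, v15] <;>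
        linarith
    · refine ⟨1, 2, le_rfl, by omega, sq2 ?_ ?_ ?_⟩ <;> norm_num [ins, v0, v1, v2, v3]
      · exact h.ne'
      · exact h.le

end Pool.Agent.J4.H42.SqFree
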