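import Pool.Agent.J4.H42.SqFree5

set_option autoImplicit false
set_option maxHeartbeats 4000000

namespace Pool.Agent.J4.H42.SqFree

/-- insertion near the right end -/
lemma right_ins {t p : ℕ} {x : ℚ} (hp : 8 * t + 7 + 20 ≤ p) (hp' : p ≤ 8 * t + 7 + 22)
    (hx : ∀ k < 8 * t + 7 + 22, g (8 * t + 7) k ≠ x) :
    ∃ i l, 2 ≤ l ∧ i + 2 * l ≤ 8 * t + 7 + 22 + 1 ∧ Sq (ins (g (8 * t + 7)) p x) i l := by
  obtain ⟨w18, w19, w20, w21, w22, w23, w24, w25, w26, w27, w28⟩ := gQval t
  have x26 := hx (8 * t + 26) (by omega)
  have x27 := hx (8 * t + 27) (by omega)
  have x28 := hx (8 * t + 28) (by omega)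
  rw [w26] at x26
  rw [w27] at x27
  rw [w28] at x28
  have hM : ∀ j, j < 8 * t + 7 → g (8 * t + 7) (11 + j) = f j := fun j hj => gM hj
  have m13 : g (8 * t + 7) (8 * t + 13) = f (8 * t + 2) := by
    rw [← hM (8 * t + 2) (by omega)]; congr 1; omega
  have m14 : g (8 * t + 7) (8 * t + 14) = f (8 * t + 3) := by
    rw [← hM (8 * t + 3) (by omega)]; congr 1; omega
  have m15 : g (8 * t + 7) (8 * t + 15) = f (8 * t + 4) := by
    rw [← hM (8 * t + 4) (by omega)]; congr 1; omega
  have m16 : g (8 * t + 7) (8 * t + 16) = f (8 * t + 5) := by
    rw [← hM (8 * t + 5) (by omega)]; congr 1; omega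
  have m17 : g (8 * t + 7) (8 * t + 17) = f (8 * t + 6) := by
    rw [← hM (8 * t + 6) (by omega)]; congr 1; omega
  obtain ⟨l1, l2, l3, l4, -⟩ := last_facts t
  have b4 := (f_bd (8 * t + 4)).1
  generalize f (8 * t + 2) = y2 at *
  generalize f (8 * t + 3) = y3 at *
  generalize f (8 * t + 4) = y4 at *
  generalize f (8 * t + 5) = y5 at *
  generalize f (8 * t + 6) = y6 at *
  -- values of the changed sequence
  have J : ∀ k, k < p → ins (g (8 * t + 7)) p x k = g (8 * t + 7) k := fun k hk => ins_lt hk
  have hE : ins (g (8 * t + 7)) p x p = x := ins_eq
  have J' : ∀ k, p ≤ k → ins (g (8 * t + 7)) p x (k + 1) = g (8 * t + 7) k := fun k hk => ins_gt hk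
  obtain rfl | rfl | rfl : p = 8 * t + 29 ∨ p = 8 * t + 28 ∨ p = 8 * t + 27 := by omega
  · rcases lt_or_gt_of_ne x28 with h | h
    · -- `-10 < x`
      refine ⟨8 * t + 22, 4, by norm_num, by omega, ?_⟩
      refine sq_of (fun a => ([-14, -15, -13, -11] : List ℚ).getD a 0)
        (fun a => ([-16, -17, -10, x] : List ℚ).getD a 0) ?_ ?_ ?_
      · intro a ha
        interval_cases a
        · simpa using (J (8 * t + 22) (by omega)).trans w22
        · simpa using (J (8 * t + 23) (by omega)).trans w23
        · simpa using (J (8 * t + 24) (by omega)).trans w24
        · simpa using (J (8 * t + 25) (by omega)).trans w25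
      · intro a ha
        interval_cases a
        · simpa using (J (8 * t + 26) (by omega)).trans w26
        · simpa using (J (8 * t + 27) (by omega)).trans w27
        · simpa using (J (8 * t + 28) (by omega)).trans w28
        · simpa using hE
      · intro a ha b hb
        interval_cases a <;> interval_cases b <;> refine ⟨fun hh => ?_, fun hh => ?_⟩ <;>
              (try norm_num at hh) <;> (try norm_num) <;> (try linarith)
    · refine ⟨8 * t + 26, 2, by norm_num, by omega, sq2 ?_ ?_ ?_⟩
      · rw [J _ (by omega), J _ (by omega), w26, w27]; norm_num
      · rw [J (8 * t + 26 + 2) (by omega), w28, hE]; exact x28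
      · rw [J _ (by omega), J _ (by omega), J (8 * t + 26 + 2) (by omega), w26, w27, w28, hE]
        norm_num; linarith
  · have e29 := J' (8 * t + 28) (by omega)
    rw [w28] at e29
    rcases lt_or_gt_of_ne x28 with h | h
    · -- `-10 < x`
      refine ⟨8 * t + 26, 2, by norm_num, by omega, sq2 ?_ ?_ ?_⟩
      · rw [J _ (by omega), J _ (by omega), w26, w27]; norm_num
      · rw [hE, e29]; exact h.ne'
      · rw [J _ (by omega), J _ (by omega), w26, w27, hE, e29]
        norm_num; linarith
    · rcases lt_or_gt_of_ne x27 with h' | h'
      · rcases lt_or_gt_of_ne x26 with h'' | h''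
        · -- `-16 < x < -10`
          refine ⟨8 * t + 22, 4, by norm_num, by omega, ?_⟩
          refine sq_of (fun a => ([-14, -15, -13, -11] : List ℚ).getD a 0)
            (fun a => ([-16, -17, x, -10] : List ℚ).getD a 0) ?_ ?_ ?_
          · intro a ha
            interval_cases a
            · simpa using (J (8 * t + 22) (by omega)).trans w22
            · simpa using (J (8 * t + 23) (by omega)).trans w23
            · simpa using (J (8 * t + 24) (by omega)).trans w24
            · simpa using (J (8 * t + 25) (by omega)).trans w25
          · intro a ha
            interval_cases a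
            · simpa using (J (8 * t + 26) (by omega)).trans w26
            · simpa using (J (8 * t + 27) (by omega)).trans w27
            · simpa using hE
            · simpa using e29
          · intro a ha b hb
            interval_cases a <;> interval_cases b <;> refine ⟨fun hh => ?_, fun hh => ?_⟩ <;>
              (try norm_num at hh) <;> (try norm_num) <;> (try linarith)
        · -- `-17 < x < -16`
          refine ⟨8 * t + 13, 8, by norm_num, by omega, ?_⟩
          refine sq_of (fun a => ([y2, y3, y4, y5, y6, -18, -20, -19] : List ℚ).getD a 0)
            (fun a => ([-12, -14, -15, -13, -11, -16, -17, x] : List ℚ).getD a 0) ?_ ?_ ?_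
          · intro a ha
            interval_cases a
            · simpa using (J (8 * t + 13) (by omega)).trans m13
            · simpa using (J (8 * t + 14) (by omega)).trans m14
            · simpa using (J (8 * t + 15) (by omega)).trans m15
            · simpa using (J (8 * t + 16) (by omega)).trans m16
            · simpa using (J (8 * t + 17) (by omega)).trans m17
            · simpa using (J (8 * t + 18) (by omega)).trans w18
            · simpa using (J (8 * t + 19) (by omega)).trans w19
            · simpa using (J (8 * t + 20) (by omega)).trans w20
          · intro a ha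
            interval_cases a
            · simpa using (J (8 * t + 21) (by omega)).trans w21
            · simpa using (J (8 * t + 22) (by omega)).trans w22
            · simpa using (J (8 * t + 23) (by omega)).trans w23
            · simpa using (J (8 * t + 24) (by omega)).trans w24
            · simpa using (J (8 * t + 25) (by omega)).trans w25
            · simpa using (J (8 * t + 26) (by omega)).trans w26
            · simpa using (J (8 * t + 27) (by omega)).trans w27
            · simpa using hE
          · intro a ha b hb
            interval_cases a <;> interval_cases b <;> refine ⟨fun hh => ?_, fun hh => ?_⟩ <;>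
              (try norm_num at hh) <;> (try norm_num) <;> (try linarith)
      · -- `x < -17`
        refine ⟨8 * t + 25, 2, by norm_num, by omega, sq2 ?_ ?_ ?_⟩
        · rw [J _ (by omega), J _ (by omega), w25, w26]; norm_num
        · rw [J (8 * t + 25 + 2) (by omega), w27, hE]; exact x27
        · rw [J _ (by omega), J _ (by omega), J (8 * t + 25 + 2) (by omega), w25, w26, w27, hE]
          norm_num; linarith
  · have e28 := J' (8 * t + 27) (by omega)
    rw [w27] at e28
    rcases lt_or_gt_of_ne x27 with h | h
    · -- `-17 < x`
      refine ⟨8 * t + 25, 2, by norm_num, by omega, sq2 ?_ ?_ ?_⟩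
      · rw [J _ (by omega), J _ (by omega), w25, w26]; norm_num
      · rw [hE, e28]; exact h.ne'
      · rw [J _ (by omega), J _ (by omega), w25, w26, hE, e28]
        norm_num; linarith
    · refine ⟨8 * t + 13, 8, by norm_num, by omega, ?_⟩
      refine sq_of (fun a => ([y2, y3, y4, y5, y6, -18, -20, -19] : List ℚ).getD a 0)
        (fun a => ([-12, -14, -15, -13, -11, -16, x, -17] : List ℚ).getD a 0) ?_ ?_ ?_
      · intro a ha
        interval_cases a
        · simpa using (J (8 * t + 13) (by omega)).trans m13
        · simpa using (J (8 * t + 14) (by omega)).trans m14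
        · simpa using (J (8 * t + 15) (by omega)).trans m15
        · simpa using (J (8 * t + 16) (by omega)).trans m16
        · simpa using (J (8 * t + 17) (by omega)).trans m17
        · simpa using (J (8 * t + 18) (by omega)).trans w18
        · simpa using (J (8 * t + 19) (by omega)).trans w19
        · simpa using (J (8 * t + 20) (by omega)).trans w20
      · intro a ha
        interval_cases a
        · simpa using (J (8 * t + 21) (by omega)).trans w21
        · simpa using (J (8 * t + 22) (by omega)).trans w22
        · simpa using (J (8 * t + 23) (by omega)).trans w23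
        · simpa using (J (8 * t + 24) (by omega)).trans w24
        · simpa using (J (8 * t + 25) (by omega)).trans w25
        · simpa using (J (8 * t + 26) (by omega)).trans w26
        · simpa using hE
        · simpa using e28
      · intro a ha b hb
        interval_cases a <;> interval_cases b <;> refine ⟨fun hh => ?_, fun hh => ?_⟩ <;>
              (try norm_num at hh) <;> (try norm_num) <;> (try linarith)

end Pool.Agent.J4.H42.SqFree
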