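import Mathlib

/-!
# The full Kummer tower: arithmetic of the exponents
-/

set_option autoImplicit false

namespace Pool.Agent.J4.H42.Tw

open Finset

/-- the sum of the residues of an arithmetic progression -/
lemma sum_ap {R e : ℕ} (hR : 0 < R) (he : 0 < e) (Y u : ℕ) (hu : u.Coprime e) :
    2 * ∑ i ∈ range e, (Y + R * (i * u)) % (R * e) = 2 * (e * (Y % R)) + R * (e * (e - 1)) := by
  have h1 : ∀ i, (Y + R * (i * u)) % (R * e) = Y % R + R * ((Y / R + i * u) % e) := by
    intro i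
    have h2 : Y + R * (i * u) = Y % R + R * (Y / R + i * u) := by
      conv_lhs => rw [← Nat.mod_add_div Y R]
      ring
    rw [h2, Nat.mod_mul, Nat.add_mul_mod_self_left, Nat.mod_mod,
      Nat.add_mul_div_left _ _ hR, Nat.div_eq_of_lt (Nat.mod_lt Y hR), zero_add]
  simp_rw [h1]
  rw [sum_add_distrib, sum_const, card_range, smul_eq_mul, ← mul_sum]
  -- the permutation of the residues
  have h3 : ∑ i ∈ range e, (Y / R + i * u) % e = ∑ i ∈ range e, i := by
    refine sum_bij (fun i _ => (Y / R + i * u) % e) (fun i _ => mem_range.2 (Nat.mod_lt _ he))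
      ?_ ?_ (fun i _ => rfl)
    · intro i hi i' hi' h
      rw [mem_range] at hi hi'
      have h4 : Y / R + i * u ≡ Y / R + i' * u [MOD e] := h
      have h5 : i * u ≡ i' * u [MOD e] := Nat.ModEq.add_left_cancel' _ h4
      have h6 : i ≡ i' [MOD e] := Nat.ModEq.cancel_right_of_coprime hu.symm h5
      exact Nat.ModEq.eq_of_lt_of_lt h6 hi hi'
    · intro b hb
      have hinj : Set.InjOn (fun i => (Y / R + i * u) % e) (range e : Finset ℕ) := by
        intro i hi i' hi' h
        rw [mem_coe, mem_range] at hi hi'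
        have h4 : Y / R + i * u ≡ Y / R + i' * u [MOD e] := h
        have h5 : i * u ≡ i' * u [MOD e] := Nat.ModEq.add_left_cancel' _ h4
        have h6 : i ≡ i' [MOD e] := Nat.ModEq.cancel_right_of_coprime hu.symm h5
        exact Nat.ModEq.eq_of_lt_of_lt h6 hi hi'
      have hmaps : Set.MapsTo (fun i => (Y / R + i * u) % e) (range e : Finset ℕ)
          (range e : Finset ℕ) := fun i _ => by
        rw [mem_coe, mem_range]; exact Nat.mod_lt _ he
      obtain ⟨a, ha, hab⟩ := Finset.surj_on_of_inj_on_of_card_le (s := range e) (t := range e)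
        (fun i _ => (Y / R + i * u) % e) (fun i hi => hmaps hi)
        (fun i i' hi hi' h => hinj hi hi' h) le_rfl b hb
      exact ⟨a, ha, hab.symm⟩
  rw [h3]
  have h4 := Finset.sum_range_id_mul_two e
  rw [mul_add]
  have h5 : 2 * (R * ∑ i ∈ range e, i) = R * ((∑ i ∈ range e, i) * 2) := by ring
  rw [h5, h4]

/-- Case B and C: a good element of an arithmetic progression. -/
lemma exists_ap {p c F M R e : ℕ} (hp : 0 < p) (hF : 0 < F) (hR : 0 < R) (he : 0 < e)
    (hM : M = R * e) (hcM : c.Coprime M) (y0 : ℕ) (T : Finset ℕ) (hT : T ⊆ range e)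
    (hcard : p * (e * (e + 1)) ≤ (p + 1) * (e * T.card)) :
    ∃ i ∈ T, 2 * p * ∑ v ∈ range F, ((y0 + R * i) * c ^ v) % M < F * (M * (p + 1)) := by
  classical
  by_contra hcon
  push Not at hcon
  have h1 : T.card * (F * (M * (p + 1)))
      ≤ ∑ i ∈ T, 2 * p * ∑ v ∈ range F, ((y0 + R * i) * c ^ v) % M := by
    rw [← smul_eq_mul T.card, ← sum_const]
    exact sum_le_sum hcon
  have h2 : ∑ i ∈ T, 2 * p * ∑ v ∈ range F, ((y0 + R * i) * c ^ v) % M
      ≤ ∑ i ∈ range e, 2 * p * ∑ v ∈ range F, ((y0 + R * i) * c ^ v) % M :=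
    sum_le_sum_of_subset hT
  have h3 : ∑ i ∈ range e, 2 * p * ∑ v ∈ range F, ((y0 + R * i) * c ^ v) % M
      = p * ∑ v ∈ range F, 2 * ∑ i ∈ range e, (y0 * c ^ v + R * (i * c ^ v)) % (R * e) := by
    rw [← mul_sum, sum_comm]
    rw [mul_sum, mul_sum]
    refine sum_congr rfl fun v _ => ?_
    rw [mul_comm 2 p, mul_assoc]
    congr 2
    refine sum_congr rfl fun i _ => ?_
    rw [hM]
    congr 1
    ring
  have hce : ∀ v, (c ^ v).Coprime e := fun v => Nat.Coprime.pow_left v
    (Nat.Coprime.coprime_dvd_right ⟨R, by rw [hM, mul_comm]⟩ hcM)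
  have h4 : ∀ v ∈ range F, 2 * ∑ i ∈ range e, (y0 * c ^ v + R * (i * c ^ v)) % (R * e)
      < R * (e * (e + 1)) := by
    intro v _
    rw [sum_ap hR he _ _ (hce v)]
    have h5 : (y0 * c ^ v) % R < R := Nat.mod_lt _ hR
    have h6 : 2 * (e * ((y0 * c ^ v) % R)) < 2 * (e * R) :=
      Nat.mul_lt_mul_of_pos_left (Nat.mul_lt_mul_of_pos_left h5 he) (by norm_num)
    obtain ⟨e', rfl⟩ : ∃ e', e = e' + 1 := ⟨e - 1, by omega⟩
    rw [Nat.add_sub_cancel]
    have h7 : 2 * ((e' + 1) * R) + R * ((e' + 1) * e') = R * ((e' + 1) * (e' + 1 + 1)) := by ring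
    omega
  have h5 : ∑ v ∈ range F, 2 * ∑ i ∈ range e, (y0 * c ^ v + R * (i * c ^ v)) % (R * e)
      < ∑ v ∈ range F, R * (e * (e + 1)) :=
    sum_lt_sum_of_nonempty ⟨0, mem_range.2 hF⟩ h4
  rw [sum_const, card_range, smul_eq_mul] at h5
  have h6 : T.card * (F * (M * (p + 1))) < p * (F * (R * (e * (e + 1)))) := by
    calc _ ≤ _ := h1
      _ ≤ _ := h2
      _ = _ := h3
      _ < _ := Nat.mul_lt_mul_of_pos_left h5 hp
  have h7 : p * (F * (R * (e * (e + 1)))) = F * R * (p * (e * (e + 1))) := by ring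
  have h8 : T.card * (F * (M * (p + 1))) = F * R * ((p + 1) * (e * T.card)) := by
    rw [hM]; ring
  rw [h7, h8] at h6
  exact absurd (Nat.mul_le_mul_left (F * R) hcard) (not_le.2 h6)

/-- The exceptional orders divide this number. -/
def bound (p : ℕ) : ℕ := (2 * p).factorial * (p - 1).factorial

/-- Cases B and C. -/
lemma exists_unit {p c F M : ℕ} (hp : p.Prime) (hF : 0 < F) (hM : 0 < M) (hpM : p ∣ M)
    (hcM : c.Coprime M) (hMb : ¬ M ∣ bound p) (y0 : ℕ) (hy0 : y0.Coprime M) :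
    ∃ y : ℕ, y.Coprime M ∧ y ≡ y0 [MOD p] ∧
      2 * p * ∑ v ∈ range F, (y * c ^ v) % M < F * (M * (p + 1)) := by
  classical
  obtain ⟨R, hR⟩ : ∃ R, R = ∏ q ∈ M.primeFactors, q := ⟨_, rfl⟩
  have hRM : R ∣ M := by rw [hR]; exact Nat.prod_primeFactors_dvd M
  obtain ⟨e, he⟩ := hRM
  have hR0 : 0 < R := Nat.pos_of_ne_zero (by rintro h; rw [h, zero_mul] at he; omega)
  have he0 : 0 < e := Nat.pos_of_ne_zero (by rintro h; rw [h, mul_zero] at he; omega)
  have hprime : ∀ q : ℕ, q.Prime → q ∣ M → q ∣ R := by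
    intro q hq hqM
    rw [hR]
    exact dvd_prod_of_mem _ (Nat.mem_primeFactors.2 ⟨hq, hqM, hM.ne'⟩)
  by_cases hB : p ≤ e
  · -- case B
    obtain ⟨i, -, hi⟩ := exists_ap (p := p) (F := F) hp.pos hF hR0 he0 he hcM y0 (range e)
      (Subset.refl _) (by
        rw [card_range]
        have : p * (e * (e + 1)) = p * e + p * (e * e) := by ring
        have h2 : (p + 1) * (e * e) = p * (e * e) + e * e := by ring
        have h3 : p * e ≤ e * e := Nat.mul_le_mul_right e hB
        omega)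
    refine ⟨y0 + R * i, ?_, ?_, hi⟩
    · refine Nat.Coprime.symm (Nat.coprime_of_dvd fun q hq hqM hqy => ?_)
      have h1 := (Nat.dvd_add_left (Dvd.dvd.mul_right (hprime q hq hqM) i)).1 hqy
      exact Nat.Prime.one_lt hq |>.ne' (Nat.Coprime.eq_one_of_dvd
        (Nat.Coprime.coprime_dvd_left h1 (Nat.Coprime.coprime_dvd_right hqM hy0)) dvd_rfl)
    · have h1 : p ∣ R * i := Dvd.dvd.mul_right (hprime p hp hpM) i
      have h2 : y0 + R * i ≡ y0 + 0 [MOD p] := ((Nat.modEq_zero_iff_dvd.2 h1)).add_left y0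
      rwa [add_zero] at h2
  · push Not at hB
    -- there is a large prime
    obtain ⟨ℓ, hℓ, hℓM, hℓp⟩ : ∃ ℓ : ℕ, ℓ.Prime ∧ ℓ ∣ M ∧ 2 * p < ℓ := by
      by_contra hcon
      push Not at hcon
      apply hMb
      unfold bound
      rw [he]
      refine mul_dvd_mul ?_ (Nat.dvd_factorial he0 (by omega))
      rw [hR]
      refine Finset.prod_primes_dvd _ (fun q hq => (Nat.prime_of_mem_primeFactors hq).prime)
        fun q hq => ?_
      exact Nat.dvd_factorial (Nat.prime_of_mem_primeFactors hq).pos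
        (hcon q (Nat.prime_of_mem_primeFactors hq) (Nat.dvd_of_mem_primeFactors hq))
    obtain ⟨R', hR'⟩ := hℓM
    have hR'0 : 0 < R' := Nat.pos_of_ne_zero (by rintro h; rw [h, mul_zero] at hR'; omega)
    have hℓR' : ¬ ℓ ∣ R' := by
      intro hdv
      -- then `ℓ` divides `e`
      have h1 : ℓ * ℓ ∣ R * e := by
        rw [← he, hR']
        exact mul_dvd_mul_left ℓ hdv
      have h2 : ¬ ℓ ∣ e := fun h => absurd (Nat.le_of_dvd he0 h) (by omega)
      have h3 : ℓ * ℓ ∣ R := by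
        have : (ℓ * ℓ).Coprime e := by
          have h4 : ℓ.Coprime e := (Nat.Prime.coprime_iff_not_dvd hℓ).2 h2
          exact Nat.Coprime.mul_left h4 h4
        exact this.dvd_of_dvd_mul_right h1
      have hsq : Squarefree R := by
        rw [hR]
        exact Finset.squarefree_prod_of_pairwise_isCoprime (fun q hq q' hq' hne => by
            rw [Function.onFun, ← Nat.coprime_iff_isRelPrime]
            exact (Nat.coprime_primes (Nat.prime_of_mem_primeFactors hq)
              (Nat.prime_of_mem_primeFactors hq')).2 hne)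
          (fun q hq => (Nat.prime_of_mem_primeFactors hq).prime.squarefree)
      have := hsq ℓ h3
      exact hℓ.one_lt.ne' (Nat.isUnit_iff.1 this)
    have hpR' : p ∣ R' := by
      have h1 : p ∣ ℓ * R' := by rw [← hR']; exact hpM
      rcases (Nat.Prime.dvd_mul hp).1 h1 with h | h
      · have := (Nat.prime_dvd_prime_iff_eq hp hℓ).1 h
        omega
      · exact h
    have hM' : M = R' * ℓ := by rw [hR', mul_comm]
    -- the element divisible by `ℓ`
    obtain ⟨T, hT⟩ : ∃ T, T = (range ℓ).filter fun i => ¬ ℓ ∣ y0 + R' * i := ⟨_, rfl⟩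
    have hcard : ℓ - 1 ≤ T.card := by
      have h1 : ((range ℓ).filter fun i => ℓ ∣ y0 + R' * i).card ≤ 1 := by
        rw [card_le_one]
        intro i hi i' hi'
        rw [mem_filter, mem_range] at hi hi'
        have h2 : y0 + R' * i ≡ y0 + R' * i' [MOD ℓ] :=
          (Nat.modEq_zero_iff_dvd.2 hi.2).trans (Nat.modEq_zero_iff_dvd.2 hi'.2).symm
        have h3 : R' * i ≡ R' * i' [MOD ℓ] := Nat.ModEq.add_left_cancel' _ h2
        have h4 : i ≡ i' [MOD ℓ] := Nat.ModEq.cancel_left_of_coprime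
          ((Nat.Prime.coprime_iff_not_dvd hℓ).2 hℓR') h3
        exact Nat.ModEq.eq_of_lt_of_lt h4 hi.1 hi'.1
      have h2 := card_filter_add_card_filter_not (s := range ℓ) (fun i => ℓ ∣ y0 + R' * i)
      rw [card_range, ← hT] at h2
      omega
    obtain ⟨i, hi, hi2⟩ := exists_ap (p := p) (F := F) hp.pos hF hR'0 hℓ.pos hM' hcM y0 T
      (by rw [hT]; exact filter_subset _ _) (by
        have h1 : p * (ℓ * (ℓ + 1)) = ℓ * (p * (ℓ + 1)) := by ring
        have h2 : (p + 1) * (ℓ * T.card) = ℓ * ((p + 1) * T.card) := by ring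
        rw [h1, h2]
        refine Nat.mul_le_mul_left _ (le_trans ?_ (Nat.mul_le_mul_left (p + 1) hcard))
        obtain ⟨ℓ', rfl⟩ : ∃ ℓ', ℓ = ℓ' + 1 := ⟨ℓ - 1, by omega⟩
        rw [Nat.add_sub_cancel]
        have h3 : p * (ℓ' + 1 + 1) = p * ℓ' + 2 * p := by ring
        have h4 : (p + 1) * ℓ' = p * ℓ' + ℓ' := by ring
        omega)
    rw [hT, mem_filter, mem_range] at hi
    refine ⟨y0 + R' * i, ?_, ?_, hi2⟩
    · refine Nat.Coprime.symm (Nat.coprime_of_dvd fun q hq hqM hqy => ?_)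
      rw [hM'] at hqM
      rcases (Nat.Prime.dvd_mul hq).1 hqM with h | h
      · have h1 := (Nat.dvd_add_left (Dvd.dvd.mul_right h i)).1 hqy
        exact Nat.Prime.one_lt hq |>.ne' (Nat.Coprime.eq_one_of_dvd
          (Nat.Coprime.coprime_dvd_left h1 (Nat.Coprime.coprime_dvd_right
            (h.trans ⟨ℓ, hM'⟩) hy0)) dvd_rfl)
      · have h1 := (Nat.prime_dvd_prime_iff_eq hq hℓ).1 h
        rw [h1] at hqy
        exact hi.2 hqy
    · have h1 : p ∣ R' * i := Dvd.dvd.mul_right hpR' i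
      have h2 : y0 + R' * i ≡ y0 + 0 [MOD p] := ((Nat.modEq_zero_iff_dvd.2 h1)).add_left y0
      rwa [add_zero] at h2

/-- lifting of units -/
lemma lift_unit {M r : ℕ} (hr : 0 < r) (hMr : M ∣ r) {y : ℕ} (hy : y.Coprime M) :
    ∃ y' : ℕ, y'.Coprime r ∧ y' ≡ y [MOD M] := by
  have _ : NeZero r := ⟨by omega⟩
  obtain ⟨u, hu⟩ := ZMod.unitsMap_surjective hMr (ZMod.unitOfCoprime y hy)
  refine ⟨(u : ZMod r).val, ZMod.val_coe_unit_coprime u, ?_⟩
  rw [← ZMod.natCast_eq_natCast_iff]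
  have h2 := congrArg (fun v : (ZMod M)ˣ => (v : ZMod M)) hu
  simp only [ZMod.unitsMap_def, Units.coe_map, MonoidHom.coe_coe] at h2
  have h3 : (((u : ZMod r).val : ℕ) : ZMod M) = ZMod.castHom hMr (ZMod M) (u : ZMod r) := by
    rw [ZMod.castHom_apply, ZMod.natCast_val]
  rw [h3, h2, ZMod.coe_unitOfCoprime]

/-- **The choice of the multiplier.** -/
theorem exists_mult {p c F r : ℕ} (hp : p.Prime) (hF : 0 < F) (hr : 0 < r) (hpr : p ∣ r)
    (hcr : c.Coprime r) {j s : ℕ} (hj : j.Coprime p)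
    (hbad : ¬ r / Nat.gcd r (bound p) ∣ s) :
    ∃ j' : ℕ, j'.Coprime r ∧ j' * j ≡ 1 [MOD p] ∧
      2 * p * ∑ v ∈ range F, (j' * s * c ^ v) % r < F * (r * (p + 1)) := by
  classical
  -- the inverse of `j`
  obtain ⟨ji, hji⟩ : ∃ ji : ℕ, ji * j ≡ 1 [MOD p] := by
    obtain ⟨y, -, hy⟩ := Nat.exists_mul_mod_eq_one_of_coprime hj hp.one_lt
    refine ⟨y, ?_⟩
    show y * j % p = 1 % p
    rw [mul_comm, hy, Nat.mod_eq_of_lt hp.one_lt]
  have hjip : ji.Coprime p := by
    have h2 : Nat.Coprime (ji * j) p := by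
      unfold Nat.Coprime
      rw [hji.gcd_eq]
      exact Nat.gcd_one_left p
    exact Nat.Coprime.coprime_mul_right h2
  obtain ⟨G, hG⟩ : ∃ G, G = Nat.gcd s r := ⟨_, rfl⟩
  have hG0 : 0 < G := by rw [hG]; exact Nat.gcd_pos_of_pos_right s hr
  obtain ⟨s0, hs0⟩ : G ∣ s := by rw [hG]; exact Nat.gcd_dvd_left s r
  obtain ⟨M, hM⟩ : G ∣ r := by rw [hG]; exact Nat.gcd_dvd_right s r
  have hM0 : 0 < M := Nat.pos_of_ne_zero (by rintro h; rw [h, mul_zero] at hM; omega)
  have hMr : M ∣ r := ⟨G, by rw [hM, mul_comm]⟩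
  have hs0M : s0.Coprime M := by
    have h1 : Nat.gcd (G * s0) (G * M) = G := by rw [← hs0, ← hM, ← hG]
    rw [Nat.gcd_mul_left] at h1
    exact Nat.eq_of_mul_eq_mul_left hG0 (by rw [mul_one]; exact h1)
  have hcM : c.Coprime M := Nat.Coprime.coprime_dvd_right hMr hcr
  -- reduction to the order `M`
  have hred : ∀ j' : ℕ, ∑ v ∈ range F, (j' * s * c ^ v) % r
      = G * ∑ v ∈ range F, (j' * s0 * c ^ v) % M := by
    intro j'
    rw [mul_sum]
    refine sum_congr rfl fun v _ => ?_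
    rw [hs0, hM]
    have h1 : j' * (G * s0) * c ^ v = G * (j' * s0 * c ^ v) := by ring
    rw [h1, Nat.mul_mod_mul_left]
  have hfin : ∀ S : ℕ, 2 * p * S < F * (M * (p + 1)) →
      2 * p * (G * S) < F * (r * (p + 1)) := by
    intro S hS
    have h1 : 2 * p * (G * S) = G * (2 * p * S) := by ring
    have h2 : F * (r * (p + 1)) = G * (F * (M * (p + 1))) := by rw [hM]; ring
    rw [h1, h2]
    exact Nat.mul_lt_mul_of_pos_left hS hG0
  by_cases hpM : p ∣ M
  · -- cases B and C
    have hMb : ¬ M ∣ bound p := by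
      intro hMb
      have h1 : M ∣ Nat.gcd r (bound p) := Nat.dvd_gcd hMr hMb
      apply hbad
      obtain ⟨q, hq⟩ : Nat.gcd r (bound p) ∣ r := Nat.gcd_dvd_left _ _
      have hg0 : 0 < Nat.gcd r (bound p) := Nat.gcd_pos_of_pos_left _ hr
      have h2 : r / Nat.gcd r (bound p) = q := Nat.div_eq_of_eq_mul_right hg0 hq
      rw [h2]
      obtain ⟨g', hg'⟩ := h1
      have h3 : G = g' * q := by
        have h4 : M * G = M * (g' * q) := by
          calc M * G = r := by rw [hM, mul_comm]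
            _ = Nat.gcd r (bound p) * q := hq
            _ = M * (g' * q) := by rw [hg', mul_assoc]
        exact Nat.eq_of_mul_eq_mul_left hM0 h4
      rw [hs0, h3]
      exact ⟨g' * s0, by ring⟩
    obtain ⟨j0, hj0, hj0p⟩ := lift_unit hM0 hpM hjip
    obtain ⟨y, hy1, hy2, hy3⟩ := exists_unit hp hF hM0 hpM hcM hMb (j0 * s0)
      (Nat.Coprime.mul_left hj0 hs0M)
    -- the inverse of `s0`
    obtain ⟨si, hsi⟩ : ∃ si : ℕ, s0 * si ≡ 1 [MOD M] := by
      rcases Nat.eq_or_lt_of_le (Nat.one_le_iff_ne_zero.2 hM0.ne') with h | h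
      · refine ⟨0, ?_⟩
        rw [← h]
        exact Nat.modEq_one
      · obtain ⟨si, -, hsi⟩ := Nat.exists_mul_mod_eq_one_of_coprime hs0M h
        refine ⟨si, ?_⟩
        show s0 * si % M = 1 % M
        rw [hsi, Nat.mod_eq_of_lt h]
    have hsiM : si.Coprime M := by
      have h2 : Nat.Coprime (s0 * si) M := by
        unfold Nat.Coprime
        rw [hsi.gcd_eq]
        exact Nat.gcd_one_left M
      exact Nat.Coprime.coprime_mul_left h2
    obtain ⟨j', hj'1, hj'2⟩ := lift_unit hr hMr (Nat.Coprime.mul_left hy1 hsiM)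
    refine ⟨j', hj'1, ?_, ?_⟩
    · have h1 : j' ≡ y * si [MOD p] := hj'2.of_dvd hpM
      have h2 : s0 * si ≡ 1 [MOD p] := hsi.of_dvd hpM
      calc j' * j ≡ y * si * j [MOD p] := h1.mul_right j
        _ ≡ j0 * s0 * si * j [MOD p] := (hy2.mul_right si).mul_right j
        _ = j0 * (s0 * si) * j := by ring
        _ ≡ j0 * 1 * j [MOD p] := (h2.mul_left j0).mul_right j
        _ = j0 * j := by ring
        _ ≡ ji * j [MOD p] := hj0p.mul_right j
        _ ≡ 1 [MOD p] := hji
    · rw [hred]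
      apply hfin
      have h1 : ∑ v ∈ range F, (j' * s0 * c ^ v) % M = ∑ v ∈ range F, (y * c ^ v) % M := by
        refine sum_congr rfl fun v _ => ?_
        have h2 : j' * s0 * c ^ v ≡ y * c ^ v [MOD M] := by
          calc j' * s0 * c ^ v ≡ y * si * s0 * c ^ v [MOD M] :=
                (hj'2.mul_right s0).mul_right _
            _ = y * (s0 * si) * c ^ v := by ring
            _ ≡ y * 1 * c ^ v [MOD M] := (hsi.mul_left y).mul_right _
            _ = y * c ^ v := by ring
        exact h2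
      rw [h1]
      exact hy3
  · -- case A
    have hcop : M.Coprime p := ((Nat.Prime.coprime_iff_not_dvd hp).2 hpM).symm
    have hMpr : M * p ∣ r := Nat.Coprime.mul_dvd_of_dvd_of_dvd hcop hMr hpr
    have main' : ∀ τ : ℕ, Nat.Coprime τ M → ∃ j' : ℕ, j'.Coprime r ∧ j' ≡ ji [MOD p] ∧
        j' ≡ τ [MOD M] := by
      intro τ hτ
      obtain ⟨k, hk1, hk2⟩ := Nat.chineseRemainder hcop τ ji
      have hk : k.Coprime (M * p) := by
        refine Nat.Coprime.mul_right ?_ ?_
        · unfold Nat.Coprime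
          rw [hk1.gcd_eq]
          exact hτ
        · unfold Nat.Coprime
          rw [hk2.gcd_eq]
          exact hjip
      obtain ⟨j', h1, h2⟩ := lift_unit hr hMpr hk
      exact ⟨j', h1, (h2.of_dvd ⟨M, by ring⟩).trans hk2, (h2.of_dvd ⟨p, by ring⟩).trans hk1⟩
    have hkey : ∀ x : ℕ, x % M + ((M - 1) * x) % M ≤ M := by
      intro x
      have h1 : M ∣ x % M + ((M - 1) * x) % M := by
        rw [Nat.dvd_iff_mod_eq_zero, ← Nat.add_mod]
        have : x + (M - 1) * x = M * x := by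
          obtain ⟨k, rfl⟩ : ∃ k, M = k + 1 := ⟨M - 1, by omega⟩
          rw [Nat.add_sub_cancel]; ring
        rw [this, Nat.mul_mod_right]
      obtain ⟨k, hk⟩ := h1
      have h2 := Nat.mod_lt x hM0
      have h3 := Nat.mod_lt ((M - 1) * x) hM0
      have h4 : k < 2 := by
        by_contra hc
        push Not at hc
        have := Nat.mul_le_mul_left M hc
        omega
      have := Nat.mul_le_mul_left M (by omega : k ≤ 1)
      omega
    have hsec : ∀ (j' τ : ℕ), j' ≡ τ [MOD M] → ∑ v ∈ range F, (j' * s0 * c ^ v) % M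
        = ∑ v ∈ range F, (τ * (s0 * c ^ v)) % M := by
      intro j' τ hj'
      refine Finset.sum_congr rfl fun v _ => ?_
      have h2 : j' * s0 * c ^ v = j' * (s0 * c ^ v) := by ring
      rw [h2]
      exact hj'.mul_right _
    have hsumle : ∑ v ∈ range F, (1 * (s0 * c ^ v)) % M +
        ∑ v ∈ range F, ((M - 1) * (s0 * c ^ v)) % M ≤ F * M := by
      rw [← Finset.sum_add_distrib]
      calc ∑ v ∈ range F, ((1 * (s0 * c ^ v)) % M + ((M - 1) * (s0 * c ^ v)) % M)
          ≤ ∑ v ∈ range F, M := Finset.sum_le_sum fun v _ => by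
            rw [one_mul]; exact hkey _
        _ = F * M := by simp
    have hfin2 : ∀ S : ℕ, 2 * S ≤ F * M → 2 * p * S < F * (M * (p + 1)) := by
      intro S hS
      have h1 : 2 * p * S = p * (2 * S) := by ring
      have h2 : p * (2 * S) ≤ p * (F * M) := Nat.mul_le_mul_left p hS
      have h3 : F * (M * (p + 1)) = p * (F * M) + F * M := by ring
      have h4 : 0 < F * M := Nat.mul_pos hF hM0
      omega
    by_cases h : 2 * ∑ v ∈ range F, (1 * (s0 * c ^ v)) % M ≤ F * M
    · obtain ⟨j', h1, h2, h3⟩ := main' 1 (Nat.coprime_one_left M)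
      refine ⟨j', h1, (h2.mul_right j).trans hji, ?_⟩
      rw [hred]
      apply hfin
      rw [hsec j' 1 h3]
      exact hfin2 _ h
    · have hcop1 : Nat.Coprime (M - 1) M := by
        have : Nat.Coprime (M - 1) (M - 1 + 1) := by simp
        rwa [Nat.sub_add_cancel hM0] at this
      obtain ⟨j', h1, h2, h3⟩ := main' (M - 1) hcop1
      refine ⟨j', h1, (h2.mul_right j).trans hji, ?_⟩
      rw [hred]
      apply hfin
      rw [hsec j' (M - 1) h3]
      exact hfin2 _ (by omega)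

end Pool.Agent.J4.H42.Tw
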