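import Pool.Agent.J4.H42.WtB
import Pool.Agent.J4.H42.TwA
import Pool.Agent.W528.HC.MU
import Pool.Agent.W924.HC.PR
import Pool.Agent.W125.HC.PC

/-!
# The full Kummer tower: the L-functions
-/

set_option autoImplicit false

namespace Pool.Agent.J4.H42.Tw

open Finset Polynomial Pool.Agent.W528.HA Pool.Agent.W528.HB Pool.Agent.W528.HC
  Pool.Agent.W528.HD Pool.Agent.W528.HG Pool.Agent.W125.HC.PC Pool.Agent.J4.H42.Wt

/-- The sum over `(x, t) ∈ L²` of the value at
`∏ (P_i(x) + f_i(t)) ^ ((r / p) (j a_i mod p)) * t ^ s` of the character of order `r` (divisible by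
`p`) of `L` belonging to `z ↦ μ`. -/
noncomputable def towerSum (L : Type) [Field L] [Fintype L] (R : Type) [CommRing R] (p r : ℕ)
    {m : ℕ} (P f : Fin m → L[X]) (a : Fin m → ℕ) (z : L) (μ : R) (j s : ℕ) : R :=
  ∑ x : L, ∑ t : L, kv r z μ
    (((∏ i, ((P i).eval x + (f i).eval t) ^ ((r / p) * (j * a i % p))) * t ^ s)
      ^ ((Fintype.card L - 1) / r))

/-- The number of points `(x, u, y)` over `L` of the affine surface
`y ^ p = ∏ (P_i(x) + f_i(u ^ g)) ^ a_i`. -/
noncomputable def towerPoints (L : Type) [Field L] (p g : ℕ) {m : ℕ} (P f : Fin m → L[X])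
    (a : Fin m → ℕ) : ℕ :=
  Set.ncard {v : L × L × L | v.2.2 ^ p = ∏ i, ((P i).eval v.1 + (f i).eval (v.2.1 ^ g)) ^ a i}

/-- `∏_{x ∈ A} (1 - x T)` is the L-function of the character `(j, s)`: for every finite extension `L`
of `κ`, of degree `n`, the sum of the `x ^ n` is `towerSum`. -/
def IsTowerL (κ : Type) [Field κ] [Fintype κ] {E : Type} [Field E] (p r : ℕ) {m : ℕ}
    (P f : Fin m → κ[X]) (a : Fin m → ℕ) (z : κ) (μ : E) (j s : ℕ) (A : Multiset E) : Prop :=
  ∀ (L : Type) [Field L] [Fintype L] [Algebra κ L],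
    (A.map fun x => x ^ Module.finrank κ L).sum
      = towerSum L E p r (fun i => (P i).map (algebraMap κ L))
        (fun i => (f i).map (algebraMap κ L)) a (algebraMap κ L z) μ j s

/-- The exponents `0 ≤ s < r` that are not divisible by `r / g` (`g` a divisor of `r`): the characters
`u ↦ u ^ s` of `μ_r` that do not come from characters of `μ_g`. -/
def newExp (r g : ℕ) : Finset ℕ := (range r).filter fun s => ¬ r / g ∣ s

/-- `∏ (1 - x T)` over all `x ∈ A j s`, `0 < j < p`, `s` in `newExp r g`. -/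
noncomputable def newPoly {E : Type} [Field E] (p r g : ℕ) (A : ℕ → ℕ → Multiset E) : E[X] :=
  ∏ j ∈ Ico 1 p, ∏ s ∈ newExp r g, ((A j s).map fun x => 1 - C x * X).prod

section

variable {L : Type} [Field L] [Fintype L]

lemma tpoints_eq (p g : ℕ) {m : ℕ} (P f : Fin m → L[X]) (a : Fin m → ℕ) {E : Type} [Field E] :
    ((towerPoints L p g P f a : ℕ) : E) = ∑ x : L, ∑ u : L,
      ((Set.ncard {y : L | y ^ p = ∏ i, ((P i).eval x + (f i).eval (u ^ g)) ^ a i} : ℕ) : E) := by
  classical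
  unfold towerPoints
  have h : {v : L × L × L | v.2.2 ^ p = ∏ i, ((P i).eval v.1 + (f i).eval (v.2.1 ^ g)) ^ a i} =
      ((univ.filter (fun v : L × L × L =>
        v.2.2 ^ p = ∏ i, ((P i).eval v.1 + (f i).eval (v.2.1 ^ g)) ^ a i) :
        Finset (L × L × L)) : Set (L × L × L)) := by
    ext y; simp
  rw [h, Set.ncard_coe_finset, card_filter, Fintype.sum_prod_type]
  push_cast
  refine sum_congr rfl fun x _ => ?_
  rw [Fintype.sum_prod_type]
  refine sum_congr rfl fun u _ => ?_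
  rw [ncard_eq]

/-- **The sum of the character sums of a layer.** -/
theorem tower_total {p r g : ℕ} (hp : p.Prime) (hr : 0 < r) (hpr : p ∣ r) (hgr : g ∣ r) {z : L}
    (hz : IsPrimitiveRoot z r) {E : Type} [Field E] [CharZero E] {μ : E}
    (hμ : IsPrimitiveRoot μ r) {m : ℕ} (P f : Fin m → L[X])
    (a : Fin m → ℕ) (ha : ∀ i, 0 < a i ∧ a i < p) :
    ∑ j ∈ Ico 1 p, ∑ s ∈ range g, towerSum L E p r P f a z μ j ((r / g) * s)
      = (towerPoints L p g P f a : E) - (Fintype.card L : E) ^ 2 := by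
  classical
  obtain ⟨r1, hr1⟩ := hpr
  have hr10 : 0 < r1 := Nat.pos_of_ne_zero (by rintro h; rw [h, mul_zero] at hr1; omega)
  obtain ⟨g1, hg1⟩ := hgr
  have hg0 : 0 < g := Nat.pos_of_ne_zero (by rintro h; rw [h, zero_mul] at hg1; omega)
  have hg10 : 0 < g1 := Nat.pos_of_ne_zero (by rintro h; rw [h, mul_zero] at hg1; omega)
  have hrp : r / p = r1 := Nat.div_eq_of_eq_mul_right hp.pos hr1
  have hrg : r / g = g1 := Nat.div_eq_of_eq_mul_right hg0 hg1
  have hN2 : 2 ≤ r := by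
    rw [hr1]
    calc 2 ≤ p := hp.two_le
      _ = p * 1 := (mul_one p).symm
      _ ≤ p * r1 := Nat.mul_le_mul_left p hr10
  have hPR : PR := Pool.Agent.W924.HC.PR.main
  have hmu := mu_main L r z hN2 hz E μ hμ.pow_eq_one
  obtain ⟨F, hF⟩ : ∃ F : L → L → L, F = fun x t => ∏ i, ((P i).eval x + (f i).eval t) ^ a i :=
    ⟨_, rfl⟩
  have h1 : ∀ j ∈ Ico 1 p, ∀ s : ℕ, ∀ x t : L, kv r z μ
      (((∏ i, ((P i).eval x + (f i).eval t) ^ (r1 * (j * a i % p))) * t ^ s)
        ^ ((Fintype.card L - 1) / r)) =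
      kv r z μ ((F x t ^ (r1 * j)) ^ ((Fintype.card L - 1) / r)) *
        kv r z μ ((t ^ s) ^ ((Fintype.card L - 1) / r)) := by
    intro j hj s x t
    rw [mem_Ico] at hj
    rw [hmu]
    congr 2
    rw [hF]
    simp only
    rw [← prod_pow, ← prod_pow, ← prod_pow]
    refine prod_congr rfl fun i _ => ?_
    have hnd : ¬ p ∣ j * a i := by
      intro hd
      rcases (Nat.Prime.dvd_mul hp).1 hd with h | h
      · have := Nat.le_of_dvd (by omega) h
        omega
      · have := Nat.le_of_dvd (ha i).1 h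
        have := (ha i).2
        omega
    have hz' : IsPrimitiveRoot z (p * r1) := by rw [← hr1]; exact hz
    have h2 := pow_mod hp.pos hr10 hz' hnd ((P i).eval x + (f i).eval t)
    rw [← hr1] at h2
    rw [h2, ← pow_mul ((P i).eval x + (f i).eval t) (a i)]
    congr 2
    ring
  have h2 : ∀ v : L, ∑ j ∈ Ico 1 p,
      kv r z μ ((v ^ (r1 * j)) ^ ((Fintype.card L - 1) / r)) =
      ((Set.ncard {y : L | y ^ p = v} : ℕ) : E) - 1 := by
    intro v
    have := hPR L r p r1 z hr1 hz hp.pos hr10 E μ hμ v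
    rw [this]; ring
  have h3 : ∀ v : L, ∑ s ∈ range g,
      kv r z μ ((v ^ (g1 * s)) ^ ((Fintype.card L - 1) / r)) =
      ((Set.ncard {y : L | y ^ g = v} : ℕ) : E) := by
    intro v
    have := hPR L r g g1 z hg1 hz hg0 hg10 E μ hμ v
    rw [this, range_eq_Ico, sum_eq_sum_Ico_succ_bot hg0]
    congr 1
    rw [mul_zero, pow_zero, one_pow, kv_one hr hz]
  obtain ⟨A, hA⟩ : ∃ A : L → L → ℕ → E, A = fun x t j =>
      kv r z μ ((F x t ^ (r1 * j)) ^ ((Fintype.card L - 1) / r)) := ⟨_, rfl⟩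
  obtain ⟨B, hB⟩ : ∃ B : L → ℕ → E, B = fun t s =>
      kv r z μ ((t ^ (g1 * s)) ^ ((Fintype.card L - 1) / r)) := ⟨_, rfl⟩
  have h2' : ∀ x t : L, (∑ j ∈ Ico 1 p, A x t j) =
      ((Set.ncard {y : L | y ^ p = F x t} : ℕ) : E) - 1 := by
    intro x t
    rw [hA]
    exact h2 (F x t)
  have h3' : ∀ t : L, (∑ s ∈ range g, B t s) =
      ((Set.ncard {y : L | y ^ g = t} : ℕ) : E) := by
    intro t
    rw [hB]
    exact h3 t
  unfold towerSum
  rw [hrp, hrg]
  have e1 : (∑ j ∈ Ico 1 p, ∑ s ∈ range g, ∑ x : L, ∑ t : L, kv r z μ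
      (((∏ i, ((P i).eval x + (f i).eval t) ^ (r1 * (j * a i % p))) * t ^ (g1 * s))
        ^ ((Fintype.card L - 1) / r))) =
      ∑ j ∈ Ico 1 p, ∑ s ∈ range g, ∑ x : L, ∑ t : L, A x t j * B t s := by
    rw [hA, hB]
    exact sum_congr rfl fun j hj => sum_congr rfl fun s _ => sum_congr rfl fun x _ =>
          sum_congr rfl fun t _ => h1 j hj _ x t
  have e3 : (∑ x : L, ∑ t : L, (∑ j ∈ Ico 1 p, A x t j) * (∑ s ∈ range g, B t s)) =
      ∑ x : L, ∑ t : L, (((Set.ncard {y : L | y ^ p = F x t} : ℕ) : E) - 1) *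
        ((Set.ncard {u : L | u ^ g = t} : ℕ) : E) :=
    sum_congr rfl fun x _ => sum_congr rfl fun t _ => by rw [h2', h3']
  have e4 : (∑ x : L, ∑ t : L, (((Set.ncard {y : L | y ^ p = F x t} : ℕ) : E) - 1) *
        ((Set.ncard {u : L | u ^ g = t} : ℕ) : E)) =
      ∑ x : L, ∑ u : L, (((Set.ncard {y : L | y ^ p = F x (u ^ g)} : ℕ) : E) - 1) := by
    refine sum_congr rfl fun x _ => ?_
    have e5 : ∀ t : L, (((Set.ncard {y : L | y ^ p = F x t} : ℕ) : E) - 1) *
        ((Set.ncard {u : L | u ^ g = t} : ℕ) : E) =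
        ∑ u : L, (((Set.ncard {y : L | y ^ p = F x t} : ℕ) : E) - 1) *
          (if u ^ g = t then 1 else 0) := by
      intro t
      rw [ncard_eq (fun u : L => u ^ g = t), mul_sum]
    rw [sum_congr rfl fun t _ => e5 t, sum_comm]
    refine sum_congr rfl fun u _ => ?_
    rw [sum_eq_single_of_mem (u ^ g) (mem_univ _)]
    · rw [if_pos rfl, mul_one]
    · intro t _ ht
      rw [if_neg (fun h => ht h.symm), mul_zero]
  refine e1.trans ((swap4 (Ico 1 p) (range g) A B).trans (e3.trans (e4.trans ?_)))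
  rw [tpoints_eq]
  simp only [sum_sub_distrib, sum_const, card_univ, nsmul_eq_mul, mul_one, hF]
  ring

lemma av_zero {c : ℕ} [Fact c.Prime] [CharP L c] {R : Type} [CommRing R] (ν : R) :
    av L R c ν 0 = 1 := by
  classical
  have hc : c.Prime := Fact.out
  have h0 : absTr L c 0 = 0 := by
    unfold absTr
    refine sum_eq_zero fun m _ => ?_
    rw [zero_pow (pow_ne_zero m hc.ne_zero)]
  unfold av
  rw [h0, sum_eq_single_of_mem 0 (mem_range.2 hc.pos)]
  · simp
  · intro i hi hi0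
    rw [if_neg]
    intro h
    have h1 := (CharP.cast_eq_zero_iff L c i).1 h.symm
    have := Nat.le_of_dvd (Nat.pos_of_ne_zero hi0) h1
    rw [mem_range] at hi
    omega

lemma towerSum_eq {c : ℕ} [Fact c.Prime] [CharP L c] {R : Type} [CommRing R] (p r : ℕ) {m : ℕ}
    (P f : Fin m → L[X]) (a : Fin m → ℕ) (z : L) (μ ν : R) (j s : ℕ) :
    towerSum L R p r P f a z μ j s
      = gSumW L R r c P f (fun i => (r / p) * (j * a i % p)) s 0 0 z μ ν := by
  unfold towerSum gSumW
  refine sum_congr rfl fun x _ => sum_congr rfl fun t _ => ?_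
  rw [eval_zero, eval_zero, add_zero, av_zero, mul_one]

end

/-- The nonvanishing. -/
theorem tower_ne {p r c D : ℕ} (hp : p.Prime) (hr : 0 < r) (hpr : p ∣ r)
    [Fact c.Prime] (hpc : p ∣ c - 1) (κ : Type) [Field κ] [Fintype κ] [CharP κ c]
    {z : κ} (hz : IsPrimitiveRoot z r) {E : Type} [Field E] [CharZero E] [IsAlgClosed E]
    {μ : E} (hμ : IsPrimitiveRoot μ r) {m : ℕ} (hD : 1 ≤ D)
    (P : Fin m → κ[X]) (hP : ∀ i, IsAdditive c (P i))
    (f : Fin m → κ[X]) (hf : ∀ i, HasWeight c D (f i))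
    (a : Fin m → ℕ) (ha2 : 2 * D * ∑ i, a i < p) {j s : ℕ} (hj0 : 0 < j) (hjp : j < p)
    (hs : s < r) (hbad : ¬ r / Nat.gcd r (bound p) ∣ s) (A : Multiset E)
    (hA : IsTowerL κ p r P f a z μ j s A) (x : E) (hx : x ∈ A) (M : ℕ) (hM : 0 < M) :
    x ^ M ≠ (Fintype.card κ : E) ^ M := by
  classical
  have hc : c.Prime := Fact.out
  obtain ⟨F, hF0, hF⟩ := FiniteField.card κ c
  have hF0' : 0 < (F : ℕ) := F.2
  obtain ⟨r1, hr1⟩ := hpr
  have hr10 : 0 < r1 := Nat.pos_of_ne_zero (by rintro h; rw [h, mul_zero] at hr1; omega)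
  have hrp : r / p = r1 := Nat.div_eq_of_eq_mul_right hp.pos hr1
  have hN2 : 2 ≤ r := by
    rw [hr1]
    calc 2 ≤ p := hp.two_le
      _ = p * 1 := (mul_one p).symm
      _ ≤ p * r1 := Nat.mul_le_mul_left p hr10
  -- `c` is prime to `r`
  have hcr : c.Coprime r := by
    have h1 : r ∣ c ^ (F : ℕ) - 1 := by
      rw [← hF]
      exact dvd_card_of_root hz (by omega)
    have h2 : 1 ≤ c ^ (F : ℕ) := Nat.one_le_pow _ _ hc.pos
    refine (Nat.Prime.coprime_iff_not_dvd hc).2 fun h3 => ?_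
    have h4 : c ∣ c ^ (F : ℕ) - 1 := h3.trans h1
    have h5 : c ∣ c ^ (F : ℕ) := dvd_pow_self c (by omega)
    have h6 := (Nat.dvd_sub_iff_right h2 h5).1 h4
    exact hc.one_lt.ne' (Nat.dvd_one.1 h6)
  have hjc : j.Coprime p := (Nat.coprime_of_lt_prime (by omega) hjp hp).symm
  obtain ⟨j', hj1, hj2, hj3⟩ := exists_mult hp hF0' hr ⟨r1, hr1⟩ hcr hjc hbad
  have hai : ∀ i, a i < p := by
    intro i
    have h1 : a i ≤ ∑ i, a i :=
      Finset.single_le_sum (fun i _ => Nat.zero_le (a i)) (Finset.mem_univ i)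
    have h2 : ∑ i, a i ≤ 2 * D * ∑ i, a i := Nat.le_mul_of_pos_left _ (by omega)
    omega
  have hc1 : c ≡ 1 [MOD p] := ((Nat.modEq_iff_dvd' hc.one_lt.le).2 hpc).symm
  have hce : ∀ e, c ^ e ≡ 1 [MOD p] := fun e => by
    have := hc1.pow e
    rwa [one_pow] at this
  have hfirst : ∀ i e, (j' * (r1 * (j * a i % p)) * c ^ e) % r = r1 * a i := by
    intro i e
    have h2 : j' * (r1 * (j * a i % p)) * c ^ e = r1 * (j' * (j * a i % p) * c ^ e) := by ring
    rw [h2, hr1, mul_comm p r1, Nat.mul_mod_mul_left]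
    congr 1
    have h3 : j' * (j * a i % p) * c ^ e ≡ a i [MOD p] := by
      calc j' * (j * a i % p) * c ^ e ≡ j' * (j * a i) * 1 [MOD p] :=
            ((Nat.mod_modEq _ _).mul_left j').mul (hce e)
        _ = (j' * j) * a i := by ring
        _ ≡ 1 * a i [MOD p] := hj2.mul_right _
        _ = a i := one_mul _
    have h4 : j' * (j * a i % p) * c ^ e % p = a i % p := h3
    rw [h4, Nat.mod_eq_of_lt (hai i)]
  have hsum : D * ∑ i, ∑ e ∈ range F, (j' * (r1 * (j * a i % p)) * c ^ e) % r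
      + ∑ e ∈ range F, (j' * s * c ^ e) % r < F * r := by
    simp_rw [hfirst]
    simp only [sum_const, card_range, smul_eq_mul]
    rw [← mul_sum, ← mul_sum]
    obtain ⟨S, hS⟩ : ∃ S, S = ∑ e ∈ range (F : ℕ), (j' * s * c ^ e) % r := ⟨_, rfl⟩
    rw [← hS] at hj3 ⊢
    by_contra hcon
    push Not at hcon
    have h1 : 2 * p * (F * r) ≤ 2 * p * (D * (F * (r1 * ∑ i, a i)) + S) :=
      Nat.mul_le_mul_left _ hcon
    have h2 : 2 * p * (D * (F * (r1 * ∑ i, a i)) + S)
        = F * r * (2 * D * ∑ i, a i) + 2 * p * S := by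
      rw [hr1]; ring
    have h3 : F * r * (2 * D * ∑ i, a i) ≤ F * r * (p - 1) := Nat.mul_le_mul_left _ (by omega)
    obtain ⟨p', rfl⟩ : ∃ p', p = p' + 1 := ⟨p - 1, by have := hp.pos; omega⟩
    rw [Nat.add_sub_cancel] at h3
    have h4 : F * (r * (p' + 1 + 1)) = F * r * p' + 2 * (F * r) := by ring
    have h5 : 2 * (p' + 1) * (F * r) = F * r * p' + (F * r * p' + 2 * (F * r)) := by ring
    omega
  obtain ⟨ν, hν⟩ : ∃ ν : E, IsPrimitiveRoot ν c := by
    have : NeZero ((c : ℕ) : E) := ⟨by exact_mod_cast hc.ne_zero⟩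
    exact HasEnoughRootsOfUnity.exists_primitiveRoot E c
  refine g_nonvanishW hN2 κ hF hz hμ hν hD P hP f hf (fun i => r1 * (j * a i % p)) ?_ s hs hj1 0
    ?_ 0 HasWeight.zero hsum A ?_ x hx M hM
  · intro i
    rw [hr1, mul_comm p r1]
    exact Nat.mul_lt_mul_of_pos_left (Nat.mod_lt _ hp.pos) hr10
  · intro n hn
    simp at hn
  · intro L _ _ _
    have : CharP L c := charP_of_injective_algebraMap (algebraMap κ L).injective c
    rw [hA L, towerSum_eq (c := c) p r _ _ a _ μ ν j s, hrp, Polynomial.map_zero]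

theorem tower_main {p r c D : ℕ} (hp : p.Prime) (hr : 0 < r) (hpr : p ∣ r)
    [Fact c.Prime] (hpc : p ∣ c - 1) (κ : Type) [Field κ] [Fintype κ] [CharP κ c]
    {z : κ} (hz : IsPrimitiveRoot z r) {E : Type} [Field E] [CharZero E] [IsAlgClosed E]
    {μ : E} (hμ : IsPrimitiveRoot μ r) {m : ℕ} (hD : 1 ≤ D)
    (P : Fin m → κ[X]) (hP : ∀ i, IsAdditive c (P i))
    (f : Fin m → κ[X]) (hf : ∀ i, HasWeight c D (f i))
    (a : Fin m → ℕ) (ha : ∀ i, 0 < a i) (ha2 : 2 * D * ∑ i, a i < p)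
    (A : ℕ → ℕ → Multiset E)
    (hA : ∀ j s, 0 < j → j < p → s ∈ newExp r (Nat.gcd r (bound p)) →
      IsTowerL κ p r P f a z μ j s (A j s)) :
    (∀ (L : Type) [Field L] [Fintype L] [Algebra κ L],
      ∑ j ∈ Ico 1 p, ∑ s ∈ newExp r (Nat.gcd r (bound p)),
          ((A j s).map fun x => x ^ Module.finrank κ L).sum
        = (towerPoints L p r (fun i => (P i).map (algebraMap κ L))
              (fun i => (f i).map (algebraMap κ L)) a : E)
          - (towerPoints L p (Nat.gcd r (bound p)) (fun i => (P i).map (algebraMap κ L))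
              (fun i => (f i).map (algebraMap κ L)) a : E)) ∧
    ∀ (ζ : E) (M : ℕ), 0 < M → ζ ^ M = 1 →
      (newPoly p r (Nat.gcd r (bound p)) A).eval (ζ * (Fintype.card κ : E)⁻¹) ≠ 0 := by
  classical
  obtain ⟨g, hg⟩ : ∃ g, g = Nat.gcd r (bound p) := ⟨_, rfl⟩
  have hgr : g ∣ r := by rw [hg]; exact Nat.gcd_dvd_left _ _
  rw [← hg] at hA ⊢
  refine ⟨?_, ?_⟩
  · intro L _ _ _
    have hzL : IsPrimitiveRoot (algebraMap κ L z) r :=
      hz.map_of_injective (algebraMap κ L).injective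
    have hap : ∀ i, 0 < a i ∧ a i < p := by
      intro i
      refine ⟨ha i, ?_⟩
      have h1 := single_le_sum (f := a) (fun _ _ => Nat.zero_le _) (mem_univ i)
      have h2 : ∑ i, a i ≤ 2 * D * ∑ i, a i := Nat.le_mul_of_pos_left _ (by omega)
      omega
    have h1 := tower_total hp hr hpr (dvd_refl r) hzL hμ (fun i => (P i).map (algebraMap κ L))
      (fun i => (f i).map (algebraMap κ L)) a hap
    have h2 := tower_total hp hr hpr hgr hzL hμ (fun i => (P i).map (algebraMap κ L))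
      (fun i => (f i).map (algebraMap κ L)) a hap
    rw [Nat.div_self hr] at h1
    simp only [one_mul] at h1
    obtain ⟨g1, hg1⟩ := hgr
    have hg0 : 0 < g := by rw [hg]; exact Nat.gcd_pos_of_pos_left _ hr
    have hg10 : 0 < g1 := Nat.pos_of_ne_zero (by rintro h; rw [h, mul_zero] at hg1; omega)
    have hrg : r / g = g1 := Nat.div_eq_of_eq_mul_right hg0 hg1
    have h3 : ∀ φ : ℕ → E, ∑ s ∈ range r, φ s
        = ∑ s ∈ newExp r g, φ s + ∑ s ∈ range g, φ ((r / g) * s) := by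
      intro φ
      rw [← sum_filter_add_sum_filter_not (range r) (fun s => r / g ∣ s), add_comm]
      congr 1
      rw [hrg]
      symm
      refine sum_bij (fun s _ => g1 * s) ?_ ?_ ?_ ?_
      · intro s hs
        rw [mem_range] at hs
        rw [mem_filter, mem_range, hg1, mul_comm g g1]
        exact ⟨Nat.mul_lt_mul_of_pos_left hs hg10, Dvd.intro _ rfl⟩
      · intro s _ s' _ h
        exact Nat.eq_of_mul_eq_mul_left hg10 h
      · intro s hs
        rw [mem_filter, mem_range] at hs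
        obtain ⟨h1, s', rfl⟩ := hs
        refine ⟨s', ?_, rfl⟩
        rw [mem_range]
        rw [hg1, mul_comm g g1] at h1
        exact Nat.lt_of_mul_lt_mul_left h1
      · intro s _
        rfl
    have h4 : ∑ j ∈ Ico 1 p, ∑ s ∈ newExp r g,
        ((A j s).map fun x => x ^ Module.finrank κ L).sum
        = ∑ j ∈ Ico 1 p, ∑ s ∈ newExp r g, towerSum L E p r
          (fun i => (P i).map (algebraMap κ L)) (fun i => (f i).map (algebraMap κ L)) a
          (algebraMap κ L z) μ j s := by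
      refine sum_congr rfl fun j hj => sum_congr rfl fun s hs => ?_
      rw [mem_Ico] at hj
      exact hA j s hj.1 hj.2 hs L
    simp_rw [h3] at h1
    rw [sum_add_distrib, h2] at h1
    rw [h4]
    linear_combination h1
  · intro ζ M hM hζ h0
    have hq : (Fintype.card κ : E) ≠ 0 := by exact_mod_cast Fintype.card_ne_zero
    unfold newPoly at h0
    rw [eval_prod, prod_eq_zero_iff] at h0
    obtain ⟨j, hj, h0⟩ := h0
    rw [eval_prod, prod_eq_zero_iff] at h0
    obtain ⟨s, hs, h0⟩ := h0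
    rw [eval_multiset_prod, Multiset.prod_eq_zero_iff, Multiset.map_map, Multiset.mem_map] at h0
    obtain ⟨x, hx, h0⟩ := h0
    simp only [Function.comp, eval_sub, eval_one, eval_mul, eval_C, eval_X] at h0
    have h1 : x * ζ = (Fintype.card κ : E) := by
      have h2 : x * (ζ * (Fintype.card κ : E)⁻¹) = 1 := (sub_eq_zero.mp h0).symm
      field_simp at h2
      linear_combination h2
    rw [mem_Ico] at hj
    have hA1 := hA j s hj.1 hj.2 hs
    unfold newExp at hs
    rw [mem_filter, mem_range] at hs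
    refine tower_ne hp hr hpr hpc κ hz hμ hD P hP f hf a ha2 hj.1 hj.2 hs.1 ?_ (A j s)
      hA1 x hx M hM ?_
    · rw [← hg]
      exact hs.2
    · rw [← h1, mul_pow, hζ, mul_one]

end Pool.Agent.J4.H42.Tw
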