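import Pool.Agent.W108.HD.ONE

/-!
# p-adic bounds for sums in one variable in terms of the weights of the exponents

Here `c` is the characteristic, and the weight of an exponent is the least number of powers of `c`
with this sum.
-/

set_option autoImplicit false

namespace Pool.Agent.J4.H42.Wt

open Finset Polynomial Pool.Agent.W528.HA Pool.Agent.W528.HB Pool.Agent.W528.HD
  Pool.Agent.W108.HD.ONE

/-- `n` is a sum of at most `D` powers of `c` (with repetitions allowed). -/
def IsSumPow (c D n : ℕ) : Prop :=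
  ∃ s : Multiset ℕ, Multiset.card s ≤ D ∧ (s.map fun i => c ^ i).sum = n

/-- All exponents of the monomials of `f` are sums of at most `D` powers of `c`. -/
def HasWeight {L : Type} [Field L] (c D : ℕ) (f : L[X]) : Prop := ∀ n ∈ f.support, IsSumPow c D n

/-- All exponents of the monomials of `f` are powers of `c`. -/
def IsAdditive {L : Type} [Field L] (c : ℕ) (f : L[X]) : Prop := ∀ n ∈ f.support, ∃ i, n = c ^ i

section

variable {c : ℕ} [Fact c.Prime] {L : Type} [Field L] [Fintype L] [CharP L c]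

/-- Gauss sums are invariant under Frobenius. -/
lemma gauss_frob {ψ : AddChar L (PadicAlgCl c)} (hψc : ∀ y, ψ (y ^ c) = ψ y)
    (θ : MulChar L (PadicAlgCl c)) : gaussSum (θ ^ c) ψ = gaussSum θ ψ := by
  unfold gaussSum
  have hc : c ≠ 0 := (Fact.out : c.Prime).ne_zero
  refine Fintype.sum_bijective (fun y : L => y ^ c) 
    (Finite.injective_iff_bijective.1 (frobenius_inj L c)) _ _ fun y => ?_
  rw [MulChar.pow_apply' θ hc, ← map_pow, hψc]

lemma gauss_frob_pow {ψ : AddChar L (PadicAlgCl c)} (hψc : ∀ y, ψ (y ^ c) = ψ y)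
    (θ : MulChar L (PadicAlgCl c)) (i : ℕ) : gaussSum (θ ^ c ^ i) ψ = gaussSum θ ψ := by
  induction i with
  | zero => rw [pow_zero, pow_one]
  | succ i ih => rw [pow_succ, pow_mul, gauss_frob hψc, ih]

/-- The estimate for powers with exponents which are sums of powers of `c`. -/
lemma lam_multi (hGN : GN) (hSA : SA) {ψ : AddChar L (PadicAlgCl c)} (hψ : ψ.IsPrimitive)
    (hψc : ∀ y, ψ (y ^ c) = ψ y) (θ : MulChar L (PadicAlgCl c)) (s : Multiset ℕ) :
    ‖gaussSum θ ψ‖ ^ Multiset.card s ≤ ‖gaussSum (θ ^ (s.map fun i => c ^ i).sum) ψ‖ := by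
  induction s using Multiset.induction_on with
  | empty =>
    rw [Multiset.card_zero, pow_zero, Multiset.map_zero, Multiset.sum_zero, pow_zero,
      (hGN c L ψ hψ).1]
  | cons i s ih =>
    rw [Multiset.card_cons, Multiset.map_cons, Multiset.sum_cons, pow_succ, pow_add, mul_comm]
    refine le_trans ?_ (hSA c L (θ ^ c ^ i) (θ ^ (s.map fun i => c ^ i).sum) ψ hψ)
    rw [gauss_frob_pow hψc]
    exact mul_le_mul_of_nonneg_left ih (norm_nonneg _)

lemma lam_weight (hGN : GN) (hSA : SA) {ψ : AddChar L (PadicAlgCl c)} (hψ : ψ.IsPrimitive)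
    (hψc : ∀ y, ψ (y ^ c) = ψ y) (θ : MulChar L (PadicAlgCl c)) {k D : ℕ}
    (hk : IsSumPow c D k) : ‖gaussSum θ ψ‖ ^ D ≤ ‖gaussSum (θ ^ k) ψ‖ := by
  obtain ⟨s, hs, rfl⟩ := hk
  exact (pow_le_pow_of_le_one (norm_nonneg _) (lam_le θ ψ) hs).trans
    (lam_multi hGN hSA hψ hψc θ s)

/-- The estimate for the characters of order dividing an exponent. -/
lemma lam_card (hGN : GN) (hSA : SA) {ψ : AddChar L (PadicAlgCl c)} (hψ : ψ.IsPrimitive)
    (hψc : ∀ y, ψ (y ^ c) = ψ y) {θ : MulChar L (PadicAlgCl c)} (hθ : θ ≠ 1) {k D : ℕ}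
    (hk0 : k ≠ 0) (hk : IsSumPow c D k) (h : θ ^ k = 1) :
    ‖gaussSum θ ψ‖ ^ D ≤ ‖((Fintype.card L : ℕ) : PadicAlgCl c)‖ := by
  obtain ⟨s, hs, rfl⟩ := hk
  refine (pow_le_pow_of_le_one (norm_nonneg _) (lam_le θ ψ) hs).trans ?_
  obtain ⟨i, s, rfl⟩ : ∃ i s', s = i ::ₘ s' := by
    have h0 : s ≠ 0 := by
      rintro rfl
      exact hk0 (by simp)
    obtain ⟨i, hi⟩ := Multiset.exists_mem_of_ne_zero h0
    exact ⟨i, s.erase i, (Multiset.cons_erase hi).symm⟩
  rw [Multiset.map_cons, Multiset.sum_cons, pow_add] at h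
  have h1 := lam_multi hGN hSA hψ hψc θ s
  have h2 : θ ^ (s.map fun i => c ^ i).sum = θ⁻¹ ^ c ^ i := by
    rw [inv_pow]
    exact eq_inv_of_mul_eq_one_right h
  rw [h2, gauss_frob_pow hψc] at h1
  rw [Multiset.card_cons, pow_succ, ← (hGN c L ψ hψ).2 θ hθ, mul_comm]
  exact mul_le_mul_of_nonneg_left h1 (norm_nonneg _)

theorem keyW (hGN : GN) (hIN : IN) (hSA : SA) {ψ : AddChar L (PadicAlgCl c)}
    (hψ : ψ.IsPrimitive) (hψc : ∀ y, ψ (y ^ c) = ψ y) {D : ℕ} (hD : 1 ≤ D) (b : ℕ → L)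
    (hb : ∀ n, b n ≠ 0 → IsSumPow c D n) (n : ℕ) :
    (∀ θ : MulChar L (PadicAlgCl c), θ ≠ 1 → ‖II ψ b n θ‖ ^ D ≤ ‖gaussSum θ⁻¹ ψ‖) ∧
      ‖II ψ b n 1 - (((Fintype.card L : ℕ) : PadicAlgCl c) - 1)‖ ^ D ≤
        ‖((Fintype.card L : ℕ) : PadicAlgCl c)‖ := by
  classical
  induction n with
  | zero =>
    refine ⟨fun θ hθ => ?_, ?_⟩
    · have : II ψ b 0 θ = 0 := by
        unfold II PP
        simp only [range_zero, prod_empty, mul_one]
        exact MulChar.sum_eq_zero_of_ne_one (inv_ne_one.2 hθ)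
      rw [this, norm_zero, zero_pow (by omega)]
      exact norm_nonneg _
    · have : II ψ b 0 1 = ((Fintype.card L : ℕ) : PadicAlgCl c) - 1 := by
        unfold II PP
        simp only [range_zero, prod_empty, mul_one, inv_one]
        rw [MulChar.sum_one_eq_card_units, Fintype.card_units, Nat.cast_sub Fintype.card_pos,
          Nat.cast_one]
      rw [this, sub_self, norm_zero, zero_pow (by omega)]
      exact norm_nonneg _
  | succ n ih =>
    obtain ⟨iha, ihb⟩ := ih
    by_cases hbn : b (n + 1) = 0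
    · have h0 : ∀ θ, II ψ b (n + 1) θ = II ψ b n θ := by
        intro θ
        unfold II PP
        refine sum_congr rfl fun t _ => ?_
        rw [prod_range_succ, hbn, zero_mul, AddChar.map_zero_eq_one, mul_one]
      refine ⟨fun θ hθ => ?_, ?_⟩
      · rw [h0]; exact iha θ hθ
      · rw [h0]; exact ihb
    · have hn := hb (n + 1) hbn
      have : Fintype (MulChar L (PadicAlgCl c)) := Fintype.ofFinite _
      obtain ⟨q, hq⟩ : ∃ q : PadicAlgCl c, q = ((Fintype.card L : ℕ) : PadicAlgCl c) := ⟨_, rfl⟩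
      have hrec := rec hIN ψ b n hbn
      have hq1 : ‖((Fintype.card L : ℕ) : PadicAlgCl c) - 1‖ = 1 := norm_card_sub_one
      have hqlt : ‖((Fintype.card L : ℕ) : PadicAlgCl c)‖ < 1 := norm_card_lt
      have hGN2 : ∀ θ : MulChar L (PadicAlgCl c), θ ≠ 1 →
        ‖gaussSum θ ψ‖ * ‖gaussSum θ⁻¹ ψ‖ = ‖((Fintype.card L : ℕ) : PadicAlgCl c)‖ :=
        (hGN c L ψ hψ).2
      have hcard : ∀ θ : MulChar L (PadicAlgCl c), θ ≠ 1 → θ ^ (n + 1) = 1 →
          ‖gaussSum θ ψ‖ ^ D ≤ ‖((Fintype.card L : ℕ) : PadicAlgCl c)‖ := fun θ hθ h =>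
        lam_card hGN hSA hψ hψc hθ (by omega) hn h
      rw [← hq] at hq1 hqlt ihb hGN2 hrec hcard ⊢
      -- a single term
      have hterm : ∀ η ξ : MulChar L (PadicAlgCl c),
          ‖gaussSum η⁻¹ ψ * η (b (n + 1)) * II ψ b n ξ‖ ^ D ≤
            ‖gaussSum η⁻¹ ψ‖ ^ D * ‖II ψ b n ξ‖ ^ D := by
        intro η ξ
        rw [norm_mul, norm_mul, ← mul_pow]
        refine pow_le_pow_left₀ (by positivity) ?_ D
        refine mul_le_mul_of_nonneg_right ?_ (norm_nonneg _)
        exact mul_le_of_le_one_right (norm_nonneg _) (mulChar_norm_le _ _)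
      refine ⟨fun θ hθ => ?_, ?_⟩
      · have h1 : ‖II ψ b (n + 1) θ‖ = ‖(q - 1) * II ψ b (n + 1) θ‖ := by
          rw [norm_mul, hq1, one_mul]
        rw [h1, hrec θ]
        refine sum_pow_le _ _ hD (norm_nonneg _) fun η _ => ?_
        refine (hterm η _).trans ?_
        have h2 := lam_weight hGN hSA hψ hψc η⁻¹ hn
        by_cases hc : θ * (η ^ (n + 1))⁻¹ = 1
        · have h3 : θ⁻¹ = η⁻¹ ^ (n + 1) := by
            rw [inv_pow, mul_inv_eq_one.1 hc]
          rw [h3]
          refine (mul_le_of_le_one_right (by positivity) ?_).trans h2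
          exact pow_le_one₀ (norm_nonneg _) (II_norm _ _ _ _)
        · have h3 := iha _ hc
          have h4 := hSA c L (η⁻¹ ^ (n + 1)) (θ * (η ^ (n + 1))⁻¹)⁻¹ ψ hψ
          have h5 : η⁻¹ ^ (n + 1) * (θ * (η ^ (n + 1))⁻¹)⁻¹ = θ⁻¹ := by
            rw [mul_inv, inv_inv, inv_pow]
            rw [mul_comm, mul_assoc, mul_inv_cancel, mul_one]
          rw [h5] at h4
          refine le_trans ?_ h4
          exact mul_le_mul h2 h3 (by positivity) (norm_nonneg _)
      · have h1 : ‖II ψ b (n + 1) 1 - (q - 1)‖ = ‖(q - 1) * II ψ b (n + 1) 1 - (q - 1) ^ 2‖ := by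
          have : (q - 1) * II ψ b (n + 1) 1 - (q - 1) ^ 2 =
            (q - 1) * (II ψ b (n + 1) 1 - (q - 1)) := by ring
          rw [this, norm_mul, hq1, one_mul]
        have hψ1 : ψ ≠ 1 := by
          intro h
          have := hψ (one_ne_zero (α := L))
          apply this
          rw [h]
          ext x
          simp
        rw [h1, hrec 1, ← add_sum_erase _ _ (mem_univ (1 : MulChar L (PadicAlgCl c)))]
        have h2 : gaussSum (1 : MulChar L (PadicAlgCl c))⁻¹ ψ *
              (1 : MulChar L (PadicAlgCl c)) (b (n + 1)) *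
            II ψ b n (1 * ((1 : MulChar L (PadicAlgCl c)) ^ (n + 1))⁻¹) = - II ψ b n 1 := by
          rw [inv_one, gaussSum_one_left hψ1, one_pow, inv_one, mul_one,
            MulChar.one_apply (Ne.isUnit hbn)]
          ring
        rw [h2]
        have h3 : - II ψ b n 1 + ∑ η ∈ univ.erase (1 : MulChar L (PadicAlgCl c)),
              gaussSum η⁻¹ ψ * η (b (n + 1)) * II ψ b n (1 * (η ^ (n + 1))⁻¹) - (q - 1) ^ 2
            = (-(II ψ b n 1 - (q - 1)) + -((q - 1) * q)) +
              ∑ η ∈ univ.erase (1 : MulChar L (PadicAlgCl c)),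
                gaussSum η⁻¹ ψ * η (b (n + 1)) * II ψ b n (1 * (η ^ (n + 1))⁻¹) := by ring
        rw [h3]
        refine add_pow_le (add_pow_le ?_ ?_) ?_
        · rw [norm_neg]
          exact ihb
        · rw [norm_neg, norm_mul, hq1, one_mul]
          calc ‖q‖ ^ D ≤ ‖q‖ ^ 1 := pow_le_pow_of_le_one (norm_nonneg _) hqlt.le hD
            _ = ‖q‖ := pow_one _
        · refine sum_pow_le _ _ hD (norm_nonneg _) fun η hη => ?_
          have hη1 : η ≠ 1 := (mem_erase.1 hη).1
          refine (hterm η _).trans ?_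
          rw [one_mul]
          by_cases hc : η ^ (n + 1) = 1
          · refine (mul_le_of_le_one_right (by positivity)
              (pow_le_one₀ (norm_nonneg _) (II_norm _ _ _ _))).trans ?_
            exact hcard η⁻¹ (inv_ne_one.2 hη1) (by rw [inv_pow, hc, inv_one])
          · have h4 := lam_weight hGN hSA hψ hψc η⁻¹ hn
            have h5 := iha (η ^ (n + 1))⁻¹ (inv_ne_one.2 hc)
            rw [inv_inv] at h5
            rw [inv_pow] at h4
            rw [← hGN2 _ hc, mul_comm ‖gaussSum (η ^ (n + 1)) ψ‖]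
            exact mul_le_mul h4 h5 (by positivity) (norm_nonneg _)

/-- **Sums in one variable.** -/
theorem oneW (hGN : GN) (hIN : IN) (hSA : SA) {ψ : AddChar L (PadicAlgCl c)}
    (hψ : ψ.IsPrimitive) (hψc : ∀ y, ψ (y ^ c) = ψ y) {D : ℕ} (hD : 1 ≤ D) (g : L[X])
    (hg : HasWeight c D g) :
    ‖∑ t : L, ψ (g.eval t)‖ ^ D ≤ ‖((Fintype.card L : ℕ) : PadicAlgCl c)‖ ∧
      ∀ θ : MulChar L (PadicAlgCl c), θ ≠ 1 →
        ‖∑ t : L, θ t * ψ (g.eval t)‖ ^ D ≤ ‖gaussSum θ ψ‖ := by
  classical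
  obtain ⟨h1, h2⟩ := keyW hGN hIN hSA hψ hψc hD g.coeff
    (fun n hn => hg n (mem_support_iff.2 hn)) g.natDegree
  have hPP : ∀ t : L, ψ (g.eval t) = ψ (g.coeff 0) * PP ψ g.coeff g.natDegree t := by
    intro t
    rw [Polynomial.eval_eq_sum_range' (Nat.lt_succ_self _), sum_range_succ', pow_zero, mul_one,
      AddChar.map_add_eq_mul, mul_comm]
    congr 1
    unfold PP
    generalize g.natDegree = m
    induction m with
    | zero => simp
    | succ m ih => rw [sum_range_succ, prod_range_succ, AddChar.map_add_eq_mul, ih]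
  generalize g.natDegree = D' at h1 h2 hPP
  refine ⟨?_, fun θ hθ => ?_⟩
  · have e1 : ∑ t : L, ψ (g.eval t) = ψ (g.coeff 0) *
        (((Fintype.card L : ℕ) : PadicAlgCl c) +
          (II ψ g.coeff D' 1 - (((Fintype.card L : ℕ) : PadicAlgCl c) - 1))) := by
      have e2 : ∑ t : L, PP ψ g.coeff D' t = 1 + II ψ g.coeff D' 1 := by
        unfold II
        rw [← add_sum_erase _ _ (mem_univ (0 : L)), ← add_sum_erase _ (fun t : L =>
          (1 : MulChar L (PadicAlgCl c))⁻¹ t * PP ψ g.coeff D' t) (mem_univ (0 : L))]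
        have e3 : PP ψ g.coeff D' 0 = 1 := by
          unfold PP
          refine prod_eq_one fun k _ => ?_
          rw [zero_pow (by omega), mul_zero, AddChar.map_zero_eq_one]
        rw [e3, MulChar.map_zero, zero_mul, zero_add]
        congr 1
        refine sum_congr rfl fun t ht => ?_
        rw [inv_one, MulChar.one_apply (Ne.isUnit (mem_erase.1 ht).1), one_mul]
      simp_rw [hPP]
      rw [← mul_sum, e2]
      ring
    rw [e1, norm_mul, psi_norm, one_mul]
    refine add_pow_le ?_ h2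
    calc ‖((Fintype.card L : ℕ) : PadicAlgCl c)‖ ^ D
        ≤ ‖((Fintype.card L : ℕ) : PadicAlgCl c)‖ ^ 1 :=
          pow_le_pow_of_le_one (norm_nonneg _) norm_card_lt.le hD
      _ = _ := pow_one _
  · have e1 : ∑ t : L, θ t * ψ (g.eval t) = ψ (g.coeff 0) * II ψ g.coeff D' θ⁻¹ := by
      unfold II
      rw [mul_sum]
      refine sum_congr rfl fun t _ => ?_
      rw [hPP, inv_inv]
      ring
    have e2 := h1 θ⁻¹ (inv_ne_one.2 hθ)
    rw [inv_inv] at e2
    rw [e1, norm_mul, psi_norm, one_mul]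
    exact e2

end

end Pool.Agent.J4.H42.Wt
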