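import Pool.Agent.J4.H42.WtA
import Pool.Agent.W800.HA.GD
import Pool.Agent.W528.HG.Est
import Pool.Agent.W308.HG.AV
import Pool.Agent.W551.HD.GN
import Pool.Agent.W340.HD.IN
import Pool.Agent.W135.HB.SA

/-!
# p-adic bounds for sums in two variables: additive polynomials and weights
-/

set_option autoImplicit false

namespace Pool.Agent.J4.H42.Wt

open Finset Polynomial Pool.Agent.W528.HA Pool.Agent.W528.HB Pool.Agent.W528.HD
  Pool.Agent.W528.HG Pool.Agent.W800.HA.GD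

section basic

variable {L : Type} [Field L] {c : ℕ}

lemma IsSumPow.mono {D D' n : ℕ} (h : IsSumPow c D n) (hD : D ≤ D') : IsSumPow c D' n := by
  obtain ⟨s, hs, h⟩ := h
  exact ⟨s, hs.trans hD, h⟩

lemma HasWeight.add {D : ℕ} {f g : L[X]} (hf : HasWeight c D f) (hg : HasWeight c D g) :
    HasWeight c D (f + g) := by
  classical
  intro n hn
  rcases Finset.mem_union.1 (support_add hn) with h | h
  · exact hf n h
  · exact hg n h

lemma HasWeight.zero {D : ℕ} : HasWeight c D (0 : L[X]) := by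
  intro n hn
  simp at hn

lemma HasWeight.sum {D : ℕ} {ι : Type} (S : Finset ι) (f : ι → L[X])
    (h : ∀ i ∈ S, HasWeight c D (f i)) : HasWeight c D (∑ i ∈ S, f i) := by
  classical
  induction S using Finset.induction_on with
  | empty => rw [sum_empty]; exact HasWeight.zero
  | insert i S hi ih =>
    rw [sum_insert hi]
    exact (h i (mem_insert_self _ _)).add (ih fun i' hi' => h i' (mem_insert_of_mem hi'))

lemma HasWeight.C_mul {D : ℕ} {f : L[X]} (u : L) (hf : HasWeight c D f) :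
    HasWeight c D (C u * f) := fun n hn =>
  hf n (by
    rw [mem_support_iff, coeff_C_mul] at hn
    rw [mem_support_iff]
    exact right_ne_zero_of_mul hn)

lemma HasWeight.map {D : ℕ} {f : L[X]} {L' : Type} [Field L'] (g : L →+* L')
    (hf : HasWeight c D f) : HasWeight c D (f.map g) := fun n hn => hf n (support_map_subset g f hn)

lemma IsAdditive.map {f : L[X]} {L' : Type} [Field L'] (g : L →+* L')
    (hf : IsAdditive c f) : IsAdditive c (f.map g) := fun n hn => hf n (support_map_subset g f hn)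

lemma IsAdditive.eval_add [Fact c.Prime] [CharP L c] {f : L[X]} (hf : IsAdditive c f) (x y : L) :
    f.eval (x + y) = f.eval x + f.eval y := by
  rw [eval_eq_sum, eval_eq_sum, eval_eq_sum, Polynomial.sum_def, Polynomial.sum_def,
    Polynomial.sum_def, ← sum_add_distrib]
  refine sum_congr rfl fun n hn => ?_
  obtain ⟨i, rfl⟩ := hf n hn
  rw [add_pow_char_pow]
  ring

end basic

section

variable {c : ℕ} [Fact c.Prime]

/-- An additive function gives a sum which is zero or the number of elements. -/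
lemma sum_additive {L : Type} [Field L] [Fintype L] [CharP L c]
    (ψ : AddChar L (PadicAlgCl c)) (α : L → L) (hα : ∀ x y, α (x + y) = α x + α y) :
    ‖∑ x : L, ψ (α x)‖ ≤ ‖((Fintype.card L : ℕ) : PadicAlgCl c)‖ := by
  classical
  have h0 : α 0 = 0 := by
    have := hα 0 0
    rw [add_zero] at this
    exact left_eq_add.1 this
  obtain ⟨φ, hφ⟩ : ∃ φ : AddChar L (PadicAlgCl c), ∀ x, φ x = ψ (α x) :=
    ⟨⟨fun x => ψ (α x), by rw [h0, AddChar.map_zero_eq_one],
      fun x y => by rw [hα, AddChar.map_add_eq_mul]⟩, fun x => rfl⟩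
  have h1 : ∑ x : L, ψ (α x) = ∑ x : L, φ x := sum_congr rfl fun x _ => (hφ x).symm
  rw [h1, AddChar.sum_eq_ite]
  split_ifs
  · exact le_rfl
  · rw [norm_zero]
    exact norm_nonneg _

/-- **Sums in two variables.** -/
theorem twoW {L : Type} [Field L] [Fintype L] [CharP L c]
    (ψ : AddChar L (PadicAlgCl c)) {D : ℕ} (ι : Type) [Fintype ι]
    (P : ι → L[X]) (hP : ∀ i, IsAdditive c (P i)) (f : ι → L[X]) (hf : ∀ i, HasWeight c D (f i))
    (P0 : L[X]) (hP0 : IsAdditive c P0)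
    (χ : ι → MulChar L (PadicAlgCl c)) (hχ : ∀ i, χ i ≠ 1)
    (τ : L → PadicAlgCl c) (B : ℝ) (hB : 0 ≤ B)
    (hτ : ∀ g : L[X], HasWeight c D g → ‖∑ t : L, τ t * ψ (g.eval t)‖ ≤ B) :
    (∏ i, ‖gaussSum (χ i)⁻¹ ψ‖)
        * ‖∑ x : L, ∑ t : L, (τ t * ψ (P0.eval x)) * ∏ i, χ i ((P i).eval x + (f i).eval t)‖
      ≤ ‖((Fintype.card L : ℕ) : PadicAlgCl c)‖ * B := by
  classical
  have key : (∏ i, gaussSum (χ i)⁻¹ ψ) *
      ∑ x : L, ∑ t : L, (τ t * ψ (P0.eval x)) * ∏ i, χ i ((P i).eval x + (f i).eval t)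
      = ∑ u : ι → L, (∏ i, (χ i)⁻¹ (u i)) *
        ((∑ x : L, ψ (P0.eval x + ∑ i, u i * (P i).eval x)) *
        (∑ t : L, τ t * ψ ((∑ i, C (u i) * f i).eval t))) := by
    have h1 : ∀ x t : L, (∏ i, gaussSum (χ i)⁻¹ ψ) * ∏ i, χ i ((P i).eval x + (f i).eval t)
        = ∑ u : ι → L, (∏ i, (χ i)⁻¹ (u i)) *
          (ψ (∑ i, u i * (P i).eval x) * ψ ((∑ i, C (u i) * f i).eval t)) := by
      intro x t
      rw [← prod_mul_distrib]
      have h2 : ∀ i, gaussSum (χ i)⁻¹ ψ * χ i ((P i).eval x + (f i).eval t)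
          = ∑ s : L, (χ i)⁻¹ s * ψ (s * ((P i).eval x + (f i).eval t)) :=
        fun i => one (χ i) ψ (hχ i) _
      rw [prod_congr rfl (fun i _ => h2 i), Finset.prod_univ_sum, Fintype.piFinset_univ]
      apply sum_congr rfl
      intro u _
      rw [prod_mul_distrib]
      congr 1
      rw [← msum, ← AddChar.map_add_eq_mul]
      congr 1
      rw [eval_finset_sum, ← sum_add_distrib]
      apply sum_congr rfl
      intro i _
      rw [eval_mul, eval_C]
      ring
    rw [mul_sum]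
    have h3 : ∀ x : L, (∏ i, gaussSum (χ i)⁻¹ ψ) *
        ∑ t : L, (τ t * ψ (P0.eval x)) * ∏ i, χ i ((P i).eval x + (f i).eval t)
        = ∑ u : ι → L, (∏ i, (χ i)⁻¹ (u i)) * (ψ (P0.eval x + ∑ i, u i * (P i).eval x) *
          (∑ t : L, τ t * ψ ((∑ i, C (u i) * f i).eval t))) := by
      intro x
      rw [mul_sum]
      have h4 : ∀ t : L, (∏ i, gaussSum (χ i)⁻¹ ψ) *
          ((τ t * ψ (P0.eval x)) * ∏ i, χ i ((P i).eval x + (f i).eval t))
          = ∑ u : ι → L, (∏ i, (χ i)⁻¹ (u i)) *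
            (ψ (P0.eval x + ∑ i, u i * (P i).eval x)
              * (τ t * ψ ((∑ i, C (u i) * f i).eval t))) := by
        intro t
        rw [mul_left_comm, h1, mul_sum]
        apply sum_congr rfl
        intro u _
        rw [AddChar.map_add_eq_mul]
        ring
      rw [sum_congr rfl (fun t _ => h4 t), sum_comm]
      apply sum_congr rfl
      intro u _
      rw [← mul_sum, ← mul_sum]
    rw [sum_congr rfl (fun x _ => h3 x), sum_comm]
    apply sum_congr rfl
    intro u _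
    rw [← mul_sum, ← sum_mul]
  rw [← norm_prod, ← norm_mul, key]
  apply IsUltrametricDist.norm_sum_le_of_forall_le_of_nonneg
    (mul_nonneg (norm_nonneg _) hB)
  intro u _
  rw [norm_mul, norm_mul]
  have h1 : ‖∏ i, (χ i)⁻¹ (u i)‖ ≤ 1 := by
    rw [norm_prod]
    exact prod_le_one (fun i _ => norm_nonneg _) fun i _ => mulChar_norm_le _ _
  have h2 : ‖∑ x : L, ψ (P0.eval x + ∑ i, u i * (P i).eval x)‖
      ≤ ‖((Fintype.card L : ℕ) : PadicAlgCl c)‖ := by
    refine sum_additive ψ (fun x => P0.eval x + ∑ i, u i * (P i).eval x) fun x y => ?_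
    simp only [hP0.eval_add, (hP _).eval_add, mul_add, sum_add_distrib]
    ring
  have h3 : ‖∑ t : L, τ t * ψ ((∑ i, C (u i) * f i).eval t)‖ ≤ B := by
    apply hτ
    exact HasWeight.sum _ _ fun i _ => (hf i).C_mul _
  calc _ ≤ 1 * (‖((Fintype.card L : ℕ) : PadicAlgCl c)‖ * B) :=
        mul_le_mul h1 (mul_le_mul h2 h3 (norm_nonneg _) (norm_nonneg _))
          (mul_nonneg (norm_nonneg _) (norm_nonneg _)) zero_le_one
    _ = _ := one_mul _

theorem two_estW (hGN : GN) (hIN : IN) (hSA : SA) (hDG : DG) (hDI : DI)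
    {L : Type} [Field L] [Fintype L] [CharP L c]
    (w : MulChar L (PadicAlgCl c)) (ψ : AddChar L (PadicAlgCl c)) (hψ : ψ.IsPrimitive)
    (hψc : ∀ y, ψ (y ^ c) = ψ y)
    (hw : ‖((c : ℕ) : PadicAlgCl c)‖ ≤ ‖gaussSum w⁻¹ ψ‖ ^ (c - 1)) {N F : ℕ}
    (hF : Fintype.card L = c ^ F) (hN : N ∣ Fintype.card L - 1) (hF0 : 0 < F)
    (hne : ∀ b, 1 ≤ b → b < N → (w ^ ((Fintype.card L - 1) / N)) ^ b ≠ 1)
    {D : ℕ} (hD : 1 ≤ D) (ι : Type) [Fintype ι]
    (P : ι → L[X]) (hP : ∀ i, IsAdditive c (P i)) (f : ι → L[X]) (hf : ∀ i, HasWeight c D (f i))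
    (b : ι → ℕ) (hb : ∀ i, 1 ≤ b i ∧ b i < N) (b0 : ℕ) (hb0 : b0 < N)
    (P0 : L[X]) (hP0 : IsAdditive c P0) (G : L[X]) (hG : HasWeight c D G) :
    ‖∑ x : L, ∑ t : L, ((if b0 = 0 then 1 else ((w ^ ((Fintype.card L - 1) / N)) ^ b0) t)
          * ψ (P0.eval x + G.eval t))
        * ∏ i, ((w ^ ((Fintype.card L - 1) / N)) ^ b i) ((P i).eval x + (f i).eval t)‖ ^ (D * N)
        * ‖((c : ℕ) : PadicAlgCl c)‖ ^ (D * ∑ i, ∑ e ∈ range F, (b i * c ^ e) % N
          + ∑ e ∈ range F, (b0 * c ^ e) % N)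
      ≤ ‖((c : ℕ) : PadicAlgCl c)‖ ^ (F * (D + 1) * N) := by
  classical
  set T := w ^ ((Fintype.card L - 1) / N) with hT
  set ρ := ‖((c : ℕ) : PadicAlgCl c)‖ with hρ
  set q := ‖((Fintype.card L : ℕ) : PadicAlgCl c)‖ with hq
  have hq0 : 0 < q := norm_card_pos (c := c) (L := L)
  obtain ⟨Y, lam0, hY0, hl0, hYl, hlam, hB⟩ : ∃ Y lam0 : ℝ, 0 ≤ Y ∧ 0 ≤ lam0 ∧ Y * lam0 = q ∧
      ρ ^ (∑ e ∈ range F, (b0 * c ^ e) % N) ≤ lam0 ^ N ∧
      ∀ g : L[X], HasWeight c D g →
        ‖∑ t : L, ((if b0 = 0 then 1 else (T ^ b0) t) * ψ (G.eval t)) * ψ (g.eval t)‖ ^ D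
          ≤ Y := by
    have hcomb : ∀ g : L[X], ∀ t : L,
        ((if b0 = 0 then 1 else (T ^ b0) t) * ψ (G.eval t)) * ψ (g.eval t)
          = (if b0 = 0 then 1 else (T ^ b0) t) * ψ ((G + g).eval t) := by
      intro g t
      rw [eval_add, AddChar.map_add_eq_mul, mul_assoc]
    by_cases h0 : b0 = 0
    · refine ⟨q, 1, hq0.le, zero_le_one, mul_one q, ?_, ?_⟩
      · simp [h0]
      · intro g hg
        rw [sum_congr rfl fun t _ => hcomb g t]
        simp only [h0, if_true, one_mul]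
        exact (oneW hGN hIN hSA hψ hψc hD _ (hG.add hg)).1
    · refine ⟨‖gaussSum (T ^ b0) ψ‖, ‖gaussSum (T ^ b0)⁻¹ ψ‖, norm_nonneg _, norm_nonneg _,
        (hGN c L ψ hψ).2 _ (hne b0 (Nat.one_le_iff_ne_zero.mpr h0) hb0), ?_, ?_⟩
      · exact norm_gauss hDG hDI w ψ hψ hψc hw hF hN hF0 b0 hb0
      · intro g hg
        rw [sum_congr rfl fun t _ => hcomb g t]
        simp only [h0, if_false]
        exact (oneW hGN hIN hSA hψ hψc hD _ (hG.add hg)).2 _
          (hne b0 (Nat.one_le_iff_ne_zero.mpr h0) hb0)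
  set B := Y ^ ((D : ℝ)⁻¹) with hBdef
  have hD0 : D ≠ 0 := by omega
  have hB0 : 0 ≤ B := Real.rpow_nonneg hY0 _
  have hBD : B ^ D = Y := by
    rw [hBdef, ← Real.rpow_natCast, ← Real.rpow_mul hY0,
      inv_mul_cancel₀ (by exact_mod_cast hD0), Real.rpow_one]
  have hre : ∑ x : L, ∑ t : L, ((if b0 = 0 then 1 else (T ^ b0) t) * ψ (P0.eval x + G.eval t))
        * ∏ i, (T ^ b i) ((P i).eval x + (f i).eval t)
      = ∑ x : L, ∑ t : L, (((if b0 = 0 then 1 else (T ^ b0) t) * ψ (G.eval t))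
          * ψ (P0.eval x)) * ∏ i, (T ^ b i) ((P i).eval x + (f i).eval t) := by
    refine sum_congr rfl fun x _ => sum_congr rfl fun t _ => ?_
    rw [AddChar.map_add_eq_mul]
    ring
  rw [hre]
  set X := ‖∑ x : L, ∑ t : L, (((if b0 = 0 then 1 else (T ^ b0) t) * ψ (G.eval t))
          * ψ (P0.eval x)) * ∏ i, (T ^ b i) ((P i).eval x + (f i).eval t)‖ with hX
  set Q := ∏ i, ‖gaussSum (T ^ b i)⁻¹ ψ‖ with hQ
  have hX0 : 0 ≤ X := norm_nonneg _
  have hQ0 : 0 ≤ Q := prod_nonneg fun i _ => norm_nonneg _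
  have h1 : Q * X ≤ q * B := by
    refine twoW ψ ι P hP f hf P0 hP0 (fun i => T ^ b i)
      (fun i => hne (b i) (hb i).1 (hb i).2)
      (fun t => (if b0 = 0 then 1 else (T ^ b0) t) * ψ (G.eval t)) B hB0 ?_
    intro g hg
    have := hB g hg
    rw [← hBD] at this
    exact le_of_pow_le_pow_left₀ hD0 hB0 this
  have h2 : (Q * X) ^ D * lam0 ≤ q ^ (D + 1) := by
    calc (Q * X) ^ D * lam0 ≤ (q * B) ^ D * lam0 :=
          mul_le_mul_of_nonneg_right (pow_le_pow_left₀ (mul_nonneg hQ0 hX0) h1 D) hl0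
      _ = q ^ D * (Y * lam0) := by rw [mul_pow, hBD]; ring
      _ = q ^ (D + 1) := by rw [hYl, pow_succ]
  have h3 : ρ ^ (∑ i, ∑ e ∈ range F, (b i * c ^ e) % N) ≤ Q ^ N := by
    rw [← prod_pow_eq_pow_sum, hQ, ← prod_pow]
    apply prod_le_prod
    · intro i _
      exact pow_nonneg (norm_nonneg _) _
    · intro i _
      exact norm_gauss hDG hDI w ψ hψ hψc hw hF hN hF0 (b i) (hb i).2
  have hρ0 : 0 ≤ ρ := norm_nonneg _
  have h4 : q = ρ ^ F := by
    rw [hq, hF]
    push_cast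
    rw [norm_pow]
  calc X ^ (D * N) * ρ ^ (D * ∑ i, ∑ e ∈ range F, (b i * c ^ e) % N
          + ∑ e ∈ range F, (b0 * c ^ e) % N)
      = X ^ (D * N) * ((ρ ^ (∑ i, ∑ e ∈ range F, (b i * c ^ e) % N)) ^ D
          * ρ ^ (∑ e ∈ range F, (b0 * c ^ e) % N)) := by
        have h9 : ρ ^ (D * ∑ i, ∑ e ∈ range F, (b i * c ^ e) % N)
            = (ρ ^ (∑ i, ∑ e ∈ range F, (b i * c ^ e) % N)) ^ D := by
          rw [mul_comm D, pow_mul]
        rw [pow_add, h9]
    _ ≤ X ^ (D * N) * ((Q ^ N) ^ D * lam0 ^ N) := by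
        apply mul_le_mul_of_nonneg_left _ (pow_nonneg hX0 _)
        exact mul_le_mul (pow_le_pow_left₀ (pow_nonneg hρ0 _) h3 D) hlam (pow_nonneg hρ0 _)
          (pow_nonneg (pow_nonneg hQ0 _) _)
    _ = ((Q * X) ^ D * lam0) ^ N := by
        rw [mul_pow, mul_pow, mul_pow, ← pow_mul, ← pow_mul, ← pow_mul, mul_comm N D]
        ring
    _ ≤ (q ^ (D + 1)) ^ N := pow_le_pow_left₀ (mul_nonneg (pow_nonneg (mul_nonneg hQ0 hX0) _) hl0)
        h2 N
    _ = ρ ^ (F * (D + 1) * N) := by rw [h4, ← pow_mul, ← pow_mul, ← mul_assoc]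

end

/-- The sum over `(x, t) ∈ L²` of the value at `∏ (P_i(x) + f_i(t)) ^ e_i * t ^ e0` of the character
of order `N` of `L` belonging to `z ↦ μ`, times `ν ^ Tr(P_0(x) + G(t))`. -/
noncomputable def gSumW (L : Type) [Field L] [Fintype L] (R : Type) [CommRing R] {ι : Type}
    [Fintype ι] (N c : ℕ) (P : ι → L[X]) (f : ι → L[X]) (e : ι → ℕ) (e0 : ℕ) (P0 G : L[X]) (z : L)
    (μ ν : R) : R :=
  ∑ x : L, ∑ t : L, kv N z μ
    (((∏ i, ((P i).eval x + (f i).eval t) ^ e i) * t ^ e0) ^ ((Fintype.card L - 1) / N))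
    * av L R c ν (P0.eval x + G.eval t)

lemma map_gSumW {L : Type} [Field L] [Fintype L] {R R' : Type} [CommRing R] [CommRing R']
    {ι : Type} [Fintype ι] (g : R →+* R') (N c : ℕ) (P : ι → L[X]) (f : ι → L[X]) (e : ι → ℕ)
    (e0 : ℕ) (P0 G : L[X]) (z : L) (μ ν : R) :
    g (gSumW L R N c P f e e0 P0 G z μ ν) = gSumW L R' N c P f e e0 P0 G z (g μ) (g ν) := by
  unfold gSumW
  rw [map_sum]
  refine sum_congr rfl fun x _ => ?_
  rw [map_sum]
  refine sum_congr rfl fun t _ => ?_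
  rw [map_mul, map_av, map_kv g N z μ _]

theorem gSumW_eq {N c : ℕ} (hN : 2 ≤ N) (L : Type) [Field L] [Fintype L] {R : Type} [CommRing R]
    (T : MulChar L R) (hT : T ^ N = 1) {z : L} {ω : R}
    (hTz : ∀ (b : ℕ) (y : L), 1 ≤ b → T y ^ b = kv N z (ω ^ b) (y ^ ((Fintype.card L - 1) / N)))
    {ι : Type} [Fintype ι] (P : ι → L[X]) (f : ι → L[X]) (e : ι → ℕ) (he : ∀ i, e i < N) (e0 : ℕ)
    (he0 : e0 < N) {j : ℕ} (hj : j.Coprime N) (P0 G : L[X]) (ψ : AddChar L R) {ν : R}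
    (hψ : ∀ y, ψ y = av L R c ν y) :
    gSumW L R N c P f e e0 P0 G z (ω ^ j) ν
      = ∑ x : L, ∑ t : L, ((if (j * e0) % N = 0 then 1 else (T ^ ((j * e0) % N)) t)
          * ψ (P0.eval x + G.eval t))
        * ∏ i : {i // e i ≠ 0}, (T ^ ((j * e i.1) % N)) ((P i.1).eval x + (f i.1).eval t) := by
  classical
  have hj1 : 1 ≤ j := by
    rcases Nat.eq_zero_or_pos j with h | h
    · rw [h, Nat.coprime_zero_left] at hj
      omega
    · exact h
  unfold gSumW
  refine sum_congr rfl fun x _ => sum_congr rfl fun t _ => ?_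
  rw [← hTz j _ hj1, map_mul, mul_pow, map_prod, ← prod_pow, ← hψ]
  rw [prod_congr rfl fun i _ => factor T hT hj (he i) ((P i).eval x + (f i).eval t)]
  rw [factor T hT hj he0 t]
  rw [prod_ite, prod_const_one, one_mul]
  rw [← prod_subtype (univ.filter fun i => ¬ e i = 0) (p := fun i => e i ≠ 0)
    (by intro i; simp) (fun i => (T ^ ((j * e i) % N)) ((P i).eval x + (f i).eval t))]
  have hif : (if e0 = 0 then (1 : R) else (T ^ ((j * e0) % N)) t)
      = if (j * e0) % N = 0 then 1 else (T ^ ((j * e0) % N)) t := by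
    by_cases h0 : e0 = 0
    · rw [if_pos h0, if_pos (by rw [h0, mul_zero, Nat.zero_mod])]
    · rw [if_neg h0, if_neg]
      intro h
      have h1 : N ∣ j * e0 := Nat.dvd_of_mod_eq_zero h
      have h2 : N ∣ e0 := (Nat.Coprime.symm hj).dvd_of_dvd_mul_left h1
      exact absurd (Nat.le_of_dvd (Nat.pos_of_ne_zero h0) h2) (by omega)
  rw [hif]
  ring

section

variable {c : ℕ} [Fact c.Prime]

theorem g_estW {k : Type} [Field k] [CharP k c] {R : Subring (PadicAlgCl c)} {res : R →+* k}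
    (hR : IsRes c R res) {N : ℕ} (hN : 2 ≤ N) {F n : ℕ} (hF0 : 0 < F) (hn : 0 < n)
    (hNf : N ∣ c ^ F - 1)
    (L : Type) [Field L] [Fintype L] [CharP L c] (hcard : Fintype.card L = c ^ (F * n))
    (eL : L →+* k) {z : L} (hz : IsPrimitiveRoot z N) {Ω : PadicAlgCl c}
    (hΩ : IsPrimitiveRoot Ω N) (hΩz : ∃ h : Ω ∈ R, res ⟨Ω, h⟩ = eL z)
    {D : ℕ} (hD : 1 ≤ D) {ι : Type} [Fintype ι]
    (P : ι → L[X]) (hP : ∀ i, IsAdditive c (P i)) (f : ι → L[X]) (hf : ∀ i, HasWeight c D (f i))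
    (e : ι → ℕ) (he : ∀ i, e i < N) (e0 : ℕ) (he0 : e0 < N)
    {j : ℕ} (hj : j.Coprime N) (P0 : L[X]) (hP0 : IsAdditive c P0) (G : L[X])
    (hG : HasWeight c D G) {ν : PadicAlgCl c} (hν : IsPrimitiveRoot ν c)
    (hjd : D * ∑ i, ∑ s ∈ range F, (j * e i * c ^ s) % N + ∑ s ∈ range F, (j * e0 * c ^ s) % N
      < F * N) :
    ‖gSumW L (PadicAlgCl c) N c P f e e0 P0 G z (Ω ^ j) ν‖ ^ (D * N)
      ≤ ‖((Fintype.card L : ℕ) : PadicAlgCl c)‖ ^ (1 * (D * N))
        * ‖((c : ℕ) : PadicAlgCl c)‖ ^ n := by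
  classical
  have hAV : AV := Pool.Agent.W308.HG.AV.main
  have hGN : GN := Pool.Agent.W551.HD.GN.main
  have hIN : IN := Pool.Agent.W340.HD.IN.main
  have hSA : SA := Pool.Agent.W135.HB.SA.main
  have hDG : DG := Pool.Agent.W883.HB.DG.main Pool.Agent.W135.HB.SA.main
  have hDI : DI := Pool.Agent.W563.HB.DI.main
  have hAY : AY := Pool.Agent.W271.HB.AY.main
  have hGO : GO := Pool.Agent.W540.HB.GO.main
  have hTT : TT := Pool.Agent.W400.HB.TT.main
  have hc1 : 1 ≤ c := (Fact.out : c.Prime).one_lt.le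
  have hNk : (N : k) ≠ 0 := natCast_ne_zero_of_dvd hNf hF0
  obtain ⟨w, hw⟩ := hTT c k R res hR L eL
  obtain ⟨-, hprop⟩ := hAY c L
  obtain ⟨ψ, hψ, hψν⟩ := hAV c L ν hν
  obtain ⟨hψ1, hψ2⟩ := hprop ψ hψ
  have hgo := hGO c k R res hR L eL w hw ψ hψ
  have hd := dvd_card_of_root hz (by omega)
  have hTz := fun (b : ℕ) (y : L) (hb : 1 ≤ b) =>
    kvT hw (by omega) hNk hz hΩ.pow_eq_one hΩz b y hb
  set T := w ^ ((Fintype.card L - 1) / N) with hT
  have hTN : T ^ N = 1 := T_pow_card w hd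
  have hne : ∀ b, 1 ≤ b → b < N → T ^ b ≠ 1 := by
    intro b hb hbN h
    obtain ⟨y, hy0, hy⟩ := exists_pow_eq' L (by omega) hd hz.pow_eq_one
    have h1 := hTz 1 y le_rfl
    rw [pow_one, pow_one, hy] at h1
    have h2 : kv N z Ω z = Ω := by
      unfold kv
      rw [sum_eq_single 1]
      · rw [pow_one, if_pos rfl, pow_one]
      · intro i hi hi1
        rw [mem_range] at hi
        rw [if_neg]
        intro h
        apply hi1
        apply hz.pow_inj hi (by omega)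
        rw [pow_one]
        exact h.symm
      · intro h
        exact absurd (mem_range.mpr (by omega)) h
    rw [h2] at h1
    have h3 : (T ^ b) y = (1 : MulChar L (PadicAlgCl c)) y := by rw [h]
    rw [MulChar.pow_apply' T (by omega), h1, MulChar.one_apply (isUnit_iff_ne_zero.mpr hy0)] at h3
    exact hΩ.pow_ne_one_of_pos_of_lt (by omega) hbN h3
  rw [gSumW_eq hN L T hTN hTz P f e he e0 he0 hj P0 G ψ hψν]
  have hest := two_estW hGN hIN hSA hDG hDI w ψ hψ1 hψ2 hgo hcard hd (Nat.mul_pos hF0 hn) hne hD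
    {i // e i ≠ 0} (fun i => P i.1) (fun i => hP i.1) (fun i => f i.1) (fun i => hf i.1)
    (fun i => (j * e i.1) % N) (by
      intro i
      refine ⟨?_, Nat.mod_lt _ (by omega)⟩
      rw [Nat.one_le_iff_ne_zero]
      intro h
      have h1 : N ∣ j * e i.1 := Nat.dvd_of_mod_eq_zero h
      have h2 : N ∣ e i.1 := (Nat.Coprime.symm hj).dvd_of_dvd_mul_left h1
      exact absurd (Nat.le_of_dvd (Nat.pos_of_ne_zero i.2) h2) (by have := he i.1; omega))
    ((j * e0) % N) (Nat.mod_lt _ (by omega)) P0 hP0 G hG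
  -- the exponent
  have hper : ∀ b : ℕ, ∑ s ∈ range (F * n), ((j * b) % N * c ^ s) % N
      = n * ∑ s ∈ range F, (j * b * c ^ s) % N := by
    intro b
    rw [sum_period (by omega) hNf hc1]
    congr 1
    refine sum_congr rfl fun s _ => ?_
    exact (Nat.mod_modEq (j * b) N).mul_right (c ^ s)
  have h1 : ∑ i : {i // e i ≠ 0}, ∑ s ∈ range (F * n), ((j * e i.1) % N * c ^ s) % N
      = n * ∑ i, ∑ s ∈ range F, (j * e i * c ^ s) % N := by
    rw [mul_sum, sum_congr rfl fun i _ => hper (e i.1)]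
    rw [← sum_subtype (univ.filter fun i => e i ≠ 0) (p := fun i => e i ≠ 0)
      (by intro i; simp) (fun i => n * ∑ s ∈ range F, (j * e i * c ^ s) % N)]
    rw [sum_filter]
    refine sum_congr rfl fun i _ => ?_
    by_cases h : e i = 0
    · rw [h, if_neg (by simp)]
      simp
    · rw [if_pos h]
  rw [h1, hper e0] at hest
  set A := ∑ i, ∑ s ∈ range F, (j * e i * c ^ s) % N with hA
  set A0 := ∑ s ∈ range F, (j * e0 * c ^ s) % N with hA0
  set ρ := ‖((c : ℕ) : PadicAlgCl c)‖ with hρ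
  have hρ0 : 0 < ρ := by
    rw [hρ, norm_pos_iff]
    exact_mod_cast (Fact.out : c.Prime).ne_zero
  have hρ1 : ρ ≤ 1 := norm_natCast_le c
  have hcardn : ‖((Fintype.card L : ℕ) : PadicAlgCl c)‖ = ρ ^ (F * n) := by
    rw [hcard]
    push_cast
    rw [norm_pow]
  rw [hcardn, ← pow_mul ρ, ← pow_add ρ]
  have h3 : (D * (n * A) + n * A0) + (F * n * (1 * (D * N)) + n) ≤ F * n * (D + 1) * N := by
    have h4 : D * A + A0 + 1 ≤ F * N := hjd
    calc (D * (n * A) + n * A0) + (F * n * (1 * (D * N)) + n)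
        = n * (D * A + A0 + 1) + F * n * (D * N) := by ring
      _ ≤ n * (F * N) + F * n * (D * N) := Nat.add_le_add_right (Nat.mul_le_mul_left n h4) _
      _ = F * n * (D + 1) * N := by ring
  have h5 : ρ ^ (F * n * (D + 1) * N) ≤ ρ ^ (F * n * (1 * (D * N)) + n)
      * ρ ^ (D * (n * A) + n * A0) := by
    rw [← pow_add]
    apply pow_le_pow_of_le_one hρ0.le hρ1
    rw [add_comm]
    exact h3
  exact le_of_mul_le_mul_right (hest.trans h5) (pow_pos hρ0 _)

/-- **The eigenvalues.** -/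
theorem g_nonvanishW {N : ℕ} (hN : 2 ≤ N)
    (κ : Type) [Field κ] [Fintype κ] [CharP κ c] {F : ℕ} (hF : Fintype.card κ = c ^ F)
    {z : κ} (hz : IsPrimitiveRoot z N) {E : Type} [Field E] [CharZero E] [IsAlgClosed E]
    {μ : E} (hμ : IsPrimitiveRoot μ N) {ν : E} (hν : IsPrimitiveRoot ν c)
    {D : ℕ} (hD : 1 ≤ D) {ι : Type} [Fintype ι]
    (P : ι → κ[X]) (hP : ∀ i, IsAdditive c (P i)) (f : ι → κ[X]) (hf : ∀ i, HasWeight c D (f i))
    (e : ι → ℕ) (he : ∀ i, e i < N) (e0 : ℕ) (he0 : e0 < N)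
    {j : ℕ} (hj : j.Coprime N) (P0 : κ[X]) (hP0 : IsAdditive c P0) (G : κ[X])
    (hG : HasWeight c D G)
    (hjd : D * ∑ i, ∑ s ∈ range F, (j * e i * c ^ s) % N + ∑ s ∈ range F, (j * e0 * c ^ s) % N
      < F * N) (A : Multiset E)
    (hA : ∀ (L : Type) [Field L] [Fintype L] [Algebra κ L],
      (A.map fun x => x ^ Module.finrank κ L).sum
        = gSumW L E N c (fun i => (P i).map (algebraMap κ L)) (fun i => (f i).map (algebraMap κ L))
          e e0 (P0.map (algebraMap κ L)) (G.map (algebraMap κ L)) (algebraMap κ L z) μ ν)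
    (x : E) (hx : x ∈ A) (M : ℕ) (hM : 0 < M) :
    x ^ M ≠ (Fintype.card κ : E) ^ M := by
  classical
  intro hxM
  have hF0 : 0 < F := by
    rcases Nat.eq_zero_or_pos F with h | h
    · rw [h, pow_zero] at hF
      have := Fintype.one_lt_card (α := κ)
      omega
    · exact h
  have hNf : N ∣ c ^ F - 1 := by
    rw [← hF]
    exact dvd_card_of_root hz (by omega)
  have hq : (Fintype.card κ : E) ≠ 0 := by exact_mod_cast Fintype.card_ne_zero
  have hx0 : x ≠ 0 := by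
    rintro rfl
    rw [zero_pow hM.ne'] at hxM
    exact pow_ne_zero M hq hxM.symm
  set B : Multiset E := A.filter (· ≠ 0) with hB
  have hBsum : ∀ n, 1 ≤ n → ∑ y ∈ B.toFinset, ((B.count y : ℕ) : E) * y ^ n
      = (A.map fun x => x ^ n).sum := by
    intro n hn
    have h1 : (B.map fun y => y ^ n).sum = ∑ y ∈ B.toFinset, ((B.count y : ℕ) : E) * y ^ n := by
      rw [Finset.sum_multiset_map_count]
      exact sum_congr rfl fun y _ => by rw [nsmul_eq_mul]
    rw [← h1, hB]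
    have h3 : ∀ A' : Multiset E, ((A'.filter (· ≠ 0)).map (fun x => x ^ n)).sum
        = (A'.map fun x => x ^ n).sum := by
      intro A'
      induction A' using Multiset.induction_on with
      | empty => simp
      | cons y A' ih =>
        rw [Multiset.map_cons, Multiset.sum_cons, ← ih]
        by_cases hy : y = 0
        · rw [Multiset.filter_cons_of_neg (p := fun x : E => x ≠ 0) A' (fun h => h hy), hy,
            zero_pow (by omega), zero_add]
        · rw [Multiset.filter_cons_of_pos (p := fun x : E => x ≠ 0) A' hy, Multiset.map_cons,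
            Multiset.sum_cons]
    exact h3 A
  refine coreA hN κ hF 1 (D * N) (Nat.mul_pos (by omega) (by omega)) hj hz hμ hν
    (fun L _ _ _ R _ ω ω' => gSumW L R N c (fun i => (P i).map (algebraMap κ L))
      (fun i => (f i).map (algebraMap κ L)) e e0 (P0.map (algebraMap κ L))
      (G.map (algebraMap κ L)) (algebraMap κ L z) ω ω')
    (fun L _ _ _ R R' _ _ g y y' => map_gSumW g N c _ _ e e0 _ _ _ y y') ?_ B.toFinset
    (fun y => B.count y) ?_ ?_ x ?_ M hM ?_
  · intro k _ _ R res hR n hn L _ _ _ _ hcard eL Ω hΩ hΩz ν' hν'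
    exact g_estW hR hN hF0 hn hNf L hcard eL
      (hz.map_of_injective (algebraMap κ L).injective) hΩ hΩz hD _ (fun i => (hP i).map _) _
      (fun i => (hf i).map _) e he e0 he0 hj _ (hP0.map _) _ (hG.map _) hν' hjd
  · intro y hy
    rw [Multiset.mem_toFinset] at hy
    refine ⟨?_, Multiset.count_pos.mpr hy⟩
    rw [hB, Multiset.mem_filter] at hy
    exact hy.2
  · intro L _ _ _
    have hL : 1 ≤ Module.finrank κ L := by
      have : Module.Finite κ L := .of_finite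
      exact Module.finrank_pos
    rw [hBsum _ hL, hA L]
  · rw [Multiset.mem_toFinset, hB, Multiset.mem_filter]
    exact ⟨hx, hx0⟩
  · rw [hxM, pow_one]

end

end Pool.Agent.J4.H42.Wt
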