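import Pool.Agent.J4.H42.WtB
import Pool.Agent.W410.HG.PS
import Pool.Agent.W528.HC.MU
import Pool.Agent.W924.HC.PR

/-!
# Additive polynomials and weights: numbers of points
-/

set_option autoImplicit false

namespace Pool.Agent.J4.H42.Wt

open Finset Polynomial Pool.Agent.W528.HA Pool.Agent.W528.HC Pool.Agent.W528.HG
  Pool.Agent.W125.HC.PC Pool.Agent.W410.HG.PS

/-- The sum over `(x, t) ∈ L²` of the value at `∏ (P_i(x) + f_i(t)) ^ (r (j a_i mod p)) * t ^ (p s)`
of the character of order `p r` of `L` belonging to `z ↦ μ`, times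
`ν ^ Tr(∑ λ_l (B_l(x) + g_l(t)))`. -/
noncomputable def wtSum (L : Type) [Field L] [Fintype L] (R : Type) [CommRing R] (p r c : ℕ)
    {m h : ℕ} (P f : Fin m → L[X]) (a : Fin m → ℕ) (B g : Fin h → L[X]) (z : L) (μ ν : R) (j s : ℕ)
    (lam : Fin h → Fin c) : R :=
  ∑ x : L, ∑ t : L, kv (p * r) z μ
    (((∏ i, ((P i).eval x + (f i).eval t) ^ (r * (j * a i % p))) * t ^ (p * s))
      ^ ((Fintype.card L - 1) / (p * r)))
    * av L R c ν (∑ l, ((lam l : ℕ) : L) * ((B l).eval x + (g l).eval t))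

/-- The number of points `((x, u, y), w)` over `L` of the affine surface
`y ^ p = ∏ (P_i(x) + f_i(u ^ r)) ^ a_i`, `w_l ^ c - w_l = B_l(x) + g_l(u ^ r)` for all `l`. -/
noncomputable def wtPoints (L : Type) [Field L] (p r c : ℕ) {m h : ℕ} (P f : Fin m → L[X])
    (a : Fin m → ℕ) (B g : Fin h → L[X]) : ℕ :=
  Set.ncard {v : (L × L × L) × (Fin h → L) |
    v.1.2.2 ^ p = ∏ i, ((P i).eval v.1.1 + (f i).eval (v.1.2.1 ^ r)) ^ a i ∧
    ∀ l, v.2 l ^ c - v.2 l = (B l).eval v.1.1 + (g l).eval (v.1.2.1 ^ r)}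

/-- The number of points `((x, u), w)` over `L` of the affine surface
`w_l ^ c - w_l = B_l(x) + g_l(u ^ r)`. -/
noncomputable def wtQuot (L : Type) [Field L] (r c : ℕ) {h : ℕ} (B g : Fin h → L[X]) : ℕ :=
  Set.ncard {v : (L × L) × (Fin h → L) |
    ∀ l, v.2 l ^ c - v.2 l = (B l).eval v.1.1 + (g l).eval (v.1.2 ^ r)}

section

variable {L : Type} [Field L] [Fintype L]

theorem quot_eq [DecidableEq L] (E : Type) [Field E] (r c : ℕ) {h : ℕ} (B g : Fin h → L[X]) :
    ((wtQuot L r c B g : ℕ) : E) = ∑ x : L, ∑ u : L,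
      ∏ l, ((univ.filter (fun w : L => w ^ c - w = (B l).eval x + (g l).eval (u ^ r))).card : E) := by
  classical
  unfold wtQuot
  have h1 : {v : (L × L) × (Fin h → L) |
      ∀ l, v.2 l ^ c - v.2 l = (B l).eval v.1.1 + (g l).eval (v.1.2 ^ r)} =
      ((univ.filter (fun v : (L × L) × (Fin h → L) =>
        ∀ l, v.2 l ^ c - v.2 l = (B l).eval v.1.1 + (g l).eval (v.1.2 ^ r)) :
        Finset ((L × L) × (Fin h → L))) : Set ((L × L) × (Fin h → L))) := by
    ext y; simp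
  rw [h1, Set.ncard_coe_finset, card_filter, Fintype.sum_prod_type, Fintype.sum_prod_type]
  push_cast
  exact sum_congr rfl fun x _ => sum_congr rfl fun u _ =>
    card_as L E c h (fun l => (B l).eval x + (g l).eval (u ^ r))

theorem wpoints_eq [DecidableEq L] (E : Type) [Field E] (p r c : ℕ) {m h : ℕ}
    (P f : Fin m → L[X]) (a : Fin m → ℕ) (B g : Fin h → L[X]) :
    ((wtPoints L p r c P f a B g : ℕ) : E) =
      ∑ x : L, ∑ u : L,
        ((Set.ncard {y : L | y ^ p = ∏ i, ((P i).eval x + (f i).eval (u ^ r)) ^ a i} : ℕ) : E) *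
        ∏ l, ((univ.filter (fun w : L => w ^ c - w = (B l).eval x + (g l).eval (u ^ r))).card : E)
      := by
  classical
  unfold wtPoints
  have h1 : {v : (L × L × L) × (Fin h → L) |
      v.1.2.2 ^ p = ∏ i, ((P i).eval v.1.1 + (f i).eval (v.1.2.1 ^ r)) ^ a i ∧
      ∀ l, v.2 l ^ c - v.2 l = (B l).eval v.1.1 + (g l).eval (v.1.2.1 ^ r)} =
      ((univ.filter (fun v : (L × L × L) × (Fin h → L) =>
        v.1.2.2 ^ p = ∏ i, ((P i).eval v.1.1 + (f i).eval (v.1.2.1 ^ r)) ^ a i ∧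
        ∀ l, v.2 l ^ c - v.2 l = (B l).eval v.1.1 + (g l).eval (v.1.2.1 ^ r)) :
        Finset ((L × L × L) × (Fin h → L))) : Set ((L × L × L) × (Fin h → L))) := by
    ext y; simp
  rw [h1, Set.ncard_coe_finset, card_filter, Fintype.sum_prod_type, Fintype.sum_prod_type]
  push_cast
  refine sum_congr rfl fun x _ => ?_
  rw [Fintype.sum_prod_type]
  refine sum_congr rfl fun u _ => ?_
  rw [ncard_eq, sum_mul]
  refine sum_congr rfl fun y _ => ?_
  rw [← card_as L E c h (fun l => (B l).eval x + (g l).eval (u ^ r)), mul_sum]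
  refine sum_congr rfl fun w _ => ?_
  by_cases hy : y ^ p = ∏ i, ((P i).eval x + (f i).eval (u ^ r)) ^ a i
  · by_cases hw : ∀ l, w l ^ c - w l = (B l).eval x + (g l).eval (u ^ r)
    · rw [if_pos ⟨hy, hw⟩, if_pos hy, if_pos hw, mul_one]
    · rw [if_neg (fun hh => hw hh.2), if_neg hw, mul_zero]
  · rw [if_neg (fun hh => hy hh.1), if_neg hy, zero_mul]

/-- **The sum of all character sums.** -/
theorem wt_total {c : ℕ} [Fact c.Prime] [CharP L c] {p r : ℕ} {z : L} (hp : p.Prime) (hr : 0 < r)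
    (hz : IsPrimitiveRoot z (p * r)) {E : Type} [Field E] [CharZero E] {μ ν : E}
    (hμ : IsPrimitiveRoot μ (p * r)) (hν : IsPrimitiveRoot ν c) {m h : ℕ} (P f : Fin m → L[X])
    (a : Fin m → ℕ) (ha : ∀ i, 0 < a i ∧ a i < p) (B g : Fin h → L[X]) :
    ∑ j ∈ Ico 1 p, ∑ s ∈ range r, ∑ lam : Fin h → Fin c,
        wtSum L E p r c P f a B g z μ ν j s lam
      = (wtPoints L p r c P f a B g : E) - (wtQuot L r c B g : E) := by
  classical
  have hN : 0 < p * r := Nat.mul_pos hp.pos hr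
  have hN2 : 2 ≤ p * r := by
    calc 2 ≤ p := hp.two_le
      _ = p * 1 := (mul_one p).symm
      _ ≤ p * r := Nat.mul_le_mul_left p hr
  have hPR : PR := Pool.Agent.W924.HC.PR.main
  have hmu := mu_main L (p * r) z hN2 hz E μ hμ.pow_eq_one
  obtain ⟨F, hF⟩ : ∃ F : L → L → L, F = fun x t => ∏ i, ((P i).eval x + (f i).eval t) ^ a i :=
    ⟨_, rfl⟩
  have h1 : ∀ j ∈ Ico 1 p, ∀ s : ℕ, ∀ x t : L, kv (p * r) z μ
      (((∏ i, ((P i).eval x + (f i).eval t) ^ (r * (j * a i % p))) * t ^ (p * s))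
        ^ ((Fintype.card L - 1) / (p * r))) =
      kv (p * r) z μ ((F x t ^ (r * j)) ^ ((Fintype.card L - 1) / (p * r))) *
        kv (p * r) z μ ((t ^ (p * s)) ^ ((Fintype.card L - 1) / (p * r))) := by
    intro j hj s x t
    rw [mem_Ico] at hj
    rw [hmu]
    congr 2
    rw [hF]
    simp only
    rw [← prod_pow, ← prod_pow, ← prod_pow]
    refine prod_congr rfl fun i _ => ?_
    have hnd : ¬ p ∣ j * a i := by
      intro hd
      rcases (Nat.Prime.dvd_mul hp).1 hd with h | h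
      · have := Nat.le_of_dvd (by omega) h
        omega
      · have := Nat.le_of_dvd (ha i).1 h
        have := (ha i).2
        omega
    rw [pow_mod hp.pos hr hz hnd, ← pow_mul ((P i).eval x + (f i).eval t) (a i)]
    congr 2
    ring
  have h2 : ∀ v : L, ∑ j ∈ Ico 1 p,
      kv (p * r) z μ ((v ^ (r * j)) ^ ((Fintype.card L - 1) / (p * r))) =
      ((Set.ncard {y : L | y ^ p = v} : ℕ) : E) - 1 := by
    intro v
    have := hPR L (p * r) p r z rfl hz hp.pos hr E μ hμ v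
    rw [this]; ring
  have h3 : ∀ v : L, ∑ s ∈ range r,
      kv (p * r) z μ ((v ^ (p * s)) ^ ((Fintype.card L - 1) / (p * r))) =
      ((Set.ncard {y : L | y ^ r = v} : ℕ) : E) := by
    intro v
    have := hPR L (p * r) r p z (mul_comm p r) hz hr hp.pos E μ hμ v
    rw [this, range_eq_Ico, sum_eq_sum_Ico_succ_bot hr]
    congr 1
    rw [mul_zero, pow_zero, one_pow, kv_one hN hz]
  obtain ⟨A, hA⟩ : ∃ A : L → L → ℕ → E, A = fun x t j =>
      kv (p * r) z μ ((F x t ^ (r * j)) ^ ((Fintype.card L - 1) / (p * r))) := ⟨_, rfl⟩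
  obtain ⟨Q, hQ⟩ : ∃ Q : L → ℕ → E, Q = fun t s =>
      kv (p * r) z μ ((t ^ (p * s)) ^ ((Fintype.card L - 1) / (p * r))) := ⟨_, rfl⟩
  obtain ⟨W, hW⟩ : ∃ W : L → L → E, W = fun x t =>
      ∏ l, ((univ.filter (fun w : L => w ^ c - w = (B l).eval x + (g l).eval t)).card : E) :=
    ⟨_, rfl⟩
  have h2' : ∀ x t : L, (∑ j ∈ Ico 1 p, A x t j) =
      ((Set.ncard {y : L | y ^ p = F x t} : ℕ) : E) - 1 := by
    intro x t
    rw [hA]
    exact h2 (F x t)
  have h3' : ∀ t : L, (∑ s ∈ range r, Q t s) = ((Set.ncard {y : L | y ^ r = t} : ℕ) : E) := by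
    intro t
    rw [hQ]
    exact h3 t
  have hlam : ∀ x t : L, ∑ lam : Fin h → Fin c,
      av L E c ν (∑ l, ((lam l : ℕ) : L) * ((B l).eval x + (g l).eval t)) = W x t := by
    intro x t
    rw [hW]
    exact as_sum L E c ν hν h (fun l => (B l).eval x + (g l).eval t)
  have e1 : (∑ j ∈ Ico 1 p, ∑ s ∈ range r, ∑ lam : Fin h → Fin c,
      wtSum L E p r c P f a B g z μ ν j s lam) =
      ∑ j ∈ Ico 1 p, ∑ s ∈ range r, ∑ x : L, ∑ t : L, A x t j * (Q t s * W x t) := by
    refine sum_congr rfl fun j hj => sum_congr rfl fun s _ => ?_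
    unfold wtSum
    rw [sum_comm]
    refine sum_congr rfl fun x _ => ?_
    rw [sum_comm]
    refine sum_congr rfl fun t _ => ?_
    rw [← mul_sum, hlam x t, h1 j hj s x t, hA, hQ, mul_assoc]
  have e2 : (∑ j ∈ Ico 1 p, ∑ s ∈ range r, ∑ x : L, ∑ t : L, A x t j * (Q t s * W x t)) =
      ∑ x : L, ∑ t : L, (∑ j ∈ Ico 1 p, A x t j) * ((∑ s ∈ range r, Q t s) * W x t) := by
    have e1 : ∀ j, ∑ s ∈ range r, ∑ x : L, ∑ t : L, A x t j * (Q t s * W x t)
        = ∑ x : L, ∑ t : L, A x t j * ((∑ s ∈ range r, Q t s) * W x t) := by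
      intro j
      rw [sum_comm]
      refine sum_congr rfl fun x _ => ?_
      rw [sum_comm]
      refine sum_congr rfl fun t _ => ?_
      rw [sum_mul, mul_sum]
    simp only [e1]
    rw [sum_comm]
    refine sum_congr rfl fun x _ => ?_
    rw [sum_comm]
    exact sum_congr rfl fun t _ => (sum_mul _ _ _).symm
  have e4 : (∑ x : L, ∑ t : L, (∑ j ∈ Ico 1 p, A x t j) * ((∑ s ∈ range r, Q t s) * W x t)) =
      ∑ x : L, ∑ u : L, (((Set.ncard {y : L | y ^ p = F x (u ^ r)} : ℕ) : E) - 1) *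
        W x (u ^ r) := by
    refine sum_congr rfl fun x _ => ?_
    have e5 : ∀ t : L, (∑ j ∈ Ico 1 p, A x t j) * ((∑ s ∈ range r, Q t s) * W x t) =
        ∑ u : L, (((Set.ncard {y : L | y ^ p = F x t} : ℕ) : E) - 1) * W x t *
          (if u ^ r = t then 1 else 0) := by
      intro t
      rw [h2', h3', ncard_eq (fun u : L => u ^ r = t), ← mul_sum]
      ring
    rw [sum_congr rfl fun t _ => e5 t, sum_comm]
    refine sum_congr rfl fun u _ => ?_
    rw [sum_eq_single_of_mem (u ^ r) (mem_univ _)]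
    · rw [if_pos rfl, mul_one]
    · intro t _ ht
      rw [if_neg (fun h => ht h.symm), mul_zero]
  refine e1.trans (e2.trans (e4.trans ?_))
  rw [wpoints_eq, quot_eq]
  simp only [hF, hW, sub_mul, sum_sub_distrib, one_mul]

end

end Pool.Agent.J4.H42.Wt
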